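import Mathlib
import Pool.Agent.P.MP_3acc10_al.Defs

-- part Pool.Agent.P.MP_3acc10_al.Gen
section

set_option autoImplicit false

namespace Pool.Agent.P.MP_3acc10_al

open MvPolynomial Module

variable {K : Type*} [Field K]

/-- holds on a nonempty principal Zariski open set -/
def Gen {τ : Type*} (Φ : (τ → K) → Prop) : Prop :=
  ∃ P : MvPolynomial τ K, P ≠ 0 ∧ ∀ c, eval c P ≠ 0 → Φ c

section
variable {τ : Type*} {Φ Ψ : (τ → K) → Prop}

lemma Gen.mono (h : Gen Φ) (hi : ∀ c, Φ c → Ψ c) : Gen Ψ := by
  obtain ⟨P, hP, h⟩ := h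
  exact ⟨P, hP, fun c hc => hi c (h c hc)⟩

lemma Gen.and (h : Gen Φ) (h' : Gen Ψ) : Gen fun c => Φ c ∧ Ψ c := by
  obtain ⟨P, hP, h⟩ := h
  obtain ⟨Q, hQ, h'⟩ := h'
  refine ⟨P * Q, mul_ne_zero hP hQ, fun c hc => ?_⟩
  rw [map_mul] at hc
  exact ⟨h c (left_ne_zero_of_mul hc), h' c (right_ne_zero_of_mul hc)⟩

lemma Gen.of_forall (h : ∀ c, Φ c) : Gen Φ := ⟨1, one_ne_zero, fun c _ => h c⟩

lemma Gen.all {α : Type*} (s : Finset α) {Θ : α → (τ → K) → Prop} (h : ∀ a ∈ s, Gen (Θ a)) :
    Gen fun c => ∀ a ∈ s, Θ a c := by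
  classical
  induction s using Finset.induction_on with
  | empty => exact Gen.of_forall (by simp)
  | insert a s _ ih =>
    refine ((h a (by simp)).and (ih fun b hb => h b (by simp [hb]))).mono ?_
    rintro c ⟨h1, h2⟩ b hb
    rcases Finset.mem_insert.1 hb with rfl | hb
    · exact h1
    · exact h2 b hb

lemma Gen.exists [Infinite K] (h : Gen Φ) : ∃ c, Φ c := by
  obtain ⟨P, hP, h⟩ := h
  by_contra hc
  push Not at hc
  apply hP
  apply MvPolynomial.funext
  intro x
  by_contra hx
  exact hc x (h x (by simpa using hx))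

lemma gen_coord (s : τ) : Gen fun c : τ → K => c s ≠ 0 :=
  ⟨X s, X_ne_zero s, fun c hc => by simpa using hc⟩

end

lemma gen_det {τ : Type*} [Fintype τ] {C : Type*} [AddCommGroup C] [Module K C]
    [FiniteDimensional K C] (M : (τ → K) →ₗ[K] (C →ₗ[K] C)) (c0 : τ → K)
    (h0 : M c0 = LinearMap.id) : Gen fun c => Function.Injective (M c) := by
  classical
  let b := Module.finBasis K C
  let PM : Matrix (Fin (finrank K C)) (Fin (finrank K C)) (MvPolynomial τ K) :=
    fun a a' => ∑ s, X s * MvPolynomial.C (LinearMap.toMatrix b b (M (Pi.single s 1)) a a')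
  have key : ∀ c, eval c PM.det = (LinearMap.toMatrix b b (M c)).det := by
    intro c
    rw [RingHom.map_det]
    congr 1
    ext a a'
    have : c = ∑ s, c s • Pi.single s (1 : K) := by
      ext t; simp [Finset.sum_apply, Pi.single_apply]
    conv_rhs => rw [this]
    rw [RingHom.mapMatrix_apply, Matrix.map_apply]
    simp [PM, map_sum, Matrix.sum_apply]
  refine ⟨PM.det, fun h => ?_, fun c hc => ?_⟩
  · have := key c0
    rw [h, h0] at this
    simp at this
  · rw [key, LinearMap.det_toMatrix] at hc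
    exact (LinearMap.ker_eq_bot).1 (by
      by_contra hk
      exact hc (LinearMap.det_eq_zero_iff_ker_ne_bot.2 hk))

lemma gen_ker {τ : Type*} [Fintype τ] {V V' : Type*} [AddCommGroup V] [Module K V]
    [AddCommGroup V'] [Module K V'] [FiniteDimensional K V]
    (L : (τ → K) →ₗ[K] (V →ₗ[K] V')) (U : Submodule K V) (m : ℕ) (c0 : τ → K)
    (h : finrank K ↥(U ⊓ LinearMap.ker (L c0)) ≤ m) :
    Gen fun c => finrank K ↥(U ⊓ LinearMap.ker (L c)) ≤ m := by
  set Z := U ⊓ LinearMap.ker (L c0) with hZ
  obtain ⟨Q, hQ⟩ := Submodule.exists_isCompl Z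
  set C := U ⊓ Q with hC
  have hZC : Z ⊓ C = ⊥ := by
    rw [eq_bot_iff, ← hQ.inf_eq_bot]
    exact inf_le_inf_left _ inf_le_right
  have hsup : Z ⊔ C = U := by
    rw [hC, inf_comm, ← sup_inf_assoc_of_le _ (show Z ≤ U from inf_le_left), hQ.sup_eq_top,
      top_inf_eq]
  have hd : finrank K U = finrank K Z + finrank K C := by
    have := Submodule.finrank_sup_add_finrank_inf_eq Z C
    rw [hZC, hsup] at this
    simpa using this
  have hinj : LinearMap.ker ((L c0).domRestrict C) = ⊥ := by
    rw [eq_bot_iff]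
    rintro ⟨x, hx⟩ hx0
    have : x ∈ Z ⊓ C := ⟨⟨hx.1, by simpa using hx0⟩, hx⟩
    rw [hZC] at this
    simpa using this
  obtain ⟨p, hp⟩ := LinearMap.exists_leftInverse_of_injective _ hinj
  let M : (τ → K) →ₗ[K] (C →ₗ[K] C) :=
    { toFun := fun c => p ∘ₗ (L c).domRestrict C
      map_add' := fun c c' => by ext x; simp
      map_smul' := fun a c => by ext x; simp }
  refine (gen_det M c0 hp).mono fun c hc => ?_
  have h1 : (U ⊓ LinearMap.ker (L c)) ⊓ C = ⊥ := by
    rw [eq_bot_iff]
    rintro x ⟨⟨_, hx0⟩, hx⟩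
    have : M c ⟨x, hx⟩ = M c 0 := by
      have : L c x = 0 := hx0
      simp [M, this]
    simpa using hc this
  have h2 := Submodule.finrank_sup_add_finrank_inf_eq (U ⊓ LinearMap.ker (L c)) C
  rw [h1] at h2
  have h3 : finrank K ↥((U ⊓ LinearMap.ker (L c)) ⊔ C) ≤ finrank K U :=
    Submodule.finrank_mono (sup_le inf_le_left inf_le_left)
  simp only [finrank_bot, add_zero] at h2
  omega

/-- a space detected by finitely many maps into smaller spaces -/
lemma finrank_le_sum {V V' α : Type*} [AddCommGroup V] [Module K V] [AddCommGroup V']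
    [Module K V'] [FiniteDimensional K V'] (W : Submodule K V) (s : Finset α)
    (φ : α → V →ₗ[K] V') (W' : α → Submodule K V') (h : ∀ a ∈ s, ∀ x ∈ W, φ a x ∈ W' a)
    (hinj : ∀ x ∈ W, (∀ a ∈ s, φ a x = 0) → x = 0) :
    finrank K W ≤ ∑ a ∈ s, finrank K (W' a) := by
  classical
  let Φ : W →ₗ[K] (∀ a : s, W' a) :=
    LinearMap.pi fun a => ((φ a).domRestrict W).codRestrict (W' a) fun x => h a a.2 x x.2
  have hi : Function.Injective Φ := by
    rw [← LinearMap.ker_eq_bot, eq_bot_iff]
    rintro ⟨x, hx⟩ h0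
    have : x = 0 := hinj x hx fun a ha => by
      exact congrArg Subtype.val (congrFun (show Φ ⟨x, hx⟩ = 0 from h0) ⟨a, ha⟩)
    exact (Submodule.mem_bot K).2 (Subtype.ext this)
  have := LinearMap.finrank_le_finrank_of_injective hi
  rw [Module.finrank_pi_fintype] at this
  rw [← Finset.sum_coe_sort s]
  exact this

end Pool.Agent.P.MP_3acc10_al
end

-- part Pool.Agent.P.MP_3acc10_al.Act
section

set_option autoImplicit false

namespace Pool.Agent.P.MP_3acc10_al

open Module Finset

variable {K : Type*} [Field K] {σ ι : Type*} [Fintype σ] [DecidableEq σ]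

/-- contraction of a functional on the square-free algebra by an element of that algebra -/
def act (g F : Finset σ → K) : Finset σ → K :=
  fun T => ∑ Y : Finset σ, if Disjoint Y T then g Y * F (Y ∪ T) else 0

def actL : (Finset σ → K) →ₗ[K] (Finset σ → K) →ₗ[K] (Finset σ → K) :=
  LinearMap.mk₂ K act
    (fun g g' F => by
      ext T; simp only [act, Pi.add_apply, ← sum_add_distrib]
      refine sum_congr rfl fun Y _ => ?_
      split_ifs <;> ring)
    (fun a g F => by
      ext T; simp only [act, Pi.smul_apply, smul_eq_mul, mul_sum]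
      refine sum_congr rfl fun Y _ => ?_
      split_ifs <;> ring)
    (fun g F F' => by
      ext T; simp only [act, Pi.add_apply, ← sum_add_distrib]
      refine sum_congr rfl fun Y _ => ?_
      split_ifs <;> ring)
    (fun a g F => by
      ext T; simp only [act, Pi.smul_apply, smul_eq_mul, mul_sum]
      refine sum_congr rfl fun Y _ => ?_
      split_ifs <;> ring)

@[simp] lemma actL_apply (g F : Finset σ → K) : actL g F = act g F := rfl

lemma act_zero (g : Finset σ → K) : act g 0 = 0 := map_zero (actL g)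

lemma act_comm (g g' F : Finset σ → K) : act g (act g' F) = act g' (act g F) := by
  ext T
  have key : ∀ g g' : Finset σ → K, act g (act g' F) T = ∑ Y : Finset σ, ∑ Z : Finset σ,
      if Disjoint Y T ∧ Disjoint Z T ∧ Disjoint Y Z then g Y * g' Z * F (Y ∪ Z ∪ T) else 0 := by
    intro g g'
    simp only [act]
    refine sum_congr rfl fun Y _ => ?_
    by_cases h : Disjoint Y T
    · rw [if_pos h, mul_sum]
      refine sum_congr rfl fun Z _ => ?_
      have e : Z ∪ (Y ∪ T) = Y ∪ Z ∪ T := by rw [← union_assoc, union_comm Z Y]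
      by_cases h1 : Disjoint Z T <;> by_cases h2 : Disjoint Y Z <;>
        simp [h, h1, h2, e, disjoint_union_right, disjoint_comm (a := Z) (b := Y), mul_assoc]
    · simp [h]
  rw [key, key, sum_comm]
  refine sum_congr rfl fun Y _ => sum_congr rfl fun Z _ => ?_
  rw [union_comm Z Y, mul_comm (g' Y)]
  congr 1
  simp only [eq_iff_iff, disjoint_comm (a := Z) (b := Y)]
  tauto

lemma act_single (S : Finset σ) (F : Finset σ → K) (T : Finset σ) :
    act (Pi.single S 1) F T = if Disjoint S T then F (S ∪ T) else 0 := by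
  rw [act, sum_eq_single S]
  · simp
  · intro Y _ hY; simp [hY]
  · simp

/-- multiplication by a variable -/
def mulX (x : σ) (h : Finset σ → K) : Finset σ → K :=
  fun Y => if x ∈ Y then h (Y.erase x) else 0

lemma act_mulX (x : σ) (h F : Finset σ → K) :
    act (mulX x h) F = act h (act (Pi.single {x} 1) F) := by
  rw [act_comm]
  ext T
  rw [act_single]
  by_cases hx : x ∈ T
  · rw [if_neg (by simpa using hx), act]
    refine sum_eq_zero fun Y _ => ?_
    split_ifs with hd
    · rw [mulX, if_neg (fun hY => disjoint_left.1 hd hY hx), zero_mul]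
    · rfl
  · rw [if_pos (by simpa using hx), act, act]
    rw [← sum_filter_add_sum_filter_not univ (fun Y : Finset σ => x ∈ Y),
      ← sum_filter_add_sum_filter_not univ (fun Y : Finset σ => x ∈ Y)
        (fun Y => if Disjoint Y ({x} ∪ T) then h Y * F (Y ∪ ({x} ∪ T)) else 0)]
    have h1 : ∑ Y ∈ univ.filter (fun Y : Finset σ => ¬ x ∈ Y),
        (if Disjoint Y T then mulX x h Y * F (Y ∪ T) else 0) = 0 :=
      sum_eq_zero fun Y hY => by simp [mulX, (mem_filter.1 hY).2]
    have h2 : ∑ Y ∈ univ.filter (fun Y : Finset σ => x ∈ Y),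
        (if Disjoint Y ({x} ∪ T) then h Y * F (Y ∪ ({x} ∪ T)) else 0) = 0 :=
      sum_eq_zero fun Y hY => by simp [(mem_filter.1 hY).2]
    rw [h1, h2, add_zero, zero_add]
    refine sum_bij' (fun Y _ => Y.erase x) (fun Y _ => insert x Y) (by simp) (by simp)
      (fun Y hY => insert_erase (mem_filter.1 hY).2)
      (fun Y hY => erase_insert (mem_filter.1 hY).2) fun Y hY => ?_
    have hY := (mem_filter.1 hY).2
    have e : Y.erase x ∪ ({x} ∪ T) = Y ∪ T := by
      ext y; by_cases hy : y = x <;> simp [hy, hY]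
    have e' : Disjoint (Y.erase x) ({x} ∪ T) ↔ Disjoint Y T := by
      simp only [disjoint_left, mem_erase, mem_union, mem_singleton]
      constructor
      · intro h y hy hyT
        exact h ⟨fun e => hx (e ▸ hyT), hy⟩ (Or.inr hyT)
      · rintro h y ⟨hy, hy'⟩ (h1 | h1)
        · exact hy h1
        · exact h hy' h1
    simp only [e, e', mulX, if_pos hY]

/-- functions supported on a family of sets -/
def Supp (K : Type*) [Field K] (𝓤 : Finset σ → Prop) : Submodule K (Finset σ → K) where
  carrier := {F | ∀ X, ¬ 𝓤 X → F X = 0}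
  add_mem' := fun h h' X hX => by simp [h X hX, h' X hX]
  zero_mem' := fun _ _ => rfl
  smul_mem' := fun a F h X hX => by simp [h X hX]

omit [DecidableEq σ] in
lemma finrank_Supp (𝓤 : Finset σ → Prop) [DecidablePred 𝓤] :
    finrank K (Supp K 𝓤) ≤ (univ.filter 𝓤).card := by
  have := finrank_le_sum (Supp K 𝓤) (univ.filter 𝓤) (fun X => LinearMap.proj X) (fun _ => ⊤)
    (by simp) (fun F hF h => by
      ext X
      by_cases hX : 𝓤 X
      · exact h X (by simpa using hX)
      · exact hF X hX)
  simpa using this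

/-- the inverse system -/
def W (𝓤 : Finset σ → Prop) (A : Finset ι) (G : ι → Finset σ → K) :
    Submodule K (Finset σ → K) where
  carrier := {F | (∀ X, ¬ 𝓤 X → F X = 0) ∧ ∀ i ∈ A, act (G i) F = 0}
  add_mem' := fun {F F'} h h' => ⟨fun X hX => by simp [h.1 X hX, h'.1 X hX], fun i hi => by
    have := map_add (actL (G i)) F F'
    simp only [actL_apply] at this
    rw [this, h.2 i hi, h'.2 i hi, add_zero]⟩
  zero_mem' := ⟨fun _ _ => rfl, fun i _ => act_zero _⟩
  smul_mem' := fun a F h => ⟨fun X hX => by simp [h.1 X hX], fun i hi => by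
    have := map_smul (actL (G i)) a F
    simp only [actL_apply] at this
    rw [this, h.2 i hi, smul_zero]⟩

lemma mem_W {𝓤 : Finset σ → Prop} {A : Finset ι} {G : ι → Finset σ → K} {F : Finset σ → K} :
    F ∈ W 𝓤 A G ↔ (∀ X, ¬ 𝓤 X → F X = 0) ∧ ∀ i ∈ A, act (G i) F = 0 := Iff.rfl

lemma W_le_Supp (𝓤 : Finset σ → Prop) (A : Finset ι) (G : ι → Finset σ → K) :
    W 𝓤 A G ≤ Supp K 𝓤 := fun _ h => h.1

lemma W_anti (𝓤 : Finset σ → Prop) {A A' : Finset ι} (h : A ⊆ A') (G : ι → Finset σ → K) :
    W 𝓤 A' G ≤ W 𝓤 A G := fun _ hF => ⟨hF.1, fun i hi => hF.2 i (h hi)⟩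

lemma W_congr (𝓤 : Finset σ → Prop) {A : Finset ι} {G G' : ι → Finset σ → K}
    (h : ∀ i ∈ A, G i = G' i) : W 𝓤 A G = W 𝓤 A G' := by
  ext F
  simp only [mem_W]
  exact and_congr_right fun _ => forall₂_congr fun i hi => by rw [h i hi]

open Classical in
/-- keep only the coefficients on a prescribed family -/
noncomputable def mask (𝓨 : ι → Finset σ → Prop) (c : ι × Finset σ → K) :
    ι → Finset σ → K := fun i Y => if 𝓨 i Y then c (i, Y) else 0

lemma gen_W [Fintype ι] (𝓤 : Finset σ → Prop) (A : Finset ι) (𝓨 : ι → Finset σ → Prop) (m : ℕ)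
    (c0 : ι × Finset σ → K) (h : finrank K (W 𝓤 A (mask 𝓨 c0)) ≤ m) :
    Gen fun c : ι × Finset σ → K => finrank K (W 𝓤 A (mask 𝓨 c)) ≤ m := by
  let L : (ι × Finset σ → K) →ₗ[K] ((Finset σ → K) →ₗ[K] (A → Finset σ → K)) :=
    { toFun := fun c => LinearMap.pi fun i => actL (mask 𝓨 c i)
      map_add' := fun c c' => by
        refine LinearMap.ext fun F => funext fun i => ?_
        have : mask 𝓨 (c + c') i = mask 𝓨 c i + mask 𝓨 c' i := by
          ext Y; simp only [mask, Pi.add_apply]; split_ifs <;> simp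
        simp [this]
      map_smul' := fun a c => by
        refine LinearMap.ext fun F => funext fun i => ?_
        have : mask 𝓨 (a • c) i = a • mask 𝓨 c i := by
          ext Y; simp only [mask, Pi.smul_apply]; split_ifs <;> simp
        simp [this] }
  have e : ∀ c, W 𝓤 A (mask 𝓨 c) = Supp K 𝓤 ⊓ LinearMap.ker (L c) := by
    intro c
    ext F
    simp only [mem_W, Submodule.mem_inf, LinearMap.mem_ker]
    refine and_congr Iff.rfl ⟨fun h => funext fun i => h i i.2, fun h i hi => congrFun h ⟨i, hi⟩⟩
  rw [e] at h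
  exact (gen_ker L _ m c0 h).mono fun c hc => by rw [e]; exact hc

end Pool.Agent.P.MP_3acc10_al
end

-- part Pool.Agent.P.MP_3acc10_al.Indep
section

set_option autoImplicit false

namespace Pool.Agent.P.MP_3acc10_al

open Finset

variable {B ι : Type*} [DecidableEq B] [DecidableEq ι]

def op (S : Finset B) (P : Finset B → ℤ) : Finset B → ℤ :=
  fun U => P U - if S ⊆ U then P (U \ S) else 0

lemma sub_sdiff_iff {S S' U : Finset B} : (S ⊆ U ∧ S' ⊆ U \ S) ↔ (S' ⊆ U ∧ S ⊆ U \ S') := by
  simp only [subset_sdiff, disjoint_comm (a := S)]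
  tauto

instance : LeftCommutative (op (B := B)) := ⟨fun S S' P => by
  ext U
  have e : (U \ S) \ S' = (U \ S') \ S := sdiff_sdiff_comm
  have := @sub_sdiff_iff B _ S S' U
  simp only [op]
  by_cases h1 : S ⊆ U <;> by_cases h2 : S' ⊆ U <;> by_cases h3 : S' ⊆ U \ S <;>
    by_cases h4 : S ⊆ U \ S' <;> simp_all <;> ring⟩

/-- the (scaled) independence polynomial of the intersection graph at negative weights -/
def Ind (N : ℕ) (supp : ι → Finset B) (A : Finset ι) : Finset B → ℤ :=
  (A.val.map supp).foldr op fun U => (N : ℤ) ^ U.card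

variable {N : ℕ} {supp : ι → Finset B}

omit [DecidableEq ι] in
@[simp] lemma Ind_empty (U : Finset B) : Ind N supp ∅ U = (N : ℤ) ^ U.card := rfl

lemma Ind_insert {A : Finset ι} {i : ι} (hi : i ∉ A) (U : Finset B) :
    Ind N supp (insert i A) U =
      Ind N supp A U - if supp i ⊆ U then Ind N supp A (U \ supp i) else 0 := by
  rw [Ind, insert_val_of_notMem hi, Multiset.map_cons, Multiset.foldr_cons]
  rfl

omit [DecidableEq ι] in
lemma Ind_congr {supp' : ι → Finset B} {A : Finset ι} (h : ∀ i ∈ A, supp i = supp' i) :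
    Ind N supp A = Ind N supp' A := by
  rw [Ind, Ind, Multiset.map_congr rfl h]

lemma Ind_filter (p : ι → Prop) [DecidablePred p] (A : Finset ι) (U0 : Finset B)
    (h : ∀ i ∈ A, ¬ p i → ¬ supp i ⊆ U0) :
    ∀ U ⊆ U0, Ind N supp (A.filter p) U = Ind N supp A U := by
  induction A using Finset.induction_on with
  | empty => simp
  | insert i A hi ih =>
    intro U hU
    have ih := ih fun l hl => h l (by simp [hl])
    rw [filter_insert, Ind_insert hi]
    split_ifs with h1 h2 h2
    · rw [Ind_insert (by simp [hi]), if_pos h2, ih U hU, ih _ (sdiff_subset.trans hU)]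
    · rw [Ind_insert (by simp [hi]), if_neg h2, ih U hU]
    · exact absurd (h2.trans hU) (h i (by simp) h1)
    · rw [ih U hU, sub_zero]

lemma Ind_rec (b : B) (A : Finset ι) : ∀ U : Finset B, b ∈ U →
    Ind N supp A U = N * Ind N supp A (U.erase b) -
      ∑ i ∈ A, if b ∈ supp i ∧ supp i ⊆ U then Ind N supp A (U \ supp i) else 0 := by
  induction A using Finset.induction_on with
  | empty =>
    intro U hU
    simp only [Ind_empty, sum_empty, sub_zero]
    rw [← card_erase_add_one hU, pow_succ']
  | insert i A hi ih =>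
    intro U hU
    rw [sum_insert hi]
    simp only [Ind_insert hi]
    by_cases hb : b ∈ supp i
    · have h1 : ¬ supp i ⊆ U.erase b := fun h => by simpa using h hb
      have h2 : ¬ supp i ⊆ U \ supp i := fun h => by simpa [hb] using h hb
      have h3 : ∑ l ∈ A, (if b ∈ supp l ∧ supp l ⊆ U then Ind N supp A (U \ supp l) -
          (if supp i ⊆ U \ supp l then Ind N supp A ((U \ supp l) \ supp i) else 0) else 0) =
          ∑ l ∈ A, if b ∈ supp l ∧ supp l ⊆ U then Ind N supp A (U \ supp l) else 0 := by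
        refine sum_congr rfl fun l _ => ?_
        split_ifs with h4 h5
        · exact absurd (mem_sdiff.1 (h5 hb)).2 (by simpa using h4.1)
        · simp
        · rfl
      rw [h3, ih U hU, if_neg h1, if_neg h2]
      simp only [hb, true_and]
      ring_nf
    · rw [if_neg (show ¬ (b ∈ supp i ∧ supp i ⊆ U) from fun h => hb h.1), zero_add]
      by_cases hS : supp i ⊆ U
      · have h1 : supp i ⊆ U.erase b := fun y hy =>
          mem_erase.2 ⟨fun e => hb (e ▸ hy), hS hy⟩
        have h2 : (U \ supp i).erase b = U.erase b \ supp i := by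
          ext y; simp only [mem_erase, mem_sdiff]; tauto
        rw [if_pos hS, if_pos h1, ih U hU, ih (U \ supp i) (mem_sdiff.2 ⟨hU, hb⟩), h2]
        have h3 : ∑ l ∈ A, (if b ∈ supp l ∧ supp l ⊆ U then Ind N supp A (U \ supp l) -
            (if supp i ⊆ U \ supp l then Ind N supp A ((U \ supp l) \ supp i) else 0) else 0) =
            (∑ l ∈ A, if b ∈ supp l ∧ supp l ⊆ U then Ind N supp A (U \ supp l) else 0) -
            ∑ l ∈ A, if b ∈ supp l ∧ supp l ⊆ U \ supp i then
              Ind N supp A ((U \ supp i) \ supp l) else 0 := by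
          rw [← sum_sub_distrib]
          refine sum_congr rfl fun l _ => ?_
          have e : (U \ supp l) \ supp i = (U \ supp i) \ supp l := sdiff_sdiff_comm
          have := @sub_sdiff_iff B _ (supp i) (supp l) U
          by_cases h4 : b ∈ supp l <;> by_cases h5 : supp l ⊆ U <;>
            by_cases h6 : supp i ⊆ U \ supp l <;> by_cases h7 : supp l ⊆ U \ supp i <;> simp_all
        rw [h3]; ring
      · have h1 : ¬ supp i ⊆ U.erase b := fun h => hS (h.trans (erase_subset _ _))
        have h3 : ∀ l, ¬ supp i ⊆ U \ supp l := fun l h => hS (h.trans sdiff_subset)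
        simp only [if_neg hS, if_neg h1, if_neg (h3 _), sub_zero]
        exact ih U hU

lemma Ind_union (A T : Finset ι) (hd : Disjoint T A) (S : Finset B) (hS : S.Nonempty)
    (h : ∀ i ∈ T, supp i = S) : ∀ U, Ind N supp (T ∪ A) U =
      Ind N supp A U - if S ⊆ U then T.card * Ind N supp A (U \ S) else 0 := by
  induction T using Finset.induction_on with
  | empty => simp
  | insert i T hi ih =>
    intro U
    rw [disjoint_insert_left] at hd
    have ih := ih hd.2 fun l hl => h l (by simp [hl])
    have h2 : ¬ S ⊆ U \ S := fun h => by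
      obtain ⟨y, hy⟩ := hS
      simpa [hy] using h hy
    rw [insert_union, Ind_insert (by simp [hi, hd.1]), h i (by simp), ih, ih, if_neg h2,
      card_insert_of_notMem hi]
    split_ifs
    · push_cast; ring
    · simp

lemma Ind_of_empty_supp {A : Finset ι} {i : ι} (hi : i ∈ A) (h : supp i = ∅) (U : Finset B) :
    Ind N supp A U = 0 := by
  rw [← insert_erase hi, Ind_insert (notMem_erase _ _), h]
  simp

lemma Ind_at_empty {A : Finset ι} (h : ∀ i ∈ A, supp i ≠ ∅) : Ind N supp A ∅ = 1 := by
  rw [← Ind_filter (fun _ => False) A ∅ (fun i hi _ => by simpa using h i hi) ∅ Subset.rfl]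
  simp

lemma Ind_le_pow (A : Finset ι) : ∀ (k : ℕ) (U : Finset B), U.card = k →
    (∀ U' ⊆ U, 0 < Ind N supp A U') → Ind N supp A U ≤ (N : ℤ) ^ k := by
  intro k
  induction k with
  | zero =>
    intro U hU hpos
    rw [card_eq_zero] at hU
    subst hU
    by_cases h : ∀ i ∈ A, supp i ≠ ∅
    · simp [Ind_at_empty h]
    · push Not at h
      obtain ⟨i, hi, h⟩ := h
      simp [Ind_of_empty_supp hi h]
  | succ k ih =>
    intro U hU hpos
    obtain ⟨b, hb⟩ : U.Nonempty := card_pos.1 (by omega)
    have h1 := ih (U.erase b) (by rw [card_erase_of_mem hb]; omega)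
      fun U' h => hpos U' (h.trans (erase_subset _ _))
    have h2 : 0 ≤ ∑ i ∈ A, if b ∈ supp i ∧ supp i ⊆ U then Ind N supp A (U \ supp i) else 0 :=
      sum_nonneg fun i _ => by
        split_ifs
        · exact (hpos _ sdiff_subset).le
        · rfl
    rw [Ind_rec b A U hb, pow_succ']
    have : (N : ℤ) * Ind N supp A (U.erase b) ≤ N * N ^ k :=
      mul_le_mul_of_nonneg_left h1 (by positivity)
    linarith

open Classical in
/-- Shearer's bound -/
noncomputable def Sh (N : ℕ) (supp : ι → Finset B) (A : Finset ι) (J : Finset B) : ℤ :=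
  if ∀ U ⊆ J, 0 < Ind N supp A U then Ind N supp A J else 0

omit [DecidableEq ι] in
lemma Sh_nonneg (A : Finset ι) (J : Finset B) : 0 ≤ Sh N supp A J := by
  rw [Sh]; split_ifs with h
  · exact (h J Subset.rfl).le
  · rfl

omit [DecidableEq ι] in
lemma Sh_le_max (A : Finset ι) (J : Finset B) : Sh N supp A J ≤ max (Ind N supp A J) 0 := by
  rw [Sh]; split_ifs <;> simp

omit [DecidableEq ι] in
lemma Sh_eq_zero {A : Finset ι} {J U : Finset B} (hU : U ⊆ J) (h : Ind N supp A U ≤ 0) :
    Sh N supp A J = 0 := by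
  rw [Sh, if_neg fun h' => absurd (h' U hU) (not_lt.2 h)]

/-- greedy distribution of forms among variables -/
lemma exists_assign {σ : Type*} [DecidableEq σ] (𝒮 : Finset (Finset B)) (k : Finset B → ℕ)
    (hk : ∀ S ∈ 𝒮, 0 < k S) (Xs : Finset σ) : ∀ A : Finset ι, ∃ T : σ → Finset ι,
      (∀ x ∈ Xs, T x ⊆ A) ∧ (∀ x ∈ Xs, ∀ y ∈ Xs, x ≠ y → Disjoint (T x) (T y)) ∧
      (∀ x ∈ Xs, T x = ∅ ∨ ∃ S ∈ 𝒮, (T x).card = k S ∧ ∀ i ∈ T x, supp i = S) ∧
      (Xs.filter fun x => T x = ∅).card ≤
        Xs.card - ∑ S ∈ 𝒮, (A.filter fun i => supp i = S).card / k S := by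
  induction Xs using Finset.induction_on with
  | empty => intro A; exact ⟨fun _ => ∅, by simp⟩
  | insert x Xs hx ih =>
    intro A
    by_cases h : ∃ S ∈ 𝒮, k S ≤ (A.filter fun i => supp i = S).card
    · obtain ⟨S, hS, hle⟩ := h
      obtain ⟨T0, hT0, hc⟩ := exists_subset_card_eq hle
      obtain ⟨T, h1, h2, h3, h4⟩ := ih (A \ T0)
      have hne : ∀ y ∈ Xs, Function.update T x T0 y = T y := fun y hy =>
        Function.update_of_ne (fun e : y = x => hx (e ▸ hy)) _ _
      have hT0A : T0 ⊆ A := hT0.trans (filter_subset _ _)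
      have hdis : ∀ y ∈ Xs, Disjoint T0 (T y) := fun y hy =>
        disjoint_sdiff.mono_right (h1 y hy)
      refine ⟨Function.update T x T0, ?_, ?_, ?_, ?_⟩
      · intro y hy
        rcases mem_insert.1 hy with rfl | hy
        · simpa using hT0A
        · rw [hne y hy]; exact (h1 y hy).trans sdiff_subset
      · intro y hy z hz hyz
        rcases mem_insert.1 hy with hy' | hy' <;> rcases mem_insert.1 hz with hz' | hz'
        · exact absurd (hy'.trans hz'.symm) hyz
        · rw [hne z hz', hy', Function.update_self]; exact hdis z hz'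
        · rw [hne y hy', hz', Function.update_self]; exact (hdis y hy').symm
        · rw [hne y hy', hne z hz']; exact h2 y hy' z hz' hyz
      · intro y hy
        rcases mem_insert.1 hy with rfl | hy
        · right
          rw [Function.update_self]
          exact ⟨S, hS, hc, fun i hi => (mem_filter.1 (hT0 hi)).2⟩
        · rw [hne y hy]; exact h3 y hy
      · have hT0ne : T0 ≠ ∅ := by
          rw [← card_eq_zero.ne, hc]; exact (hk S hS).ne'
        rw [filter_insert, Function.update_self, if_neg hT0ne,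
          filter_congr (q := fun y => T y = ∅) fun y hy => by rw [hne y hy],
          card_insert_of_notMem hx]
        have e : ∑ S' ∈ 𝒮, (A.filter fun i => supp i = S').card / k S' =
            ∑ S' ∈ 𝒮, ((A \ T0).filter fun i => supp i = S').card / k S' + 1 := by
          rw [← add_sum_erase _ _ hS, ← add_sum_erase _ _ hS, add_right_comm]
          congr 1
          · have : (A \ T0).filter (fun i => supp i = S) = A.filter (fun i => supp i = S) \ T0 := by
              ext i; simp only [mem_filter, mem_sdiff]; tauto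
            rw [this, card_sdiff_of_subset hT0, hc, Nat.div_eq_sub_div (hk S hS) hle]
          · refine sum_congr rfl fun S' hS' => ?_
            congr 2
            ext i
            simp only [mem_filter, mem_sdiff]
            refine ⟨fun h => ⟨⟨h.1, fun hi => ?_⟩, h.2⟩, fun h => ⟨h.1.1, h.2⟩⟩
            exact (mem_erase.1 hS').1 (h.2.symm.trans (mem_filter.1 (hT0 hi)).2)
        omega
    · push Not at h
      refine ⟨fun _ => ∅, by simp, by simp, by simp, ?_⟩
      rw [sum_eq_zero fun S hS => Nat.div_eq_of_lt (h S hS)]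
      simp

end Pool.Agent.P.MP_3acc10_al
end

-- part Pool.Agent.P.MP_3acc10_al.ML
section

set_option autoImplicit false

namespace Pool.Agent.P.MP_3acc10_al

open Module Finset

variable {K : Type*} [Field K] {σ ι B : Type*} [Fintype σ] [DecidableEq σ] [DecidableEq B]
  [Fintype ι] [DecidableEq ι]

/-- `X` has exactly one variable in each block of `J` and no other variable -/
def tr (β : σ → B) (J : Finset B) (X : Finset σ) : Prop := Set.InjOn β X ∧ X.image β = J

variable {β : σ → B}

omit [Fintype σ] [DecidableEq σ] in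
lemma tr.card {J : Finset B} {X : Finset σ} (h : tr β J X) : X.card = J.card := by
  rw [← h.2, card_image_of_injOn h.1]

omit [Fintype σ] [DecidableEq σ] in
lemma tr_empty {X : Finset σ} : tr β ∅ X ↔ X = ∅ := by
  simp only [tr, image_eq_empty]
  exact ⟨fun h => h.2, fun h => ⟨by simp [h], h⟩⟩

omit [Fintype σ] in
lemma tr_erase {S : Finset B} {Y : Finset σ} {x : σ} (hx : x ∈ Y) (hb : β x ∈ S) :
    tr β S Y ↔ tr β (S.erase (β x)) (Y.erase x) := by
  constructor
  · rintro ⟨h1, h2⟩
    refine ⟨h1.mono (by simp), ?_⟩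
    ext b
    simp only [← h2, mem_image, mem_erase]
    constructor
    · rintro ⟨y, ⟨hy, hy'⟩, rfl⟩
      exact ⟨fun e => hy (h1 hy' hx e), y, hy', rfl⟩
    · rintro ⟨hne, y, hy, rfl⟩
      exact ⟨y, ⟨fun e => hne (e ▸ rfl), hy⟩, rfl⟩
  · rintro ⟨h1, h2⟩
    have h3 : ∀ y ∈ Y, y ≠ x → β y ≠ β x := fun y hy hne e => by
      have : β y ∈ S.erase (β x) := h2 ▸ mem_image_of_mem β (mem_erase.2 ⟨hne, hy⟩)
      exact (mem_erase.1 this).1 e
    refine ⟨fun y hy z hz e => ?_, ?_⟩
    · by_cases h4 : y = x <;> by_cases h5 : z = x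
      · rw [h4, h5]
      · exact absurd (h4 ▸ e.symm) (h3 z hz h5)
      · exact absurd (h5 ▸ e) (h3 y hy h4)
      · exact h1 (by simpa using ⟨hy, h4⟩) (by simpa using ⟨hz, h5⟩) e
    · rw [← insert_erase hx, image_insert, h2, insert_erase hb]

omit [Fintype σ] in
lemma tr_union {J S : Finset B} {Y T : Finset σ} (hY : tr β S Y) (hd : Disjoint Y T) :
    tr β J (Y ∪ T) ↔ S ⊆ J ∧ tr β (J \ S) T := by
  constructor
  · rintro ⟨h1, h2⟩
    refine ⟨?_, h1.mono (by simp), ?_⟩
    · rw [← h2, ← hY.2]; exact image_subset_image subset_union_left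
    · ext b
      simp only [← h2, ← hY.2, mem_image, mem_sdiff, mem_union]
      constructor
      · rintro ⟨y, hy, rfl⟩
        refine ⟨⟨y, Or.inr hy, rfl⟩, ?_⟩
        rintro ⟨z, hz, e⟩
        have : z = y := h1 (by simp [hz]) (by simp [hy]) e
        exact disjoint_left.1 hd hz (this ▸ hy)
      · rintro ⟨⟨y, hy | hy, rfl⟩, h⟩
        · exact absurd ⟨y, hy, rfl⟩ h
        · exact ⟨y, hy, rfl⟩
  · rintro ⟨hS, h1, h2⟩
    have h3 : ∀ y ∈ Y, ∀ z ∈ T, β y ≠ β z := fun y hy z hz e => by
      have a : β y ∈ S := hY.2 ▸ mem_image_of_mem β hy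
      have b : β z ∈ J \ S := h2 ▸ mem_image_of_mem β hz
      exact (mem_sdiff.1 b).2 (e ▸ a)
    refine ⟨fun y hy z hz e => ?_, ?_⟩
    · rcases mem_union.1 (mem_coe.1 hy) with hy | hy <;>
        rcases mem_union.1 (mem_coe.1 hz) with hz | hz
      · exact hY.1 hy hz e
      · exact absurd e (h3 y hy z hz)
      · exact absurd e.symm (h3 z hz y hy)
      · exact h1 hy hz e
    · rw [image_union, hY.2, h2, union_sdiff_of_subset hS]

omit [DecidableEq ι] in
lemma gen_WZ (𝓤 : Finset σ → Prop) (A : Finset ι) (𝓨 : ι → Finset σ → Prop) (z : ℤ)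
    (h : ∃ c0 : ι × Finset σ → K, (finrank K (W 𝓤 A (mask 𝓨 c0)) : ℤ) ≤ z) :
    Gen fun c : ι × Finset σ → K => (finrank K (W 𝓤 A (mask 𝓨 c)) : ℤ) ≤ z := by
  obtain ⟨c0, h⟩ := h
  exact (gen_W 𝓤 A 𝓨 _ c0 le_rfl).mono fun c hc => (Int.ofNat_le.2 hc).trans h

/-- multilinear instance -/
noncomputable abbrev WM (β : σ → B) (J : Finset B) (supp : ι → Finset B) (A : Finset ι)
    (c : ι × Finset σ → K) : Submodule K (Finset σ → K) :=
  W (tr β J) A (mask (fun i => tr β (supp i)) c)

lemma split [Infinite K] (J : Finset B) (supp : ι → Finset B) (A : Finset ι) {b : B} (hb : b ∈ J)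
    (T : σ → Finset ι) (z : σ → ℤ)
    (h1 : ∀ x ∈ univ.filter (β · = b), T x ⊆ A.filter fun i => b ∈ supp i)
    (h2 : ∀ x ∈ univ.filter (β · = b), ∀ y ∈ univ.filter (β · = b), x ≠ y →
      Disjoint (T x) (T y))
    (h3 : ∀ x ∈ univ.filter (β · = b), Gen fun c : ι × Finset σ → K =>
      (finrank K (WM β (J.erase b) (fun i => (supp i).erase b)
        (T x ∪ A.filter fun i => b ∉ supp i) c) : ℤ) ≤ z x) :
    Gen fun c : ι × Finset σ → K =>
      (finrank K (WM β J supp A c) : ℤ) ≤ ∑ x ∈ univ.filter (β · = b), z x := by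
  classical
  obtain ⟨h, hh⟩ := (Gen.all _ h3).exists
  let g : ι × Finset σ → K := fun p =>
    if hx : ∃ x ∈ univ.filter (β · = b), p.1 ∈ T x then
      mulX hx.choose (fun Y => h (p.1, Y)) p.2 else h p
  refine gen_WZ _ _ _ _ ⟨g, le_trans ?_ (sum_le_sum hh)⟩
  rw [← Nat.cast_sum, Int.ofNat_le]
  refine finrank_le_sum _ _ (fun x => actL (Pi.single {x} 1)) _ ?_ ?_
  · intro x hx F hF
    have hxb : β x = b := (mem_filter.1 hx).2
    refine ⟨fun X hX => ?_, fun i hi => ?_⟩
    · rw [actL_apply, act_single]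
      split_ifs with hd
      · refine hF.1 _ fun ht => hX ?_
        have hxX : x ∉ X := by simpa using hd
        have := (tr_erase (show x ∈ {x} ∪ X by simp) (hxb ▸ hb)).1 ht
        rwa [hxb, ← insert_eq, erase_insert hxX] at this
      · rfl
    · rw [actL_apply]
      rcases mem_union.1 hi with hi | hi
      · have hi' := mem_filter.1 (h1 x hx hi)
        rw [← act_mulX, ← hF.2 i hi'.1]
        congr 1
        ext Y
        have hex : ∃ x ∈ univ.filter (β · = b), i ∈ T x := ⟨x, hx, hi⟩
        have hch : hex.choose = x := by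
          by_contra hne
          exact disjoint_left.1 (h2 _ hex.choose_spec.1 x hx hne) hex.choose_spec.2 hi
        simp only [mask, g, dif_pos hex, hch, mulX]
        by_cases hY : x ∈ Y
        · simp only [if_pos hY, tr_erase hY (hxb ▸ hi'.2), hxb]
        · simp [hY]
      · have hi' := mem_filter.1 hi
        have hex : ¬ ∃ x ∈ univ.filter (β · = b), i ∈ T x := by
          rintro ⟨y, hy, hiy⟩
          exact hi'.2 (mem_filter.1 (h1 y hy hiy)).2
        have e : mask (fun i => tr β ((supp i).erase b)) h i = mask (fun i => tr β (supp i)) g i := by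
          ext Y
          simp only [mask, g, dif_neg hex, erase_eq_of_notMem hi'.2]
        rw [e, act_comm, hF.2 i hi'.1, act_zero]
  · intro F hF h0
    ext X
    by_cases hX : tr β J X
    · obtain ⟨x, hx, hxb⟩ := mem_image.1 (hX.2 ▸ hb : b ∈ X.image β)
      have := congrFun (h0 x (by simpa using hxb)) (X.erase x)
      rw [actL_apply, act_single, if_pos (by simp), ← insert_eq, insert_erase hx] at this
      exact this
    · exact hF.1 X hX

lemma loss {c0 cS : ℤ} {r N : ℕ} (h0 : 0 < c0) (hS : 0 < cS)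
    (hq : r / ((c0 + cS - 1) / cS).toNat ≤ N) :
    r * cS ≤ (r / ((c0 + cS - 1) / cS).toNat : ℕ) * c0 + (N * cS + c0) := by
  set k := ((c0 + cS - 1) / cS).toNat with hk
  have hk0 : (k : ℤ) = (c0 + cS - 1) / cS :=
    Int.toNat_of_nonneg (Int.ediv_nonneg (by omega) hS.le)
  have h1 : (k : ℤ) * cS ≤ c0 + cS - 1 := hk0 ▸ Int.ediv_mul_le _ hS.ne'
  have hk1 : 1 ≤ (k : ℤ) := by
    rw [hk0]; exact Int.le_ediv_of_mul_le hS (by omega)
  have h2 : (r : ℤ) = k * (r / k : ℕ) + (r % k : ℕ) := by exact_mod_cast (Nat.div_add_mod r k).symm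
  have h3 : ((r % k : ℕ) : ℤ) + 1 ≤ k := by
    exact_mod_cast Nat.mod_lt r (by exact_mod_cast hk1 : 0 < k)
  have hq' : ((r / k : ℕ) : ℤ) ≤ N := by exact_mod_cast hq
  have hq0 : (0 : ℤ) ≤ (r / k : ℕ) := by positivity
  generalize ((r / k : ℕ) : ℤ) = q at *
  generalize ((r % k : ℕ) : ℤ) = ρ at *
  rw [h2]
  have a1 : q * (k * cS) ≤ q * (c0 + cS) := mul_le_mul_of_nonneg_left (by omega) hq0
  have a2 : ρ * cS ≤ (k - 1) * cS := mul_le_mul_of_nonneg_right (by omega) hS.le
  have a3 : q * cS ≤ N * cS := mul_le_mul_of_nonneg_right hq' hS.le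
  nlinarith

lemma ceil_mul {c0 cS : ℤ} (h0 : 0 < c0) (hS : 0 < cS) :
    c0 ≤ (((c0 + cS - 1) / cS).toNat : ℤ) * cS ∧ 0 < ((c0 + cS - 1) / cS).toNat := by
  have hk0 : (((c0 + cS - 1) / cS).toNat : ℤ) = (c0 + cS - 1) / cS :=
    Int.toNat_of_nonneg (Int.ediv_nonneg (by omega) hS.le)
  have hk1 : 1 ≤ (c0 + cS - 1) / cS := Int.le_ediv_of_mul_le hS (by omega)
  refine ⟨?_, by omega⟩
  rw [hk0]
  have := Int.lt_ediv_add_one_mul_self (c0 + cS - 1) hS
  nlinarith

theorem gen_WM [Infinite K] (N : ℕ) (hN : 1 ≤ N) : ∀ (j : ℕ) (J : Finset B), J.card = j →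
    (∀ b ∈ J, (univ.filter (β · = b)).card = N) → ∀ (supp : ι → Finset B) (A : Finset ι),
    Gen fun c : ι × Finset σ → K =>
      (finrank K (WM β J supp A c) : ℤ) ≤ Sh N supp A J + j * 2 ^ (j + 1) * N ^ (j - 1) := by
  intro j
  induction j with
  | zero =>
    intro J hJ _ supp A
    rw [card_eq_zero] at hJ
    subst hJ
    by_cases h : ∀ i ∈ A, supp i ≠ ∅
    · refine Gen.of_forall fun c => ?_
      have h1 : Sh N supp A ∅ = 1 := by
        rw [Sh, if_pos, Ind_at_empty h]
        intro U hU
        rw [subset_empty.1 hU, Ind_at_empty h]; exact one_pos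
      classical
      have h2 := (Submodule.finrank_mono (W_le_Supp (tr β ∅) A
        (mask (fun i => tr β (supp i)) c))).trans (finrank_Supp _)
      have h3 : (univ.filter (tr β (∅ : Finset B))).card ≤ 1 :=
        card_le_one.2 fun X hX Y hY => by
          rw [tr_empty.1 (mem_filter.1 hX).2, tr_empty.1 (mem_filter.1 hY).2]
      rw [h1]
      simp only [Nat.cast_zero, zero_mul, add_zero]
      exact_mod_cast h2.trans h3
    · push Not at h
      obtain ⟨i, hi, h⟩ := h
      refine (gen_coord (i, ∅)).mono fun c hc => ?_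
      have : WM β ∅ supp A c = ⊥ := by
        rw [eq_bot_iff]
        intro F hF
        rw [Submodule.mem_bot]
        ext X
        have := congrFun (hF.2 i hi) X
        rw [act, sum_eq_single ∅ (fun Y _ hY => by simp [mask, h, tr_empty, hY]) (by simp)] at this
        simpa [mask, h, tr_empty, hc] using this
      rw [this]
      simpa using Sh_nonneg A ∅
  | succ j ih =>
    intro J hJ hβ supp A
    have hE : (N : ℤ) * (j * 2 ^ (j + 1) * N ^ (j - 1)) ≤ j * 2 ^ (j + 1) * N ^ j := by
      rcases j with _ | j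
      · simp
      · rw [Nat.add_sub_cancel, pow_succ (N : ℤ) j]; apply le_of_eq; ring
    have ih' : ∀ b ∈ J, ∀ A' : Finset ι, Gen fun c : ι × Finset σ → K =>
        (finrank K (WM β (J.erase b) (fun i => (supp i).erase b) A' c) : ℤ) ≤
          Sh N (fun i => (supp i).erase b) A' (J.erase b) + j * 2 ^ (j + 1) * N ^ (j - 1) :=
      fun b hb A' => ih _ (by rw [card_erase_of_mem hb]; omega)
        (fun b' hb' => hβ b' (mem_of_mem_erase hb')) _ _
    have hI0 : ∀ b, ∀ U ⊆ J.erase b, Ind N (fun i => (supp i).erase b)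
        (A.filter fun i => b ∉ supp i) U = Ind N supp A U := by
      intro b U hU
      rw [Ind_congr (supp' := supp) fun i hi => erase_eq_of_notMem (mem_filter.1 hi).2]
      refine Ind_filter _ A (J.erase b) (fun i _ hi h => ?_) U hU
      simpa using h (not_not.1 hi)
    have hpw : (0 : ℤ) ≤ 2 ^ (j + 1) * N ^ j := by positivity
    simp only [Nat.add_sub_cancel]
    by_cases hA : ∀ U ⊂ J, 0 < Ind N supp A U
    swap
    · push Not at hA
      obtain ⟨U, hU, hA⟩ := hA
      obtain ⟨b, hb, hbU⟩ := exists_of_ssubset hU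
      have hU' : U ⊆ J.erase b := fun y hy => mem_erase.2 ⟨fun e => hbU (e ▸ hy), hU.1 hy⟩
      refine (split (β := β) J supp A hb (fun _ => ∅) (fun _ => j * 2 ^ (j + 1) * N ^ (j - 1))
        (by simp) (by simp) fun x _ => (ih' b hb (∅ ∪ A.filter fun i => b ∉ supp i)).mono
          fun c hc => ?_).mono fun c hc => ?_
      · rwa [Sh_eq_zero hU' (by rw [empty_union, hI0 b U hU']; exact hA), zero_add] at hc
      · rw [sum_const, hβ b hb, nsmul_eq_mul] at hc
        have := Sh_nonneg (N := N) (supp := supp) A J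
        push_cast
        rw [pow_succ (2 : ℤ) (j + 1)]
        have h5 : (0 : ℤ) ≤ j * 2 ^ (j + 1) * N ^ j := by positivity
        nlinarith
    obtain ⟨b, hb⟩ : J.Nonempty := card_pos.1 (by omega)
    set c0 := Ind N supp A (J.erase b) with hc0
    have hc0p : 0 < c0 := hA _ (erase_ssubset hb)
    let 𝒮 := J.powerset.filter (b ∈ ·)
    have hss : ∀ S ∈ 𝒮, J \ S ⊆ J.erase b := fun S hS y hy =>
      mem_erase.2 ⟨fun e => (mem_sdiff.1 hy).2 (e ▸ (mem_filter.1 hS).2), (mem_sdiff.1 hy).1⟩
    have hcS : ∀ S ∈ 𝒮, 0 < Ind N supp A (J \ S) := fun S hS =>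
      hA _ (Finset.ssubset_of_subset_of_ssubset (hss S hS) (erase_ssubset hb))
    let k : Finset B → ℕ := fun S => ((c0 + Ind N supp A (J \ S) - 1) / Ind N supp A (J \ S)).toNat
    obtain ⟨T, h1, h2, h3, h4⟩ := exists_assign (supp := supp) 𝒮 k
      (fun S hS => (ceil_mul hc0p (hcS S hS)).2) (univ.filter (β · = b)) A
    refine (split J supp A hb T
      (fun x => (if T x = ∅ then c0 else 0) + j * 2 ^ (j + 1) * N ^ (j - 1)) ?_ h2
      fun x hx => (ih' b hb _).mono fun c hc => hc.trans ?_).mono fun c hc => hc.trans ?_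
    · intro x hx i hi
      refine mem_filter.2 ⟨h1 x hx hi, ?_⟩
      rcases h3 x hx with h | ⟨S, hS, -, h⟩
      · simp [h] at hi
      · rw [h i hi]; exact (mem_filter.1 hS).2
    · refine add_le_add_left ?_ _
      split_ifs with hT
      · rw [hT, empty_union]
        refine (Sh_le_max _ _).trans ?_
        rw [hI0 b _ Subset.rfl]
        exact max_le le_rfl hc0p.le
      · obtain ⟨S, hS, hcard, h⟩ := (h3 x hx).resolve_left hT
        refine le_of_eq (Sh_eq_zero Subset.rfl ?_)
        have hbS := (mem_filter.1 hS).2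
        have hSJ := mem_powerset.1 (mem_filter.1 hS).1
        by_cases hS' : S.erase b = ∅
        · obtain ⟨i, hi⟩ := nonempty_iff_ne_empty.2 hT
          exact le_of_eq (Ind_of_empty_supp (mem_union_left _ hi) (by simp only [h i hi, hS']) _)
        · rw [Ind_union _ _ _ (S.erase b) (nonempty_iff_ne_empty.2 hS')
            (fun i hi => by simp only [h i hi]), if_pos (erase_subset_erase _ hSJ),
            hI0 b _ Subset.rfl, hI0 b _ sdiff_subset, hcard]
          · have e : J.erase b \ S.erase b = J \ S := by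
              ext y
              simp only [mem_sdiff, mem_erase]
              by_cases hy : y = b
              · simp [hy, hbS]
              · simp [hy]
            rw [e]
            have := (ceil_mul hc0p (hcS S hS)).1
            linarith
          · exact disjoint_left.2 fun i hi hi' => (mem_filter.1 hi').2 (h i hi ▸ hbS)
    · rw [sum_add_distrib, sum_const, hβ b hb, nsmul_eq_mul, ← sum_filter, sum_const, nsmul_eq_mul]
      rw [hβ b hb] at h4
      have hSh : Ind N supp A J ≤ Sh N supp A J := by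
        rw [Sh]; split_ifs with h
        · rfl
        · by_contra h'
          refine h fun U hU => ?_
          rcases hU.eq_or_ssubset with rfl | hU
          · exact not_le.1 h'
          · exact hA U hU
      have hSh0 := Sh_nonneg (N := N) (supp := supp) A J
      have key : (((univ.filter (β · = b)).filter fun x => T x = ∅).card : ℤ) * c0 ≤
          Sh N supp A J + 2 ^ (j + 1) * (2 * N ^ j) := by
        by_cases hq : N ≤ ∑ S ∈ 𝒮, (A.filter fun i => supp i = S).card / k S
        · rw [Nat.sub_eq_zero_of_le hq, Nat.le_zero] at h4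
          rw [h4]; simp only [Nat.cast_zero, zero_mul]; positivity
        · push Not at hq
          have h5 : (((univ.filter (β · = b)).filter fun x => T x = ∅).card : ℤ) ≤
              N - ∑ S ∈ 𝒮, (((A.filter fun i => supp i = S).card / k S : ℕ) : ℤ) := by
            rw [← Nat.cast_sum, ← Nat.cast_sub hq.le]; exact_mod_cast h4
          have h6 : Ind N supp A J = N * c0 -
              ∑ S ∈ 𝒮, ((A.filter fun i => supp i = S).card : ℤ) * Ind N supp A (J \ S) := by
            rw [Ind_rec b A J hb, ← sum_filter,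
              ← sum_fiberwise_of_maps_to (s := A.filter fun i => b ∈ supp i ∧ supp i ⊆ J)
                (t := 𝒮) (g := supp) (fun i hi => by
                  simpa [𝒮] using (mem_filter.1 hi).2.symm)]
            congr 1
            refine sum_congr rfl fun S hS => ?_
            rw [sum_congr rfl (g := fun _ => Ind N supp A (J \ S))
              (fun i hi => by rw [(mem_filter.1 hi).2]), sum_const, nsmul_eq_mul, filter_filter]
            congr 3
            refine filter_congr fun i _ => ?_
            have := mem_filter.1 hS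
            exact ⟨fun h => h.2, fun h => ⟨⟨h ▸ this.2, h ▸ mem_powerset.1 this.1⟩, h⟩⟩
          have hc0le : c0 ≤ (N : ℤ) ^ j := Ind_le_pow A j _ (by rw [card_erase_of_mem hb]; omega)
            fun U hU => hA U (Finset.ssubset_of_subset_of_ssubset hU (erase_ssubset hb))
          have h7 : ∀ S ∈ 𝒮, ((A.filter fun i => supp i = S).card : ℤ) * Ind N supp A (J \ S) ≤
              (((A.filter fun i => supp i = S).card / k S : ℕ) : ℤ) * c0 + 2 * N ^ j := by
            intro S hS
            have hbS := (mem_filter.1 hS).2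
            have hSJ := mem_powerset.1 (mem_filter.1 hS).1
            by_cases h8 : J \ S = J.erase b
            · have : k S = 1 := by
                simp only [k, h8, ← hc0]
                have : (c0 + c0 - 1) / c0 = 1 := by
                  rw [Int.ediv_eq_iff_of_pos hc0p]; omega
                rw [this]; rfl
              rw [this, h8, Nat.div_one]
              have : (0 : ℤ) ≤ N ^ j := by positivity
              linarith
            · refine (loss (N := N) hc0p (hcS S hS) (le_trans (single_le_sum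
                (f := fun S => (A.filter fun i => supp i = S).card / k S)
                (fun _ _ => Nat.zero_le _) hS) hq.le)).trans ?_
              have h9 : (J \ S).card < j := by
                have := card_lt_card (ssubset_of_ne_of_subset h8 (hss S hS))
                rw [card_erase_of_mem hb] at this; omega
              have h10 := Ind_le_pow (N := N) (supp := supp) A _ (J \ S) rfl fun U hU =>
                hA U (Finset.ssubset_of_subset_of_ssubset (hU.trans (hss S hS)) (erase_ssubset hb))
              have h11 : (N : ℤ) * N ^ (J \ S).card ≤ N ^ j := by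
                rw [← pow_succ']
                exact pow_le_pow_right₀ (by exact_mod_cast hN) h9
              have h12 : (N : ℤ) * Ind N supp A (J \ S) ≤ N * N ^ (J \ S).card :=
                mul_le_mul_of_nonneg_left h10 (by positivity)
              linarith
          have h8 := sum_le_sum h7
          rw [sum_add_distrib, ← sum_mul, sum_const, nsmul_eq_mul] at h8
          have h9 : (𝒮.card : ℤ) ≤ 2 ^ (j + 1) := by
            have := card_filter_le J.powerset (b ∈ ·)
            rw [card_powerset, hJ] at this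
            exact_mod_cast this
          have h10 : (𝒮.card : ℤ) * (2 * N ^ j) ≤ 2 ^ (j + 1) * (2 * N ^ j) :=
            mul_le_mul_of_nonneg_right h9 (by positivity)
          have h11 := mul_le_mul_of_nonneg_right h5 hc0p.le
          rw [sub_mul] at h11
          linarith
      push_cast
      rw [pow_succ (2 : ℤ) (j + 1)]
      have h5 : (0 : ℤ) ≤ j * 2 ^ (j + 1) * N ^ j := by positivity
      nlinarith

end Pool.Agent.P.MP_3acc10_al
end

-- part Pool.Agent.P.MP_3acc10_al.Arith
section

set_option autoImplicit false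

namespace Pool.Agent.P.MP_3acc10_al

open Finset Polynomial

variable {B ι : Type*} [DecidableEq B] [DecidableEq ι]

/-- coefficients of the predicted series before truncation -/
noncomputable def al (n : ℕ) (d : ι → ℕ) (A : Finset ι) (i : ℕ) : ℤ :=
  ((1 + X : ℤ[X]) ^ n * ∏ l ∈ A, (1 - X ^ d l)).coeff i

omit [DecidableEq ι] in
@[simp] lemma al_empty (n : ℕ) (d : ι → ℕ) (i : ℕ) : al n d ∅ i = n.choose i := by
  simp [al, coeff_one_add_X_pow]

lemma al_insert (n : ℕ) (d : ι → ℕ) {A : Finset ι} {l : ι} (hl : l ∉ A) (i : ℕ) :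
    al n d (insert l A) i = al n d A i - if d l ≤ i then al n d A (i - d l) else 0 := by
  rw [al, prod_insert hl, mul_left_comm, mul_comm (1 - X ^ d l), mul_sub, mul_one, coeff_sub,
    coeff_mul_X_pow']
  rfl

omit [DecidableEq ι] in
lemma sum_by_degree (d : ι → ℕ) (A : Finset ι) (hd : ∀ l ∈ A, 0 < d l) (i : ℕ) (f : ι → ℝ) :
    ∑ l ∈ A, (if d l ≤ i then f l else 0) =
      ∑ k ∈ range i, ∑ l ∈ A.filter (fun l => d l = i - k), f l := by
  rw [← sum_filter, ← sum_fiberwise_of_maps_to (s := A.filter fun l => d l ≤ i) (t := range i)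
    (g := fun l => i - d l) (fun l hl => by
      have := mem_filter.1 hl
      have := hd l this.1
      simp only [mem_range]; omega)]
  refine sum_congr rfl fun k hk => ?_
  rw [filter_filter]
  refine sum_congr (filter_congr fun l _ => ?_) fun _ _ => rfl
  have := mem_range.1 hk
  omega

lemma geo3 (i : ℕ) : (1 : ℝ) + ∑ k ∈ range i, 2 * 3 ^ k = 3 ^ i := by
  induction i with
  | zero => simp
  | succ i ih => rw [sum_range_succ, ← add_assoc, ih]; ring

lemma pert (u : Finset ι → ℕ → ℝ) (A0 : Finset ι) (d : ι → ℕ) (hd : ∀ l ∈ A0, 0 < d l) (j : ℕ)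
    (x w : ℝ) (hx : 0 ≤ x) (hw : 0 ≤ w) (ε : ι → ℝ) (hε0 : ∀ l, 0 ≤ ε l)
    (h0 : ∀ i ≤ j, |u ∅ i| ≤ w * x ^ i)
    (hs : ∀ A ⊆ A0, ∀ l ∈ A0, l ∉ A → ∀ i ≤ j,
      |u (insert l A) i - u A i| ≤ if d l ≤ i then |u A (i - d l)| + ε l * x ^ (i - d l) else 0)
    (hc : ∀ e ≤ j, 0 < e → ((A0.filter fun l => d l = e).card : ℝ) ≤ x ^ e)
    (hε : ∀ e ≤ j, 0 < e → ∑ l ∈ A0.filter (fun l => d l = e), ε l ≤ w * x ^ e) :
    ∀ i ≤ j, ∀ A ⊆ A0, |u A i| ≤ 3 ^ i * (w * x ^ i) := by
  intro i
  induction i using Nat.strong_induction_on with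
  | _ i ih =>
    intro hi
    have h1 : ∀ A ⊆ A0, |u A i| ≤ w * x ^ i + ∑ l ∈ A, if d l ≤ i then
        (3 ^ (i - d l) * w + ε l) * x ^ (i - d l) else 0 := by
      intro A
      induction A using Finset.induction_on with
      | empty => intro _; simpa using h0 i hi
      | insert l A hl ihA =>
        intro hA
        have hA' : A ⊆ A0 := (subset_insert _ _).trans hA
        have hl0 : l ∈ A0 := hA (mem_insert_self _ _)
        have h2 := hs A hA' l hl0 hl i hi
        have h3 := ihA hA'
        have h4 := abs_sub_abs_le_abs_sub (u (insert l A) i) (u A i)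
        rw [sum_insert hl]
        split_ifs at h2 ⊢ with h5
        · have := ih (i - d l) (by have := hd l hl0; omega) (by omega) A hA'
          nlinarith
        · linarith
    intro A hA
    refine (h1 A hA).trans ?_
    have h2 : ∑ l ∈ A, (if d l ≤ i then (3 ^ (i - d l) * w + ε l) * x ^ (i - d l) else 0) ≤
        ∑ l ∈ A0, if d l ≤ i then (3 ^ (i - d l) * w + ε l) * x ^ (i - d l) else 0 :=
      sum_le_sum_of_subset_of_nonneg hA fun l _ _ => by
        have := hε0 l
        split_ifs
        · positivity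
        · rfl
    rw [sum_by_degree d A0 hd] at h2
    have h3 : ∀ k ∈ range i, ∑ l ∈ A0.filter (fun l => d l = i - k),
        (3 ^ (i - d l) * w + ε l) * x ^ (i - d l) ≤ 2 * 3 ^ k * (w * x ^ i) := by
      intro k hk
      have hk := mem_range.1 hk
      rw [sum_congr rfl (g := fun l => (3 ^ k * w + ε l) * x ^ k) (fun l hl => by
        rw [(mem_filter.1 hl).2, show i - (i - k) = k by omega]), ← sum_mul, sum_add_distrib,
        sum_const, nsmul_eq_mul]
      have a1 := hc (i - k) (by omega) (by omega)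
      have a2 := hε (i - k) (by omega) (by omega)
      have a3 : x ^ i = x ^ (i - k) * x ^ k := by rw [← pow_add]; congr 1; omega
      have a4 : (1 : ℝ) ≤ 3 ^ k := one_le_pow₀ (by norm_num)
      have a5 : (0 : ℝ) ≤ w * x ^ (i - k) := by positivity
      have a6 : ((A0.filter fun l => d l = i - k).card : ℝ) * (3 ^ k * w) ≤
          x ^ (i - k) * (3 ^ k * w) := mul_le_mul_of_nonneg_right a1 (by positivity)
      rw [a3]
      have a7 : ((A0.filter fun l => d l = i - k).card : ℝ) * (3 ^ k * w) +
          ∑ l ∈ A0.filter (fun l => d l = i - k), ε l ≤ 2 * 3 ^ k * (w * x ^ (i - k)) := by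
        nlinarith
      calc _ ≤ (2 * 3 ^ k * (w * x ^ (i - k))) * x ^ k :=
            mul_le_mul_of_nonneg_right a7 (by positivity)
        _ = _ := by ring
    have h4 := sum_le_sum h3
    rw [← sum_mul] at h4
    rw [← geo3 i]
    linarith

lemma choose_le_pow_real (n i : ℕ) : (n.choose i : ℝ) ≤ (n : ℝ) ^ i := by
  exact_mod_cast Nat.choose_le_pow n i

lemma al_abs (n : ℕ) (d : ι → ℕ) (A0 : Finset ι) (hd : ∀ l ∈ A0, 0 < d l) (j : ℕ)
    (hc : ∀ e ≤ j, 0 < e → ((A0.filter fun l => d l = e).card : ℝ) ≤ (n : ℝ) ^ e) :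
    ∀ i ≤ j, ∀ A ⊆ A0, |(al n d A i : ℝ)| ≤ 3 ^ i * (1 * (n : ℝ) ^ i) := by
  refine pert (fun A i => al n d A i) A0 d hd j n 1 (by positivity) zero_le_one (fun _ => 0)
    (fun _ => le_rfl) (fun i _ => ?_) (fun A _ l _ hl i _ => ?_) hc fun e _ _ => by simp
  · simpa using choose_le_pow_real n i
  · simp only [al_insert n d hl]
    split_ifs <;> simp

/-- positivity passes to subfamilies -/
lemma al_pos_erase (n : ℕ) (d : ι → ℕ) {A : Finset ι} {l : ι} (hl : l ∉ A) (hd : 0 < d l) (j : ℕ)
    (h : ∀ i ≤ j, 0 < al n d (insert l A) i) : ∀ i ≤ j, al n d (insert l A) i ≤ al n d A i := by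
  intro i
  induction i using Nat.strong_induction_on with
  | _ i ih =>
    intro hi
    rw [al_insert n d hl]
    split_ifs with h1
    · have := ih (i - d l) (by omega) (by omega)
      have := h (i - d l) (by omega)
      linarith
    · simp

lemma al_mono (n : ℕ) (d : ι → ℕ) (j : ℕ) (A T : Finset ι) (hT : Disjoint T A)
    (hd : ∀ l ∈ T, 0 < d l) (h : ∀ i ≤ j, 0 < al n d (T ∪ A) i) :
    ∀ i ≤ j, al n d (T ∪ A) i ≤ al n d A i := by
  induction T using Finset.induction_on with
  | empty => simp
  | insert l T hl ih =>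
    rw [disjoint_insert_left] at hT
    rw [insert_union] at h ⊢
    have h1 := al_pos_erase n d (A := T ∪ A) (by simp [hl, hT.1]) (hd l (by simp)) j h
    intro i hi
    exact (h1 i hi).trans (ih hT.2 (fun l hl => hd l (by simp [hl]))
      (fun i hi => (h i hi).trans_le (h1 i hi)) i hi)

lemma al_le_of_subset (n : ℕ) (d : ι → ℕ) (j : ℕ) {A A0 : Finset ι} (hA : A ⊆ A0)
    (hd : ∀ l ∈ A0, 0 < d l) (h : ∀ i ≤ j, 0 < al n d A0 i) :
    ∀ i ≤ j, al n d A0 i ≤ al n d A i := by
  have := al_mono n d j A (A0 \ A) sdiff_disjoint (fun l hl => hd l (mem_sdiff.1 hl).1)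
  rw [sdiff_union_of_subset hA] at this
  exact this h

lemma al_same (n : ℕ) (d : ι → ℕ) (e : ℕ) (he : 0 < e) (A : Finset ι) (hd : ∀ l ∈ A, d l = e) :
    al n d A 0 = 1 ∧ al n d A e = n.choose e - A.card := by
  induction A using Finset.induction_on with
  | empty => simp
  | insert l A hl ih =>
    have ih := ih fun l hl => hd l (by simp [hl])
    rw [al_insert n d hl, al_insert n d hl, hd l (by simp), if_neg (by omega), if_pos le_rfl,
      Nat.sub_self, ih.1, ih.2, card_insert_of_notMem hl]
    push_cast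
    exact ⟨trivial, by ring⟩

lemma count_le (n : ℕ) (d : ι → ℕ) (j : ℕ) {A0 : Finset ι} (hd : ∀ l ∈ A0, 0 < d l)
    (h : ∀ i ≤ j, 0 < al n d A0 i) :
    ∀ e ≤ j, 0 < e → ((A0.filter fun l => d l = e).card : ℝ) ≤ (n : ℝ) ^ e := by
  intro e he he0
  have h1 := (h e he).trans_le (al_le_of_subset n d j (filter_subset (fun l => d l = e) A0) hd h e he)
  rw [(al_same n d e he0 _ fun l hl => (mem_filter.1 hl).2).2] at h1
  refine le_trans ?_ (choose_le_pow_real n e)
  have : (A0.filter fun l => d l = e).card ≤ n.choose e := by omega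
  exact_mod_cast this

lemma choose_gap (n m N : ℕ) (h1 : m * N ≤ n) (h2 : n ≤ (m + 1) * N) (i : ℕ) :
    ((n.choose i : ℝ) - m.choose i * N ^ i) * n ≤ i * N * (n : ℝ) ^ i := by
  induction i with
  | zero => simp
  | succ i ih =>
    have a1 : ((i : ℝ) + 1) * n.choose (i + 1) ≤ n * n.choose i := by
      have := Nat.choose_succ_right_eq n i
      have h : (i + 1) * n.choose (i + 1) ≤ n * n.choose i := by
        rw [mul_comm, this, mul_comm]; exact Nat.mul_le_mul_right _ (Nat.sub_le _ _)
      exact_mod_cast h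
    have a2 : ((m : ℝ) - i) * m.choose i ≤ (i + 1) * m.choose (i + 1) := by
      have h : ((m.choose (i + 1) : ℝ)) * (i + 1) = m.choose i * ((m - i : ℕ) : ℝ) := by
        exact_mod_cast Nat.choose_succ_right_eq m i
      have h' : (m : ℝ) - i ≤ ((m - i : ℕ) : ℝ) := by
        rcases le_total i m with h | h
        · rw [Nat.cast_sub h]
        · have : (m : ℝ) ≤ i := by exact_mod_cast h
          have : (0 : ℝ) ≤ ((m - i : ℕ) : ℝ) := by positivity
          linarith
      have : (0 : ℝ) ≤ m.choose i := by positivity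
      nlinarith
    have b1 : (m : ℝ) * N ≤ n := by exact_mod_cast h1
    have b2 : (n : ℝ) ≤ (m + 1) * N := by exact_mod_cast h2
    have a3 : (m.choose i : ℝ) * N ^ i ≤ (n : ℝ) ^ i := by
      calc _ ≤ (m : ℝ) ^ i * N ^ i :=
            mul_le_mul_of_nonneg_right (choose_le_pow_real m i) (by positivity)
        _ = ((m : ℝ) * N) ^ i := by rw [mul_pow]
        _ ≤ _ := pow_le_pow_left₀ (by positivity) b1 i
    have hN : (0 : ℝ) ≤ N := by positivity
    have hn : (0 : ℝ) ≤ n := by positivity
    have hi : (0 : ℝ) ≤ i := by positivity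
    have hp : (0 : ℝ) ≤ (m.choose i : ℝ) * N ^ i := by positivity
    have hq : (0 : ℝ) ≤ (n : ℝ) ^ i := by positivity
    have a4 : ((i : ℝ) + 1) * (n.choose (i + 1) - m.choose (i + 1) * N ^ (i + 1)) ≤
        n * (n.choose i - m.choose i * N ^ i) + (i + 1) * N * (n : ℝ) ^ i := by
      have c1 : ((m : ℝ) - i) * m.choose i * N ^ (i + 1) ≤ (i + 1) * m.choose (i + 1) * N ^ (i + 1) :=
        mul_le_mul_of_nonneg_right a2 (by positivity)
      have c2 : ((n : ℝ) - (i + 1) * N) * (m.choose i * N ^ i) ≤ ((m - i) * N) * (m.choose i * N ^ i) :=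
        mul_le_mul_of_nonneg_right (by linarith) hp
      have c3 : ((i : ℝ) + 1) * N * (m.choose i * N ^ i) ≤ (i + 1) * N * (n : ℝ) ^ i :=
        mul_le_mul_of_nonneg_left a3 (by positivity)
      rw [pow_succ] at c1 ⊢
      nlinarith
    have a5 : ((i : ℝ) + 1) * (n.choose (i + 1) - m.choose (i + 1) * N ^ (i + 1)) ≤
        (i + 1) * ((i + 1) * N * (n : ℝ) ^ i) := by
      have : (0 : ℝ) ≤ N * (n : ℝ) ^ i := by positivity
      have : (0 : ℝ) ≤ i * i * (N * (n : ℝ) ^ i) := by positivity
      nlinarith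
    have a6 := mul_le_mul_of_nonneg_right (le_of_mul_le_mul_left a5 (by positivity)) hn
    push_cast
    rw [pow_succ (n : ℝ)]
    linarith

lemma choose_add_le (a e k : ℕ) : (a + e).choose (k + 1) ≤ a.choose (k + 1) + e * (a + e) ^ k := by
  induction e with
  | zero => simp
  | succ e ih =>
    rw [← add_assoc, Nat.choose_succ_succ']
    have h1 := Nat.choose_le_pow (a + e) k
    have h2 : (a + e) ^ k ≤ (a + e + 1) ^ k := Nat.pow_le_pow_left (by omega) k
    nlinarith

variable {N : ℕ} {supp : ι → Finset B}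

omit [DecidableEq ι] in
lemma sum_fiber (A : Finset ι) (b : B) (U : Finset B) (f : Finset B → ℤ) :
    ∑ i ∈ A, (if b ∈ supp i ∧ supp i ⊆ U then f (supp i) else 0) =
      ∑ S ∈ U.powerset.filter (b ∈ ·), ((A.filter fun i => supp i = S).card : ℤ) * f S := by
  rw [← sum_filter, ← sum_fiberwise_of_maps_to (s := A.filter fun i => b ∈ supp i ∧ supp i ⊆ U)
    (t := U.powerset.filter (b ∈ ·)) (g := supp) (fun i hi => by
      simpa using (mem_filter.1 hi).2.symm)]
  refine sum_congr rfl fun S hS => ?_
  rw [sum_congr rfl (g := fun _ => f S) (fun i hi => by rw [(mem_filter.1 hi).2]), sum_const,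
    nsmul_eq_mul, filter_filter]
  congr 3
  refine filter_congr fun i _ => ?_
  have := mem_filter.1 hS
  exact ⟨fun h => h.2, fun h => ⟨⟨h ▸ this.2, h ▸ mem_powerset.1 this.1⟩, h⟩⟩

lemma Ind_abs (j c : ℕ) (A : Finset ι) (hne : ∀ i ∈ A, supp i ≠ ∅)
    (hload : ∀ S : Finset B, S.card ≤ j → (A.filter fun i => supp i = S).card ≤ c * N ^ S.card) :
    ∀ k ≤ j, ∀ U : Finset B, U.card = k →
      |Ind N supp A U| ≤ (1 + 2 ^ j * c) ^ k * (N : ℤ) ^ k := by
  intro k
  induction k using Nat.strong_induction_on with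
  | _ k ih =>
    intro hk U hU
    rcases k with _ | k
    · rw [card_eq_zero.1 hU, Ind_at_empty hne]; simp
    obtain ⟨b, hb⟩ : U.Nonempty := card_pos.1 (by omega)
    rw [Ind_rec b A U hb, sum_fiber A b U fun S => Ind N supp A (U \ S)]
    set D : ℤ := 1 + 2 ^ j * c with hD
    have hD1 : 1 ≤ D := by rw [hD]; have : (0 : ℤ) ≤ 2 ^ j * c := by positivity
                           linarith
    have h1 := ih k (by omega) (by omega) (U.erase b) (by rw [card_erase_of_mem hb]; omega)
    have h2 : ∀ S ∈ U.powerset.filter (b ∈ ·),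
        |((A.filter fun i => supp i = S).card : ℤ) * Ind N supp A (U \ S)| ≤
          c * (D ^ k * N ^ (k + 1)) := by
      intro S hS
      have hSU := mem_powerset.1 (mem_filter.1 hS).1
      have hc := card_le_card hSU
      have hc1 : 0 < S.card := card_pos.2 ⟨b, (mem_filter.1 hS).2⟩
      have h3 := ih (k + 1 - S.card) (by omega) (by omega) (U \ S)
        (by rw [card_sdiff_of_subset hSU, hU])
      have h4 : ((A.filter fun i => supp i = S).card : ℤ) ≤ c * N ^ S.card := by
        exact_mod_cast hload S (by omega)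
      have h5 : D ^ (k + 1 - S.card) ≤ D ^ k := pow_le_pow_right₀ hD1 (by omega)
      rw [abs_mul, Nat.abs_cast]
      calc _ ≤ (c * N ^ S.card : ℤ) * (D ^ k * N ^ (k + 1 - S.card)) :=
            mul_le_mul h4 (h3.trans (mul_le_mul_of_nonneg_right h5 (by positivity)))
              (abs_nonneg _) (by positivity)
        _ = c * (D ^ k * (N ^ S.card * N ^ (k + 1 - S.card))) := by ring
        _ = _ := by rw [← pow_add, show S.card + (k + 1 - S.card) = k + 1 by omega]
    have h3 := (abs_sum_le_sum_abs _ _).trans (sum_le_sum h2)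
    rw [sum_const, nsmul_eq_mul] at h3
    have h4 : ((U.powerset.filter (b ∈ ·)).card : ℤ) ≤ 2 ^ j := by
      have := card_filter_le U.powerset (b ∈ ·)
      rw [card_powerset, hU] at this
      exact_mod_cast this.trans (Nat.pow_le_pow_right (by norm_num) hk)
    have h5 := mul_le_mul_of_nonneg_right h4
      (show (0 : ℤ) ≤ c * (D ^ k * N ^ (k + 1)) by positivity)
    refine (abs_sub _ _).trans ?_
    rw [abs_mul, Nat.abs_cast]
    have h6 : (N : ℤ) * |Ind N supp A (U.erase b)| ≤ N * (D ^ k * N ^ k) :=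
      mul_le_mul_of_nonneg_left h1 (by positivity)
    calc _ ≤ N * (D ^ k * N ^ k) + 2 ^ j * (c * (D ^ k * N ^ (k + 1))) := by linarith
      _ = _ := by rw [pow_succ D, hD]; ring

lemma Ind_unif (M : Finset B) (j : ℕ) (ρ : ℕ → ℕ) (A : Finset ι) (hne : ∀ i ∈ A, supp i ≠ ∅)
    (hload : ∀ S ⊆ M, S.card ≤ j → S ≠ ∅ → (A.filter fun i => supp i = S).card = ρ S.card) :
    ∃ φ : ℕ → ℤ, ∀ U ⊆ M, U.card ≤ j → Ind N supp A U = φ U.card := by
  suffices h : ∀ k ≤ j, ∃ φ : ℕ → ℤ, ∀ U ⊆ M, U.card ≤ k → Ind N supp A U = φ U.card from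
    h j le_rfl
  intro k
  induction k with
  | zero =>
    intro _
    exact ⟨fun _ => 1, fun U _ hU => by rw [card_eq_zero.1 (Nat.le_zero.1 hU), Ind_at_empty hne]⟩
  | succ k ih =>
    intro hk
    obtain ⟨φ, hφ⟩ := ih (by omega)
    refine ⟨Function.update φ (k + 1) (N * φ k - ∑ t ∈ range (k + 1),
      k.choose t • ((ρ (t + 1) : ℤ) * φ (k - t))), fun U hUM hU => ?_⟩
    rcases hU.lt_or_eq with hU | hU
    · rw [Function.update_of_ne hU.ne, hφ U hUM (by omega)]
    obtain ⟨b, hb⟩ : U.Nonempty := card_pos.1 (by omega)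
    have hc : (U.erase b).card = k := by rw [card_erase_of_mem hb]; omega
    rw [hU, Function.update_self, Ind_rec b A U hb, sum_fiber A b U fun S => Ind N supp A (U \ S),
      hφ _ ((erase_subset _ _).trans hUM) hc.le, hc]
    congr 1
    have := sum_powerset_apply_card (fun t => (ρ (t + 1) : ℤ) * φ (k - t)) (x := U.erase b)
    rw [hc] at this
    rw [← this]
    refine sum_bij' (fun S _ => S.erase b) (fun S _ => insert b S) ?_ ?_ ?_ ?_ ?_
    · intro S hS
      exact mem_powerset.2 (erase_subset_erase _ (mem_powerset.1 (mem_filter.1 hS).1))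
    · intro S hS
      refine mem_filter.2 ⟨mem_powerset.2 (insert_subset hb ?_), mem_insert_self _ _⟩
      exact (mem_powerset.1 hS).trans (erase_subset _ _)
    · intro S hS; exact insert_erase (mem_filter.1 hS).2
    · intro S hS; exact erase_insert fun h => by simpa using mem_powerset.1 hS h
    · intro S hS
      have hSU := mem_powerset.1 (mem_filter.1 hS).1
      have hbS := (mem_filter.1 hS).2
      have h1 := card_le_card hSU
      have h2 : 0 < S.card := card_pos.2 ⟨b, hbS⟩
      rw [hload S (hSU.trans hUM) (by omega) (ne_empty_of_mem hbS),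
        hφ _ (sdiff_subset.trans hUM) (by rw [card_sdiff_of_subset hSU]; omega),
        card_sdiff_of_subset hSU, card_erase_add_one hbS, card_erase_of_mem hbS]
      congr 2
      omega

/-- uniform distribution of forms among block sets -/
lemma exists_unif (d : ι → ℕ) (ρ : ℕ → ℕ) (𝒮 : Finset (Finset B)) : ∀ A : Finset ι,
    (∀ e, (𝒮.filter fun S => S.card = e).card * ρ e ≤ (A.filter fun i => d i = e).card) →
    ∃ (A' : Finset ι) (supp : ι → Finset B), A' ⊆ A ∧ (∀ i ∈ A', supp i ∈ 𝒮 ∧ (supp i).card = d i) ∧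
      ∀ S ∈ 𝒮, (A'.filter fun i => supp i = S).card = ρ S.card := by
  induction 𝒮 using Finset.induction_on with
  | empty => intro A _; exact ⟨∅, fun _ => ∅, by simp⟩
  | insert S 𝒮 hS ih =>
    intro A h
    have h1 := h S.card
    rw [filter_insert, if_pos rfl, card_insert_of_notMem (by simp [hS]), add_mul, one_mul] at h1
    obtain ⟨T, hT, hc⟩ := exists_subset_card_eq (s := A.filter fun i => d i = S.card)
      (n := ρ S.card) (by omega)
    obtain ⟨A', supp, h2, h3, h4⟩ := ih (A \ T) (fun e => by
      by_cases he : S.card = e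
      · subst he
        have : (A \ T).filter (fun i => d i = S.card) = A.filter (fun i => d i = S.card) \ T := by
          ext i; simp only [mem_filter, mem_sdiff]; tauto
        rw [this, card_sdiff_of_subset hT]; omega
      · have h5 := h e
        rw [filter_insert, if_neg he] at h5
        refine h5.trans (card_le_card fun i hi => ?_)
        simp only [mem_filter, mem_sdiff] at hi ⊢
        exact ⟨⟨hi.1, fun hiT => he ((mem_filter.1 (hT hiT)).2.symm.trans hi.2)⟩, hi.2⟩)
    have hdis : ∀ i ∈ A', i ∉ T := fun i hi => (mem_sdiff.1 (h2 hi)).2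
    refine ⟨T ∪ A', fun i => if i ∈ T then S else supp i,
      union_subset (hT.trans (filter_subset _ _)) (h2.trans sdiff_subset), ?_, ?_⟩
    · intro i hi
      by_cases hiT : i ∈ T
      · simp only [if_pos hiT]
        exact ⟨mem_insert_self _ _, (mem_filter.1 (hT hiT)).2.symm⟩
      · simp only [if_neg hiT]
        have := h3 i ((mem_union.1 hi).resolve_left hiT)
        exact ⟨mem_insert_of_mem this.1, this.2⟩
    · intro S' hS'
      rcases mem_insert.1 hS' with rfl | hS'
      · rw [← hc]
        congr 1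
        ext i
        simp only [mem_filter, mem_union]
        by_cases hiT : i ∈ T
        · simp [hiT]
        · simp only [hiT, false_or, if_false, iff_false, not_and]
          exact fun hi e => hS (e ▸ (h3 i hi).1)
      · rw [← h4 S' hS']
        congr 1
        ext i
        simp only [mem_filter, mem_union]
        by_cases hiT : i ∈ T
        · simp only [hiT, true_or, if_true, true_and]
          exact ⟨fun e => absurd (e ▸ hS') hS, fun h => absurd hiT (hdis i h.1)⟩
        · simp [hiT]

end Pool.Agent.P.MP_3acc10_al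
end

-- part Pool.Agent.P.MP_3acc10_al.Full
section

set_option autoImplicit false

namespace Pool.Agent.P.MP_3acc10_al

open Module Finset

variable {K : Type*} [Field K] {σ ι B : Type*} [Fintype σ] [DecidableEq σ] [DecidableEq B]
  [Fintype ι] [DecidableEq ι]

/-- the degree `j` part of the inverse system of the ideal -/
noncomputable abbrev WF (j : ℕ) (d : ι → ℕ) (A : Finset ι) (c : ι × Finset σ → K) :
    Submodule K (Finset σ → K) :=
  W (fun X => X.card = j) A (mask (fun i Y => Y.card = d i) c)

open Classical in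
lemma card_tr (β : σ → B) (N : ℕ) (J : Finset B) (h : ∀ b ∈ J, (univ.filter (β · = b)).card = N) :
    N ^ J.card ≤ (univ.filter (tr β J)).card := by
  induction J using Finset.induction_on with
  | empty => simpa using card_pos.2 ⟨∅, by simp [tr_empty]⟩
  | insert b J hb ih =>
    have ih := ih fun b' hb' => h b' (by simp [hb'])
    rw [card_insert_of_notMem hb, pow_succ']
    refine le_trans (Nat.mul_le_mul (h b (by simp)).ge ih) ?_
    rw [← card_product]
    have hx : ∀ p ∈ univ.filter (β · = b) ×ˢ univ.filter (tr β J), ∀ y ∈ p.2, β y ≠ b := by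
      intro p hp y hy e
      have := (mem_filter.1 (mem_product.1 hp).2).2
      exact hb (e ▸ this.2 ▸ mem_image_of_mem β hy)
    refine card_le_card_of_injOn (fun p => insert p.1 p.2) ?_ ?_
    · intro p hp
      have h1 : β p.1 = b := (mem_filter.1 (mem_product.1 hp).1).2
      have h2 := (mem_filter.1 (mem_product.1 hp).2).2
      simp only [coe_filter, mem_univ, true_and, Set.mem_ofPred_eq]
      rw [tr_erase (mem_insert_self _ _) (by simp [h1]), h1, erase_insert hb,
        erase_insert fun h => hx p hp _ h h1]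
      exact h2
    · intro p hp q hq e
      have h1 : β p.1 = b := (mem_filter.1 (mem_product.1 hp).1).2
      have h2 : β q.1 = b := (mem_filter.1 (mem_product.1 hq).1).2
      have e : insert p.1 p.2 = insert q.1 q.2 := e
      have h3 : p.1 = q.1 := by
        rcases mem_insert.1 (e ▸ mem_insert_self p.1 p.2) with h | h
        · exact h
        · exact absurd h1 (hx q hq _ h)
      refine Prod.ext h3 ?_
      rw [← erase_insert (fun h => hx p hp _ h h1 : p.1 ∉ p.2), e, h3,
        erase_insert fun h => hx q hq _ h h2]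

open Classical in
lemma card_nontr (β : σ → B) (N j : ℕ) (M : Finset B)
    (h : ∀ b ∈ M, (univ.filter (β · = b)).card = N) :
    (univ.filter fun X : Finset σ => X.card = j ∧ ∀ J ∈ M.powersetCard j, ¬ tr β J X).card +
      M.card.choose j * N ^ j ≤ (Fintype.card σ).choose j := by
  have h1 : M.card.choose j * N ^ j ≤
      ((M.powersetCard j).biUnion fun J => univ.filter (tr β J)).card := by
    rw [card_biUnion, ← card_powersetCard, ← smul_eq_mul]
    · refine card_nsmul_le_sum _ _ _ fun J hJ => ?_
      have := mem_powersetCard.1 hJ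
      exact this.2 ▸ card_tr β N J fun b hb => h b (this.1 hb)
    · intro J _ J' _ hne
      refine disjoint_left.2 fun X h1 h2 => hne ?_
      exact (mem_filter.1 h1).2.2.symm.trans (mem_filter.1 h2).2.2
  refine le_trans (Nat.add_le_add_left h1 _) ?_
  rw [← card_union_of_disjoint, ← card_univ, ← card_powersetCard]
  · refine card_le_card fun X hX => mem_powersetCard.2 ⟨subset_univ _, ?_⟩
    rcases mem_union.1 hX with h | h
    · exact (mem_filter.1 h).2.1
    · obtain ⟨J, hJ, h⟩ := mem_biUnion.1 h
      rw [(mem_filter.1 h).2.card, (mem_powersetCard.1 hJ).2]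
  · refine disjoint_left.2 fun X h1 h2 => ?_
    obtain ⟨J, hJ, h⟩ := mem_biUnion.1 h2
    exact (mem_filter.1 h1).2.2 J hJ (mem_filter.1 h).2

open Classical in
/-- restriction to a family -/
noncomputable def res (p : Finset σ → Prop) : (Finset σ → K) →ₗ[K] (Finset σ → K) where
  toFun F X := if p X then F X else 0
  map_add' F F' := by ext X; simp only [Pi.add_apply]; split_ifs <;> simp
  map_smul' a F := by ext X; simp only [Pi.smul_apply]; split_ifs <;> simp

open Classical in
omit [Fintype σ] [DecidableEq σ] in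
lemma res_apply (p : Finset σ → Prop) (F : Finset σ → K) (X : Finset σ) :
    res p F X = if p X then F X else 0 := rfl

omit [DecidableEq ι] in
lemma assemble [Infinite K] (β : σ → B) (N j : ℕ) (M : Finset B)
    (hβ : ∀ b ∈ M, (univ.filter (β · = b)).card = N) (d : ι → ℕ) (supp : ι → Finset B)
    (A : Finset ι) (hd : ∀ i ∈ A, (supp i).card = d i) (z : ℤ)
    (h : ∀ J ∈ M.powersetCard j, Gen fun c : ι × Finset σ → K =>
      (finrank K (WM β J supp A c) : ℤ) ≤ z) :
    Gen fun c : ι × Finset σ → K => (finrank K (WF j d A c) : ℤ) ≤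
      M.card.choose j * z + ((Fintype.card σ).choose j - M.card.choose j * N ^ j) := by
  classical
  obtain ⟨h, hh⟩ := (Gen.all _ h).exists
  let p0 : Finset σ → Prop := fun X => X.card = j ∧ ∀ J ∈ M.powersetCard j, ¬ tr β J X
  refine gen_WZ _ _ _ _ ⟨fun p => if tr β (supp p.1) p.2 then h p else 0, ?_⟩
  have key := finrank_le_sum
    (WF j d A fun p => if tr β (supp p.1) p.2 then h p else 0) (insertNone (M.powersetCard j))
    (fun o => o.elim (res p0) fun J => res (tr β J))
    (fun o => o.elim (Supp K p0) fun J => WM β J supp A h) ?_ ?_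
  · rw [sum_insertNone] at key
    simp only [Option.elim] at key
    have h1 := finrank_Supp (K := K) p0
    have h2 := card_nontr β N j M hβ
    have h3 := sum_le_card_nsmul _ _ _ hh
    rw [card_powersetCard, nsmul_eq_mul, ← Nat.cast_sum] at h3
    have h4 : finrank K (Supp K p0) + M.card.choose j * N ^ j ≤ (Fintype.card σ).choose j := by
      refine le_trans (Nat.add_le_add_right h1 _) ?_
      convert h2
    have h5 : (finrank K (Supp K p0) : ℤ) + M.card.choose j * N ^ j ≤
        (Fintype.card σ).choose j := by exact_mod_cast h4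
    have h6 := Int.ofNat_le.2 key
    push_cast at h6 h3
    exact h6.trans ((add_le_add (le_sub_iff_add_le.2 h5) h3).trans (add_comm _ _).le)
  · rintro (_ | J) hJ F hF
    · intro X hX
      simp only [Option.elim, res_apply, if_neg hX]
    · refine ⟨fun X hX => by simp only [Option.elim, res_apply, if_neg hX], fun i hi => ?_⟩
      have e : mask (fun i Y => Y.card = d i)
          (fun p : ι × Finset σ => if tr β (supp p.1) p.2 then h p else 0) i =
          mask (fun i => tr β (supp i)) h i := by
        ext Y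
        simp only [mask]
        by_cases hY : tr β (supp i) Y
        · rw [if_pos (hY.card.trans (hd i hi))]
        · simp [hY]
      have h0 := hF.2 i hi
      rw [e] at h0
      ext T
      have h1 := congrFun h0 T
      simp only [Option.elim, act, Pi.zero_apply] at h1 ⊢
      by_cases hT : supp i ⊆ J ∧ tr β (J \ supp i) T
      · refine Eq.trans ?_ h1
        refine sum_congr rfl fun Y _ => ?_
        split_ifs with hdis
        · by_cases hY : tr β (supp i) Y
          · rw [res_apply, if_pos ((tr_union hY hdis).2 hT)]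
          · simp [mask, hY]
        · rfl
      · refine sum_eq_zero fun Y _ => ?_
        split_ifs with hdis
        · by_cases hY : tr β (supp i) Y
          · rw [res_apply, if_neg (fun h => hT ((tr_union hY hdis).1 h)), mul_zero]
          · simp [mask, hY]
        · rfl
  · intro F hF h0
    ext X
    by_cases hX : X.card = j
    · by_cases h1 : ∀ J ∈ M.powersetCard j, ¬ tr β J X
      · have := congrFun (h0 none (by simp)) X
        simp only [Option.elim, res_apply] at this
        rwa [if_pos ⟨hX, h1⟩] at this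
      · push Not at h1
        obtain ⟨J, hJ, h1⟩ := h1
        have := congrFun (h0 (some J) (by simpa using hJ)) X
        simp only [Option.elim, res_apply] at this
        rwa [if_pos h1] at this
    · exact hF.1 X hX

omit [Fintype ι] [DecidableEq ι] in
lemma act_mask_supp {j : ℕ} {d : ι → ℕ} (c : ι × Finset σ → K) (l : ι) {F : Finset σ → K}
    (hF : ∀ X : Finset σ, ¬ X.card = j → F X = 0) (T : Finset σ) (hT : ¬ T.card + d l = j) :
    act (mask (fun i Y => Y.card = d i) c l) F T = 0 := by
  refine sum_eq_zero fun Y _ => ?_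
  split_ifs with hdis
  · by_cases hY : Y.card = d l
    · rw [hF _ (by rw [card_union_of_disjoint hdis]; omega), mul_zero]
    · simp [mask, hY]
  · rfl

omit [Fintype ι] in
lemma lower_step (j : ℕ) (d : ι → ℕ) (A : Finset ι) (l : ι) (c : ι × Finset σ → K) :
    finrank K (WF j d A c) ≤ finrank K (WF j d (insert l A) c) +
      if d l ≤ j then finrank K (WF (j - d l) d A c) else 0 := by
  let f := (actL (mask (fun i Y => Y.card = d i) c l)).domRestrict (WF j d A c)
  have h1 := LinearMap.finrank_range_add_finrank_ker f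
  have h2 : finrank K (LinearMap.ker f) ≤ finrank K (WF j d (insert l A) c) := by
    rw [← Submodule.finrank_map_subtype_eq]
    refine Submodule.finrank_mono ?_
    rintro _ ⟨⟨F, hF⟩, h0, rfl⟩
    refine ⟨hF.1, fun i hi => ?_⟩
    rcases mem_insert.1 hi with rfl | hi
    · exact h0
    · exact hF.2 i hi
  have h3 : finrank K (LinearMap.range f) ≤
      if d l ≤ j then finrank K (WF (j - d l) d A c) else 0 := by
    split_ifs with h
    · refine Submodule.finrank_mono ?_
      rintro _ ⟨⟨F, hF⟩, rfl⟩
      refine ⟨fun T hT => act_mask_supp c l hF.1 T (by omega), fun i hi => ?_⟩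
      show act _ (act _ F) = 0
      rw [act_comm, hF.2 i hi, act_zero]
    · have : LinearMap.range f = ⊥ := by
        rw [eq_bot_iff]
        rintro _ ⟨⟨F, hF⟩, rfl⟩
        exact funext fun T => act_mask_supp c l hF.1 T (by omega)
      rw [this, finrank_bot]
  omega

omit [DecidableEq σ] in
lemma finrank_Supp_eq (𝓤 : Finset σ → Prop) [DecidablePred 𝓤] :
    finrank K (Supp K 𝓤) = (univ.filter 𝓤).card := by
  refine le_antisymm (finrank_Supp _) ?_
  have h1 : Supp K 𝓤 ⊔ Supp K (fun X => ¬ 𝓤 X) = ⊤ := by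
    rw [eq_top_iff]
    intro F _
    refine Submodule.mem_sup.2 ⟨res 𝓤 F, fun X hX => by simp [res_apply, hX],
      res (fun X => ¬ 𝓤 X) F, fun X hX => by rw [res_apply, if_neg hX], ?_⟩
    ext X
    by_cases hX : 𝓤 X <;> simp [res_apply, hX]
  have h2 := Submodule.finrank_add_le_finrank_add_finrank (Supp K 𝓤) (Supp K (fun X => ¬ 𝓤 X))
  have h3 := finrank_Supp (K := K) (fun X => ¬ 𝓤 X)
  have h4 := card_filter_add_card_filter_not (s := univ) 𝓤
  rw [h1, finrank_top, finrank_fintype_fun_eq_card, ← card_univ] at h2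
  omega

omit [Fintype ι] [DecidableEq ι] in
lemma finrank_WF_empty (j : ℕ) (d : ι → ℕ) (c : ι × Finset σ → K) :
    finrank K (WF j d ∅ c) = (Fintype.card σ).choose j := by
  have : WF j d ∅ c = Supp K fun X => X.card = j :=
    le_antisymm (W_le_Supp _ _ _) fun F hF => ⟨hF, by simp⟩
  rw [this, finrank_Supp_eq, ← card_univ, ← card_powersetCard, powersetCard_eq_filter,
    powerset_univ]

omit [Fintype ι] [DecidableEq ι] in
lemma finrank_WF_le (j : ℕ) (d : ι → ℕ) (A : Finset ι) (c : ι × Finset σ → K) :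
    finrank K (WF j d A c) ≤ (Fintype.card σ).choose j :=
  (Submodule.finrank_mono (W_anti _ (empty_subset A) _)).trans (finrank_WF_empty j d c).le

omit [Fintype ι] [DecidableEq ι] in
lemma finrank_WF_succ (j : ℕ) (d : ι → ℕ) (A : Finset ι) (c : ι × Finset σ → K) :
    finrank K (WF (j + 1) d A c) ≤ Fintype.card σ * finrank K (WF j d A c) := by
  have := finrank_le_sum (WF (j + 1) d A c) univ (fun x : σ => actL (Pi.single {x} 1))
    (fun _ => WF j d A c) ?_ ?_
  · simpa using this
  · intro x _ F hF
    refine ⟨fun X hX => ?_, fun i hi => ?_⟩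
    · rw [actL_apply, act_single]
      split_ifs with hd
      · refine hF.1 _ fun h => hX ?_
        have h : ({x} ∪ X).card = j + 1 := h
        rw [card_union_of_disjoint hd, card_singleton] at h
        show X.card = j
        omega
      · rfl
    · rw [actL_apply, act_comm, hF.2 i hi, act_zero]
  · intro F hF h0
    ext X
    by_cases hX : X.card = j + 1
    · obtain ⟨x, hx⟩ : X.Nonempty := card_pos.1 (by omega)
      have := congrFun (h0 x (mem_univ _)) (X.erase x)
      rw [actL_apply, act_single, if_pos (by simp), ← insert_eq, insert_erase hx] at this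
      exact this
    · exact hF.1 X hX

omit [Fintype ι] [DecidableEq ι] in
lemma finrank_WF_add (j k : ℕ) (d : ι → ℕ) (A : Finset ι) (c : ι × Finset σ → K) :
    finrank K (WF (j + k) d A c) ≤ Fintype.card σ ^ k * finrank K (WF j d A c) := by
  induction k with
  | zero => simp
  | succ k ih =>
    rw [← add_assoc, pow_succ', mul_assoc]
    exact (finrank_WF_succ _ d A c).trans (Nat.mul_le_mul_left _ ih)

end Pool.Agent.P.MP_3acc10_al
end

-- part Pool.Agent.P.MP_3acc10_al.Upper
section

set_option autoImplicit false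

namespace Pool.Agent.P.MP_3acc10_al

open Module Finset

lemma card_block (n N b : ℕ) (hN : 0 < N) (h : (b + 1) * N ≤ n) :
    (univ.filter fun x : Fin n => x.val / N = b).card = N := by
  rw [← card_image_of_injective _ Fin.val_injective]
  have : (univ.filter fun x : Fin n => x.val / N = b).image Fin.val = Ico (b * N) (b * N + N) := by
    ext y
    simp only [mem_image, mem_filter, mem_univ, true_and, mem_Ico]
    constructor
    · rintro ⟨x, rfl, rfl⟩
      exact ⟨Nat.div_mul_le_self _ _, Nat.lt_div_mul_add hN⟩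
    · rintro ⟨h1, h2⟩
      refine ⟨⟨y, by nlinarith⟩, ?_, rfl⟩
      exact Nat.div_eq_of_lt_le h1 (by nlinarith)
  rw [this]; simp

lemma load_le (n m N e j r : ℕ) (he : e ≤ j) (hm : 2 * j ≤ m) (h2 : n ≤ (m + 1) * N)
    (hr : r ≤ n ^ e) : r / m.choose e ≤ 2 ^ j * j.factorial * N ^ e := by
  have h1 : n ^ e ≤ (2 ^ j * j.factorial * N ^ e) * m.choose e := by
    have a1 : n ≤ 2 * (m + 1 - e) * N :=
      h2.trans (Nat.mul_le_mul_right _ (by omega))
    have a2 := Nat.pow_sub_le_descFactorial m e
    rw [Nat.descFactorial_eq_factorial_mul_choose] at a2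
    calc n ^ e ≤ (2 * (m + 1 - e) * N) ^ e := Nat.pow_le_pow_left a1 e
      _ = 2 ^ e * (m + 1 - e) ^ e * N ^ e := by rw [mul_pow, mul_pow]
      _ ≤ 2 ^ j * (j.factorial * m.choose e) * N ^ e := by
        refine Nat.mul_le_mul_right _ (Nat.mul_le_mul (Nat.pow_le_pow_right (by norm_num) he) ?_)
        exact a2.trans (Nat.mul_le_mul_right _ (Nat.factorial_le he))
      _ = _ := by ring
  exact Nat.div_le_of_le_mul (by rw [mul_comm]; exact hr.trans h1)

variable {B ι : Type*} [DecidableEq B] [DecidableEq ι]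

lemma sum_sub_insert (M S : Finset B) (hS : S ⊆ M) (i : ℕ) (hi : S.card ≤ i) (f : Finset B → ℝ) :
    ∑ U ∈ M.powersetCard i, (if S ⊆ U then f (U \ S) else 0) =
      ∑ U ∈ (M \ S).powersetCard (i - S.card), f U := by
  rw [← sum_filter]
  refine sum_bij' (fun U _ => U \ S) (fun U _ => U ∪ S) ?_ ?_ ?_ ?_ fun _ _ => rfl
  · intro U hU
    have h1 := mem_filter.1 hU
    have h2 := mem_powersetCard.1 h1.1
    exact mem_powersetCard.2 ⟨sdiff_subset_sdiff h2.1 Subset.rfl,
      by rw [card_sdiff_of_subset h1.2, h2.2]⟩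
  · intro U hU
    have h2 := mem_powersetCard.1 hU
    have h3 := subset_sdiff.1 h2.1
    exact mem_filter.2 ⟨mem_powersetCard.2 ⟨union_subset h3.1 hS,
      by rw [card_union_of_disjoint h3.2]; omega⟩, subset_union_right⟩
  · intro U hU; exact sdiff_union_of_subset (mem_filter.1 hU).2
  · intro U hU
    exact union_sdiff_cancel_right (subset_sdiff.1 (mem_powersetCard.1 hU).1).2

/-- comparison of the block model with the predicted coefficients -/
lemma compare (j : ℕ) : ∃ C : ℝ, 0 ≤ C ∧ ∀ (ι : Type) [DecidableEq ι] (n m N : ℕ) (d : ι → ℕ)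
    (A0 : Finset ι), 0 < N → N ≤ m → 2 * j ≤ m → m * N ≤ n → n ≤ (m + 1) * N →
    (∀ l ∈ A0, 0 < d l) →
    (∀ e ≤ j, 0 < e → ((A0.filter fun l => d l = e).card : ℝ) ≤ (n : ℝ) ^ e) →
    ∃ (A' : Finset ι) (supp : ι → Finset ℕ) (φ : ℤ), A' ⊆ A0 ∧ (∀ i ∈ A', (supp i).card = d i) ∧
      (∀ J ∈ (range m).powersetCard j, Ind N supp A' J = φ) ∧
      (m.choose j * φ : ℝ) ≤ al n d A0 j + C * ((n : ℝ) ^ j / N) := by
  set c : ℕ := 2 ^ j * j.factorial with hc
  set D : ℝ := (1 + 2 ^ j * c) ^ j with hD
  have hD0 : 0 ≤ D := by positivity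
  refine ⟨3 ^ j * ((j + 1) * (D + 1)), by positivity, ?_⟩
  intro ι _ n m N d A0 hN hNm hm h1 h2 hd hcnt
  let ρ : ℕ → ℕ := fun e => (A0.filter fun l => d l = e).card / m.choose e
  let 𝒮 := (range m).powerset.filter fun S => 0 < S.card ∧ S.card ≤ j
  have hfil : ∀ e ≤ j, 0 < e → 𝒮.filter (fun S => S.card = e) = (range m).powersetCard e := by
    intro e he he0
    ext S
    simp only [𝒮, mem_filter, mem_powerset, mem_powersetCard]
    exact ⟨fun h => ⟨h.1.1, h.2⟩, fun h => ⟨⟨h.1, by omega⟩, h.2⟩⟩
  obtain ⟨A', supp, hA', hs, hload⟩ := exists_unif d ρ 𝒮 A0 (fun e => by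
    by_cases he : e ≤ j ∧ 0 < e
    · rw [hfil e he.1 he.2, card_powersetCard, card_range]
      exact Nat.mul_div_le _ _
    · rw [filter_eq_empty_iff.2 fun S hS h => he (by have := (mem_filter.1 hS).2; omega)]
      simp)
  have hne : ∀ i ∈ A', supp i ≠ ∅ := fun i hi h => by
    have := (mem_filter.1 (hs i hi).1).2.1
    simp [h] at this
  obtain ⟨φ, hφ⟩ := Ind_unif (N := N) (range m) j ρ A' hne fun S h1 h2 h3 =>
    hload S (mem_filter.2 ⟨mem_powerset.2 h1, card_pos.2 (nonempty_iff_ne_empty.2 h3), h2⟩)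
  refine ⟨A', supp, φ j, hA', fun i hi => (hs i hi).2, fun J hJ => ?_, ?_⟩
  · have := mem_powersetCard.1 hJ
    rw [hφ J this.1 this.2.le, this.2]
  have hNr : (0 : ℝ) < N := by exact_mod_cast hN
  have b1 : (m : ℝ) * N ≤ n := by exact_mod_cast h1
  have b0 : (N : ℝ) ≤ m := by exact_mod_cast hNm
  have hn : (0 : ℝ) < n := lt_of_lt_of_le (mul_pos (hNr.trans_le b0) hNr) b1
  set η : ℝ := 1 / N with hη
  have hη0 : 0 < η := by positivity
  have hηN : (N : ℝ) ≤ η * n := by
    rw [hη, one_div, ← div_eq_inv_mul, le_div_iff₀ hNr]; nlinarith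
  have hηm : (m : ℝ) ≤ η * n := by
    rw [hη, one_div, ← div_eq_inv_mul, le_div_iff₀ hNr]; exact b1
  have hmn : (m : ℝ) ≤ n := by
    have : (1 : ℝ) ≤ N := by exact_mod_cast hN
    nlinarith [hNr.trans_le b0]
  have habs : ∀ A : Finset ι, ∀ k ≤ j, ∀ U : Finset ℕ, U.card = k →
      |(Ind N supp (A ∩ A') U : ℝ)| ≤ D * (N : ℝ) ^ k := by
    intro A k hk U hU
    have := Ind_abs (N := N) (supp := supp) j c (A ∩ A')
      (fun i hi => hne i (mem_inter.1 hi).2) (fun S hS => ?_) k hk U hU
    · have h3 : |(Ind N supp (A ∩ A') U : ℝ)| ≤ (1 + 2 ^ j * c) ^ k * (N : ℝ) ^ k := by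
        exact_mod_cast this
      refine h3.trans (mul_le_mul_of_nonneg_right (pow_le_pow_right₀ ?_ hk) (by positivity))
      have : (0 : ℝ) ≤ 2 ^ j * c := by positivity
      linarith
    · refine (card_le_card (filter_subset_filter _ inter_subset_right)).trans ?_
      by_cases h : S ∈ 𝒮
      · rw [hload S h]
        refine load_le n m N _ j _ hS hm h2 ?_
        exact_mod_cast hcnt _ hS (mem_filter.1 h).2.1
      · rw [filter_eq_empty_iff.2 fun i hi (e : supp i = S) => h (e ▸ (hs i hi).1)]; simp
  have hsum : ∀ A : Finset ι, ∀ k ≤ j, ∀ 𝒯 ⊆ (range m).powersetCard k,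
      |∑ U ∈ 𝒯, (Ind N supp (A ∩ A') U : ℝ)| ≤ 𝒯.card * (D * (N : ℝ) ^ k) := by
    intro A k hk 𝒯 h𝒯
    refine (abs_sum_le_sum_abs _ _).trans ?_
    rw [← nsmul_eq_mul]
    exact sum_le_card_nsmul _ _ _ fun U hU => habs A k hk U (mem_powersetCard.1 (h𝒯 hU)).2
  have hpow : ∀ k : ℕ, (m : ℝ) ^ k * N ^ k ≤ (n : ℝ) ^ k := fun k => by
    rw [← mul_pow]; exact pow_le_pow_left₀ (by positivity) b1 k
  have key := pert (fun A i => ∑ U ∈ (range m).powersetCard i, (Ind N supp (A ∩ A') U : ℝ) -
      al n d A i) A0 d hd j n ((j + 1) * (D + 1) * η) hn.le (by positivity)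
    (fun l => if l ∈ A' then j * D * η else D) (fun l => by split_ifs <;> positivity)
    (fun i hi => ?_) (fun A hA l hl hlA i hi => ?_) hcnt (fun e he he0 => ?_) j le_rfl A0 Subset.rfl
  · rw [inter_eq_right.2 hA', sum_congr rfl (g := fun _ => (φ j : ℝ)) (fun J hJ => by
      have := mem_powersetCard.1 hJ
      rw [hφ J this.1 this.2.le, this.2]), sum_const, card_powersetCard, card_range,
      nsmul_eq_mul] at key
    have := (abs_le.1 key).2
    have e : (n : ℝ) ^ j / N = η * (n : ℝ) ^ j := by rw [hη]; ring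
    rw [e]
    linarith
  · rw [empty_inter, sum_congr rfl (g := fun _ => (N : ℝ) ^ i) (fun J hJ => by
      rw [Ind_empty, (mem_powersetCard.1 hJ).2]; simp), sum_const, card_powersetCard, card_range,
      nsmul_eq_mul, al_empty, abs_sub_comm]
    have a1 := choose_gap n m N h1 h2 i
    have a2 : m.choose i * N ^ i ≤ n.choose i := by
      have := card_nontr (fun x : Fin n => x.val / N) N i (range m) fun b hb =>
        card_block n N b hN ((Nat.mul_le_mul_right _ (mem_range.1 hb)).trans h1)
      rw [card_range, Fintype.card_fin] at this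
      omega
    have a3 : (m.choose i : ℝ) * N ^ i ≤ n.choose i := by exact_mod_cast a2
    push_cast
    rw [abs_of_nonneg (by linarith)]
    refine le_of_mul_le_mul_right (a1.trans ?_) hn
    have a4 : (i : ℝ) ≤ (j + 1) * (D + 1) := by
      have : (i : ℝ) ≤ j := by exact_mod_cast hi
      have : (0 : ℝ) ≤ j := by positivity
      nlinarith
    calc (i : ℝ) * N * (n : ℝ) ^ i ≤ ((j + 1) * (D + 1)) * (η * n) * (n : ℝ) ^ i := by gcongr
      _ = _ := by ring
  · simp only [al_insert n d hlA]
    by_cases hl' : l ∈ A'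
    · have hS := mem_powerset.1 (mem_filter.1 (hs l hl').1).1
      have hcd := (hs l hl').2
      rw [insert_inter_of_mem hl', if_pos hl']
      simp only [Ind_insert (show l ∉ A ∩ A' from fun h => hlA (mem_inter.1 h).1)]
      push_cast
      rw [sum_sub_distrib]
      split_ifs with h
      · rw [sum_sub_insert _ _ hS i (hcd ▸ h) fun U => (Ind N supp (A ∩ A') U : ℝ), hcd]
        have hsub : (range m \ supp l).powersetCard (i - d l) ⊆ (range m).powersetCard (i - d l) :=
          powersetCard_mono sdiff_subset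
        have a1 := hsum A (i - d l) (by omega) _ (sdiff_subset (s := (range m).powersetCard (i - d l))
          (t := (range m \ supp l).powersetCard (i - d l)))
        rw [sum_sdiff_eq_sub hsub, card_sdiff_of_subset hsub, card_powersetCard, card_powersetCard,
          card_sdiff_of_subset hS, card_range, hcd] at a1
        have a2 : ((m.choose (i - d l) - (m - d l).choose (i - d l) : ℕ) : ℝ) *
            (D * (N : ℝ) ^ (i - d l)) ≤ j * D * η * (n : ℝ) ^ (i - d l) := by
          rcases hk : i - d l with _ | k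
          · simp; positivity
          · have a3 := choose_add_le (m - d l) (d l) k
            rw [Nat.sub_add_cancel (by omega)] at a3
            have a4 : ((m.choose (k + 1) - (m - d l).choose (k + 1) : ℕ) : ℝ) ≤ j * (m : ℝ) ^ k := by
              have : m.choose (k + 1) - (m - d l).choose (k + 1) ≤ j * m ^ k :=
                le_trans (by omega) (Nat.mul_le_mul_right (m ^ k) (show d l ≤ j by omega))
              exact_mod_cast this
            have := hpow k
            calc _ ≤ (j * (m : ℝ) ^ k) * (D * (N : ℝ) ^ (k + 1)) := by gcongr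
              _ = j * D * ((m : ℝ) ^ k * N ^ k) * N := by ring
              _ ≤ j * D * (n : ℝ) ^ k * (η * n) := by gcongr
              _ = _ := by ring
        have a5 := abs_le.1 (a1.trans a2)
        have a6 := le_abs_self (∑ U ∈ (range m).powersetCard (i - d l),
          (Ind N supp (A ∩ A') U : ℝ) - al n d A (i - d l))
        have a7 := neg_abs_le (∑ U ∈ (range m).powersetCard (i - d l),
          (Ind N supp (A ∩ A') U : ℝ) - al n d A (i - d l))
        rw [abs_le]
        constructor <;> linarith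
      · rw [sum_eq_zero (f := fun U => if supp l ⊆ U then (Ind N supp (A ∩ A') (U \ supp l) : ℝ)
          else 0) fun U hU => if_neg fun h' => h (by
            have := card_le_card h'
            rw [(mem_powersetCard.1 hU).2] at this; omega)]
        simp
    · rw [insert_inter_of_notMem hl', if_neg hl']
      split_ifs with h
      · have a1 := hsum A (i - d l) (by omega) _ Subset.rfl
        rw [card_powersetCard, card_range] at a1
        have a2 : (m.choose (i - d l) : ℝ) * (D * (N : ℝ) ^ (i - d l)) ≤ D * (n : ℝ) ^ (i - d l) := by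
          have := hpow (i - d l)
          have := choose_le_pow_real m (i - d l)
          calc _ ≤ (m : ℝ) ^ (i - d l) * (D * (N : ℝ) ^ (i - d l)) := by gcongr
            _ = D * ((m : ℝ) ^ (i - d l) * N ^ (i - d l)) := by ring
            _ ≤ _ := by gcongr
        have a5 := abs_le.1 (a1.trans a2)
        have a6 := le_abs_self (∑ U ∈ (range m).powersetCard (i - d l),
          (Ind N supp (A ∩ A') U : ℝ) - al n d A (i - d l))
        have a7 := neg_abs_le (∑ U ∈ (range m).powersetCard (i - d l),
          (Ind N supp (A ∩ A') U : ℝ) - al n d A (i - d l))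
        push_cast
        rw [abs_le]
        constructor <;> linarith
      · simp
  · rw [sum_ite, sum_const, sum_const, nsmul_eq_mul, nsmul_eq_mul]
    have a1 : (((A0.filter fun l => d l = e).filter (· ∈ A')).card : ℝ) ≤ (n : ℝ) ^ e :=
      le_trans (by exact_mod_cast card_filter_le _ _) (hcnt e he he0)
    have a2 : ((A0.filter fun l => d l = e).filter (· ∈ A')).card = m.choose e * ρ e := by
      rw [card_eq_sum_card_fiberwise (f := supp) (t := (range m).powersetCard e) (fun i hi => by
        have hi := mem_filter.1 (mem_coe.1 hi)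
        have := hs i hi.2
        exact mem_coe.2 (mem_powersetCard.2 ⟨mem_powerset.1 (mem_filter.1 this.1).1,
          this.2.trans (mem_filter.1 hi.1).2⟩)),
        sum_congr rfl (g := fun _ => ρ e), sum_const, card_powersetCard, card_range, smul_eq_mul]
      intro S hS
      have hS' := hS
      rw [← hfil e he he0, mem_filter] at hS'
      rw [← hS'.2, ← hload S hS'.1]
      congr 1
      ext i
      simp only [mem_filter]
      refine ⟨fun h => ⟨h.1.2, h.2⟩, fun h => ⟨⟨⟨hA' h.1, ?_⟩, h.1⟩, h.2⟩⟩
      rw [← (hs i h.1).2, h.2]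
    have a3 := card_filter_add_card_filter_not (s := A0.filter fun l => d l = e) (· ∈ A')
    have a4 := Nat.div_add_mod (A0.filter fun l => d l = e).card (m.choose e)
    have a5 := Nat.mod_lt (A0.filter fun l => d l = e).card (Nat.choose_pos (show e ≤ m by omega))
    have a6 : (((A0.filter fun l => d l = e).filter (· ∉ A')).card : ℝ) ≤ η * (n : ℝ) ^ e := by
      have : ((A0.filter fun l => d l = e).filter (· ∉ A')).card ≤ m.choose e := by
        simp only [ρ] at a2
        omega
      refine le_trans (by exact_mod_cast this) ((choose_le_pow_real m e).trans ?_)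
      obtain ⟨k, rfl⟩ : ∃ k, e = k + 1 := ⟨e - 1, by omega⟩
      calc (m : ℝ) ^ (k + 1) = m * (m : ℝ) ^ k := by ring
        _ ≤ (η * n) * (n : ℝ) ^ k := by gcongr
        _ = _ := by ring
    have a7 : (0 : ℝ) ≤ η * (n : ℝ) ^ e := by positivity
    calc _ ≤ (n : ℝ) ^ e * (j * D * η) + η * (n : ℝ) ^ e * D := by gcongr
      _ = (j + 1) * D * (η * (n : ℝ) ^ e) := by ring
      _ ≤ (j + 1) * (D + 1) * (η * (n : ℝ) ^ e) := by gcongr; linarith
      _ = _ := by ring

theorem upper (j : ℕ) : ∃ C : ℝ, 0 ≤ C ∧ ∀ (K : Type) [Field K] [Infinite K] (ι : Type)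
    [Fintype ι] [DecidableEq ι] (n m N : ℕ) (d : ι → ℕ)
    (A0 : Finset ι), 0 < N → N ≤ m → 2 * j ≤ m → m * N ≤ n → n ≤ (m + 1) * N →
    (∀ l ∈ A0, 0 < d l) →
    (∀ e ≤ j, 0 < e → ((A0.filter fun l => d l = e).card : ℝ) ≤ (n : ℝ) ^ e) →
    Gen fun c : ι × Finset (Fin n) → K => (finrank K (WF j d A0 c) : ℝ) ≤
      max (al n d A0 j : ℝ) 0 + C * ((n : ℝ) ^ j / N) := by
  obtain ⟨C, hC, h⟩ := compare j
  refine ⟨C + j * 2 ^ (j + 1) + j, by positivity, ?_⟩
  intro K _ _ ι _ _ n m N d A0 hN hNm hm h1 h2 hd hcnt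
  obtain ⟨A', supp, φ, hA', hs, hφ, hle⟩ := h ι n m N d A0 hN hNm hm h1 h2 hd hcnt
  have hβ : ∀ b ∈ range m, (univ.filter fun x : Fin n => x.val / N = b).card = N := fun b hb =>
    card_block n N b hN ((Nat.mul_le_mul_right _ (mem_range.1 hb)).trans h1)
  refine (assemble (K := K) (fun x : Fin n => x.val / N) N j (range m) hβ d supp A' hs
    (max φ 0 + j * 2 ^ (j + 1) * N ^ (j - 1)) fun J hJ => ?_).mono fun c hc => ?_
  · have hJ' := mem_powersetCard.1 hJ
    refine (gen_WM N hN j J hJ'.2 (fun b hb => hβ b (hJ'.1 hb)) supp A').mono fun c hc =>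
      hc.trans (add_le_add_left ?_ _)
    exact hφ J hJ ▸ Sh_le_max A' J
  have hNr : (0 : ℝ) < N := by exact_mod_cast hN
  have b1 : (m : ℝ) * N ≤ n := by exact_mod_cast h1
  have b0 : (N : ℝ) ≤ m := by exact_mod_cast hNm
  have hn : (0 : ℝ) < n := lt_of_lt_of_le (mul_pos (hNr.trans_le b0) hNr) b1
  have a0 : (finrank K (WF j d A0 c) : ℝ) ≤ finrank K (WF j d A' c) := by
    exact_mod_cast Submodule.finrank_mono (W_anti _ hA' _)
  rw [card_range, Fintype.card_fin] at hc
  have a1 : (finrank K (WF j d A' c) : ℝ) ≤ m.choose j * (max (φ : ℝ) 0 +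
      j * 2 ^ (j + 1) * (N : ℝ) ^ (j - 1)) + (n.choose j - m.choose j * (N : ℝ) ^ j) := by
    exact_mod_cast hc
  have a2 : (n.choose j - m.choose j * (N : ℝ) ^ j) ≤ j * ((n : ℝ) ^ j / N) := by
    refine le_of_mul_le_mul_right ((choose_gap n m N h1 h2 j).trans ?_) hn
    have : (N : ℝ) ≤ n / N := by rw [le_div_iff₀ hNr]; nlinarith
    calc (j : ℝ) * N * (n : ℝ) ^ j ≤ j * (n / N) * (n : ℝ) ^ j := by gcongr
      _ = _ := by ring
  have a3 : (m.choose j : ℝ) * (j * 2 ^ (j + 1) * (N : ℝ) ^ (j - 1)) ≤
      j * 2 ^ (j + 1) * ((n : ℝ) ^ j / N) := by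
    rcases j with _ | j
    · simp
    · have := choose_le_pow_real m (j + 1)
      have h3 : ((m : ℝ) * N) ^ (j + 1) ≤ (n : ℝ) ^ (j + 1) := by gcongr
      rw [Nat.add_sub_cancel]
      calc _ ≤ (m : ℝ) ^ (j + 1) * (((j + 1 : ℕ) : ℝ) * 2 ^ (j + 1 + 1) * (N : ℝ) ^ j) := by gcongr
        _ = ((j + 1 : ℕ) : ℝ) * 2 ^ (j + 1 + 1) * (((m : ℝ) * N) ^ (j + 1) / N) := by
          field_simp; ring
        _ ≤ _ := by gcongr
  have a4 : (0 : ℝ) ≤ C * ((n : ℝ) ^ j / N) := by positivity
  have a5 : (m.choose j : ℝ) * max (φ : ℝ) 0 ≤ max (al n d A0 j : ℝ) 0 + C * ((n : ℝ) ^ j / N) := by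
    rcases le_total (φ : ℝ) 0 with h | h
    · rw [max_eq_right h, mul_zero]; positivity
    · rw [max_eq_left h]; linarith [le_max_left (al n d A0 j : ℝ) 0]
  nlinarith

end Pool.Agent.P.MP_3acc10_al
end

-- part Pool.Agent.P.MP_3acc10_al.Asym
section

set_option autoImplicit false

namespace Pool.Agent.P.MP_3acc10_al

open Module Finset

open Classical in
/-- coefficient of the truncated series -/
noncomputable def ex {ι : Type*} (n : ℕ) (d : ι → ℕ) (A : Finset ι) (j : ℕ) : ℤ :=
  if ∀ i ≤ j, 0 < al n d A i then al n d A j else 0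

lemma kill {K : Type*} [Field K] {σ ι : Type*} [Fintype σ] [DecidableEq σ] [Fintype ι]
    [DecidableEq ι] (e : ℕ) (d : ι → ℕ) (A : Finset ι)
    (h : (Fintype.card σ).choose e < (A.filter fun l => d l = e).card) :
    Gen fun c : ι × Finset σ → K => finrank K (WF e d A c) ≤ 0 := by
  obtain ⟨l0, -⟩ : (A.filter fun l => d l = e).Nonempty := card_pos.1 (by omega)
  have : Nonempty ι := ⟨l0⟩
  obtain ⟨g, hg, hinj⟩ := Set.Finite.exists_injOn_of_encard_le
    (s := ((univ : Finset σ).powersetCard e : Set (Finset σ)))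
    (t := ((A.filter fun l => d l = e : Finset ι) : Set ι)) (finite_toSet _) (by
      rw [Set.encard_coe_eq_coe_finsetCard, Set.encard_coe_eq_coe_finsetCard, card_powersetCard,
        card_univ]
      exact_mod_cast h.le)
  refine gen_W _ _ _ 0 (fun p => if g p.2 = p.1 then 1 else 0) ?_
  rw [Nat.le_zero, Submodule.finrank_eq_zero, eq_bot_iff]
  intro F hF
  rw [Submodule.mem_bot]
  ext X
  by_cases hX : X.card = e
  · have hX' : X ∈ (univ : Finset σ).powersetCard e := mem_powersetCard.2 ⟨subset_univ _, hX⟩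
    have h1 := mem_filter.1 (mem_coe.1 (hg (mem_coe.2 hX')))
    have h2 := congrFun (hF.2 (g X) h1.1) ∅
    have h3 : mask (fun i Y => Y.card = d i)
        (fun p : ι × Finset σ => if g p.2 = p.1 then (1 : K) else 0) (g X) = Pi.single X 1 := by
      ext Y
      simp only [mask, h1.2]
      by_cases hY : Y = X
      · simp [hY, hX]
      · rw [Pi.single_eq_of_ne hY]
        split_ifs with h4 h5
        · exact absurd (hinj (mem_coe.2 (mem_powersetCard.2 ⟨subset_univ _, h4⟩)) hX' h5) hY
        · rfl
        · rfl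
    rw [h3, act_single] at h2
    simpa using h2
  · exact hF.1 X hX

theorem asym0 (j : ℕ) : ∃ C : ℝ, 0 ≤ C ∧ ∀ (K : Type) [Field K] [Infinite K] (ι : Type)
    [Fintype ι] [DecidableEq ι] (n m N : ℕ) (d : ι → ℕ)
    (A0 : Finset ι), 0 < N → N ≤ m → 2 * j ≤ m → m * N ≤ n → n ≤ (m + 1) * N →
    (∀ l ∈ A0, 0 < d l) →
    Gen fun c : ι × Finset (Fin n) → K => |(finrank K (WF j d A0 c) : ℝ) - ex n d A0 j| ≤
      C * ((n : ℝ) ^ j / N) := by
  choose Cf hCf h using upper
  set C := ∑ i ∈ range (j + 1), Cf i with hC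
  have hC0 : 0 ≤ C := sum_nonneg fun i _ => hCf i
  have hle : ∀ i ≤ j, Cf i ≤ C := fun i hi =>
    single_le_sum (f := Cf) (fun i _ => hCf i) (mem_range.2 (by omega))
  refine ⟨(j + 1) * C, by positivity, ?_⟩
  intro K _ _ ι _ _ n m N d A0 hN hNm hm h1 h2 hd
  have up : ∀ i ≤ j, ∀ A ⊆ A0,
      (∀ e ≤ i, 0 < e → ((A0.filter fun l => d l = e).card : ℝ) ≤ (n : ℝ) ^ e) →
      Gen fun c : ι × Finset (Fin n) → K => (finrank K (WF i d A c) : ℝ) ≤
        max (al n d A i : ℝ) 0 + C * ((n : ℝ) ^ i / N) := by
    intro i hi A hA hc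
    refine (h i K ι n m N d A hN hNm (by omega) h1 h2 (fun l hl => hd l (hA hl))
      fun e he he0 => le_trans ?_ (hc e he he0)).mono fun c hc => hc.trans ?_
    · exact_mod_cast card_le_card (filter_subset_filter _ hA)
    · have := hle i hi
      gcongr
  have hq : (0 : ℝ) ≤ C * ((n : ℝ) ^ j / N) := by positivity
  have hj0 : (0 : ℝ) ≤ j := by positivity
  by_cases hpos : ∀ i ≤ j, 0 < al n d A0 i
  · rw [ex, if_pos hpos]
    have hcnt := count_le n d j hd hpos
    refine (Gen.all A0.powerset fun A hA => Gen.all (range (j + 1)) fun i hi =>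
      up i (Nat.lt_succ_iff.1 (mem_range.1 hi)) A (mem_powerset.1 hA) fun e he =>
        hcnt e (he.trans (Nat.lt_succ_iff.1 (mem_range.1 hi)))).mono fun c hc => ?_
    have hc' : ∀ A ⊆ A0, ∀ i ≤ j, (finrank K (WF i d A c) : ℝ) ≤
        al n d A i + C * ((n : ℝ) ^ i / N) := by
      intro A hA i hi
      have := hc A (mem_powerset.2 hA) i (mem_range.2 (by omega))
      rwa [max_eq_left] at this
      exact_mod_cast ((hpos i hi).trans_le (al_le_of_subset n d j hA hd hpos i hi)).le
    have low : ∀ A ⊆ A0, (al n d A j : ℝ) ≤ finrank K (WF j d A c) +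
        ∑ l ∈ A, if d l ≤ j then C * ((n : ℝ) ^ (j - d l) / N) else 0 := by
      intro A
      induction A using Finset.induction_on with
      | empty => intro _; simp [finrank_WF_empty]
      | insert l A hl ih =>
        intro hA
        have hA' : A ⊆ A0 := (subset_insert _ _).trans hA
        have a1 := ih hA'
        have a2 := lower_step j d A l c
        rw [sum_insert hl, al_insert n d hl]
        split_ifs at a2 ⊢ with h
        · have a3 := hc' A hA' (j - d l) (by omega)
          have a2 : (finrank K (WF j d A c) : ℝ) ≤ finrank K (WF j d (insert l A) c) +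
            finrank K (WF (j - d l) d A c) := by exact_mod_cast a2
          push_cast
          linarith
        · have a2 : (finrank K (WF j d A c) : ℝ) ≤ finrank K (WF j d (insert l A) c) := by
            exact_mod_cast a2
          push_cast
          linarith
    have a1 := low A0 Subset.rfl
    rw [sum_by_degree d A0 hd] at a1
    have a2 : ∀ k ∈ range j, ∑ l ∈ A0.filter (fun l => d l = j - k),
        C * ((n : ℝ) ^ (j - d l) / N) ≤ C * ((n : ℝ) ^ j / N) := by
      intro k hk
      have hk := mem_range.1 hk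
      rw [sum_congr rfl (g := fun _ => C * ((n : ℝ) ^ k / N)) (fun l hl => by
        rw [(mem_filter.1 hl).2, show j - (j - k) = k by omega]), sum_const, nsmul_eq_mul]
      have := hcnt (j - k) (by omega) (by omega)
      calc _ ≤ (n : ℝ) ^ (j - k) * (C * ((n : ℝ) ^ k / N)) := by gcongr
        _ = C * (((n : ℝ) ^ (j - k) * (n : ℝ) ^ k) / N) := by ring
        _ = _ := by rw [← pow_add, show j - k + k = j by omega]
    have a3 := sum_le_card_nsmul _ _ _ a2
    rw [card_range, nsmul_eq_mul] at a3
    have a4 := hc' A0 Subset.rfl j le_rfl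
    rw [abs_le]
    constructor <;> nlinarith
  · rw [ex, if_neg hpos]
    have hex : ∃ i, i ≤ j ∧ al n d A0 i ≤ 0 := by simpa using hpos
    obtain ⟨hi, hi0⟩ := Nat.find_spec hex
    have hmin := fun k => Nat.find_min hex (m := k)
    set i := Nat.find hex
    have fin : Gen fun c : ι × Finset (Fin n) → K =>
        (finrank K (WF i d A0 c) : ℝ) ≤ C * ((n : ℝ) ^ i / N) := by
      by_cases hb : n.choose i < (A0.filter fun l => d l = i).card
      · refine (kill i d A0 (by rwa [Fintype.card_fin])).mono fun c hc => ?_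
        rw [Nat.le_zero.1 hc, Nat.cast_zero]; positivity
      · refine (up i hi A0 Subset.rfl fun e he he0 => ?_).mono fun c hc => ?_
        · rcases he.lt_or_eq with he | rfl
          · refine count_le n d e hd (fun k hk => ?_) e le_rfl he0
            by_contra h3
            exact hmin k (by omega) ⟨by omega, not_lt.1 h3⟩
          · exact le_trans (by exact_mod_cast not_lt.1 hb) (choose_le_pow_real n _)
        · rwa [max_eq_right (by exact_mod_cast hi0), zero_add] at hc
    refine fin.mono fun c hc => ?_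
    have a1 := finrank_WF_add i (j - i) d A0 c
    rw [Fintype.card_fin, show i + (j - i) = j by omega] at a1
    have a2 : (finrank K (WF j d A0 c) : ℝ) ≤ (n : ℝ) ^ (j - i) * finrank K (WF i d A0 c) := by
      exact_mod_cast a1
    have a3 : (n : ℝ) ^ (j - i) * finrank K (WF i d A0 c) ≤ C * ((n : ℝ) ^ j / N) :=
      calc _ ≤ (n : ℝ) ^ (j - i) * (C * ((n : ℝ) ^ i / N)) := by gcongr
        _ = C * (((n : ℝ) ^ (j - i) * (n : ℝ) ^ i) / N) := by ring
        _ = _ := by rw [← pow_add, show j - i + i = j by omega]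
    rw [Int.cast_zero, sub_zero, Nat.abs_cast]
    nlinarith

lemma ex_bounds {ι : Type*} [DecidableEq ι] (n : ℕ) (d : ι → ℕ) (A : Finset ι) (j : ℕ)
    (hd : ∀ l ∈ A, 0 < d l) : 0 ≤ ex n d A j ∧ ex n d A j ≤ n.choose j := by
  rw [ex]
  split_ifs with h
  · exact ⟨(h j le_rfl).le, by simpa using al_le_of_subset n d j (empty_subset A) hd h j le_rfl⟩
  · simp

theorem asym (j : ℕ) : ∃ C : ℝ, 0 ≤ C ∧ ∀ (K : Type) [Field K] [Infinite K] (ι : Type)
    [Fintype ι] [DecidableEq ι] (n : ℕ) (d : ι → ℕ) (A0 : Finset ι), (∀ l ∈ A0, 0 < d l) →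
    Gen fun c : ι × Finset (Fin n) → K => |(finrank K (WF j d A0 c) : ℝ) - ex n d A0 j| * √n ≤
      C * (n : ℝ) ^ j := by
  obtain ⟨C, hC, h⟩ := asym0 j
  refine ⟨2 * C + (2 * j + 1), by positivity, ?_⟩
  intro K _ _ ι _ _ n d A0 hd
  have hs : √(n : ℝ) ≤ n.sqrt + 1 := by
    rw [Real.sqrt_le_left (by positivity)]
    exact_mod_cast (Nat.lt_succ_sqrt' n).le
  have hp : (0 : ℝ) ≤ (n : ℝ) ^ j := by positivity
  by_cases hn : 2 * j + 1 ≤ n.sqrt
  · have hN : 0 < n.sqrt := by omega
    have hNm : n.sqrt ≤ n / n.sqrt := (Nat.le_div_iff_mul_le hN).2 (Nat.sqrt_le n)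
    refine (h K ι n (n / n.sqrt) n.sqrt d A0 hN hNm (by omega) (Nat.div_mul_le_self _ _)
      (by rw [add_mul, one_mul]; exact (Nat.lt_div_mul_add hN).le) hd).mono fun c hc => ?_
    have hNr : (1 : ℝ) ≤ n.sqrt := by exact_mod_cast hN
    calc _ ≤ C * ((n : ℝ) ^ j / n.sqrt) * (2 * n.sqrt) := by gcongr; linarith
      _ = 2 * C * (n : ℝ) ^ j := by field_simp
      _ ≤ _ := by gcongr; linarith [show (0 : ℝ) ≤ j by positivity]
  · refine Gen.of_forall fun c => ?_
    have a1 := finrank_WF_le j d A0 c
    rw [Fintype.card_fin] at a1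
    have a2 : (finrank K (WF j d A0 c) : ℝ) ≤ n.choose j := by exact_mod_cast a1
    have a3 : (0 : ℝ) ≤ ex n d A0 j := by exact_mod_cast (ex_bounds n d A0 j hd).1
    have a4 : (ex n d A0 j : ℝ) ≤ n.choose j := by exact_mod_cast (ex_bounds n d A0 j hd).2
    have a5 := choose_le_pow_real n j
    have a6 : (0 : ℝ) ≤ finrank K (WF j d A0 c) := by positivity
    have a7 : |(finrank K (WF j d A0 c) : ℝ) - ex n d A0 j| ≤ (n : ℝ) ^ j := by
      rw [abs_le]; constructor <;> linarith
    have a8 : (n.sqrt : ℝ) ≤ 2 * j := by exact_mod_cast (show n.sqrt ≤ 2 * j by omega)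
    calc _ ≤ (n : ℝ) ^ j * (2 * j + 1) := by gcongr; linarith
      _ ≤ _ := by nlinarith

end Pool.Agent.P.MP_3acc10_al
end

-- part Pool.Agent.P.MP_3acc10_al.Bridge
section

set_option autoImplicit false

namespace Pool.Agent.P.MP_3acc10_al

open Module Finset MvPolynomial

variable {K : Type} [Field K] {n r : ℕ}

noncomputable def ind (S : Finset (Fin n)) : Fin n →₀ ℕ := ∑ s ∈ S, Finsupp.single s 1

lemma ind_apply (S : Finset (Fin n)) (s : Fin n) : ind S s = if s ∈ S then 1 else 0 := by
  simp [ind, Finsupp.finsetSum_apply, Finsupp.single_apply]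

lemma prod_X (S : Finset (Fin n)) :
    ∏ s ∈ S, (X s : MvPolynomial (Fin n) K) = monomial (ind S) 1 := by
  rw [ind, monomial_sum_one]; rfl

lemma ind_support {m : Fin n →₀ ℕ} (h : ∀ s, m s ≤ 1) : ind m.support = m := by
  ext s
  have := h s
  rw [ind_apply]
  split_ifs with h1
  · have := Finsupp.mem_support_iff.1 h1; omega
  · exact (Finsupp.notMem_support_iff.1 h1).symm

lemma support_ind (S : Finset (Fin n)) : (ind S).support = S := by
  ext s; simp [ind_apply]

lemma degree_ind (S : Finset (Fin n)) : (ind S).degree = S.card := by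
  simp [ind]

lemma ind_add {S T : Finset (Fin n)} (h : Disjoint S T) : ind S + ind T = ind (S ∪ T) := by
  rw [ind, ind, ind, sum_union h]

lemma monomial_mul_form (e : ℕ) (g : Finset (Fin n) → K) (m : Fin n →₀ ℕ) :
    monomial m 1 * form e g =
      ∑ Y : Finset (Fin n), (if Y.card = e then g Y else 0) • monomial (ind Y + m) (1 : K) := by
  rw [form, mul_sum, powersetCard_eq_filter, powerset_univ, sum_filter]
  refine sum_congr rfl fun Y _ => ?_
  split_ifs
  · rw [prod_X, C_mul', mul_smul_comm, monomial_mul, add_comm, one_mul]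
  · simp

lemma mem_idl_of_two (d : Fin r → ℕ) (c : Fin r × Finset (Fin n) → K) {m : Fin n →₀ ℕ}
    (h : ¬ ∀ s, m s ≤ 1) : monomial m (1 : K) ∈ idl d c := by
  push Not at h
  obtain ⟨s, hs⟩ := h
  have : monomial m (1 : K) = monomial (m - Finsupp.single s 2) 1 * X s ^ 2 := by
    rw [X_pow_eq_monomial, monomial_mul, tsub_add_cancel_of_le (Finsupp.single_le_iff.2 hs),
      one_mul]
  rw [this]
  exact Ideal.mul_mem_left _ _ (Ideal.subset_span (Or.inl ⟨s, rfl⟩))

lemma sqfree_add {Y : Finset (Fin n)} {m : Fin n →₀ ℕ} :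
    (∀ s, (ind Y + m) s ≤ 1) ↔ (∀ s, m s ≤ 1) ∧ Disjoint Y m.support := by
  simp only [Finsupp.add_apply, ind_apply, disjoint_left, Finsupp.notMem_support_iff]
  constructor
  · intro h
    exact ⟨fun s => by have := h s; omega, fun s hs => by have := h s; rw [if_pos hs] at this; omega⟩
  · rintro ⟨h1, h2⟩ s
    split_ifs with hs
    · simp [h2 hs]
    · simpa using h1 s

open Classical in
noncomputable def lam (F : Finset (Fin n) → K) : MvPolynomial (Fin n) K →ₗ[K] K :=
  (basisMonomials (Fin n) K).constr K fun m => if ∀ s, m s ≤ 1 then F m.support else 0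

open Classical in
lemma lam_monomial (F : Finset (Fin n) → K) (m : Fin n →₀ ℕ) :
    lam F (monomial m 1) = if ∀ s, m s ≤ 1 then F m.support else 0 :=
  (basisMonomials (Fin n) K).constr_basis K _ m

lemma lam_ind (F : Finset (Fin n) → K) (S : Finset (Fin n)) : lam F (monomial (ind S) 1) = F S := by
  rw [lam_monomial, if_pos, support_ind]
  intro s; rw [ind_apply]; split_ifs <;> simp

lemma mask_eq (d : Fin r → ℕ) (c : Fin r × Finset (Fin n) → K) (i : Fin r) (Y : Finset (Fin n)) :
    mask (fun i Y => Y.card = d i) c i Y = if Y.card = d i then c (i, Y) else 0 := by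
  simp [mask]

lemma lam_idl {j : ℕ} {d : Fin r → ℕ} {c : Fin r × Finset (Fin n) → K} {F : Finset (Fin n) → K}
    (hF : F ∈ WF j d univ c) {p : MvPolynomial (Fin n) K} (hp : p ∈ idl d c) : lam F p = 0 := by
  have key : ∀ q, lam F (q * p) = 0 := by
    induction hp using Submodule.span_induction with
    | mem g hg =>
      intro q
      have : ∀ m : Fin n →₀ ℕ, lam F (monomial m 1 * g) = 0 := by
        intro m
        rcases hg with ⟨s, rfl⟩ | ⟨i, rfl⟩
        · simp only
          rw [X_pow_eq_monomial, monomial_mul, one_mul, lam_monomial, if_neg]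
          intro h
          have := h s
          simp at this
        · simp only
          rw [monomial_mul_form, map_sum]
          by_cases hm : ∀ s, m s ≤ 1
          · refine Eq.trans ?_ (congrFun (hF.2 i (mem_univ _)) m.support)
            refine sum_congr rfl fun Y _ => ?_
            rw [map_smul, lam_monomial, mask_eq, smul_eq_mul]
            by_cases hd : Disjoint Y m.support
            · rw [if_pos (sqfree_add.2 ⟨hm, hd⟩), if_pos hd]
              conv_lhs => rw [← ind_support hm, ind_add hd, support_ind]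
            · rw [if_neg fun h => hd (sqfree_add.1 h).2, if_neg hd, mul_zero]
          · refine sum_eq_zero fun Y _ => ?_
            rw [map_smul, lam_monomial, if_neg fun h => hm (sqfree_add.1 h).1, smul_zero]
      induction q using MvPolynomial.induction_on' with
      | monomial m a =>
        rw [show monomial m a = a • monomial m (1 : K) by simp [smul_monomial], smul_mul_assoc,
          map_smul, this, smul_zero]
      | add q q' h h' => rw [add_mul, map_add, h, h', add_zero]
    | zero => simp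
    | add x y _ _ hx hy => intro q; rw [mul_add, map_add, hx, hy, add_zero]
    | smul a x _ hx => intro q; rw [smul_eq_mul, ← mul_assoc, hx]
  simpa using key 1

theorem hilb_eq (d : Fin r → ℕ) (c : Fin r × Finset (Fin n) → K) (j : ℕ) :
    hilb d c j = finrank K (WF j d univ c) := by
  classical
  set π := (Ideal.Quotient.mkₐ K (idl d c)).toLinearMap with hπ
  set H := (homogeneousSubmodule (Fin n) K j).map π with hH
  have hπ0 : ∀ p, π p = 0 ↔ p ∈ idl d c := fun p => Ideal.Quotient.eq_zero_iff_mem
  have hmem : ∀ S : Finset (Fin n), S.card = j → π (monomial (ind S) 1) ∈ H := fun S hS =>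
    ⟨_, isHomogeneous_monomial _ (by rw [degree_ind, hS]), rfl⟩
  let v : Finset (Fin n) → H := fun S => if hS : S.card = j then ⟨_, hmem S hS⟩ else 0
  have hspan : Submodule.span K (Set.range v) = ⊤ := by
    rw [eq_top_iff]
    rintro ⟨_, p, hp, rfl⟩ -
    have : π p ∈ (Submodule.span K (Set.range v)).map H.subtype := by
      rw [p.as_sum, map_sum]
      refine Submodule.sum_mem _ fun m hm => ?_
      rw [show monomial m (coeff m p) = coeff m p • monomial m (1 : K) by simp [smul_monomial],
        map_smul]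
      refine Submodule.smul_mem _ _ ?_
      by_cases h : ∀ s, m s ≤ 1
      · have hc : m.support.card = j := by
          rw [← degree_ind, ind_support h, Finsupp.degree_eq_weight_one]
          exact hp (mem_support_iff.1 hm)
        refine ⟨v m.support, Submodule.subset_span ⟨_, rfl⟩, ?_⟩
        simp only [v, dif_pos hc, Submodule.subtype_apply, ind_support h]
      · rw [(hπ0 _).2 (mem_idl_of_two d c h)]; exact Submodule.zero_mem _
    obtain ⟨x, hx, e⟩ := this
    exact (Subtype.ext e : x = ⟨_, _⟩) ▸ hx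
  have hfin : FiniteDimensional K H :=
    ⟨hspan ▸ Submodule.fg_span (Set.finite_range v)⟩
  show finrank K H = _
  rw [← Subspace.dual_finrank_eq]
  let Φ : Dual K H →ₗ[K] (Finset (Fin n) → K) := LinearMap.pi fun S => LinearMap.applyₗ (v S)
  have hΦ : Function.Injective Φ := by
    rw [← LinearMap.ker_eq_bot, eq_bot_iff]
    intro ψ h0
    rw [Submodule.mem_bot]
    refine LinearMap.ext_on_range hspan fun S => congrFun (show Φ ψ = 0 from h0) S
  rw [← LinearMap.finrank_range_of_inj hΦ]
  suffices h : LinearMap.range Φ = WF j d univ c by rw [h]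
  apply le_antisymm
  · rintro _ ⟨ψ, rfl⟩
    refine ⟨fun S hS => ?_, fun i _ => ?_⟩
    · show ψ (v S) = 0
      simp only [v, dif_neg hS, map_zero]
    · ext T
      by_cases hT : T.card + d i = j
      swap
      · refine act_mask_supp c i (fun S hS => ?_) T hT
        show ψ (v S) = 0
        simp only [v, dif_neg hS, map_zero]
      have h1 : π (monomial (ind T) 1 * form (d i) fun S => c (i, S)) = 0 :=
        (hπ0 _).2 (Ideal.mul_mem_left _ _ (Ideal.subset_span (Or.inr ⟨i, rfl⟩)))
      have h2 : ∑ Y : Finset (Fin n), (if Disjoint Y T then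
          mask (fun i Y => Y.card = d i) c i Y • v (Y ∪ T) else 0) = 0 := by
        apply Subtype.ext
        rw [monomial_mul_form, map_sum] at h1
        rw [Submodule.coe_sum, Submodule.coe_zero, ← h1]
        refine sum_congr rfl fun Y _ => ?_
        rw [map_smul, mask_eq]
        by_cases hd : Disjoint Y T
        · rw [if_pos hd]
          by_cases hY : Y.card = d i
          · have : (Y ∪ T).card = j := by rw [card_union_of_disjoint hd]; omega
            simp only [v, dif_pos this, ind_add hd, Submodule.coe_smul]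
          · simp [hY]
        · rw [if_neg hd, (hπ0 _).2 (mem_idl_of_two d c fun h => hd ?_), smul_zero,
            Submodule.coe_zero]
          simpa [support_ind] using (sqfree_add.1 h).2
      have h3 := congrArg ψ h2
      rw [map_sum, map_zero] at h3
      refine Eq.trans (sum_congr rfl fun Y _ => ?_) h3
      split_ifs
      · rw [map_smul]; rfl
      · simp
  · intro F hF
    let μ : (MvPolynomial (Fin n) K ⧸ idl d c) →ₗ[K] K :=
      ((idl d c).restrictScalars K).liftQ (lam F) fun p hp => lam_idl hF hp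
    refine ⟨μ ∘ₗ H.subtype, ?_⟩
    ext S
    show μ (v S) = F S
    by_cases hS : S.card = j
    · simp only [v, dif_pos hS]
      exact lam_ind F S
    · simp only [v, dif_neg hS, Submodule.coe_zero, map_zero]
      exact (hF.1 S hS).symm

theorem asymptotic (j : ℕ) : ∃ C : ℝ, ∀ (K : Type) [Field K] [Infinite K] (n r : ℕ)
    (d : Fin r → ℕ), (∀ i, 0 < d i) →
    ∃ P : MvPolynomial (Fin r × Finset (Fin n)) K, P ≠ 0 ∧ ∀ c, eval c P ≠ 0 →
      |(hilb d c j : ℝ) - truncCoeff (series n d univ) j| * √n ≤ C * (n : ℝ) ^ j := by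
  obtain ⟨C, -, h⟩ := asym j
  refine ⟨C, fun K _ _ n r d hd => ?_⟩
  exact (h K (Fin r) n d univ fun l _ => hd l).mono fun c hc => by rw [hilb_eq]; exact hc

end Pool.Agent.P.MP_3acc10_al
end
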