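import Pool.Agent.K.MP_3acc10_al.C0

set_option autoImplicit false

namespace Pool.Agent.P.MP_3acc10_al

open Module Finset
open scoped FinsetFamily

lemma first_order {K E V V' : Type*} [Field K] [Infinite K] [AddCommGroup E] [Module K E]
    [AddCommGroup V] [Module K V] [AddCommGroup V'] [Module K V'] [FiniteDimensional K V]
    (L : E →ₗ[K] (V →ₗ[K] V')) (U : Submodule K V) :
    ∃ f, ∀ g, ∀ v ∈ U ⊓ LinearMap.ker (L f), L g v ∈ U.map (L f) := by
  classical
  have hex : ∃ m, ∃ f, finrank K ↥(U ⊓ LinearMap.ker (L f)) = m := ⟨_, 0, rfl⟩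
  obtain ⟨f, hf⟩ := Nat.find_spec hex
  refine ⟨f, fun g v hv => ?_⟩
  by_contra hne
  set Z := U ⊓ LinearMap.ker (L f) with hZ
  obtain ⟨Q, hQ⟩ := Submodule.exists_isCompl Z
  set C := U ⊓ Q with hC
  have hZC : Z ⊓ C = ⊥ := by
    rw [eq_bot_iff, ← hQ.inf_eq_bot]
    exact inf_le_inf_left _ inf_le_right
  have hsup : Z ⊔ C = U := by
    rw [hC, inf_comm, ← sup_inf_assoc_of_le _ (show Z ≤ U from inf_le_left), hQ.sup_eq_top,
      top_inf_eq]
  have hd : finrank K U = finrank K Z + finrank K C := by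
    have := Submodule.finrank_sup_add_finrank_inf_eq Z C
    rw [hZC, hsup] at this
    simpa using this
  have hv0 : v ≠ 0 := fun h => hne (by rw [h, map_zero]; exact Submodule.zero_mem _)
  have hvC : v ∉ C := fun h => hv0 ((Submodule.mem_bot K).1 (hZC ▸ (⟨hv, h⟩ : v ∈ Z ⊓ C)))
  let ψ0 : (C × K) →ₗ[K] V' :=
    ((L f).domRestrict C).coprod (LinearMap.toSpanSingleton K V' (L g v))
  let ψ1 : (C × K) →ₗ[K] V' := ((L g).domRestrict C).coprod 0
  let Ψ : (Bool → K) →ₗ[K] ((C × K) →ₗ[K] V') :=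
    (LinearMap.proj false).smulRight ψ0 + (LinearMap.proj true).smulRight ψ1
  have h0 : finrank K ↥((⊤ : Submodule K (C × K)) ⊓ LinearMap.ker (Ψ (Pi.single false 1))) ≤ 0 := by
    rw [Nat.le_zero, Submodule.finrank_eq_zero, eq_bot_iff]
    rintro ⟨c, a⟩ ⟨-, h⟩
    have h : L f c + a • L g v = 0 := by simpa [Ψ, ψ0, ψ1] using h
    have ha : a = 0 := by
      by_contra ha
      refine hne ⟨-(a⁻¹ • (c : V)), U.neg_mem (U.smul_mem _ c.2.1), ?_⟩
      rw [map_neg, map_smul, eq_neg_of_add_eq_zero_left h, smul_neg, neg_neg, smul_smul,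
        inv_mul_cancel₀ ha, one_smul]
    rw [ha, zero_smul, add_zero] at h
    have : (c : V) ∈ Z ⊓ C := ⟨⟨c.2.1, h⟩, c.2⟩
    rw [hZC, Submodule.mem_bot] at this
    simp [ha, Subtype.ext_iff, this]
  obtain ⟨s, ⟨h1, h2⟩, h3⟩ :=
    (((gen_ker Ψ ⊤ 0 _ h0).and (gen_coord false)).and (gen_coord true)).exists
  rw [Nat.le_zero, Submodule.finrank_eq_zero] at h1
  have h4 : (U ⊓ LinearMap.ker (L (s false • f + s true • g))) ⊓ (C ⊔ K ∙ v) = ⊥ := by
    rw [eq_bot_iff]
    rintro x ⟨⟨-, hx0⟩, hx⟩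
    obtain ⟨c, hc, y, hy, rfl⟩ := Submodule.mem_sup.1 hx
    obtain ⟨b, rfl⟩ := Submodule.mem_span_singleton.1 hy
    have hfv : L f v = 0 := hv.2
    have h5 : ((⟨c, hc⟩, b * s true / s false) : C × K) ∈
        (⊤ : Submodule K (C × K)) ⊓ LinearMap.ker (Ψ s) := by
      refine ⟨trivial, ?_⟩
      have hx0 : L (s false • f + s true • g) (c + b • v) = 0 := hx0
      show Ψ s _ = 0
      rw [← hx0]
      simp only [Ψ, ψ0, ψ1, LinearMap.add_apply, LinearMap.smulRight_apply, LinearMap.coe_proj,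
        Function.eval, LinearMap.smul_apply, LinearMap.coprod_apply, LinearMap.domRestrict_apply,
        LinearMap.toSpanSingleton_apply, LinearMap.zero_apply, add_zero, map_add, map_smul, hfv,
        smul_zero, zero_add, smul_add, smul_smul]
      rw [mul_div_cancel₀ _ h2]
      abel
    rw [h1, Submodule.mem_bot, Prod.mk_eq_zero] at h5
    have hb : b = 0 := by simpa [h2, h3] using h5.2
    have hc0 : c = 0 := congrArg Subtype.val h5.1
    simp [hb, hc0]
  have h5 := Submodule.finrank_sup_add_finrank_inf_eq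
    (U ⊓ LinearMap.ker (L (s false • f + s true • g))) (C ⊔ K ∙ v)
  have h6 : finrank K ↥((U ⊓ LinearMap.ker (L (s false • f + s true • g))) ⊔ (C ⊔ K ∙ v)) ≤
      finrank K U := Submodule.finrank_mono (sup_le inf_le_left (sup_le inf_le_left
        ((Submodule.span_singleton_le_iff_mem _ _).2 hv.1)))
  have h7 : finrank K C < finrank K ↥(C ⊔ K ∙ v) :=
    Submodule.finrank_lt_finrank_of_lt (left_lt_sup.2 fun h =>
      hvC ((Submodule.span_singleton_le_iff_mem _ _).1 h))
  have h8 := Nat.find_min' hex ⟨s false • f + s true • g, rfl⟩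
  rw [h4, finrank_bot] at h5
  omega

variable {K : Type*} [Field K] {n : ℕ}

def wt (X : Finset (Fin n)) : ℕ := ∑ x ∈ X, 2 ^ x.val

lemma wt_inj : Function.Injective (wt (n := n)) := by
  intro X Y h
  apply map_injective Fin.valEmbedding
  apply Finset.geomSum_injective (le_refl 2)
  simpa [sum_map, wt] using h

open Classical in
/-- leading sets of a space of functions -/
noncomputable def lead (Z : Submodule K (Finset (Fin n) → K)) : Finset (Finset (Fin n)) :=
  univ.filter fun X => ∃ F ∈ Z, F X ≠ 0 ∧ ∀ Y, wt X < wt Y → F Y = 0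

lemma mem_lead {Z : Submodule K (Finset (Fin n) → K)} {X : Finset (Fin n)} :
    X ∈ lead Z ↔ ∃ F ∈ Z, F X ≠ 0 ∧ ∀ Y, wt X < wt Y → F Y = 0 := by simp [lead]

lemma finrank_le_lead (Z : Submodule K (Finset (Fin n) → K)) : finrank K Z ≤ (lead Z).card := by
  classical
  have := finrank_le_sum Z (lead Z) (fun X => LinearMap.proj X) (fun _ => ⊤) (by simp)
    (fun F hF h => by
      by_contra hne
      obtain ⟨X0, hX0⟩ := Function.ne_iff.1 hne
      obtain ⟨X, hX, hmax⟩ := exists_max_image (univ.filter fun X => F X ≠ 0) wt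
        ⟨X0, by simpa using hX0⟩
      refine (mem_filter.1 hX).2 (h X (mem_lead.2 ⟨F, hF, (mem_filter.1 hX).2, fun Y hY => ?_⟩))
      by_contra hY'
      exact absurd (hmax Y (by simpa using hY')) (not_le.2 hY))
  simpa using this

lemma lead_le_finrank (Z : Submodule K (Finset (Fin n) → K)) : (lead Z).card ≤ finrank K Z := by
  classical
  choose F hF h1 h2 using fun X : lead Z => mem_lead.1 X.2
  have : LinearIndependent K fun X : lead Z => (⟨F X, hF X⟩ : Z) := by
    rw [Fintype.linearIndependent_iff]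
    intro a ha
    by_contra hne
    push Not at hne
    obtain ⟨X0, hX0⟩ := hne
    obtain ⟨X, hX, hmax⟩ := exists_max_image (univ.filter fun X => a X ≠ 0) (fun X => wt X.1)
      ⟨X0, by simpa using hX0⟩
    have h3 := congrFun (congrArg Subtype.val ha) X
    simp only [Submodule.coe_sum, Submodule.coe_smul, Finset.sum_apply, Pi.smul_apply,
      smul_eq_mul, Submodule.coe_zero, Pi.zero_apply] at h3
    rw [sum_eq_single X (fun Y _ hY => ?_) (by simp)] at h3
    · exact mul_ne_zero (mem_filter.1 hX).2 (h1 X) h3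
    · by_cases hY' : a Y = 0
      · rw [hY', zero_mul]
      · rw [h2 Y X ((hmax Y (by simpa using hY')).lt_of_ne
          fun e => hY (Subtype.ext (wt_inj e))), mul_zero]
  simpa using this.fintype_card_le_finrank

lemma shadow_lead (e : ℕ) (Z Z' : Submodule K (Finset (Fin n) → K))
    (h : ∀ F ∈ Z, ∀ S : Finset (Fin n), S.card = e → act (Pi.single S 1) F ∈ Z') :
    ∂^[e] (lead Z) ⊆ lead Z' := by
  intro T hT
  obtain ⟨X, hX, hTX, hc⟩ := mem_shadow_iterate_iff_exists_sdiff.1 hT
  obtain ⟨F, hF, h1, h2⟩ := mem_lead.1 hX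
  refine mem_lead.2 ⟨_, h F hF _ hc, ?_, fun Y hY => ?_⟩
  · rwa [act_single, if_pos sdiff_disjoint, sdiff_union_of_subset hTX]
  · rw [act_single]
    split_ifs with hd
    · refine h2 _ ?_
      have e1 : wt X = wt (X \ T) + wt T := (sum_sdiff hTX).symm
      have e2 : wt (X \ T ∪ Y) = wt (X \ T) + wt Y := sum_union hd
      omega
    · rfl

lemma choose_lt_choose {n x j : ℕ} (hj : 0 < j) (hjx : j ≤ x) (h : n < x) :
    n.choose j < x.choose j := by
  obtain ⟨x, rfl⟩ : ∃ y, x = y + 1 := ⟨x - 1, by omega⟩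
  obtain ⟨j, rfl⟩ : ∃ y, j = y + 1 := ⟨j - 1, by omega⟩
  rw [Nat.choose_succ_succ']
  have h1 : n.choose (j + 1) ≤ x.choose (j + 1) := Nat.choose_le_choose _ (by omega)
  have h2 : 0 < x.choose j := Nat.choose_pos (by omega)
  omega

variable [Infinite K] {ι : Type*} [Fintype ι] [DecidableEq ι]

lemma step {j e x h : ℕ} (he0 : 0 < e) (he : e ≤ j) (hx : j ≤ x) (d : ι → ℕ) {A : Finset ι} {l : ι}
    (hl : l ∉ A) (hd : d l = e)
    (hA : Gen fun c : ι × Finset (Fin n) → K => finrank K (WF j d A c) ≤ h) :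
    Gen fun c : ι × Finset (Fin n) → K =>
      finrank K (WF j d (insert l A) c) ≤ max (h - x.choose (j - e)) (x.choose j - 1) := by
  obtain ⟨c, hc⟩ := hA.exists
  obtain ⟨f, hf⟩ := first_order (actL ∘ₗ res (K := K) fun Y : Finset (Fin n) => Y.card = e)
    (WF j d A c)
  set L := actL ∘ₗ res (K := K) fun Y : Finset (Fin n) => Y.card = e with hL
  refine gen_W _ _ _ _ (fun p => if p.1 = l then f p.2 else c p) ?_
  have e1 : WF j d (insert l A) (fun p => if p.1 = l then f p.2 else c p) =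
      WF j d A c ⊓ LinearMap.ker (L f) := by
    have a1 : mask (fun i Y => Y.card = d i) (fun p => if p.1 = l then f p.2 else c p) l =
        res (fun Y : Finset (Fin n) => Y.card = e) f := by
      ext Y; simp [mask, res_apply, hd]
    have a2 : ∀ i ∈ A, mask (fun i Y => Y.card = d i) (fun p => if p.1 = l then f p.2 else c p) i =
        mask (fun i Y => Y.card = d i) c i := by
      intro i hi
      have : i ≠ l := fun e => hl (e ▸ hi)
      ext Y; simp [mask, this]
    ext F
    simp only [mem_W, Submodule.mem_inf, LinearMap.mem_ker, forall_mem_insert, a1]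
    exact ⟨fun h => ⟨⟨h.1, fun i hi => a2 i hi ▸ h.2.2 i hi⟩, h.2.1⟩,
      fun h => ⟨h.1.1, h.2, fun i hi => (a2 i hi).symm ▸ h.1.2 i hi⟩⟩
  refine (Submodule.finrank_mono e1.le).trans ?_
  set Z := WF j d A c ⊓ LinearMap.ker (L f) with hZ
  by_cases hbig : x.choose j ≤ finrank K Z
  swap
  · exact le_max_of_le_right (by omega)
  refine le_max_of_le_left ?_
  have hxn : x ≤ n := by
    by_contra hxn
    have h1 := choose_lt_choose (n := n) (by omega) hx (not_le.1 hxn)
    have h2 := (Submodule.finrank_mono (show Z ≤ _ from inf_le_left)).trans (finrank_WF_le j d A c)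
    rw [Fintype.card_fin] at h2
    omega
  have h1 := kruskal_katona_lovasz_form (i := e) (𝒜 := lead Z) he hx hxn
    (fun X hX => by
      obtain ⟨F, hF, h1, -⟩ := mem_lead.1 (mem_coe.1 hX)
      by_contra hne
      exact h1 (hF.1.1 X hne)) (hbig.trans (finrank_le_lead Z))
  have h2 := card_le_card (shadow_lead e Z ((WF j d A c).map (L f)) fun F hF S hS => by
    have := hf (Pi.single S 1) F hF
    have e2 : res (fun Y : Finset (Fin n) => Y.card = e) (Pi.single S (1 : K)) = Pi.single S 1 := by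
      ext Y
      by_cases hY : Y = S
      · simp [res_apply, hY, hS]
      · simp [res_apply, hY]
    simpa [hL, e2] using this)
  have h3 := lead_le_finrank ((WF j d A c).map (L f))
  have h4 := LinearMap.finrank_range_add_finrank_ker ((L f).domRestrict (WF j d A c))
  rw [LinearMap.range_domRestrict, LinearMap.ker_domRestrict,
    ← Submodule.finrank_map_subtype_eq, Submodule.map_comap_subtype] at h4
  have h5 : finrank K ((WF j d A c).map (L f)) + finrank K Z ≤ h := h4.le.trans hc
  omega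

lemma steps {j e x h : ℕ} (he0 : 0 < e) (he : e ≤ j) (hx : j ≤ x) (d : ι → ℕ) {A : Finset ι}
    (hA : Gen fun c : ι × Finset (Fin n) → K => finrank K (WF j d A c) ≤ h) (T : Finset ι)
    (hT : Disjoint T A) (hd : ∀ l ∈ T, d l = e) (hh : x.choose j - 1 ≤ h) :
    Gen fun c : ι × Finset (Fin n) → K =>
      finrank K (WF j d (T ∪ A) c) ≤ max (h - T.card * x.choose (j - e)) (x.choose j - 1) := by
  induction T using Finset.induction_on with
  | empty => rw [empty_union]; simpa [max_eq_left hh] using hA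
  | insert l T hl ih =>
    rw [disjoint_insert_left] at hT
    rw [insert_union, card_insert_of_notMem hl]
    refine (step he0 he hx d (by simp [hl, hT.1]) (hd l (by simp))
      (ih hT.2 fun i hi => hd i (by simp [hi]))).mono fun c hc => hc.trans ?_
    rw [add_mul, one_mul]
    omega

lemma choose_add_le_mul (x k t : ℕ) : x.choose (k + t) ≤ x ^ t * x.choose k := by
  induction t with
  | zero => simp
  | succ t ih =>
    have := Nat.choose_succ_right_eq x (k + t)
    have h : x.choose (k + t + 1) ≤ x.choose (k + t) * x :=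
      (Nat.le_mul_of_pos_right _ (Nat.succ_pos _)).trans
        (this.le.trans (Nat.mul_le_mul_left _ (Nat.sub_le _ _)))
    rw [← add_assoc, pow_succ]
    nlinarith

lemma descend {j e : ℕ} (he0 : 0 < e) (he : e ≤ j) (d : ι → ℕ) (x : ℕ) (hx : j ≤ x) :
    ∀ A T : Finset ι, Disjoint T A → (∀ l ∈ T, d l = e) → x ^ e ≤ T.card →
    (Gen fun c : ι × Finset (Fin n) → K => finrank K (WF j d A c) ≤ x.choose j - 1) →
    Gen fun c : ι × Finset (Fin n) → K => finrank K (WF j d (T ∪ A) c) ≤ 0 := by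
  induction x, hx using Nat.le_induction with
  | base =>
    intro A T _ _ _ h
    refine h.mono fun c hc => (Submodule.finrank_mono (W_anti _ subset_union_right _)).trans ?_
    simpa using hc
  | succ x hx ih =>
    intro A T hT hd hc h
    obtain ⟨e, rfl⟩ : ∃ y, e = y + 1 := ⟨e - 1, by omega⟩
    have h1 : x ^ (e + 1) + x ^ e ≤ (x + 1) ^ (e + 1) := by
      have : x ^ e ≤ (x + 1) ^ e := Nat.pow_le_pow_left (by omega) e
      rw [pow_succ, pow_succ]; nlinarith
    obtain ⟨T1, hT1, hc1⟩ := exists_subset_card_eq (s := T) (n := x ^ e) (by omega)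
    have h2 := steps he0 he hx d h T1 (hT.mono_left hT1) (fun l hl => hd l (hT1 hl))
      (Nat.sub_le_sub_right (Nat.choose_le_choose _ (by omega)) _)
    have := ih (T1 ∪ A) (T \ T1) (disjoint_union_right.2 ⟨sdiff_disjoint,
      hT.mono_left sdiff_subset⟩) (fun l hl => hd l (mem_sdiff.1 hl).1)
      (by rw [card_sdiff_of_subset hT1]; omega) (h2.mono fun c hc => hc.trans ?_)
    · rwa [← union_assoc, sdiff_union_of_subset hT1] at this
    · obtain ⟨k, rfl⟩ : ∃ k, j = k + e + 1 := ⟨j - (e + 1), by omega⟩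
      have := choose_add_le_mul x k e
      rw [Nat.choose_succ_succ', hc1, show k + e + 1 - (e + 1) = k by omega]
      omega

theorem vanish (j e : ℕ) (he0 : 0 < e) (he : e ≤ j) : ∃ C : ℝ, ∀ (K : Type) [Field K] [Infinite K]
    (n r : ℕ) (d : Fin r → ℕ) (A : Finset (Fin r)), (∀ i, 0 < d i) →
    truncCoeff (series n d A) j = 0 →
    C * (n : ℝ) ^ ((e : ℝ) - e / (2 * j)) ≤ (Aᶜ.filter fun i => d i = e).card →
    ∃ P : MvPolynomial (Fin r × Finset (Fin n)) K, P ≠ 0 ∧ ∀ c, MvPolynomial.eval c P ≠ 0 →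
      hilb d c j = 0 := by
  obtain ⟨C, hC, h⟩ := asym j
  set C1 : ℝ := C * j.factorial + 1 with hC1
  have hC11 : 1 ≤ C1 := by rw [hC1]; have : 0 ≤ C * j.factorial := by positivity
                           linarith
  refine ⟨(C1 + j + 1) ^ e, fun K _ _ n r d A hd h0 hc => ?_⟩
  suffices hs : Gen fun c : Fin r × Finset (Fin n) → K => finrank K (WF j d univ c) ≤ 0 from
    hs.mono fun c hc => by rw [hilb_eq]; omega
  rcases Nat.eq_zero_or_pos n with rfl | hn
  · refine Gen.of_forall fun c => (finrank_WF_le j d univ c).trans ?_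
    rw [Fintype.card_fin, Nat.choose_eq_zero_of_lt (by omega)]
  have hn1 : (1 : ℝ) ≤ n := by exact_mod_cast hn
  have hj : (1 : ℝ) ≤ j := by exact_mod_cast (show 1 ≤ j by omega)
  set y : ℝ := (n : ℝ) ^ (1 - 1 / (2 * j : ℝ)) with hy
  have hy1 : 1 ≤ y := Real.one_le_rpow hn1 (by
    rw [sub_nonneg, div_le_one (by positivity)]; linarith)
  have hye : y ^ e = (n : ℝ) ^ ((e : ℝ) - e / (2 * j)) := by
    rw [hy, ← Real.rpow_natCast, ← Real.rpow_mul (by positivity)]; congr 1; ring
  have hyj : y ^ j * √n = (n : ℝ) ^ j := by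
    rw [hy, ← Real.rpow_natCast, ← Real.rpow_mul (by positivity), Real.sqrt_eq_rpow,
      ← Real.rpow_add (by positivity), ← Real.rpow_natCast]
    congr 1; field_simp; ring
  set x := ⌈C1 * y⌉₊ + j with hx
  have hx1 : (x : ℝ) ≤ (C1 + j + 1) * y := by
    have := Nat.ceil_lt_add_one (show 0 ≤ C1 * y by positivity)
    rw [hx]; push_cast; nlinarith
  have hx2 : C * y ^ j < x.choose j := by
    have a1 : ((x + 1 - j : ℕ) ^ j : ℝ) / j.factorial ≤ x.choose j := Nat.pow_le_choose j x
    have a2 : C1 * y ≤ ((x + 1 - j : ℕ) : ℝ) :=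
      (Nat.le_ceil _).trans (by exact_mod_cast (show ⌈C1 * y⌉₊ ≤ x + 1 - j by omega))
    refine lt_of_lt_of_le ?_ a1
    rw [lt_div_iff₀ (by positivity)]
    have a3 : C1 ≤ C1 ^ j := le_self_pow₀ hC11 (by omega)
    have a4 : 0 < y ^ j := by positivity
    calc C * y ^ j * j.factorial < C1 * y ^ j := by rw [hC1]; nlinarith
      _ ≤ C1 ^ j * y ^ j := by gcongr
      _ = (C1 * y) ^ j := by rw [mul_pow]
      _ ≤ _ := by gcongr
  have := descend (K := K) (n := n) he0 he d x (by omega) A (Aᶜ.filter fun i => d i = e)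
    (disjoint_compl_left.mono_left (filter_subset _ _)) (fun l hl => (mem_filter.1 hl).2) ?_
    ((h K (Fin r) n d A fun l _ => hd l).mono fun c hc => ?_)
  · exact this.mono fun c hc => (Submodule.finrank_mono (W_anti _ (subset_univ _) _)).trans hc
  · have : (x : ℝ) ^ e ≤ (Aᶜ.filter fun i => d i = e).card := by
      refine le_trans ?_ hc
      rw [← hye, ← mul_pow]; gcongr
    exact_mod_cast this
  · have e0 : ex n d A j = 0 := h0
    rw [e0, Int.cast_zero, sub_zero, Nat.abs_cast, ← hyj, ← mul_assoc] at hc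
    have a1 := le_of_mul_le_mul_right hc (Real.sqrt_pos.2 (by linarith))
    have a2 : finrank K (WF j d A c) < x.choose j := by exact_mod_cast a1.trans_lt hx2
    omega

end Pool.Agent.P.MP_3acc10_al
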