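import Pool.Agent.K.MP_3acc10_al.C9

-- part Pool.Agent.P.MP_3acc10_al.BAr3
section

set_option autoImplicit false

namespace Pool.Agent.P.MP_3acc10_al.Bld

open Finset Module Matrix

lemma bar3_desc (n k : ℕ) (h : k + 1 ≤ n) :
    (n : ℝ) ^ (k + 1) - n.descFactorial (k + 1) ≤ ((k : ℝ) + 1) ^ 2 * n ^ k := by
  induction k with
  | zero => simp
  | succ k ih =>
    have h1 := ih (by omega)
    have h2 : (n.descFactorial (k + 1) : ℝ) ≤ n ^ (k + 1) := by
      exact_mod_cast Nat.descFactorial_le_pow n (k + 1)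
    have h3 : (n.descFactorial (k + 1 + 1) : ℝ) = (n - (k + 1)) * n.descFactorial (k + 1) := by
      rw [Nat.descFactorial_succ, Nat.cast_mul, Nat.cast_sub (by omega)]
      push_cast
      ring
    have h4 : (0 : ℝ) ≤ n := Nat.cast_nonneg n
    have h5 : (0 : ℝ) ≤ k := Nat.cast_nonneg k
    have h6 : (0 : ℝ) ≤ n ^ (k + 1) := pow_nonneg h4 _
    have h7 := mul_le_mul_of_nonneg_left h1 h4
    have h8 := mul_le_mul_of_nonneg_left h2 (show (0 : ℝ) ≤ k + 1 by linarith)
    rw [h3]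
    push_cast
    have e1 : (n : ℝ) ^ (k + 1 + 1) = n * n ^ (k + 1) := by ring
    have e2 : (n : ℝ) * (((k : ℝ) + 1) ^ 2 * n ^ k) = ((k : ℝ) + 1) ^ 2 * n ^ (k + 1) := by ring
    rw [e2] at h7
    rw [e1]
    nlinarith [mul_nonneg h5 h6]

lemma bar3_small {ι : Type} [DecidableEq ι] (j n k : ℕ) (d : ι → ℕ) (A : Finset ι) (hn : 1 ≤ n)
    (hk : k < j) (h : ∀ e ≤ j, 0 < e → (A.filter fun l => d l = e).card ≤ n.choose e) :
    ∑ l ∈ (A.filter fun l => d l ∣ k + 1).filter (fun l => ¬ d l = k + 1), d l ≤ j * (j * n ^ k) := by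
  have h1 : ∑ l ∈ (A.filter fun l => d l ∣ k + 1).filter (fun l => ¬ d l = k + 1), d l ≤
      ∑ l ∈ A.filter (fun l => d l ∈ range (k + 1)), d l := by
    refine sum_le_sum_of_subset fun l hl => ?_
    simp only [mem_filter, mem_range] at hl ⊢
    have := Nat.le_of_dvd (Nat.succ_pos k) hl.1.2
    exact ⟨hl.1.1, by omega⟩
  refine h1.trans ?_
  rw [← sum_fiberwise_eq_sum_filter]
  calc ∑ f ∈ range (k + 1), ∑ l ∈ A.filter (fun l => d l = f), d l
      ≤ ∑ f ∈ range (k + 1), j * n ^ k := by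
        refine sum_le_sum fun f hf => ?_
        have hf' : f < k + 1 := mem_range.1 hf
        rw [sum_congr rfl (fun l hl => (mem_filter.1 hl).2), sum_const, smul_eq_mul, mul_comm]
        rcases Nat.eq_zero_or_pos f with rfl | h0
        · simp
        · exact Nat.mul_le_mul (by omega) ((h f (by omega) h0).trans
            ((Nat.choose_le_pow n f).trans (Nat.pow_le_pow_right hn (by omega))))
    _ ≤ j * (j * n ^ k) := by
        rw [sum_const, card_range, smul_eq_mul]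
        exact Nat.mul_le_mul_right _ (by omega)

lemma bar3_bet {ι : Type} [DecidableEq ι] (n k : ℕ) (d : ι → ℕ) (A : Finset ι) :
    (bet n d A (k + 1) : ℝ) = (-1) ^ k * n - (k + 1) * (A.filter fun l => d l = k + 1).card -
      ((∑ l ∈ (A.filter fun l => d l ∣ k + 1).filter (fun l => ¬ d l = k + 1), d l : ℕ) : ℝ) := by
  have h1 : (A.filter fun l => d l ∣ k + 1).filter (fun l => d l = k + 1) =
      A.filter fun l => d l = k + 1 := by
    ext l
    simp only [mem_filter]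
    exact ⟨fun h => ⟨h.1.1, h.2⟩, fun h => ⟨⟨h.1, h.2 ▸ dvd_rfl⟩, h.2⟩⟩
  have h2 : ∑ l ∈ A.filter (fun l => d l = k + 1), (d l : ℝ) =
      (k + 1) * (A.filter fun l => d l = k + 1).card := by
    rw [sum_congr rfl (fun l hl => congrArg Nat.cast (mem_filter.1 hl).2), sum_const, nsmul_eq_mul]
    push_cast
    ring
  unfold bet
  push_cast
  rw [← sum_filter_add_sum_filter_not (A.filter fun l => d l ∣ k + 1) (fun l => d l = k + 1), h1,
    h2]
  ring

lemma bar3_w {n P e j f r κ c : ℝ} (hn : 0 < n) (hP : 1 ≤ P) (he : 1 ≤ e) (hj : e ≤ j)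
    (hf : 1 ≤ f) (ht0 : 0 ≤ r * κ) (ht : r * κ ≤ 2) (hκ1 : κ * (c - 1) = 1)
    (hD1 : P * n - e * f * c ≤ e ^ 2 * P) (hD2 : e * f * c ≤ P * n) :
    |e * r / (P * n) - r * κ / f| ≤ 4 * j ^ 2 * (1 / n) := by
  have hP0 : 0 < P := by linarith
  have hf0 : 0 < f := by linarith
  have he0 : 0 < e := by linarith
  have e1 : e * r / (P * n) - r * κ / f =
      -(r * κ * ((P * n - e * f * c) / (f * (P * n)) + e / (P * n))) := by
    have e2 : e * r = e * r * (κ * (c - 1)) := by rw [hκ1, mul_one]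
    rw [e2]
    field_simp
    ring
  have hej : e ^ 2 ≤ j ^ 2 := pow_le_pow_left₀ he0.le hj 2
  have a0 : 0 ≤ (P * n - e * f * c) / (f * (P * n)) := div_nonneg (by linarith) (by positivity)
  have a1 : (P * n - e * f * c) / (f * (P * n)) ≤ j ^ 2 * (1 / n) := by
    rw [div_le_iff₀ (by positivity)]
    refine hD1.trans ?_
    have e3 : j ^ 2 * (1 / n) * (f * (P * n)) = j ^ 2 * f * P := by field_simp
    rw [e3]
    exact mul_le_mul_of_nonneg_right (hej.trans (le_mul_of_one_le_right (sq_nonneg j) hf)) hP0.le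
  have a2 : e / (P * n) ≤ j ^ 2 * (1 / n) := by
    rw [div_le_iff₀ (by positivity)]
    have e3 : j ^ 2 * (1 / n) * (P * n) = j ^ 2 * P := by field_simp
    rw [e3]
    exact (le_self_pow₀ he two_ne_zero).trans
      (hej.trans (le_mul_of_one_le_right (sq_nonneg j) hP))
  have a3 : 0 ≤ e / (P * n) := by positivity
  rw [e1, abs_neg, abs_of_nonneg (mul_nonneg ht0 (add_nonneg a0 a3))]
  exact (mul_le_mul ht (add_le_add a1 a2) (add_nonneg a0 a3) (by norm_num)).trans
    (le_of_eq (by ring))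

theorem bet_close (j : ℕ) : ∃ C : ℝ, 0 ≤ C ∧ ∀ (n : ℕ) (ι : Type) [DecidableEq ι] (d : ι → ℕ)
    (A : Finset ι) (η0 : ℝ), j + 2 ≤ n → (∀ l ∈ A, 0 < d l) → 0 ≤ η0 → η0 ≤ 1 →
    (∀ e ≤ j, 0 < e → (A.filter fun l => d l = e).card ≤ n.choose e) → ∀ k < j,
      |(bet n d A (k + 1) : ℝ) / n ^ (k + 1)| ≤ C ∧
      |(if k = 0 then 1 else 0) - zf η0 n d A (k + 1) / k.factorial| ≤ C ∧
      |(bet n d A (k + 1) : ℝ) / n ^ (k + 1) -
        ((if k = 0 then 1 else 0) - zf η0 n d A (k + 1) / k.factorial)| ≤ C * (η0 + 1 / n) := by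
  refine ⟨5 + 2 * (2 + 5 * j ^ 2), by positivity, ?_⟩
  intro n ι _ d A η0 hn _ h0 h1 hc k hk
  have hN : (2 : ℝ) ≤ n := by exact_mod_cast (show 2 ≤ n by omega)
  have hN0 : (0 : ℝ) < n := by linarith
  have hj : (k : ℝ) + 1 ≤ j := by exact_mod_cast hk
  have hk0 : (0 : ℝ) ≤ k := Nat.cast_nonneg k
  have hf : (1 : ℝ) ≤ k.factorial := by exact_mod_cast k.factorial_pos
  have hf0 : (0 : ℝ) < k.factorial := by linarith
  have hP : (0 : ℝ) < n ^ k := pow_pos hN0 k
  have hP1 : (1 : ℝ) ≤ n ^ k := one_le_pow₀ (by linarith)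
  have hκ := kap_pos hn (Nat.succ_pos k) hk
  have hκ1 := kap_mul hn (Nat.succ_pos k) hk
  have hκ2 := kap_choose hn (Nat.succ_pos k) hk
  have hr : ((A.filter fun l => d l = k + 1).card : ℝ) ≤ n.choose (k + 1) := by
    exact_mod_cast hc (k + 1) hk (Nat.succ_pos k)
  have hS : ((∑ l ∈ (A.filter fun l => d l ∣ k + 1).filter (fun l => ¬ d l = k + 1), d l : ℕ) : ℝ)
      ≤ j * (j * n ^ k) := by exact_mod_cast bar3_small j n k d A (by omega) hk hc
  have hD1 := bar3_desc n k (by omega)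
  have hD2 : (n.descFactorial (k + 1) : ℝ) ≤ n ^ (k + 1) := by
    exact_mod_cast Nat.descFactorial_le_pow n (k + 1)
  have hD3 : (n.descFactorial (k + 1) : ℝ) = (k + 1) * k.factorial * n.choose (k + 1) := by
    rw [Nat.descFactorial_eq_factorial_mul_choose, Nat.factorial_succ]
    push_cast
    ring
  rw [bar3_bet, zf]
  simp only [Nat.succ_eq_add_one] at hκ hκ1 hκ2
  set S : ℝ := ((∑ l ∈ (A.filter fun l => d l ∣ k + 1).filter (fun l => ¬ d l = k + 1), d l : ℕ) : ℝ)
    with hSd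
  have hS0 : 0 ≤ S := Nat.cast_nonneg _
  set r : ℝ := ((A.filter fun l => d l = k + 1).card : ℝ) with hrd
  have hr0 : 0 ≤ r := Nat.cast_nonneg _
  set κ := kap n (k + 1) with hκd
  set c : ℝ := (n.choose (k + 1) : ℝ) with hcd
  set f : ℝ := (k.factorial : ℝ) with hfd
  set ε : ℝ := if k = 0 then 1 else 0 with hε
  clear_value S r κ c f ε
  have ht0 : 0 ≤ r * κ := mul_nonneg hr0 hκ.le
  have ht : r * κ ≤ 2 := (mul_le_mul_of_nonneg_right hr hκ.le).trans (by rwa [mul_comm])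
  have ht' : r * κ / f ≤ 2 := (div_le_self ht0 hf).trans ht
  have ht0' : 0 ≤ r * κ / f := div_nonneg ht0 hf0.le
  have hi : 1 / (n : ℝ) ≤ 1 := by rw [div_le_one hN0]; linarith
  have hi0 : 0 < 1 / (n : ℝ) := by positivity
  have hu : |(-1) ^ k * n / n ^ (k + 1) - ε| ≤ 1 / n := by
    rcases Nat.eq_zero_or_pos k with rfl | hk1
    · simp [hε, hN0.ne']
    · obtain ⟨m, rfl⟩ := Nat.exists_eq_succ_of_ne_zero hk1.ne'
      simp only [hε, Nat.succ_ne_zero, if_false, sub_zero, abs_div, abs_mul, abs_pow, abs_neg,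
        abs_one, one_pow, one_mul, abs_of_pos hN0]
      rw [div_le_div_iff₀ (by positivity) hN0, one_mul, ← sq]
      exact pow_le_pow_right₀ (by linarith) (by omega)
  have hv : S / n ^ (k + 1) ≤ j ^ 2 * (1 / n) := by
    rw [div_le_iff₀ (by positivity)]
    refine hS.trans (le_of_eq ?_)
    field_simp
    ring
  have hv0 : 0 ≤ S / n ^ (k + 1) := by positivity
  have hw : |(k + 1) * r / n ^ (k + 1) - r * κ / f| ≤ 4 * j ^ 2 * (1 / n) := by
    rw [pow_succ] at hD1 hD2 ⊢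
    rw [hD3] at hD1 hD2
    exact bar3_w hN0 hP1 (by linarith) hj hf ht0 ht hκ1 hD1 hD2
  have hj2 : (0 : ℝ) ≤ j ^ 2 := sq_nonneg _
  have h3 : |((-1) ^ k * n - (k + 1) * r - S) / n ^ (k + 1) - (ε - (1 + η0) * r * κ / f)| ≤
      (2 + 5 * j ^ 2) * (η0 + 1 / n) := by
    have e1 : ((-1) ^ k * n - (k + 1) * r - S) / n ^ (k + 1) - (ε - (1 + η0) * r * κ / f) =
        ((-1) ^ k * n / n ^ (k + 1) - ε) - ((k + 1) * r / n ^ (k + 1) - r * κ / f) -
          S / n ^ (k + 1) + η0 * (r * κ / f) := by ring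
    have a1 : η0 * (r * κ / f) ≤ η0 * 2 := mul_le_mul_of_nonneg_left ht' h0
    have a2 : 0 ≤ η0 * (r * κ / f) := mul_nonneg h0 ht0'
    have a3 : 0 ≤ (j : ℝ) ^ 2 * η0 := mul_nonneg hj2 h0
    have a4 : 0 ≤ (j : ℝ) ^ 2 * (1 / n) := mul_nonneg hj2 hi0.le
    have e2 : (2 + 5 * (j : ℝ) ^ 2) * (η0 + 1 / n) =
        2 * η0 + 2 * (1 / n) + 5 * (j ^ 2 * η0) + 5 * (j ^ 2 * (1 / n)) := by ring
    rw [mul_assoc 4] at hw
    rw [e1, e2, abs_le]
    constructor <;> linarith [(abs_le.1 hu).1, (abs_le.1 hu).2, (abs_le.1 hw).1, (abs_le.1 hw).2]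
  have h2 : |ε - (1 + η0) * r * κ / f| ≤ 5 := by
    have e1 : (1 + η0) * r * κ / f = (1 + η0) * (r * κ / f) := by ring
    have a1 : (1 + η0) * (r * κ / f) ≤ 2 * 2 := mul_le_mul (by linarith) ht' ht0' (by norm_num)
    have a2 : 0 ≤ (1 + η0) * (r * κ / f) := mul_nonneg (by linarith) ht0'
    have a3 : 0 ≤ ε ∧ ε ≤ 1 := by rw [hε]; split_ifs <;> norm_num
    rw [e1, abs_le]
    constructor <;> linarith [a3.1, a3.2]
  have h4 : (2 + 5 * (j : ℝ) ^ 2) * (η0 + 1 / n) ≤ (2 + 5 * j ^ 2) * 2 :=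
    mul_le_mul_of_nonneg_left (by linarith) (by positivity)
  refine ⟨?_, h2.trans (by linarith), h3.trans ?_⟩
  · have := abs_add_le (((-1) ^ k * n - (k + 1) * r - S) / n ^ (k + 1) -
      (ε - (1 + η0) * r * κ / f)) (ε - (1 + η0) * r * κ / f)
    rw [sub_add_cancel] at this
    linarith
  · exact mul_le_mul_of_nonneg_right (by linarith) (by linarith)

end Pool.Agent.P.MP_3acc10_al.Bld
end

-- part Pool.Agent.P.MP_3acc10_al.BAr4
section

set_option autoImplicit false

namespace Pool.Agent.P.MP_3acc10_al.Bld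

open Finset Module Matrix

lemma BAr4_al_zero (n : ℕ) {ι : Type} [DecidableEq ι] (d : ι → ℕ) (A : Finset ι)
    (hd : ∀ l ∈ A, 0 < d l) : al n d A 0 = 1 := by
  induction A using Finset.induction_on with
  | empty => simp
  | insert l A hl ih =>
    have h1 := hd l (mem_insert_self _ _)
    rw [al_insert n d hl, ih fun l hl => hd l (mem_insert_of_mem hl), if_neg (by omega), sub_zero]

lemma BAr4_count (n : ℕ) {ι : Type} [DecidableEq ι] (d : ι → ℕ) (j : ℕ) {A : Finset ι}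
    (hd : ∀ l ∈ A, 0 < d l) (h : ∀ i ≤ j, 0 < al n d A i) :
    ∀ e ≤ j, 0 < e → (A.filter fun l => d l = e).card ≤ n.choose e := by
  intro e he he0
  have h1 := (h e he).trans_le
    (al_le_of_subset n d j (filter_subset (fun l => d l = e) A) hd h e he)
  rw [(al_same n d e he0 _ fun l hl => (mem_filter.1 hl).2).2] at h1
  omega

theorem arith (j : ℕ) : ∃ C : ℝ, 1 ≤ C ∧ ∀ (ε : ℝ) (n : ℕ) (ι : Type) [DecidableEq ι] (d : ι → ℕ)
    (A : Finset ι), 0 < ε → ε ≤ 1 → j + 2 ≤ n → C ≤ ε * n → (∀ l ∈ A, 0 < d l) →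
    (∀ i ≤ j, 0 < i → ε * (n : ℝ) ^ i ≤ al n d A i) →
    ∀ i ≤ j, ε / 2 ≤ eta (zf (ε / C) n d A) i := by
  obtain ⟨C0, hC0, H0⟩ := bet_close j
  obtain ⟨C1, hC1, H1⟩ := rec_pert j C0
  have hCC : 0 ≤ C1 * C0 := mul_nonneg hC1 hC0
  refine ⟨4 * (C1 * C0) + 1, by linarith, ?_⟩
  intro ε n ι _ d A hε hε1 hn hC hd hal i hi
  set C : ℝ := 4 * (C1 * C0) + 1 with hCdef
  have hCpos : 0 < C := by linarith
  have hC1' : 1 ≤ C := by linarith
  have hnpos : (0 : ℝ) < n := by exact_mod_cast (show 0 < n by omega)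
  have hη0 : 0 ≤ ε / C := by positivity
  have hη1 : ε / C ≤ 1 := by rw [div_le_one hCpos]; linarith
  have h0 := BAr4_al_zero n d A hd
  have hpos : ∀ i ≤ j, 0 < al n d A i := by
    intro i hi
    rcases Nat.eq_zero_or_pos i with rfl | hi0
    · rw [h0]; exact one_pos
    · have h1 := hal i hi hi0
      have h2 : (0 : ℝ) < ε * (n : ℝ) ^ i := by positivity
      exact_mod_cast h2.trans_le h1
  have hcl := H0 n ι d A (ε / C) hn hd hη0 hη1 (BAr4_count n d j hd hpos)
  have hs : (0 : ℝ) ≤ C0 * (ε / C + 1 / n) := by positivity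
  have key := H1 (fun i => (al n d A i : ℝ) / (n : ℝ) ^ i)
    (fun i => eta (zf (ε / C) n d A) i / i.factorial)
    (fun k => (bet n d A k : ℝ) / (n : ℝ) ^ k)
    (fun k => (if k - 1 = 0 then 1 else 0) - zf (ε / C) n d A k / (k - 1).factorial)
    (C0 * (ε / C + 1 / n)) hs (by simp [h0]) (by simp [eta_zero])
    (fun i _ => by
      have h1 : ((i : ℝ) + 1) * al n d A (i + 1) =
          ∑ k ∈ range (i + 1), (bet n d A (k + 1) : ℝ) * al n d A (i - k) := by
        exact_mod_cast al_rec n d A hd i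
      rw [← mul_div_assoc, h1, sum_div]
      refine sum_congr rfl fun k hk => ?_
      have hk := mem_range.1 hk
      have h2 : (n : ℝ) ^ (i + 1) = (n : ℝ) ^ (k + 1) * (n : ℝ) ^ (i - k) := by
        rw [← pow_add]; congr 1; omega
      rw [h2, div_mul_div_comm])
    (fun i _ => by
      simp only [Nat.add_sub_cancel]
      exact eta_rec _ i)
    (fun k hk => by
      simp only [Nat.add_sub_cancel]
      exact hcl k hk) i hi
  rcases Nat.eq_zero_or_pos i with rfl | hi0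
  · rw [eta_zero]; linarith
  have h1 : ε ≤ (al n d A i : ℝ) / (n : ℝ) ^ i := by
    rw [le_div_iff₀ (by positivity)]; exact hal i hi hi0
  have h2 : 1 / (n : ℝ) ≤ ε / C := by
    rw [div_le_div_iff₀ hnpos hCpos]; linarith
  have h3 : C1 * (C0 * (ε / C + 1 / n)) ≤ ε / 2 := by
    have h4 : C1 * (C0 * (ε / C + 1 / n)) ≤ (C1 * C0) * (2 * (ε / C)) := by
      rw [← mul_assoc]; exact mul_le_mul_of_nonneg_left (by linarith) hCC
    have h5 : C * (ε / C) = ε := by field_simp
    have h6 : 4 * (C1 * C0) * (ε / C) ≤ C * (ε / C) :=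
      mul_le_mul_of_nonneg_right (by linarith) hη0
    linarith
  have h4 := (abs_le.1 key).2
  have h5 : ε / 2 ≤ eta (zf (ε / C) n d A) i / i.factorial := by linarith
  have h6 : (1 : ℝ) ≤ i.factorial := by exact_mod_cast Nat.factorial_pos i
  rw [le_div_iff₀ (by linarith)] at h5
  nlinarith

end Pool.Agent.P.MP_3acc10_al.Bld
end

-- part Pool.Agent.P.MP_3acc10_al.BGood
section

set_option autoImplicit false

namespace Pool.Agent.P.MP_3acc10_al.Bld

open Finset Module Matrix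

variable {n j : ℕ} {ι : Type} [Fintype ι] [DecidableEq ι]

variable {x0 x y : Fin j → Fin n} {c : ι × Finset (Fin n) → ℤ}

lemma bgood_split {π : Finset (Fin j)} (hx : Set.InjOn x π) (e : Fin n) :
    mult x e = (if e ∈ π.image x then 1 else 0) +
      (univ.filter fun p => p ∉ π ∧ x p = e).card := by
  have h1 := card_filter_add_card_filter_not (s := univ.filter fun p => x p = e) fun p => p ∈ π
  rw [mult, ← h1, filter_filter, filter_filter]
  congr 1
  · split_ifs with h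
    · obtain ⟨p, hp, rfl⟩ := mem_image.1 h
      refine card_eq_one.2 ⟨p, ?_⟩
      ext p'
      simp only [mem_filter, mem_univ, true_and, mem_singleton]
      exact ⟨fun h' => hx h'.2 hp h'.1, fun h' => by rw [h']; exact ⟨rfl, hp⟩⟩
    · refine card_eq_zero.2 (filter_eq_empty_iff.2 fun p _ hp => h ?_)
      exact mem_image.2 ⟨p, hp.2, hp.1⟩
  · congr 1
    exact filter_congr fun p _ => and_comm

lemma bgood_pan {π : Finset (Fin j)} (h : Pan π x y) (e : Fin n) :
    (mult y e : ℤ) - mult x e =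
      (if e ∈ π.image y then 1 else 0) - (if e ∈ π.image x then 1 else 0) := by
  have e1 : (univ.filter fun p => p ∉ π ∧ y p = e) = univ.filter fun p => p ∉ π ∧ x p = e :=
    filter_congr fun p _ => and_congr_right fun hp => by rw [h.1 p hp]
  rw [bgood_split h.2.1 e, bgood_split h.2.2 e, e1]
  push_cast
  ring

lemma bgood_toNat {Λ : Type} (s : Finset Λ) (f : Λ → ℤ) :
    ∑ γ ∈ s, f γ = ((∑ γ ∈ s, (f γ).toNat : ℕ) : ℤ) - ((∑ γ ∈ s, (-f γ).toNat : ℕ) : ℤ) := by
  push_cast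
  rw [← sum_sub_distrib]
  exact sum_congr rfl fun γ _ => (Int.toNat_sub_toNat_neg _).symm

lemma bgood_sum_mult (x : Fin j → Fin n) : ∑ e, mult x e = j := by
  have := card_eq_sum_card_fiberwise (f := x) (s := univ) (t := univ) fun _ _ => mem_univ _
  rw [card_univ, Fintype.card_fin] at this
  exact this.symm

lemma bgood_le_cre (c : ι × Finset (Fin n) → ℤ) {e : Fin n} {γ : ι × Finset (Fin n)}
    (hγ : e ∈ γ.2) : (c γ).toNat ≤ cre c e :=
  single_le_sum (f := fun γ => (c γ).toNat) (fun _ _ => Nat.zero_le _)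
    (mem_filter.2 ⟨mem_univ _, hγ⟩)

lemma bgood_pos_sum {q : ℕ} (hq : ∑ γ, |c γ| ≤ (q : ℤ)) : ∑ γ, (c γ).toNat ≤ q := by
  have : ((∑ γ, (c γ).toNat : ℕ) : ℤ) ≤ q := by
    push_cast
    refine le_trans (sum_le_sum fun γ _ => ?_) hq
    have := le_abs_self (c γ)
    have := abs_nonneg (c γ)
    omega
  exact_mod_cast this

theorem Good_refl (x : Fin j → Fin n) : Good x x (0 : ι × Finset (Fin n) → ℤ) := by
  simp [Good]

theorem Good_step (h : Good x0 x c) (t : Let ι j) (hk : kk t x y ≠ 0) :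
    Good x0 y (c + dl t x y) := by
  obtain ⟨_ | a, π⟩ := t
  · rw [kk_none] at hk
    have : y = x := by
      by_contra h'
      exact hk (if_neg fun h2 => h' h2.1)
    rw [dl_none, add_zero, this]
    exact h
  · have hp := (kk_ne hk).1
    rw [dl_some]
    refine ⟨fun e => ?_, fun b => ?_, fun γ hγ => ?_⟩
    · simp only [Pi.add_apply, Pi.sub_apply, sum_add_distrib, sum_sub_distrib, sum_pi_single',
        mem_filter, mem_univ, true_and]
      rw [← h.1 e, ← bgood_pan hp e]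
      ring
    · simp only [Pi.add_apply, Pi.sub_apply, sum_add_distrib, sum_sub_distrib, h.2.1 b]
      by_cases hb : b = a
      · subst hb
        simp [Pi.single_apply]
      · simp [hb]
    · have hle : ∀ z : Fin j → Fin n, (π.image z).card ≤ j := fun z =>
        card_image_le.trans ((card_le_univ _).trans (Fintype.card_fin j).le)
      by_cases h1 : γ = (a, π.image y)
      · rw [h1]; exact hle y
      by_cases h2 : γ = (a, π.image x)
      · rw [h2]; exact hle x
      refine h.2.2 γ ?_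
      simpa [Pi.single_eq_of_ne h1, Pi.single_eq_of_ne h2] using hγ

theorem Good_symm (h : Good x0 x c) : Good x x0 (-c) := by
  refine ⟨fun e => ?_, fun a => ?_, fun γ hγ => h.2.2 γ fun h' => hγ (by simp [h'])⟩
  · simp only [Pi.neg_apply, sum_neg_distrib, ← h.1 e]
    ring
  · simp only [Pi.neg_apply, sum_neg_distrib, h.2.1 a, neg_zero]

theorem uu_neg (h : Good x0 x c) (e : Fin n) : uu x (-c) e = uu x0 c e := by
  have h1 := h.1 e
  rw [bgood_toNat] at h1
  simp only [uu, cre, Pi.neg_apply]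
  omega

theorem zz_neg (h : Good x0 x c) (a : ι) : zz (-c) a = zz c a := by
  have h1 := h.2.1 a
  rw [bgood_toNat] at h1
  simp only [zz, Pi.neg_apply]
  omega

theorem base_neg (h : Good x0 x c) (ω : ι → ℝ) (lam : ℝ) :
    base ω lam x (-c) = base ω lam x0 c := by
  simp only [base, uu_neg h, zz_neg h]

theorem mult_le (h : Good x0 x c) (e : Fin n) : mult x e ≤ uu x0 c e := by
  rw [← uu_neg h]
  exact Nat.le_add_right _ _

theorem mult_lt (h : Good x0 x c) {β : ι × Finset (Fin n)} (hβ : c β < 0) {e : Fin n}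
    (he : e ∈ β.2) : mult x e + 1 ≤ uu x0 c e := by
  rw [← uu_neg h, uu]
  have := bgood_le_cre (-c) he
  rw [Pi.neg_apply] at this
  omega

theorem eq_of_uu_one (h : Good x0 x c) {p p' : Fin j} (hp : uu x0 c (x p) = 1)
    (hx : x p' = x p) : p' = p := by
  have h1 := mult_le h (x p)
  rw [hp, mult] at h1
  exact card_le_one.1 h1 p' (mem_filter.2 ⟨mem_univ _, hx⟩) p (mem_filter.2 ⟨mem_univ _, rfl⟩)

theorem label_eq {e : Fin n} (he : uu x0 c e ≤ 1) {γ γ' : ι × Finset (Fin n)} (h : 0 < c γ)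
    (h' : 0 < c γ') (hγ : e ∈ γ.2) (hγ' : e ∈ γ'.2) : γ = γ' ∧ c γ = 1 := by
  have h1 := bgood_le_cre c hγ
  rw [uu] at he
  refine ⟨?_, by omega⟩
  by_contra hne
  have h2 : ∑ γ ∈ {γ, γ'}, (c γ).toNat ≤ cre c e := by
    refine sum_le_sum_of_subset fun δ hδ => mem_filter.2 ⟨mem_univ _, ?_⟩
    rcases mem_insert.1 hδ with rfl | hδ
    · exact hγ
    · rw [mem_singleton.1 hδ]; exact hγ'
  rw [sum_pair hne] at h2
  omega

theorem zero_of_zz (h : Good x0 x c) {a : ι} (ha : zz c a = 0) (I : Finset (Fin n)) :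
    c (a, I) = 0 := by
  have ha' := ha
  rw [← zz_neg h] at ha'
  have h1 := sum_eq_zero_iff.1 ha I (mem_univ _)
  have h2 := sum_eq_zero_iff.1 ha' I (mem_univ _)
  rw [Pi.neg_apply] at h2
  omega

theorem zero_of_uu (h : Good x0 x c) {e : Fin n} (he : uu x0 c e = 0)
    {γ : ι × Finset (Fin n)} (hγ : e ∈ γ.2) : c γ = 0 := by
  have he' := he
  rw [← uu_neg h] at he'
  have h1 := bgood_le_cre c hγ
  have h2 := bgood_le_cre (-c) hγ
  rw [Pi.neg_apply] at h2
  rw [uu] at he he'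
  omega

theorem zz_sum {q : ℕ} (hq : ∑ γ, |c γ| ≤ (q : ℤ)) : ∑ a, zz c a ≤ q := by
  have := bgood_pos_sum hq
  rwa [Fintype.sum_prod_type] at this

theorem uu_card (h : Good x0 x c) {q : ℕ} (hq : ∑ γ, |c γ| ≤ (q : ℤ)) :
    (univ.filter fun e => uu x0 c e ≠ 0).card ≤ j * (1 + q) := by
  have h1 : (univ.filter fun e => uu x0 c e ≠ 0).card ≤ ∑ e, uu x0 c e := by
    rw [card_filter]
    refine sum_le_sum fun e _ => ?_
    split_ifs <;> omega
  have h2 : ∑ e, cre c e ≤ j * q := by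
    simp only [cre, sum_filter]
    rw [sum_comm]
    refine le_trans (sum_le_sum fun γ _ => ?_) ((mul_sum _ _ _).symm.le.trans
      (Nat.mul_le_mul_left j (bgood_pos_sum hq)))
    rw [← sum_filter, filter_mem_eq_inter, univ_inter, sum_const, smul_eq_mul]
    by_cases h0 : c γ = 0
    · simp [h0]
    · exact Nat.mul_le_mul_right _ (h.2.2 γ h0)
  simp only [uu] at h1
  rw [sum_add_distrib, bgood_sum_mult] at h1
  simp only [uu]
  rw [mul_add, mul_one]
  omega

theorem base_zero (ω : ι → ℝ) {lam : ℝ} (hl : 1 ≤ lam) (x : Fin j → Fin n) :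
    1 ≤ base ω lam x 0 ∧ base ω lam x 0 ≤ lam ^ j := by
  have h1 : base ω lam x 0 = lam ^ ∑ e, (mult x e - 1) := by
    simp [base, zz, uu, cre]
  rw [h1]
  refine ⟨one_le_pow₀ hl, pow_le_pow_right₀ hl ?_⟩
  exact (sum_le_sum fun e _ => Nat.sub_le _ _).trans (bgood_sum_mult x).le

theorem dl_abs (t : Let ι j) (x y : Fin j → Fin n) : ∑ γ, |dl t x y γ| ≤ 2 := by
  obtain ⟨_ | a, π⟩ := t
  · simp [dl_none]
  · rw [dl_some]
    have h1 : ∀ α : ι × Finset (Fin n), ∑ γ, |(Pi.single α 1 : ι × Finset (Fin n) → ℤ) γ| = 1 := by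
      intro α
      rw [sum_eq_single α]
      · simp
      · intro γ _ h
        simp [Pi.single_eq_of_ne h]
      · simp
    refine le_trans (sum_le_sum fun γ _ => abs_sub _ _) ?_
    rw [sum_add_distrib, h1, h1]
    norm_num

end Pool.Agent.P.MP_3acc10_al.Bld
end

-- part Pool.Agent.P.MP_3acc10_al.BRatio
section

set_option autoImplicit false

namespace Pool.Agent.P.MP_3acc10_al.Bld

open Finset Module Matrix

variable {n j : ℕ} {ι : Type} [Fintype ι] [DecidableEq ι]

variable {x0 x y : Fin j → Fin n} {c : ι × Finset (Fin n) → ℤ} {a : ι}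
  {π : Finset (Fin j)}

omit [Fintype ι] in
theorem bratio_toNat (hne : π.image y ≠ π.image x) (γ : ι × Finset (Fin n)) :
    ((c + dl (some a, π) x y) γ).toNat +
        (if γ = (a, π.image x) ∧ 0 < c (a, π.image x) then 1 else 0) =
      (c γ).toNat + if γ = (a, π.image y) ∧ 0 ≤ c (a, π.image y) then 1 else 0 := by
  have h : ((a, π.image y) : ι × Finset (Fin n)) ≠ (a, π.image x) := fun h =>
    hne (congrArg Prod.snd h)
  have e : (c + dl (some a, π) x y) γ = c γ + ((if γ = (a, π.image y) then 1 else 0) -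
      if γ = (a, π.image x) then 1 else 0) := by
    simp only [dl, Option.elim, Pi.add_apply, Pi.sub_apply, Pi.single_apply]
  rw [e]
  by_cases h1 : γ = (a, π.image x)
  · subst h1
    simp only [h.symm, if_false, if_true, true_and, false_and]
    split_ifs <;> omega
  · by_cases h2 : γ = (a, π.image y)
    · subst h2
      simp only [h, if_false, if_true, true_and, false_and]
      split_ifs <;> omega
    · simp only [h1, h2, if_false, false_and]
      omega

theorem bratio_sum {α : Type} [DecidableEq α] (s : Finset α) (β : α) (P : Prop) [Decidable P] :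
    ∑ γ ∈ s, (if γ = β ∧ P then 1 else 0 : ℕ) = if P ∧ β ∈ s then 1 else 0 := by
  by_cases h : P <;> simp [h]

theorem uu_step (hne : π.image y ≠ π.image x) (e : Fin n) :
    uu x0 (c + dl (some a, π) x y) e + (if 0 < c (a, π.image x) ∧ e ∈ π.image x then 1 else 0) =
      uu x0 c e + if 0 ≤ c (a, π.image y) ∧ e ∈ π.image y then 1 else 0 := by
  have h := Finset.sum_congr (rfl : (univ.filter fun γ : ι × Finset (Fin n) => e ∈ γ.2) = _)
    fun γ _ => bratio_toNat (c := c) (a := a) hne γ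
  rw [sum_add_distrib, sum_add_distrib, bratio_sum, bratio_sum] at h
  simp only [mem_filter, mem_univ, true_and] at h
  unfold uu cre
  omega

theorem zz_step (hne : π.image y ≠ π.image x) (b : ι) :
    zz (c + dl (some a, π) x y) b + (if b = a ∧ 0 < c (a, π.image x) then 1 else 0) =
      zz c b + if b = a ∧ 0 ≤ c (a, π.image y) then 1 else 0 := by
  have h := Finset.sum_congr (rfl : (univ : Finset (Finset (Fin n))) = _)
    fun I _ => bratio_toNat (c := c) (a := a) hne (b, I)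
  rw [sum_add_distrib, sum_add_distrib] at h
  unfold zz
  by_cases hb : b = a
  · simp only [hb, Prod.mk.injEq, true_and, bratio_sum, mem_univ, and_true] at h ⊢
    exact h
  · simp only [hb, Prod.mk.injEq, false_and, if_false, sum_const_zero] at h ⊢
    exact h

open Classical in
theorem bratio_fresh : ∑ e, (if e ∈ π.image y ∧ 1 ≤ uu x0 c e then 1 else 0 : ℕ) ≤
    if Fresh x0 c π y then 0 else j := by
  split_ifs with h
  · refine (sum_eq_zero fun e _ => if_neg ?_).le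
    rintro ⟨h1, h2⟩
    obtain ⟨p, hp, rfl⟩ := mem_image.1 h1
    rw [h p hp] at h2
    omega
  · calc _ ≤ ∑ e, (if e ∈ π.image y then 1 else 0 : ℕ) := sum_le_sum fun e _ => by
          split_ifs with h1 h2
          · exact le_rfl
          · exact absurd h1.1 h2
          · exact Nat.zero_le _
          · exact le_rfl
      _ = (π.image y).card := by rw [sum_ite_mem, univ_inter, card_eq_sum_ones]
      _ ≤ j := card_image_le.trans (by simpa using card_le_univ π)

open Classical in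
theorem bratio_old : (if ∃ p ∈ π, 2 ≤ uu x0 c (x p) then 1 else 0 : ℕ) ≤
    ∑ e, (if e ∈ π.image x ∧ 2 ≤ uu x0 c e then 1 else 0 : ℕ) := by
  split_ifs with h
  · obtain ⟨p, hp, h2⟩ := h
    refine le_trans (le_of_eq ?_) (single_le_sum (fun _ _ => Nat.zero_le _) (mem_univ (x p)))
    rw [if_pos ⟨mem_image_of_mem x hp, h2⟩]
  · exact Nat.zero_le _

omit [DecidableEq ι] in
theorem bratio_prod [DecidableEq ι] (ω : ι → ℝ) {z z' : ι → ℕ}
    (h : ∀ b, z' b = z b + if b = a then 1 else 0) :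
    ∏ b, ω b ^ z' b = (∏ b, ω b ^ z b) * ω a := by
  simp only [h, pow_add, prod_mul_distrib, pow_ite, pow_one, pow_zero, prod_ite_eq', mem_univ,
    if_true]

omit [DecidableEq ι] in
theorem bratio_Z [DecidableEq ι] {z z' : ι → ℕ} (h : ∀ b, z' b = z b + if b = a then 1 else 0) :
    ∑ b, (z' b - 1) = ∑ b, (z b - 1) + if z a = 0 then 0 else 1 := by
  have e : ∀ b, z' b - 1 = z b - 1 + if b = a then (if z a = 0 then 0 else 1) else 0 := fun b => by
    rw [h]
    by_cases hb : b = a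
    · subst hb
      simp only [if_true]
      split_ifs <;> omega
    · simp only [hb, if_false, add_zero]
  simp only [e, sum_add_distrib, sum_ite_eq', mem_univ, if_true]

variable {ω : ι → ℝ} {lam : ℝ}

theorem base_nonneg (hω : ∀ b, 0 ≤ ω b) (hl : 1 ≤ lam) : 0 ≤ base ω lam x0 c :=
  mul_nonneg (prod_nonneg fun b _ => pow_nonneg (hω b) _) (pow_nonneg (zero_le_one.trans hl) _)

open Classical in
theorem ratio_NN (hω : ∀ b, 0 ≤ ω b) (hl : 1 ≤ lam) (hne : π.image y ≠ π.image x)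
    (hβ : c (a, π.image x) ≤ 0) (hα : 0 ≤ c (a, π.image y)) :
    base ω lam x0 (c + dl (some a, π) x y) ≤ base ω lam x0 c * ω a *
      lam ^ ((if zz c a = 0 then 0 else 1) + if Fresh x0 c π y then 0 else j) := by
  have hz : ∀ b, zz (c + dl (some a, π) x y) b = zz c b + if b = a then 1 else 0 := fun b => by
    simpa [hα, not_lt.2 hβ] using zz_step (c := c) (a := a) hne b
  have hu : ∑ e, (uu x0 (c + dl (some a, π) x y) e - 1) ≤ ∑ e, (uu x0 c e - 1) +
      ∑ e, (if e ∈ π.image y ∧ 1 ≤ uu x0 c e then 1 else 0 : ℕ) := by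
    rw [← sum_add_distrib]
    refine sum_le_sum fun e _ => ?_
    have h := uu_step (x0 := x0) (c := c) (a := a) hne e
    simp only [hα, not_lt.2 hβ, false_and, true_and, if_false] at h
    by_cases h1 : e ∈ π.image y <;> simp only [h1, if_true, if_false, true_and, false_and] at h ⊢
    · split_ifs <;> omega
    · omega
  have hf := bratio_fresh (x0 := x0) (c := c) (π := π) (y := y)
  unfold base
  rw [bratio_prod ω hz, bratio_Z hz, mul_right_comm _ _ (ω a), mul_assoc _ (lam ^ _), ← pow_add]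
  exact mul_le_mul_of_nonneg_left (pow_le_pow_right₀ hl (by omega))
    (mul_nonneg (prod_nonneg fun b _ => pow_nonneg (hω b) _) (hω a))

theorem ratio_NO (hne : π.image y ≠ π.image x) (hβ : c (a, π.image x) ≤ 0)
    (hα : c (a, π.image y) < 0) :
    base ω lam x0 (c + dl (some a, π) x y) = base ω lam x0 c := by
  have hz : ∀ b, zz (c + dl (some a, π) x y) b = zz c b := fun b => by
    simpa [not_le.2 hα, not_lt.2 hβ] using zz_step (c := c) (a := a) hne b
  have hu : ∀ e, uu x0 (c + dl (some a, π) x y) e = uu x0 c e := fun e => by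
    simpa [not_le.2 hα, not_lt.2 hβ] using uu_step (x0 := x0) (c := c) (a := a) hne e
  simp only [base, hz, hu]

open Classical in
theorem ratio_ON (hω : ∀ b, 0 ≤ ω b) (hl : 1 ≤ lam) (hne : π.image y ≠ π.image x)
    (hβ : 0 < c (a, π.image x)) (hα : 0 ≤ c (a, π.image y)) :
    base ω lam x0 (c + dl (some a, π) x y) * lam ^ (if ∃ p ∈ π, 2 ≤ uu x0 c (x p) then 1 else 0) ≤
      base ω lam x0 c * lam ^ (if Fresh x0 c π y then 0 else j) := by
  have hz : ∀ b, zz (c + dl (some a, π) x y) b = zz c b := fun b => by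
    simpa [hα, hβ] using zz_step (c := c) (a := a) hne b
  have hu : ∑ e, (uu x0 (c + dl (some a, π) x y) e - 1) +
      ∑ e, (if e ∈ π.image x ∧ 2 ≤ uu x0 c e then 1 else 0 : ℕ) ≤ ∑ e, (uu x0 c e - 1) +
      ∑ e, (if e ∈ π.image y ∧ 1 ≤ uu x0 c e then 1 else 0 : ℕ) := by
    rw [← sum_add_distrib, ← sum_add_distrib]
    refine sum_le_sum fun e _ => ?_
    have h := uu_step (x0 := x0) (c := c) (a := a) hne e
    simp only [hα, hβ, true_and] at h
    by_cases h1 : e ∈ π.image y <;> by_cases h2 : e ∈ π.image x <;>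
      simp only [h1, h2, if_true, if_false, true_and, false_and] at h ⊢
    · split_ifs <;> omega
    · split_ifs <;> omega
    · split_ifs <;> omega
    · omega
  have hf := bratio_fresh (x0 := x0) (c := c) (π := π) (y := y)
  have ho := bratio_old (x0 := x0) (c := c) (π := π) (x := x)
  simp only [base, hz]
  rw [mul_assoc, mul_assoc, ← pow_add, ← pow_add]
  exact mul_le_mul_of_nonneg_left (pow_le_pow_right₀ hl (by omega))
    (prod_nonneg fun b _ => pow_nonneg (hω b) _)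

open Classical in
theorem ratio_OO (hω : ∀ b, 0 ≤ ω b) (hl : 1 ≤ lam) (hne : π.image y ≠ π.image x)
    (hβ : 0 < c (a, π.image x)) (hα : c (a, π.image y) < 0) :
    base ω lam x0 (c + dl (some a, π) x y) * ω a *
      lam ^ (if (∃ p ∈ π, 2 ≤ uu x0 c (x p)) ∨ 2 ≤ zz c a then 1 else 0) ≤ base ω lam x0 c := by
  have hz : ∀ b, zz c b = zz (c + dl (some a, π) x y) b + if b = a then 1 else 0 := fun b => by
    simpa [not_le.2 hα, hβ] using (zz_step (c := c) (a := a) hne b).symm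
  have hu : ∑ e, (uu x0 (c + dl (some a, π) x y) e - 1) +
      ∑ e, (if e ∈ π.image x ∧ 2 ≤ uu x0 c e then 1 else 0 : ℕ) ≤ ∑ e, (uu x0 c e - 1) := by
    rw [← sum_add_distrib]
    refine sum_le_sum fun e _ => ?_
    have h := uu_step (x0 := x0) (c := c) (a := a) hne e
    simp only [not_le.2 hα, hβ, false_and, true_and, if_false] at h
    by_cases h2 : e ∈ π.image x <;> simp only [h2, if_true, if_false, true_and, false_and] at h ⊢
    · split_ifs <;> omega
    · omega
  have ho := bratio_old (x0 := x0) (c := c) (π := π) (x := x)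
  have ha := hz a
  rw [if_pos rfl] at ha
  unfold base
  rw [bratio_prod ω hz, bratio_Z hz, mul_right_comm _ _ (ω a), mul_assoc _ (lam ^ _), ← pow_add]
  refine mul_le_mul_of_nonneg_left (pow_le_pow_right₀ hl ?_)
    (mul_nonneg (prod_nonneg fun b _ => pow_nonneg (hω b) _) (hω a))
  by_cases h1 : ∃ p ∈ π, 2 ≤ uu x0 c (x p)
  · rw [if_pos h1] at ho
    rw [if_pos (Or.inl h1)]
    omega
  · simp only [h1, false_or]
    split_ifs <;> omega

end Pool.Agent.P.MP_3acc10_al.Bld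
end

-- part Pool.Agent.P.MP_3acc10_al.BInv1
section

set_option autoImplicit false

namespace Pool.Agent.P.MP_3acc10_al.Bld

open Finset Module Matrix

variable {n j : ℕ} {ι : Type} [Fintype ι] [DecidableEq ι]

variable {x0 x y : Fin j → Fin n} {c : ι × Finset (Fin n) → ℤ} {σ : St (Let ι j)} {a : ι}
  {π : Finset (Fin j)} {M : Finset (Fin j)} {N : Finset (ι × Finset (Fin n))}
  {Γ : Finset (Finset (Fin j))}

lemma binv1_eq (hG : Good x0 x c) (h1 : ∀ p ∈ π, uu x0 c (x p) = 1) {ρ : Finset (Fin j)}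
    (h : ρ.image x = π.image x) : ρ = π := by
  ext p
  constructor
  · intro hp
    have : x p ∈ π.image x := h ▸ mem_image_of_mem x hp
    obtain ⟨q, hq, e⟩ := mem_image.1 this
    rw [eq_of_uu_one hG (h1 q hq) e.symm]
    exact hq
  · intro hp
    have : x p ∈ ρ.image x := h ▸ mem_image_of_mem x hp
    obtain ⟨q, hq, e⟩ := mem_image.1 this
    rw [← eq_of_uu_one hG (h1 p hp) e]
    exact hq

lemma binv1_mult (x : Fin j → Fin n) (p : Fin j) : 1 ≤ mult x (x p) :=
  card_pos.2 ⟨p, by simp⟩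

lemma binv1_two (hc : π.card = 2) (hx : ¬ Set.InjOn x π) {p : Fin j} (hp : p ∈ π) :
    2 ≤ mult x (x p) := by
  obtain ⟨u, v, huv, rfl⟩ := card_eq_two.1 hc
  have hx' : x u = x v := by
    by_contra hne
    apply hx
    intro s hs t ht e
    simp only [coe_insert, coe_singleton, Set.mem_insert_iff, Set.mem_singleton_iff] at hs ht
    rcases hs with rfl | rfl <;> rcases ht with rfl | rfl
    · rfl
    · exact absurd e hne
    · exact absurd e.symm hne
    · rfl
  rw [← hc]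
  apply card_le_card
  intro s hs
  simp only [mem_insert, mem_singleton] at hs hp
  simp only [mem_filter, mem_univ, true_and]
  rcases hs with rfl | rfl <;> rcases hp with rfl | rfl
  · rfl
  · exact hx'
  · exact hx'.symm
  · rfl

lemma binv1_stay {s t : Let ι j} (hs : s ∉ alw σ) (h : Adj t s) :
    s ∉ alw (upd Adj rk σ t) := by
  intro h'
  rw [mem_alw, upd_fst] at h'
  apply h'.2
  rw [mem_upd]
  refine Or.inr ⟨h'.1, h, Or.inl ?_⟩
  by_contra h2
  exact hs (mem_alw.2 ⟨h'.1, h2⟩)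

theorem Clo_notin (hG : Good x0 x c) (hI : Inv x0 x σ c M N Γ) (hC : Clo x0 x σ c a π) :
    (a, π.image x) ∉ N ∧ Disjoint π M := by
  have h1 : (a, π.image x) ∉ N := by
    intro hN
    rcases hI.2.2.1 _ hN with ⟨ρ, _, h2, h3⟩ | ⟨e, he, β, hβ, hc, _⟩ | ⟨e, he, h2⟩
    · rw [binv1_eq hG hC.2.2.2 h2] at h3
      exact h3 hC.1
    · obtain ⟨p, hp, rfl⟩ := mem_image.1 he
      have h4 := mult_lt hG hc hβ
      have h5 := hC.2.2.2 p hp
      have h6 := binv1_mult x p
      omega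
    · obtain ⟨p, hp, rfl⟩ := mem_image.1 he
      have h5 := hC.2.2.2 p hp
      omega
  refine ⟨h1, disjoint_left.2 fun p hp hM => h1 ?_⟩
  obtain ⟨γ, hγ, h2⟩ := hI.2.1 p hM
  have := label_eq (x0 := x0) (hC.2.2.2 p hp).le (hI.1 γ hγ) hC.2.2.1 h2
    (mem_image_of_mem x hp)
  rw [← this.1]
  exact hγ

theorem Clo_uniq (hπ : π.Nonempty) {b : ι} (hC : Clo x0 x σ c a π) (hC' : Clo x0 x σ c b π) :
    a = b := by
  obtain ⟨p, hp⟩ := hπ
  have := label_eq (x0 := x0) (hC.2.2.2 p hp).le hC.2.2.1 hC'.2.2.1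
    (mem_image_of_mem x hp) (mem_image_of_mem x hp)
  exact congrArg Prod.fst this.1

theorem Clo_disj (hG : Good x0 x c) {b : ι} {ρ : Finset (Fin j)} (hC : Clo x0 x σ c a π)
    (hC' : Clo x0 x σ c b ρ) (h : π ≠ ρ) : Disjoint π ρ := by
  refine disjoint_left.2 fun p hp hp' => h ?_
  have := label_eq (x0 := x0) (hC.2.2.2 p hp).le hC.2.2.1 hC'.2.2.1
    (mem_image_of_mem x hp) (mem_image_of_mem x hp')
  exact binv1_eq hG hC'.2.2.2 (congrArg Prod.snd this.1)

theorem Inv_add (hI : Inv x0 x σ c M N Γ) (ha : (some a, π) ∉ alw σ)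
    (hc : 0 < c (a, π.image x)) : Inv x0 x σ c (M ∪ π) (insert (a, π.image x) N) Γ := by
  refine ⟨?_, ?_, ?_, ?_⟩
  · intro γ hγ
    rcases mem_insert.1 hγ with rfl | hγ
    · exact hc
    · exact hI.1 γ hγ
  · intro p hp
    rcases mem_union.1 hp with hp | hp
    · obtain ⟨γ, hγ, h⟩ := hI.2.1 p hp
      exact ⟨γ, mem_insert_of_mem hγ, h⟩
    · exact ⟨_, mem_insert_self _ _, mem_image_of_mem x hp⟩
  · intro γ hγ
    rcases mem_insert.1 hγ with rfl | hγ
    · exact Or.inl ⟨π, subset_union_right, rfl, ha⟩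
    · rcases hI.2.2.1 _ hγ with ⟨ρ, h1, h2, h3⟩ | ⟨e, he, β, hβ, hc, γ', h1, h2⟩ | h
      · exact Or.inl ⟨ρ, h1.trans subset_union_left, h2, h3⟩
      · exact Or.inr (Or.inl ⟨e, he, β, hβ, hc, γ', mem_insert_of_mem h1, h2⟩)
      · exact Or.inr (Or.inr h)
  · intro ρ hρ
    obtain ⟨h1, h2 | ⟨p, hp, h3, h4⟩⟩ := hI.2.2.2 ρ hρ
    · exact ⟨h1, Or.inl h2⟩
    · exact ⟨h1, Or.inr ⟨p, hp, mem_union_left _ h3, h4⟩⟩

theorem Inv_g (hG : Good x0 x c) (hI : Inv x0 x σ c M N Γ) (ha : (none, π) ∈ alw σ)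
    (hc : π.card = 2) (hx : ¬ Set.InjOn x π) :
    π ∉ Γ ∧ Inv x0 x (upd Adj rk σ (none, π)) c M N (insert π Γ) := by
  have h2 : ∀ p ∈ π, 2 ≤ uu x0 c (x p) := fun p hp =>
    (binv1_two hc hx hp).trans (mult_le hG _)
  refine ⟨?_, hI.1, hI.2.1, ?_, ?_⟩
  · intro hΓ
    obtain ⟨_, h | ⟨p, hp, _, h4⟩⟩ := hI.2.2.2 π hΓ
    · exact h.1 ha
    · have := h2 p hp
      omega
  · intro γ hγ
    rcases hI.2.2.1 _ hγ with ⟨ρ, h1, h3, h4⟩ | h | h
    · by_cases hd : Disjoint π ρ
      · exact Or.inl ⟨ρ, h1, h3, binv1_stay h4 ⟨by simp, Or.inl hd⟩⟩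
      · obtain ⟨p, hp, hp'⟩ := not_disjoint_iff.1 hd
        exact Or.inr (Or.inr ⟨x p, h3 ▸ mem_image_of_mem x hp', h2 p hp⟩)
    · exact Or.inr (Or.inl h)
    · exact Or.inr (Or.inr h)
  · intro ρ hρ
    rcases mem_insert.1 hρ with rfl | hρ
    · refine ⟨hc, Or.inl ⟨fun h => (mem_alw.1 h).2 ?_, hx⟩⟩
      rw [mem_upd]
      exact Or.inl rfl
    · obtain ⟨h1, h | h⟩ := hI.2.2.2 ρ hρ
      · refine ⟨h1, Or.inl ⟨binv1_stay h.1 ⟨?_, Or.inr ⟨rfl, rfl⟩⟩, h.2⟩⟩
        intro e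
        exact h.1 (e ▸ ha)
      · exact ⟨h1, Or.inr h⟩

theorem Inv_OO (hG : Good x0 x c) (hI : Inv x0 x σ c M N Γ) (hC : Clo x0 x σ c a π)
    (hP : Pan π x y) (hne : π.image y ≠ π.image x) (hz : zz c a = 1)
    (hα : c (a, π.image y) < 0) :
    Inv x0 y (upd Adj rk σ (some a, π)) (c + dl (some a, π) x y) M N Γ := by
  obtain ⟨hN, hM⟩ := Clo_notin hG hI hC
  have hNa : ∀ γ ∈ N, γ.1 ≠ a := by
    rintro ⟨b, I⟩ hγ (rfl : b = a)
    have hI' : I ≠ π.image x := fun e => hN (e ▸ hγ)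
    have h1 : ∑ J ∈ {I, π.image x}, (c (b, J)).toNat ≤ zz c b :=
      sum_le_sum_of_subset (subset_univ _)
    rw [sum_pair hI'] at h1
    have h2 := hI.1 _ hγ
    have h3 := hC.2.2.1
    omega
  have hc : ∀ γ : ι × Finset (Fin n), γ.1 ≠ a → (c + dl (some a, π) x y) γ = c γ := by
    intro γ hγ
    have h1 : γ ≠ (a, π.image y) := fun e => hγ (congrArg Prod.fst e)
    have h2 : γ ≠ (a, π.image x) := fun e => hγ (congrArg Prod.fst e)
    simp [dl_some, Pi.single_eq_of_ne h1, Pi.single_eq_of_ne h2]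
  have hy : ∀ p ∈ M, y p = x p := fun p hp => hP.1 p (disjoint_right.1 hM hp)
  have hu : ∀ e, e ∉ π.image x → uu x0 (c + dl (some a, π) x y) e = uu x0 c e := by
    intro e he
    have h1 := uu_step (x0 := x0) (c := c) (a := a) hne e
    rw [if_neg (fun h => he h.2), if_neg (fun h => absurd h.1 (not_le.2 hα))] at h1
    omega
  refine ⟨?_, ?_, ?_, ?_⟩
  · intro γ hγ
    rw [hc γ (hNa γ hγ)]
    exact hI.1 γ hγ
  · intro p hp
    rw [hy p hp]
    exact hI.2.1 p hp
  · intro γ hγ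
    rcases hI.2.2.1 _ hγ with ⟨ρ, h1, h2, h3⟩ | ⟨e, he, β, hβ, hc', γ', h1, h2⟩ | ⟨e, he, h2⟩
    · refine Or.inl ⟨ρ, h1, ?_, binv1_stay h3 ⟨?_, Or.inl (hM.mono_right h1)⟩⟩
      · rw [← h2]
        exact image_congr fun p hp => hy p (h1 hp)
      · intro e
        exact hNa γ hγ (Option.some.inj (congrArg Prod.fst e)).symm
    · refine Or.inr (Or.inl ⟨e, he, β, hβ, ?_, γ', h1, h2⟩)
      rw [hc β (h2 ▸ hNa γ' h1)]
      exact hc'
    · refine Or.inr (Or.inr ⟨e, he, ?_⟩)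
      rw [hu e]
      · exact h2
      · intro h
        obtain ⟨p, hp, rfl⟩ := mem_image.1 h
        have := hC.2.2.2 p hp
        omega
  · intro ρ hρ
    obtain ⟨h1, h | ⟨p, hp, h3, h4⟩⟩ := hI.2.2.2 ρ hρ
    · have hd : Disjoint π ρ := by
        refine disjoint_left.2 fun p hp hp' => ?_
        have h2 := (binv1_two h1 h.2 hp').trans (mult_le hG _)
        have := hC.2.2.2 p hp
        omega
      refine ⟨h1, Or.inl ⟨binv1_stay h.1 ⟨by simp, Or.inl hd⟩, fun h' => h.2 ?_⟩⟩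
      exact h'.congr fun p hp => hP.1 p (disjoint_right.1 hd hp)
    · refine ⟨h1, Or.inr ⟨p, hp, h3, ?_⟩⟩
      rw [hy p h3, hu]
      · exact h4
      · intro h
        obtain ⟨q, hq, e⟩ := mem_image.1 h
        have := eq_of_uu_one hG h4 e
        exact disjoint_left.1 hM hq (this ▸ h3)

end Pool.Agent.P.MP_3acc10_al.Bld
end

-- part Pool.Agent.P.MP_3acc10_al.BInv2
section

set_option autoImplicit false

namespace Pool.Agent.P.MP_3acc10_al.Bld

open Finset Module Matrix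

variable {n j : ℕ} {ι : Type} [Fintype ι] [DecidableEq ι]

variable {x0 x y : Fin j → Fin n} {c : ι × Finset (Fin n) → ℤ} {σ : St (Let ι j)} {a : ι}
  {π : Finset (Fin j)} {M : Finset (Fin j)} {N : Finset (ι × Finset (Fin n))}
  {Γ : Finset (Finset (Fin j))}

omit [Fintype ι] in
theorem binv2_val (γ : ι × Finset (Fin n)) :
    (c + dl (some a, π) x y) γ = c γ + (if γ = (a, π.image y) then 1 else 0) -
      (if γ = (a, π.image x) then 1 else 0) := by
  simp only [dl_some, Pi.add_apply, Pi.sub_apply, Pi.single_apply]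
  ring

omit [Fintype ι] in
theorem binv2_stay {s t : Let ι j} (hs : s ∉ alw σ) (hA : Adj t s) :
    s ∉ alw (upd Adj rk σ t) := by
  intro h
  rw [mem_alw, upd_fst, mem_upd] at h
  rw [mem_alw] at hs
  refine h.2 (Or.inr ⟨h.1, hA, Or.inl ?_⟩)
  by_contra h2
  exact hs ⟨h.1, h2⟩

omit [Fintype ι] in
theorem binv2_self (t : Let ι j) : t ∉ alw (upd Adj rk σ t) := by
  intro h
  rw [mem_alw, mem_upd] at h
  exact h.2 (Or.inl rfl)

theorem binv2_image {ρ : Finset (Fin j)} (hP : Pan π x y) (hd : Disjoint π ρ) :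
    ρ.image y = ρ.image x :=
  image_congr fun p hp => hP.1 p fun hπ => disjoint_left.1 hd hπ hp

theorem binv2_inj {ρ : Finset (Fin j)} (hP : Pan π x y) (hd : Disjoint π ρ)
    (h : ¬ Set.InjOn x ρ) : ¬ Set.InjOn y ρ := by
  intro hy
  refine h fun p hp q hq e => hy hp hq ?_
  rw [hP.1 p fun hπ => disjoint_left.1 hd hπ hp, hP.1 q fun hπ => disjoint_left.1 hd hπ hq, e]

theorem binv2_cov (hI : Inv x0 x σ c M N Γ) (hP : Pan π x y) :
    ∀ p ∈ M ∪ π, ∃ γ ∈ insert (a, π.image y) N, y p ∈ γ.2 := by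
  intro p hp
  by_cases hπ : p ∈ π
  · exact ⟨_, mem_insert_self _ _, mem_image_of_mem y hπ⟩
  · obtain ⟨γ, hγ, hx⟩ := hI.2.1 p ((mem_union.1 hp).resolve_right hπ)
    exact ⟨γ, mem_insert_of_mem hγ, by rw [hP.1 p hπ]; exact hx⟩

theorem Inv_NN (hG : Good x0 x c) (hI : Inv x0 x σ c M N Γ) (ha : (some a, π) ∈ alw σ)
    (hP : Pan π x y) (hne : π.image y ≠ π.image x) (hz : zz c a = 0) (hF : Fresh x0 c π y) :
    Inv x0 y (upd Adj rk σ (some a, π)) (c + dl (some a, π) x y) (M ∪ π)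
      (insert (a, π.image y) N) Γ := by
  have h0 : ∀ I, c (a, I) = 0 := zero_of_zz hG hz
  have hαβ : ((a, π.image y) : ι × Finset (Fin n)) ≠ (a, π.image x) :=
    fun e => hne (congrArg Prod.snd e)
  have hoff : ∀ γ : ι × Finset (Fin n), c γ ≠ 0 → γ.1 ≠ a := by
    rintro ⟨b, I⟩ hc rfl
    exact hc (h0 I)
  have hsame : ∀ γ : ι × Finset (Fin n), γ.1 ≠ a → (c + dl (some a, π) x y) γ = c γ := by
    intro γ hγ
    rw [binv2_val, if_neg fun e => hγ (congrArg Prod.fst e),
      if_neg fun e => hγ (congrArg Prod.fst e)]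
    ring
  have hα : (c + dl (some a, π) x y) (a, π.image y) = 1 := by
    rw [binv2_val, if_pos rfl, if_neg hαβ, h0]
    ring
  have hβ : (c + dl (some a, π) x y) (a, π.image x) = -1 := by
    rw [binv2_val, if_neg hαβ.symm, if_pos rfl, h0]
    ring
  have huu : ∀ e, uu x0 (c + dl (some a, π) x y) e =
      uu x0 c e + if e ∈ π.image y then 1 else 0 := by
    intro e
    have := uu_step (x0 := x0) (c := c) (a := a) hne e
    simpa only [h0, lt_irrefl, false_and, if_false, add_zero, le_refl, true_and] using this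
  have hN : ∀ γ ∈ N, γ.1 ≠ a := fun γ hγ => hoff γ (hI.1 γ hγ).ne'
  refine ⟨fun γ hγ => ?_, binv2_cov hI hP, fun γ hγ => ?_, fun ρ hρ => ⟨(hI.2.2.2 ρ hρ).1, ?_⟩⟩
  · rcases mem_insert.1 hγ with rfl | hγ
    · rw [hα]; exact one_pos
    · rw [hsame γ (hN γ hγ)]; exact hI.1 γ hγ
  · rcases mem_insert.1 hγ with rfl | hγ
    · exact Or.inl ⟨π, subset_union_right, rfl, binv2_self _⟩
    rcases hI.2.2.1 γ hγ with ⟨π', h1, h2, h3⟩ | ⟨e, he, β', h1, h2, γ', h3, h4⟩ | ⟨e, he, h1⟩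
    · by_cases hd : Disjoint π π'
      · refine Or.inl ⟨π', h1.trans subset_union_left, by rw [binv2_image hP hd, h2],
          binv2_stay h3 ⟨fun e => h3 (e ▸ ha), Or.inl hd⟩⟩
      · obtain ⟨p, hp, hp'⟩ := not_disjoint_iff.1 hd
        refine Or.inr (Or.inl ⟨x p, h2 ▸ mem_image_of_mem x hp', (a, π.image x),
          mem_image_of_mem x hp, ?_, (a, π.image y), mem_insert_self _ _, rfl⟩)
        rw [hβ]
        norm_num
    · refine Or.inr (Or.inl ⟨e, he, β', h1, ?_, γ', mem_insert_of_mem h3, h4⟩)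
      rw [hsame β' (hoff β' h2.ne)]
      exact h2
    · refine Or.inr (Or.inr ⟨e, he, ?_⟩)
      rw [huu]
      omega
  · by_cases hd : Disjoint π ρ
    · rcases (hI.2.2.2 ρ hρ).2 with ⟨h1, h2⟩ | ⟨p, hp, hM, h1⟩
      · exact Or.inl ⟨binv2_stay h1 ⟨fun e => h1 (e ▸ ha), Or.inl hd⟩, binv2_inj hP hd h2⟩
      · refine Or.inr ⟨p, hp, mem_union_left _ hM, ?_⟩
        rw [hP.1 p fun hπ => disjoint_left.1 hd hπ hp, huu, h1, if_neg]
        intro hm
        obtain ⟨q, hq, e⟩ := mem_image.1 hm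
        have := hF q hq
        rw [e, h1] at this
        exact one_ne_zero this
    · obtain ⟨p, hp, hp'⟩ := not_disjoint_iff.1 hd
      refine Or.inr ⟨p, hp', mem_union_right _ hp, ?_⟩
      rw [huu, hF p hp, if_pos (mem_image_of_mem y hp)]

theorem Inv_ON (hG : Good x0 x c) (hI : Inv x0 x σ c M N Γ) (hC : Clo x0 x σ c a π)
    (hP : Pan π x y) (hne : π.image y ≠ π.image x) (hF : Fresh x0 c π y) :
    Inv x0 y (upd Adj rk σ (some a, π)) (c + dl (some a, π) x y) (M ∪ π)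
      (insert (a, π.image y) N) Γ := by
  obtain ⟨hβN, hdM⟩ := Clo_notin hG hI hC
  obtain ⟨ha, -, hβ0, hu1⟩ := hC
  have hαβ : ((a, π.image y) : ι × Finset (Fin n)) ≠ (a, π.image x) :=
    fun e => hne (congrArg Prod.snd e)
  obtain ⟨p0, hp0⟩ : π.Nonempty := by
    rw [nonempty_iff_ne_empty]
    rintro rfl
    exact hne (by simp)
  have hα0 : c (a, π.image y) = 0 := zero_of_uu hG (hF p0 hp0) (mem_image_of_mem y hp0)
  have huu : ∀ e, e ∉ π.image x → uu x0 (c + dl (some a, π) x y) e =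
      uu x0 c e + if e ∈ π.image y then 1 else 0 := by
    intro e he
    have := uu_step (x0 := x0) (c := c) (a := a) hne e
    simpa only [hα0, he, and_false, if_false, add_zero, le_refl, true_and] using this
  refine ⟨fun γ hγ => ?_, binv2_cov hI hP, fun γ hγ => ?_, fun ρ hρ => ⟨(hI.2.2.2 ρ hρ).1, ?_⟩⟩
  · rcases mem_insert.1 hγ with rfl | hγ
    · rw [binv2_val, if_pos rfl, if_neg hαβ, hα0]
      norm_num
    · have h1 := hI.1 γ hγ
      have h2 : γ ≠ (a, π.image x) := fun e => hβN (e ▸ hγ)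
      rw [binv2_val, if_neg h2]
      split_ifs <;> omega
  · rcases mem_insert.1 hγ with rfl | hγ
    · exact Or.inl ⟨π, subset_union_right, rfl, binv2_self _⟩
    rcases hI.2.2.1 γ hγ with ⟨π', h1, h2, h3⟩ | ⟨e, he, β', h1, h2, γ', h3, h4⟩ | ⟨e, he, h1⟩
    · have hd : Disjoint π π' := hdM.mono_right h1
      exact Or.inl ⟨π', h1.trans subset_union_left, by rw [binv2_image hP hd, h2],
        binv2_stay h3 ⟨fun e => h3 (e ▸ ha), Or.inl hd⟩⟩
    · refine Or.inr (Or.inl ⟨e, he, β', h1, ?_, γ', mem_insert_of_mem h3, h4⟩)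
      have n1 : β' ≠ (a, π.image y) := by
        rintro rfl
        omega
      have n2 : β' ≠ (a, π.image x) := by
        rintro rfl
        omega
      rw [binv2_val, if_neg n1, if_neg n2]
      omega
    · refine Or.inr (Or.inr ⟨e, he, ?_⟩)
      have hex : e ∉ π.image x := by
        intro hm
        obtain ⟨q, hq, rfl⟩ := mem_image.1 hm
        have := hu1 q hq
        omega
      rw [huu e hex]
      omega
  · by_cases hd : Disjoint π ρ
    · rcases (hI.2.2.2 ρ hρ).2 with ⟨h1, h2⟩ | ⟨p, hp, hM, h1⟩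
      · exact Or.inl ⟨binv2_stay h1 ⟨fun e => h1 (e ▸ ha), Or.inl hd⟩, binv2_inj hP hd h2⟩
      · have hpπ : p ∉ π := fun hπ => disjoint_left.1 hd hπ hp
        refine Or.inr ⟨p, hp, mem_union_left _ hM, ?_⟩
        have hex : x p ∉ π.image x := by
          intro hm
          obtain ⟨q, hq, e⟩ := mem_image.1 hm
          exact hpπ (eq_of_uu_one hG h1 e ▸ hq)
        rw [hP.1 p hpπ, huu _ hex, h1, if_neg]
        intro hm
        obtain ⟨q, hq, e⟩ := mem_image.1 hm
        have := hF q hq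
        rw [e, h1] at this
        exact one_ne_zero this
    · obtain ⟨p, hp, hp'⟩ := not_disjoint_iff.1 hd
      refine Or.inr ⟨p, hp', mem_union_right _ hp, ?_⟩
      have hex : y p ∉ π.image x := by
        intro hm
        obtain ⟨q, hq, e⟩ := mem_image.1 hm
        have h1 := hu1 q hq
        rw [e, hF p hp] at h1
        exact zero_ne_one h1
      rw [huu _ hex, hF p hp, if_pos (mem_image_of_mem y hp)]

end Pool.Agent.P.MP_3acc10_al.Bld
end

-- part Pool.Agent.P.MP_3acc10_al.BPhi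
section

set_option autoImplicit false

namespace Pool.Agent.P.MP_3acc10_al.Bld

open Finset Module Matrix

variable {n j : ℕ} {ι : Type} [Fintype ι] [DecidableEq ι]

variable {x0 x y : Fin j → Fin n} {c : ι × Finset (Fin n) → ℤ} {σ : St (Let ι j)} {a : ι}
  {π : Finset (Fin j)} {M : Finset (Fin j)} {N : Finset (ι × Finset (Fin n))}
  {Γ : Finset (Finset (Fin j))}

variable {z : ℕ → ℝ} {δ μ : ℝ} {h : Finset (Finset (Fin j)) → ℝ}

theorem bphi_nn (hf : Hf z δ h) (hμ : 1 ≤ μ) : 0 ≤ (δ * μ)⁻¹ := by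
  have h1 : 0 ≤ δ⁻¹ := (zero_le_one.trans (hf.ge ∅)).trans (hf.le ∅)
  rw [mul_inv]
  exact mul_nonneg h1 (inv_nonneg.2 (by linarith))

theorem bphi_grow (hf : Hf z δ h) (hμ : 1 ≤ μ) (hI : Inv x0 x σ c M N Γ) {k : ℕ}
    (hk : k + 1 ≤ M.card + Γ.card) : phi μ h x0 x σ c ≤ μ⁻¹ ^ k * (δ * μ)⁻¹ := by
  have h0 : 0 ≤ μ⁻¹ := inv_nonneg.2 (by linarith)
  have h1 : μ⁻¹ ≤ 1 := inv_le_one_of_one_le₀ hμ
  calc phi μ h x0 x σ c ≤ μ⁻¹ ^ (M.card + Γ.card) * h (Ft M σ) := phi_le μ h hI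
    _ ≤ μ⁻¹ ^ (k + 1) * δ⁻¹ :=
        mul_le_mul (pow_le_pow_of_le_one h0 h1 hk) (hf.le _) (zero_le_one.trans (hf.ge _))
          (pow_nonneg h0 _)
    _ = _ := by rw [pow_succ, mul_inv]; ring

theorem bphi_same (hf : Hf z δ h) (hμ : 1 ≤ μ) (hI : Inv x0 x σ c M N Γ)
    {F : Finset (Finset (Fin j))} (hF : F ⊆ Ft M σ) :
    phi μ h x0 x σ c ≤ μ⁻¹ ^ (M.card + Γ.card) * (h F + (δ * μ)⁻¹) := by
  have h0 : 0 ≤ μ⁻¹ := inv_nonneg.2 (by linarith)
  refine (phi_le μ h hI).trans (mul_le_mul_of_nonneg_left ?_ (pow_nonneg h0 _))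
  exact (hf.anti _ _ hF).trans (le_add_of_nonneg_right (bphi_nn hf hμ))

theorem bphi_card {ρ M' : Finset (Fin j)} (hρ : ρ.Nonempty) (hd : Disjoint ρ M) (h1 : M ⊆ M') :
    M.card + 1 ≤ (M' ∪ ρ).card := by
  obtain ⟨p, hp⟩ := hρ
  refine card_lt_card ⟨h1.trans subset_union_left, fun hh => ?_⟩
  exact disjoint_left.1 hd hp (hh (mem_union_right _ hp))

/-- a closing letter of smaller rank is lost, its slots become blocked -/
theorem bphi_lost {b : ι} {ρ M' : Finset (Fin j)} {N' : Finset (ι × Finset (Fin n))}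
    (hC : Clo x0 x σ c b ρ) (hP : Pan π x y) (hd : Disjoint π ρ) (hr : rkS ρ < rkS π)
    (hb : b ≠ a)
    (hI : Inv x0 y (upd Adj rk σ (some a, π)) (c + dl (some a, π) x y) M' N' Γ) :
    Inv x0 y (upd Adj rk σ (some a, π)) (c + dl (some a, π) x y) (M' ∪ ρ)
      (insert (b, ρ.image y) N') Γ := by
  have hne : π ≠ ρ := fun e => by rw [e] at hr; exact lt_irrefl _ hr
  have him : ρ.image y = ρ.image x :=
    image_congr fun p hp => hP.1 p fun hp' => disjoint_left.1 hd hp' hp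
  refine Inv_add hI (fun hh => (mem_alw.1 hh).2 ?_) ?_
  · exact mem_upd.2 (Or.inr ⟨(mem_alw.1 hC.1).1,
      ⟨fun e => hne (congrArg Prod.snd e), Or.inl hd⟩, Or.inr hr⟩)
  · have e1 : ∀ I J : Finset (Fin n), ((b, I) : ι × Finset (Fin n)) ≠ (a, J) :=
      fun I J e => hb (congrArg Prod.fst e)
    rw [Pi.add_apply, dl_some, Pi.sub_apply, Pi.single_eq_of_ne (e1 _ _),
      Pi.single_eq_of_ne (e1 _ _), him]
    simpa using hC.2.2.1

theorem phi_bd (hf : Hf z δ h) (hμ : 1 ≤ μ) (x0 x : Fin j → Fin n) (σ : St (Let ι j))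
    (c : ι × Finset (Fin n) → ℤ) :
    μ⁻¹ ^ (j + 2 ^ j) ≤ phi μ h x0 x σ c ∧ phi μ h x0 x σ c ≤ δ⁻¹ := by
  have h0 : 0 ≤ μ⁻¹ := inv_nonneg.2 (by linarith)
  have h1 : μ⁻¹ ≤ 1 := inv_le_one_of_one_le₀ hμ
  constructor
  · obtain ⟨M, N, Γ, -, e⟩ := phi_eq μ h x0 x σ c
    have c1 : M.card ≤ j := by simpa using card_le_univ M
    have c2 : Γ.card ≤ 2 ^ j := by simpa using card_le_univ Γ
    rw [e]
    exact (pow_le_pow_of_le_one h0 h1 (Nat.add_le_add c1 c2)).trans
      (le_mul_of_one_le_right (pow_nonneg h0 _) (hf.ge _))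
  · have := phi_le μ h (Inv_empty x0 x σ c)
    simp only [card_empty, add_zero, pow_zero, one_mul] at this
    exact this.trans (hf.le _)

open Classical in
theorem phi_NN (hf : Hf z δ h) (hμ : 1 ≤ μ) (hv : ∀ t ∈ σ.1, t.2.Nonempty) (hG : Good x0 x c)
    (hI : Inv x0 x σ c M N Γ) (ha : (some a, π) ∈ alw σ) (hP : Pan π x y)
    (hne : π.image y ≠ π.image x) (hz : zz c a = 0) (hF : Fresh x0 c π y) :
    phi μ h x0 y (upd Adj rk σ (some a, π)) (c + dl (some a, π) x y) ≤
      μ⁻¹ ^ (M.card + Γ.card) *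
        ((if π ∉ Ft M σ ∧ ∀ b ρ, Clo x0 x σ c b ρ → rkS π < rkS ρ then h (nxt (Ft M σ) π) else 0) +
          (δ * μ)⁻¹) := by
  have h0 : 0 ≤ μ⁻¹ := inv_nonneg.2 (by linarith)
  have hI' := Inv_NN hG hI ha hP hne hz hF
  have fin : ∀ {t u : ℝ}, t ≤ μ⁻¹ ^ (M.card + Γ.card) * (δ * μ)⁻¹ → 0 ≤ u →
      t ≤ μ⁻¹ ^ (M.card + Γ.card) * (u + (δ * μ)⁻¹) := fun ht hu =>
    ht.trans (mul_le_mul_of_nonneg_left (le_add_of_nonneg_left hu) (pow_nonneg h0 _))
  by_cases hπ : π ⊆ M
  · rw [union_eq_left.2 hπ] at hI'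
    by_cases hall : ∀ b ρ, Clo x0 x σ c b ρ → rkS π < rkS ρ
    · rw [if_pos ⟨fun hh => mem_Ft.1 hh ⟨hπ, a, ha⟩, hall⟩]
      exact bphi_same hf hμ hI' (Ft_nxt M σ a π)
    · rw [if_neg fun hh => hall hh.2]
      push Not at hall
      obtain ⟨b, ρ, hC, hr⟩ := hall
      have hρ : ρ.Nonempty := hv _ (mem_alw.1 hC.1).1
      have hd : Disjoint ρ M := (Clo_notin hG hI hC).2
      have hne' : ρ ≠ π := fun e => by
        obtain ⟨p, hp⟩ := hρ
        exact disjoint_left.1 hd hp (hπ (e ▸ hp))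
      have hr' : rkS ρ < rkS π := lt_of_le_of_ne hr fun e => hne' (rkS_inj e)
      have hb : b ≠ a := fun e => by
        have h1 := hC.2.2.1
        rw [e, zero_of_zz hG hz] at h1
        exact lt_irrefl _ h1
      have hI2 := bphi_lost hC hP (hd.symm.mono_left hπ) hr' hb hI'
      have hc := bphi_card hρ hd (subset_refl M)
      exact fin (bphi_grow hf hμ hI2 (by omega)) le_rfl
  · have hc : M.card + 1 ≤ (M ∪ π).card :=
      card_lt_card ⟨subset_union_left, fun hh => hπ (subset_union_right.trans hh)⟩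
    refine fin (bphi_grow hf hμ hI' (by omega)) ?_
    split_ifs
    · exact zero_le_one.trans (hf.ge _)
    · exact le_rfl

theorem phi_ON (hf : Hf z δ h) (hμ : 1 ≤ μ) (hG : Good x0 x c) (hI : Inv x0 x σ c M N Γ)
    (hC : Clo x0 x σ c a π) (hP : Pan π x y) (hne : π.image y ≠ π.image x) (hF : Fresh x0 c π y) :
    phi μ h x0 y (upd Adj rk σ (some a, π)) (c + dl (some a, π) x y) ≤
      μ⁻¹ ^ (M.card + Γ.card) * (δ * μ)⁻¹ := by
  have hπ : π.Nonempty := by
    rw [nonempty_iff_ne_empty]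
    rintro rfl
    exact hne (by simp)
  have hc := bphi_card hπ (Clo_notin hG hI hC).2 (subset_refl M)
  exact bphi_grow hf hμ (Inv_ON hG hI hC hP hne hF) (by omega)

open Classical in
theorem phi_OO (hf : Hf z δ h) (hμ : 1 ≤ μ) (hv : ∀ t ∈ σ.1, t.2.Nonempty) (hG : Good x0 x c)
    (hI : Inv x0 x σ c M N Γ) (hC : Clo x0 x σ c a π) (hP : Pan π x y)
    (hne : π.image y ≠ π.image x) (hz : zz c a = 1) (hα : c (a, π.image y) < 0) :
    phi μ h x0 y (upd Adj rk σ (some a, π)) (c + dl (some a, π) x y) ≤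
      μ⁻¹ ^ (M.card + Γ.card) *
        ((if ∀ b ρ, Clo x0 x σ c b ρ → rkS π ≤ rkS ρ then h (Ft M σ ∪ lowr j (rkS π)) else 0) +
          (δ * μ)⁻¹) := by
  have hI' := Inv_OO hG hI hC hP hne hz hα
  by_cases hall : ∀ b ρ, Clo x0 x σ c b ρ → rkS π ≤ rkS ρ
  · rw [if_pos hall]
    exact bphi_same hf hμ hI' (Ft_low M σ a (Clo_notin hG hI hC).2)
  · rw [if_neg hall, zero_add]
    push Not at hall
    obtain ⟨b, ρ, hC', hr⟩ := hall
    have hρ : ρ.Nonempty := hv _ (mem_alw.1 hC'.1).1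
    have hne' : π ≠ ρ := fun e => by rw [e] at hr; exact lt_irrefl _ hr
    have hd := Clo_disj hG hC hC' hne'
    have hb : b ≠ a := by
      rintro rfl
      have hi : π.image x ≠ ρ.image x := fun e => by
        obtain ⟨p, hp⟩ := hρ
        obtain ⟨p', hp', e'⟩ := mem_image.1 (e ▸ mem_image_of_mem x hp : x p ∈ π.image x)
        rw [eq_of_uu_one hG (hC'.2.2.2 p hp) e'] at hp'
        exact disjoint_left.1 hd hp' hp
      have h1 := add_le_sum (f := fun I : Finset (Fin n) => (c (b, I)).toNat)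
        (fun _ _ => Nat.zero_le _) (mem_univ (π.image x)) (mem_univ (ρ.image x)) hi
      have h2 := hC.2.2.1
      have h3 := hC'.2.2.1
      unfold zz at hz
      omega
    have hI2 := bphi_lost hC' hP hd hr hb hI'
    have hc := bphi_card hρ (Clo_notin hG hI hC').2 (subset_refl M)
    exact bphi_grow hf hμ hI2 (by omega)

theorem phi_g (hf : Hf z δ h) (hμ : 1 ≤ μ) (hG : Good x0 x c) (hI : Inv x0 x σ c M N Γ)
    (ha : (none, π) ∈ alw σ) (hc : π.card = 2) (hx : ¬ Set.InjOn x π) :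
    phi μ h x0 x (upd Adj rk σ (none, π)) c ≤ μ⁻¹ ^ (M.card + Γ.card) * (δ * μ)⁻¹ := by
  obtain ⟨h1, h2⟩ := Inv_g hG hI ha hc hx
  exact bphi_grow hf hμ h2 (by rw [card_insert_of_notMem h1]; omega)

end Pool.Agent.P.MP_3acc10_al.Bld
end

-- part Pool.Agent.P.MP_3acc10_al.BCount
section

set_option autoImplicit false

namespace Pool.Agent.P.MP_3acc10_al.Bld

open Finset Module Matrix

variable {n j : ℕ} {ι : Type} [Fintype ι] [DecidableEq ι]

variable {x0 x : Fin j → Fin n} {c : ι × Finset (Fin n) → ℤ} {π : Finset (Fin j)}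

omit [Fintype ι] [DecidableEq ι] in
theorem bcount_zero (a : ι) (hx : ¬ Set.InjOn x π) (y : Fin j → Fin n) :
    kk (some a, π) x y = 0 := by
  by_contra h
  exact hx (kk_ne h).1.2.1

omit [Fintype ι] [DecidableEq ι] in
theorem bcount_le (a : ι) (π : Finset (Fin j)) (x : Fin j → Fin n) (φ : Finset (Fin n) → ℝ)
    (hφ : ∀ I, 0 ≤ φ I) : ∑ y, kk (some a, π) x y * φ (π.image y) ≤
      kap n π.card * ∑ I ∈ powersetCard π.card univ, φ I := by
  by_cases hx : Set.InjOn x π
  · rw [kk_sum a hx]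
    exact mul_le_mul_of_nonneg_left
      (sum_le_sum_of_subset_of_nonneg (erase_subset _ _) fun I _ _ => hφ I) (kap_nonneg _ _)
  · simp only [bcount_zero a hx, zero_mul, sum_const_zero]
    exact mul_nonneg (kap_nonneg _ _) (sum_nonneg fun I _ => hφ I)

theorem bcount_through (e : ℕ) (v : Fin n) :
    ((powersetCard (e + 1) (univ : Finset (Fin n))).filter fun I => v ∈ I).card * n ≤
      n.choose (e + 1) * (e + 1) := by
  have h1 : ((powersetCard (e + 1) (univ : Finset (Fin n))).filter fun I => v ∈ I).card ≤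
      (powersetCard e (univ.erase v)).card := by
    refine card_le_card_of_injOn (fun I => I.erase v) (fun I hI => ?_) fun I hI J hJ h => ?_
    · obtain ⟨h1, h2⟩ := mem_filter.1 (mem_coe.1 hI)
      refine mem_coe.2 (mem_powersetCard.2 ⟨erase_subset_erase _ (subset_univ _), ?_⟩)
      rw [card_erase_of_mem h2, (mem_powersetCard.1 h1).2]
      rfl
    · rw [← insert_erase (mem_filter.1 (mem_coe.1 hI)).2,
        ← insert_erase (mem_filter.1 (mem_coe.1 hJ)).2]
      exact congrArg (insert v) h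
  rw [card_powersetCard, card_erase_of_mem (mem_univ v), card_univ, Fintype.card_fin] at h1
  obtain ⟨m, rfl⟩ := Nat.exists_eq_add_of_le' (show 1 ≤ n from v.pos)
  rw [← Nat.add_one_mul_choose_eq m e, mul_comm]
  exact Nat.mul_le_mul_left _ h1

omit [Fintype ι] [DecidableEq ι] in
theorem kk_tot (hn : j + 2 ≤ n) (a : ι) (π : Finset (Fin j)) (x : Fin j → Fin n) :
    ∑ y, kk (some a, π) x y ≤ 1 := by
  by_cases hx : Set.InjOn x π
  · have h := kk_sum a hx fun _ => 1
    simp only [mul_one] at h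
    have hm : π.image x ∈ powersetCard π.card (univ : Finset (Fin n)) :=
      mem_powersetCard.2 ⟨subset_univ _, card_image_of_injOn hx⟩
    rw [h, sum_const, card_erase_of_mem hm, card_powersetCard, card_univ, Fintype.card_fin,
      nsmul_eq_mul, mul_one, kap]
    by_cases h0 : ((n.choose π.card - 1 : ℕ) : ℝ) = 0
    · rw [h0]
      simp
    · rw [inv_mul_cancel₀ h0]
  · simp [bcount_zero a hx]

theorem kk_neg (hn : j + 2 ≤ n) (hπ : π.Nonempty) (hG : Good x0 x c) (a : ι) :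
    ∑ y, (if c (a, π.image y) < 0 then kk (some a, π) x y else 0) ≤ kap n π.card * zz c a := by
  have h := bcount_le a π x (fun I => if c (a, I) < 0 then 1 else 0)
    fun I => by split_ifs <;> norm_num
  simp only [mul_ite, mul_one, mul_zero] at h
  refine h.trans (mul_le_mul_of_nonneg_left ?_ (kap_nonneg _ _))
  rw [← zz_neg hG a, zz, Nat.cast_sum]
  refine le_trans (sum_le_sum fun I _ => ?_)
    (sum_le_sum_of_subset_of_nonneg (subset_univ _) fun I _ _ => Nat.cast_nonneg _)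
  split_ifs with hI
  · have : 1 ≤ ((-c) (a, I)).toNat := by
      rw [Pi.neg_apply]
      omega
    exact_mod_cast this
  · exact Nat.cast_nonneg _

open Classical in
theorem kk_old (hn : j + 2 ≤ n) (hG : Good x0 x c) {q : ℕ} (hq : ∑ γ, |c γ| ≤ (q : ℤ)) (a : ι)
    (π : Finset (Fin j)) : ∑ y, (if Fresh x0 c π y then 0 else kk (some a, π) x y) ≤
      2 * (j : ℝ) ^ 2 * (1 + q) / n := by
  have hn0 : (0 : ℝ) < n := by exact_mod_cast (show 0 < n by omega)
  rcases π.eq_empty_or_nonempty with rfl | hπ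
  · have : ∀ y, Fresh x0 c (∅ : Finset (Fin j)) y := fun y p hp => absurd hp (notMem_empty p)
    simp only [this, if_true, sum_const_zero]
    positivity
  obtain ⟨e, he⟩ : ∃ e, π.card = e + 1 := Nat.exists_eq_add_one_of_ne_zero hπ.card_pos.ne'
  have hej : e + 1 ≤ j := by
    have := card_le_univ π
    rwa [Fintype.card_fin, he] at this
  set D := univ.filter fun v => uu x0 c v ≠ 0 with hD
  have h := bcount_le a π x (fun I => ∑ v ∈ D, if v ∈ I then 1 else 0)
    fun I => sum_nonneg fun v _ => by split_ifs <;> norm_num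
  refine le_trans (sum_le_sum fun y _ => ?_) (h.trans ?_)
  · have h0 : (0 : ℝ) ≤ ∑ v ∈ D, if v ∈ π.image y then 1 else 0 :=
      sum_nonneg fun v _ => by split_ifs <;> norm_num
    split_ifs with hF
    · exact mul_nonneg (kk_nonneg _ _ _) h0
    · refine le_mul_of_one_le_right (kk_nonneg _ _ _) ?_
      simp only [Fresh, not_forall] at hF
      obtain ⟨p, hp, hu⟩ := hF
      have h1 := single_le_sum (f := fun v => if v ∈ π.image y then (1 : ℝ) else 0)
        (fun v _ => by split_ifs <;> norm_num) (show y p ∈ D from mem_filter.2 ⟨mem_univ _, hu⟩)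
      rwa [if_pos (mem_image_of_mem y hp)] at h1
  · rw [he, sum_comm]
    have h1 : ∀ v ∈ D, (∑ I ∈ powersetCard (e + 1) (univ : Finset (Fin n)),
        if v ∈ I then (1 : ℝ) else 0) ≤ n.choose (e + 1) * j / n := by
      intro v _
      rw [sum_boole, le_div_iff₀ hn0]
      have h2 := (bcount_through e v).trans (Nat.mul_le_mul_left _ hej)
      exact_mod_cast h2
    have h2 := sum_le_card_nsmul _ _ _ h1
    have h3 : (D.card : ℝ) ≤ j * (1 + q) := by exact_mod_cast uu_card hG hq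
    have h4 := kap_choose hn (Nat.succ_pos e) hej
    have h5 := kap_nonneg n (e + 1)
    rw [nsmul_eq_mul] at h2
    calc kap n (e + 1) * _ ≤ kap n (e + 1) * (j * (1 + q) * (n.choose (e + 1) * j / n)) :=
          mul_le_mul_of_nonneg_left (h2.trans (mul_le_mul_of_nonneg_right h3 (by positivity))) h5
      _ = kap n (e + 1) * n.choose (e + 1) * ((j : ℝ) ^ 2 * (1 + q) / n) := by ring
      _ ≤ 2 * ((j : ℝ) ^ 2 * (1 + q) / n) := mul_le_mul_of_nonneg_right h4 (by positivity)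
      _ = _ := by ring

end Pool.Agent.P.MP_3acc10_al.Bld
end

-- part Pool.Agent.P.MP_3acc10_al.BSums
section

set_option autoImplicit false

namespace Pool.Agent.P.MP_3acc10_al.Bld

open Finset Module Matrix

variable {n j : ℕ} {ι : Type} [Fintype ι] [DecidableEq ι]

variable {x0 x : Fin j → Fin n} {c : ι × Finset (Fin n) → ℤ} {σ : St (Let ι j)} {a : ι}
  {π : Finset (Fin j)}

variable {η0 lam : ℝ} {d : ι → ℕ}

open Classical in
theorem sum_NN (hn : j + 2 ≤ n) (hη : 0 ≤ η0) (hl : 1 ≤ lam) (hG : Good x0 x c) :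
    ∑ y, (if zz c a = 0 ∧ Fresh x0 c π y then
      kk (some a, π) x y * base (om η0 n d) lam x0 (c + dl (some a, π) x y) else 0) ≤
      om η0 n d a * base (om η0 n d) lam x0 c := by
  have hω := om_nonneg hη n d
  have hb : 0 ≤ base (om η0 n d) lam x0 c := base_nonneg hω hl
  have hw : 0 ≤ om η0 n d a * base (om η0 n d) lam x0 c := mul_nonneg (hω a) hb
  calc _ ≤ ∑ y, kk (some a, π) x y * (om η0 n d a * base (om η0 n d) lam x0 c) := by
        refine sum_le_sum fun y _ => ?_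
        split_ifs with h
        · by_cases hk : kk (some a, π) x y = 0
          · simp [hk]
          refine mul_le_mul_of_nonneg_left ?_ (kk_nonneg _ _ _)
          have h1 := ratio_NN (x0 := x0) (c := c) (a := a) hω hl (kk_ne hk).2
            (zero_of_zz hG h.1 _).le (zero_of_zz hG h.1 _).ge
          rw [if_pos h.1, if_pos h.2] at h1
          simpa [mul_comm] using h1
        · exact mul_nonneg (kk_nonneg _ _ _) hw
    _ ≤ _ := by
        rw [← sum_mul]
        exact mul_le_of_le_one_left hw (kk_tot hn a π x)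

open Classical in
theorem sum_ON (hn : j + 2 ≤ n) (hη : 0 ≤ η0) (hl : 1 ≤ lam) (hG : Good x0 x c)
    (hC : Clo x0 x σ c a π) :
    ∑ y, (if Fresh x0 c π y then
      kk (some a, π) x y * base (om η0 n d) lam x0 (c + dl (some a, π) x y) else 0) ≤
      base (om η0 n d) lam x0 c := by
  have hω := om_nonneg hη n d
  have hb : 0 ≤ base (om η0 n d) lam x0 c := base_nonneg hω hl
  calc _ ≤ ∑ y, kk (some a, π) x y * base (om η0 n d) lam x0 c := by
        refine sum_le_sum fun y _ => ?_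
        split_ifs with h
        · by_cases hk : kk (some a, π) x y = 0
          · simp [hk]
          refine mul_le_mul_of_nonneg_left ?_ (kk_nonneg _ _ _)
          have hne := (kk_ne hk).2
          obtain ⟨p, hp⟩ : π.Nonempty := by
            rw [nonempty_iff_ne_empty]
            rintro rfl
            simp at hne
          have h0 : c (a, π.image y) = 0 := zero_of_uu hG (h p hp) (mem_image_of_mem y hp)
          have h1 := ratio_ON (x0 := x0) (c := c) (a := a) hω hl hne hC.2.2.1 h0.ge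
          rw [if_pos h, pow_zero, mul_one] at h1
          exact le_trans (le_mul_of_one_le_right (base_nonneg hω hl) (one_le_pow₀ hl)) h1
        · exact mul_nonneg (kk_nonneg _ _ _) hb
    _ ≤ _ := by
        rw [← sum_mul]
        exact mul_le_of_le_one_left hb (kk_tot hn a π x)

theorem sum_OO (hn : j + 2 ≤ n) (hη : 0 ≤ η0) (hl : 1 ≤ lam)
    (hG : Good x0 x c) (hC : Clo x0 x σ c a π) (hπ : π.Nonempty) (hc : π.card = d a) :
    ∑ y, (if zz c a = 1 ∧ c (a, π.image y) < 0 then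
      kk (some a, π) x y * base (om η0 n d) lam x0 (c + dl (some a, π) x y) else 0) ≤
      (1 + η0)⁻¹ * base (om η0 n d) lam x0 c := by
  have hω := om_nonneg hη n d
  have hb : 0 ≤ base (om η0 n d) lam x0 c := base_nonneg hω hl
  have hκ : 0 < kap n π.card := kap_pos hn (card_pos.2 hπ) (by simpa using card_le_univ π)
  have hw : om η0 n d a = (1 + η0) * kap n π.card := by rw [om, hc]
  have hw0 : 0 < om η0 n d a := by rw [hw]; positivity
  by_cases hz : zz c a = 1
  swap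
  · simp only [hz, false_and, if_false, sum_const_zero]
    positivity
  calc _ ≤ ∑ y, (if c (a, π.image y) < 0 then kk (some a, π) x y else 0) *
          ((om η0 n d a)⁻¹ * base (om η0 n d) lam x0 c) := by
        refine sum_le_sum fun y _ => ?_
        by_cases h : c (a, π.image y) < 0
        · rw [if_pos ⟨hz, h⟩, if_pos h]
          by_cases hk : kk (some a, π) x y = 0
          · simp [hk]
          refine mul_le_mul_of_nonneg_left ?_ (kk_nonneg _ _ _)
          have h1 := ratio_OO (x0 := x0) (c := c) (a := a) hω hl (kk_ne hk).2 hC.2.2.1 h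
          rw [le_inv_mul_iff₀ hw0, mul_comm]
          exact le_trans (le_mul_of_one_le_right (mul_nonneg (base_nonneg hω hl) hw0.le)
            (one_le_pow₀ hl)) h1
        · rw [if_neg fun h' => h h'.2, if_neg h, zero_mul]
    _ ≤ kap n π.card * zz c a * ((om η0 n d a)⁻¹ * base (om η0 n d) lam x0 c) := by
        rw [← sum_mul]
        exact mul_le_mul_of_nonneg_right (kk_neg hn hπ hG a) (by positivity)
    _ = _ := by
        rw [hz, hw]
        field_simp
        simp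

end Pool.Agent.P.MP_3acc10_al.Bld
end

-- part Pool.Agent.P.MP_3acc10_al.BStep1
section

set_option autoImplicit false

namespace Pool.Agent.P.MP_3acc10_al.Bld

open Finset Module Matrix

variable {n j : ℕ} {ι : Type} [Fintype ι] [DecidableEq ι]

variable {x0 x : Fin j → Fin n} {c : ι × Finset (Fin n) → ℤ} {σ : St (Let ι j)}
  {M : Finset (Fin j)} {N : Finset (ι × Finset (Fin n))} {Γ : Finset (Finset (Fin j))}
  {η0 lam δ μ : ℝ} {d : ι → ℕ} {A0 : Finset ι} {h : Finset (Finset (Fin j)) → ℝ}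

open Classical in
theorem step_letter (hn : j + 2 ≤ n) (hη : 0 ≤ η0) (hd : ∀ a, 0 < d a) (hl : 1 ≤ lam)
    (hμ : 1 ≤ μ) (hf : Hf (zf η0 n d A0) δ h) (hv : ∀ t ∈ σ.1, Val d A0 t) (hG : Good x0 x c)
    (hI : Inv x0 x σ c M N Γ) {a : ι} {π : Finset (Fin j)} (ha : (some a, π) ∈ alw σ) :
    ∑ y, kk (some a, π) x y *
        Psi (om η0 n d) lam μ h x0 y (upd Adj rk σ (some a, π)) (c + dl (some a, π) x y) ≤
      base (om η0 n d) lam x0 c * μ⁻¹ ^ (M.card + Γ.card) *
        (om η0 n d a * ((if π ∉ Ft M σ ∧ ∀ b ρ, Clo x0 x σ c b ρ → rkS π < rkS ρ then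
            h (nxt (Ft M σ) π) else 0) + (δ * μ)⁻¹) +
          if Clo x0 x σ c a π then (1 + η0)⁻¹ * (if ∀ b ρ, Clo x0 x σ c b ρ → rkS π ≤ rkS ρ then
            h (Ft M σ ∪ lowr j (rkS π)) else 0) + 2 * (δ * μ)⁻¹ else 0) +
      δ⁻¹ * ∑ y, (if Nrm x0 x σ c a π y then 0 else
        kk (some a, π) x y * base (om η0 n d) lam x0 (c + dl (some a, π) x y)) := by
  have hω : ∀ b, 0 ≤ om η0 n d b := om_nonneg hη n d
  have hδ : 0 ≤ δ⁻¹ := le_trans zero_le_one ((hf.ge ∅).trans (hf.le ∅))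
  have hμ0 : 0 ≤ μ⁻¹ := inv_nonneg.2 (by linarith)
  have hD : 0 ≤ (δ * μ)⁻¹ := by rw [mul_inv]; exact mul_nonneg hδ hμ0
  have hh : ∀ F, 0 ≤ h F := fun F => le_trans zero_le_one (hf.ge F)
  have hne : ∀ t ∈ σ.1, t.2.Nonempty := by
    rintro ⟨_ | b, ρ⟩ ht
    · exact card_pos.1 (by rw [Val_none.1 (hv _ ht)]; norm_num)
    · exact card_pos.1 (by rw [(Val_some.1 (hv _ ht)).2]; exact hd b)
  have hπ : π.Nonempty := hne _ (mem_alw.1 ha).1
  have hc : π.card = d a := (Val_some.1 (hv _ (mem_alw.1 ha).1)).2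
  have hB : 0 ≤ base (om η0 n d) lam x0 c := base_nonneg hω hl
  have s1 := sum_NN (x0 := x0) (x := x) (c := c) (a := a) (π := π) (d := d) hn hη hl hG
  have s2 := fun hC : Clo x0 x σ c a π => sum_ON (d := d) hn hη hl hG hC
  have s3 := fun hC : Clo x0 x σ c a π => sum_OO (d := d) hn hη hl hG hC hπ hc
  have p1 := fun (y : Fin j → Fin n) (hP : Pan π x y) hy hz hF =>
    phi_NN hf hμ hne hG hI ha hP hy hz hF
  have p2 := fun (y : Fin j → Fin n) hC (hP : Pan π x y) hy hF =>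
    phi_ON (a := a) hf hμ hG hI hC hP hy hF
  have p3 := fun (y : Fin j → Fin n) hC (hP : Pan π x y) hy hz hα =>
    phi_OO (a := a) hf hμ hne hG hI hC hP hy hz hα
  have hm : 0 ≤ μ⁻¹ ^ (M.card + Γ.card) := pow_nonneg hμ0 _
  have hI1 : 0 ≤ (if π ∉ Ft M σ ∧ ∀ b ρ, Clo x0 x σ c b ρ → rkS π < rkS ρ then
      h (nxt (Ft M σ) π) else 0) := by
    split_ifs
    · exact hh _
    · exact le_rfl
  have hI3 : 0 ≤ (if ∀ b ρ, Clo x0 x σ c b ρ → rkS π ≤ rkS ρ then
      h (Ft M σ ∪ lowr j (rkS π)) else 0) := by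
    split_ifs
    · exact hh _
    · exact le_rfl
  generalize (if π ∉ Ft M σ ∧ ∀ b ρ, Clo x0 x σ c b ρ → rkS π < rkS ρ then
      h (nxt (Ft M σ) π) else 0) = I1 at p1 hI1 ⊢
  generalize (if ∀ b ρ, Clo x0 x σ c b ρ → rkS π ≤ rkS ρ then
      h (Ft M σ ∪ lowr j (rkS π)) else 0) = I3 at p3 hI3 ⊢
  generalize μ⁻¹ ^ (M.card + Γ.card) = m at p1 p2 p3 hm ⊢
  generalize (δ * μ)⁻¹ = D at p1 p2 p3 hD ⊢
  have hkb : ∀ y, 0 ≤ kk (some a, π) x y * base (om η0 n d) lam x0 (c + dl (some a, π) x y) :=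
    fun y => mul_nonneg (kk_nonneg _ _ _) (base_nonneg hω hl)
  have c1 : 0 ≤ m * (I1 + D) := mul_nonneg hm (add_nonneg hI1 hD)
  have c2 : 0 ≤ m * D := mul_nonneg hm hD
  have c3 : 0 ≤ m * (I3 + D) := mul_nonneg hm (add_nonneg hI3 hD)
  have key : ∀ y, kk (some a, π) x y *
      Psi (om η0 n d) lam μ h x0 y (upd Adj rk σ (some a, π)) (c + dl (some a, π) x y) ≤
      m * (I1 + D) * (if zz c a = 0 ∧ Fresh x0 c π y then
        kk (some a, π) x y * base (om η0 n d) lam x0 (c + dl (some a, π) x y) else 0) +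
      (if Clo x0 x σ c a π then m * D else 0) * (if Fresh x0 c π y then
        kk (some a, π) x y * base (om η0 n d) lam x0 (c + dl (some a, π) x y) else 0) +
      (if Clo x0 x σ c a π then m * (I3 + D) else 0) * (if zz c a = 1 ∧ c (a, π.image y) < 0 then
        kk (some a, π) x y * base (om η0 n d) lam x0 (c + dl (some a, π) x y) else 0) +
      δ⁻¹ * (if Nrm x0 x σ c a π y then 0 else
        kk (some a, π) x y * base (om η0 n d) lam x0 (c + dl (some a, π) x y)) := by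
    intro y
    have hk := hkb y
    have t1 : 0 ≤ m * (I1 + D) * (if zz c a = 0 ∧ Fresh x0 c π y then
        kk (some a, π) x y * base (om η0 n d) lam x0 (c + dl (some a, π) x y) else 0) :=
      mul_nonneg c1 (by split_ifs; exacts [hk, le_rfl])
    have t2 : 0 ≤ (if Clo x0 x σ c a π then m * D else 0) * (if Fresh x0 c π y then
        kk (some a, π) x y * base (om η0 n d) lam x0 (c + dl (some a, π) x y) else 0) :=
      mul_nonneg (by split_ifs; exacts [c2, le_rfl]) (by split_ifs; exacts [hk, le_rfl])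
    have t3 : 0 ≤ (if Clo x0 x σ c a π then m * (I3 + D) else 0) *
        (if zz c a = 1 ∧ c (a, π.image y) < 0 then
        kk (some a, π) x y * base (om η0 n d) lam x0 (c + dl (some a, π) x y) else 0) :=
      mul_nonneg (by split_ifs; exacts [c3, le_rfl]) (by split_ifs; exacts [hk, le_rfl])
    have t4 : 0 ≤ δ⁻¹ * (if Nrm x0 x σ c a π y then 0 else
        kk (some a, π) x y * base (om η0 n d) lam x0 (c + dl (some a, π) x y)) :=
      mul_nonneg hδ (by split_ifs; exacts [le_rfl, hk])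
    by_cases h0 : kk (some a, π) x y = 0
    · refine le_trans (le_of_eq ?_) (add_nonneg (add_nonneg (add_nonneg t1 t2) t3) t4)
      rw [h0, zero_mul]
    obtain ⟨hP, hy⟩ := kk_ne h0
    rw [Psi, ← mul_assoc]
    by_cases hN : Nrm x0 x σ c a π y
    · rcases hN with ⟨hz, hF⟩ | ⟨hC, hF⟩ | ⟨hC, hz, hα⟩
      · have := mul_le_mul_of_nonneg_left (p1 y hP hy hz hF) hk
        rw [if_pos (And.intro hz hF)]
        linarith
      · have := mul_le_mul_of_nonneg_left (p2 y hC hP hy hF) hk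
        rw [if_pos hC (t := m * D), if_pos hF]
        linarith
      · have := mul_le_mul_of_nonneg_left (p3 y hC hP hy hz hα) hk
        rw [if_pos hC (t := m * (I3 + D)), if_pos (And.intro hz hα)]
        linarith
    · have := mul_le_mul_of_nonneg_left (phi_bd hf hμ x0 y (upd Adj rk σ (some a, π))
        (c + dl (some a, π) x y)).2 hk
      rw [if_neg hN]
      linarith
  refine (sum_le_sum fun y _ => key y).trans ?_
  rw [sum_add_distrib, sum_add_distrib, sum_add_distrib, ← mul_sum, ← mul_sum, ← mul_sum,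
    ← mul_sum]
  refine add_le_add ?_ le_rfl
  have u1 := mul_le_mul_of_nonneg_left s1 c1
  by_cases hC : Clo x0 x σ c a π
  · rw [if_pos hC, if_pos hC, if_pos hC]
    have u2 := mul_le_mul_of_nonneg_left (s2 hC) c2
    have u3 := mul_le_mul_of_nonneg_left (s3 hC) c3
    have u4 : (1 + η0)⁻¹ ≤ 1 := inv_le_one_of_one_le₀ (by linarith)
    have u5 := mul_le_mul_of_nonneg_left u4 (mul_nonneg c2 hB)
    nlinarith
  · rw [if_neg hC, if_neg hC, if_neg hC]
    nlinarith

theorem step_g (hη : 0 ≤ η0) (hl : 1 ≤ lam) (hμ : 1 ≤ μ) (hf : Hf (zf η0 n d A0) δ h)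
    (hv : ∀ t ∈ σ.1, Val d A0 t) (hG : Good x0 x c) (hI : Inv x0 x σ c M N Γ)
    {π : Finset (Fin j)} (ha : (none, π) ∈ alw σ) :
    ∑ y, kk ((none, π) : Let ι j) x y *
        Psi (om η0 n d) lam μ h x0 y (upd Adj rk σ (none, π)) (c + dl (none, π) x y) ≤
      base (om η0 n d) lam x0 c * μ⁻¹ ^ (M.card + Γ.card) * (δ * μ)⁻¹ := by
  have hω : ∀ b, 0 ≤ om η0 n d b := om_nonneg hη n d
  have hδ : 0 ≤ δ⁻¹ := le_trans zero_le_one ((hf.ge ∅).trans (hf.le ∅))
  have hμ0 : 0 ≤ μ⁻¹ := inv_nonneg.2 (by linarith)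
  have hD : 0 ≤ (δ * μ)⁻¹ := by rw [mul_inv]; exact mul_nonneg hδ hμ0
  have hB : 0 ≤ base (om η0 n d) lam x0 c := base_nonneg hω hl
  have hc : π.card = 2 := Val_none.1 (hv _ (mem_alw.1 ha).1)
  rw [sum_eq_single x]
  · rw [kk_none, dl_none, add_zero]
    by_cases hx : Set.InjOn x π
    · rw [if_neg (fun h' => h'.2 hx), zero_mul]
      exact mul_nonneg (mul_nonneg hB (pow_nonneg hμ0 _)) hD
    · rw [if_pos ⟨rfl, hx⟩, one_mul, Psi, mul_assoc]
      exact mul_le_mul_of_nonneg_left (phi_g hf hμ hG hI ha hc hx) hB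
  · intro y _ hy
    rw [kk_none, if_neg (fun h' => hy h'.1), zero_mul]
  · intro h'
    exact absurd (mem_univ x) h'

end Pool.Agent.P.MP_3acc10_al.Bld
end

-- part Pool.Agent.P.MP_3acc10_al.BStep2
section

set_option autoImplicit false

namespace Pool.Agent.P.MP_3acc10_al.Bld

open Finset Module Matrix

variable {n j : ℕ} {ι : Type} [Fintype ι] [DecidableEq ι]

variable {x0 x : Fin j → Fin n} {c : ι × Finset (Fin n) → ℤ} {σ : St (Let ι j)}
  {M : Finset (Fin j)} {N : Finset (ι × Finset (Fin n))} {Γ : Finset (Finset (Fin j))}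
  {η0 lam δ μ : ℝ} {d : ι → ℕ} {A0 : Finset ι} {h : Finset (Finset (Fin j)) → ℝ}

lemma bstep2_ne (hd : ∀ a, 0 < d a) (hv : ∀ t ∈ σ.1, Val d A0 t) {a : ι} {π : Finset (Fin j)}
    (hC : Clo x0 x σ c a π) : π.Nonempty := by
  have h1 := Val_some.1 (hv _ (mem_alw.1 hC.1).1)
  exact card_pos.1 (by rw [h1.2]; exact hd a)

open Classical in
lemma bstep2_one (hn : j + 2 ≤ n) (hη : 0 ≤ η0) (hd : ∀ a, 0 < d a)
    (hf : Hf (zf η0 n d A0) δ h) (hv : ∀ t ∈ σ.1, Val d A0 t) (π : Finset (Fin j))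
    {A B ε : ℝ} (hA : 0 ≤ A) (hε : 0 ≤ ε) :
    ∑ a ∈ univ.filter (fun a => (some a, π) ∈ alw σ),
      (om η0 n d a * (A + ε) + if Clo x0 x σ c a π then B + 2 * ε else 0) ≤
      zf η0 n d A0 π.card * A + (if ∃ a, Clo x0 x σ c a π then B else 0) + 3 * ε := by
  rw [sum_add_distrib, ← sum_mul]
  have h1 := om_sum hη hn hd hv π
  have h2 : zf η0 n d A0 π.card ≤ 1 := hf.zle _ (by simpa using card_le_univ π)
  have h3 : (∑ a ∈ univ.filter (fun a => (some a, π) ∈ alw σ), om η0 n d a) * (A + ε) ≤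
      zf η0 n d A0 π.card * A + ε := by
    refine (mul_le_mul_of_nonneg_right h1 (by positivity)).trans ?_
    nlinarith
  have h4 : ∑ a ∈ univ.filter (fun a => (some a, π) ∈ alw σ),
      (if Clo x0 x σ c a π then B + 2 * ε else 0) ≤
      (if ∃ a, Clo x0 x σ c a π then B else 0) + 2 * ε := by
    by_cases hC : ∃ a, Clo x0 x σ c a π
    · rw [if_pos hC]
      obtain ⟨a, ha⟩ := hC
      rw [sum_eq_single a]
      · rw [if_pos ha]
      · intro b _ hb
        exact if_neg fun hb' => hb (Clo_uniq (bstep2_ne hd hv ha) hb' ha)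
      · intro hb
        exact (hb (mem_filter.2 ⟨mem_univ a, ha.1⟩)).elim
    · rw [if_neg hC, sum_eq_zero fun a _ => if_neg fun ha => hC ⟨a, ha⟩]
      positivity
  linarith

open Classical in
omit [DecidableEq ι] in
lemma bstep2_main (hη : 0 ≤ η0) (hη1 : η0 ≤ 1) {z : ℕ → ℝ} (hf : Hf z δ h)
    (C : ι → Finset (Fin j) → Prop) (F : Finset (Finset (Fin j))) :
    ∑ π, z π.card * (if π ∉ F ∧ ∀ b ρ, C b ρ → rkS π < rkS ρ then h (nxt F π) else 0) +
      ∑ π, (if ∃ a, C a π then (1 + η0)⁻¹ * (if ∀ b ρ, C b ρ → rkS π ≤ rkS ρ then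
        h (F ∪ lowr j (rkS π)) else 0) else 0) ≤ (1 - δ * η0 / 2) * h F := by
  have h1 := hf.ge F
  have h2 := hf.le F
  have hδ : 0 < δ := inv_pos.1 (by linarith)
  have h3 : δ * h F ≤ 1 := by
    have := mul_le_mul_of_nonneg_left h2 hδ.le
    rwa [mul_inv_cancel₀ hδ.ne'] at this
  have h4 : η0 * (δ * h F) ≤ η0 := by nlinarith
  by_cases hC : ∃ π, ∃ a, C a π
  · obtain ⟨s, hs, hmin⟩ := exists_min_image (univ.filter fun π => ∃ a, C a π) rkS
      (by obtain ⟨π, hπ⟩ := hC; exact ⟨π, mem_filter.2 ⟨mem_univ _, hπ⟩⟩)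
    have hs' := (mem_filter.1 hs).2
    have hm : ∀ b ρ, C b ρ → rkS s ≤ rkS ρ := fun b ρ hb =>
      hmin ρ (mem_filter.2 ⟨mem_univ _, b, hb⟩)
    have e1 : ∑ π, z π.card * (if π ∉ F ∧ ∀ b ρ, C b ρ → rkS π < rkS ρ then h (nxt F π) else 0) =
        ∑ π ∈ Fᶜ.filter (fun π => rkS π < rkS s), z π.card * h (nxt F π) := by
      rw [← sum_subset (subset_univ (Fᶜ.filter fun π => rkS π < rkS s))]
      · refine sum_congr rfl fun π hπ => ?_
        rw [mem_filter, mem_compl] at hπ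
        rw [if_pos ⟨hπ.1, fun b ρ hb => hπ.2.trans_le (hm b ρ hb)⟩]
      · intro π _ hπ
        obtain ⟨b, hb⟩ := hs'
        rw [if_neg fun hh => hπ (mem_filter.2 ⟨mem_compl.2 hh.1, hh.2 b s hb⟩), mul_zero]
    have e2 : ∑ π, (if ∃ a, C a π then (1 + η0)⁻¹ * (if ∀ b ρ, C b ρ → rkS π ≤ rkS ρ then
        h (F ∪ lowr j (rkS π)) else 0) else 0) = (1 + η0)⁻¹ * h (F ∪ lowr j (rkS s)) := by
      rw [sum_eq_single s]
      · rw [if_pos hs', if_pos hm]
      · intro π _ hπ
        by_cases hπ' : ∃ a, C a π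
        · obtain ⟨b, hb⟩ := hs'
          obtain ⟨a, ha⟩ := hπ'
          rw [if_neg fun hh : ∀ b ρ, C b ρ → rkS π ≤ rkS ρ =>
            hπ (rkS_inj (le_antisymm (hh b s hb) (hm a π ha))), mul_zero, ite_self]
        · rw [if_neg hπ']
      · intro hh
        exact absurd (mem_univ _) hh
    rw [e1, e2]
    have h5 := h_split hf F (rkS s)
    have h6 := hf.ge (F ∪ lowr j (rkS s))
    have h7 : (1 + η0)⁻¹ ≤ 1 - η0 / 2 := by
      rw [inv_le_iff_one_le_mul₀ (by linarith)]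
      nlinarith
    have h8 := mul_le_mul_of_nonneg_right h7 (zero_le_one.trans h6)
    nlinarith
  · have e1 : ∑ π, z π.card * (if π ∉ F ∧ ∀ b ρ, C b ρ → rkS π < rkS ρ then h (nxt F π) else 0) =
        ∑ π ∈ Fᶜ, z π.card * h (nxt F π) := by
      rw [← sum_subset (subset_univ Fᶜ)]
      · refine sum_congr rfl fun π hπ => ?_
        rw [if_pos ⟨mem_compl.1 hπ, fun b ρ hb => absurd ⟨ρ, b, hb⟩ hC⟩]
      · intro π _ hπ
        rw [if_neg fun hh => hπ (mem_compl.2 hh.1), mul_zero]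
    rw [e1, sum_eq_zero fun π _ => if_neg fun hh => hC ⟨π, hh⟩]
    have h5 := hf.eq F
    nlinarith

open Classical in
theorem step_main (hn : j + 2 ≤ n) (hη : 0 ≤ η0) (hη1 : η0 ≤ 1) (hd : ∀ a, 0 < d a) (hμ : 1 ≤ μ)
    (hf : Hf (zf η0 n d A0) δ h) (hv : ∀ t ∈ σ.1, Val d A0 t) (F : Finset (Finset (Fin j))) :
    ∑ π, ∑ a ∈ univ.filter (fun a => (some a, π) ∈ alw σ),
      (om η0 n d a * ((if π ∉ F ∧ ∀ b ρ, Clo x0 x σ c b ρ → rkS π < rkS ρ then
            h (nxt F π) else 0) + (δ * μ)⁻¹) +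
          if Clo x0 x σ c a π then (1 + η0)⁻¹ * (if ∀ b ρ, Clo x0 x σ c b ρ → rkS π ≤ rkS ρ then
            h (F ∪ lowr j (rkS π)) else 0) + 2 * (δ * μ)⁻¹ else 0) ≤
      (1 - δ * η0 / 2) * h F + 3 * 2 ^ j / (δ * μ) := by
  have hδ : 0 < δ := inv_pos.1 (by linarith [hf.ge F, hf.le F])
  have hε : 0 ≤ (δ * μ)⁻¹ := by positivity
  have h0 : ∀ G, 0 ≤ h G := fun G => zero_le_one.trans (hf.ge G)
  refine (sum_le_sum fun π _ => bstep2_one hn hη hd hf hv π ?_ hε).trans ?_
  · split_ifs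
    · exact h0 _
    · exact le_rfl
  · rw [sum_add_distrib, sum_add_distrib, sum_const, card_univ, Fintype.card_finset,
      Fintype.card_fin, nsmul_eq_mul, div_eq_mul_inv (3 * 2 ^ j)]
    have := bstep2_main hη hη1 hf (Clo x0 x σ c) F
    push_cast
    linarith

end Pool.Agent.P.MP_3acc10_al.Bld
end

-- part Pool.Agent.P.MP_3acc10_al.BAbn1
section

set_option autoImplicit false

namespace Pool.Agent.P.MP_3acc10_al.Bld

open Finset Module Matrix

variable {n j : ℕ} {ι : Type} [Fintype ι] [DecidableEq ι]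

variable {x0 x : Fin j → Fin n} {c : ι × Finset (Fin n) → ℤ} {σ : St (Let ι j)} {a : ι}
  {π : Finset (Fin j)}

variable {η0 lam : ℝ} {d : ι → ℕ}

omit [Fintype ι] [DecidableEq ι] in
theorem babn1_zz (h : 0 < c (a, π.image x)) : 1 ≤ zz c a := by
  have h1 : (c (a, π.image x)).toNat ≤ zz c a :=
    single_le_sum (f := fun I => (c (a, I)).toNat) (fun _ _ => Nat.zero_le _) (mem_univ _)
  omega

theorem babn1_clo (hG : Good x0 x c) (ha : (some a, π) ∈ alw σ) (hx : Set.InjOn x π)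
    (h : 0 < c (a, π.image x)) (hC : ¬ Clo x0 x σ c a π) : ∃ p ∈ π, 2 ≤ uu x0 c (x p) := by
  by_contra h2
  refine hC ⟨ha, hx, h, fun p hp => ?_⟩
  have h3 : ¬ 2 ≤ uu x0 c (x p) := fun h4 => h2 ⟨p, hp, h4⟩
  have h4 := mult_le hG (x p)
  have h5 : 0 < mult x (x p) := card_pos.2 ⟨p, by simp⟩
  omega

open Classical in
theorem babn1_term {ω : ι → ℝ} (hω : ∀ b, 0 ≤ ω b) (hw : 0 < ω a) (hl : 1 ≤ lam)
    (hG : Good x0 x c) (ha : (some a, π) ∈ alw σ) {y : Fin j → Fin n} (hx : Set.InjOn x π)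
    (hne : π.image y ≠ π.image x) (hN : ¬ Nrm x0 x σ c a π y) :
    base ω lam x0 (c + dl (some a, π) x y) ≤ base ω lam x0 c *
      ((ω a * lam ^ j + zz c a * lam ^ j) * (if Fresh x0 c π y then 0 else 1)
        + (zz c a * (ω a * lam ^ (j + 1)) + zz c a / lam)
        + (1 + (ω a * lam)⁻¹) * (if c (a, π.image y) < 0 then 1 else 0)) := by
  have hB : 0 ≤ base ω lam x0 c := base_nonneg hω hl
  have hB' : 0 ≤ base ω lam x0 (c + dl (some a, π) x y) := base_nonneg hω hl
  have hl0 : 0 < lam := by linarith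
  have hZ : (0 : ℝ) ≤ zz c a := Nat.cast_nonneg _
  have i1 : (0 : ℝ) ≤ if Fresh x0 c π y then 0 else 1 := by split_ifs <;> norm_num
  have i2 : (0 : ℝ) ≤ if c (a, π.image y) < 0 then 1 else 0 := by split_ifs <;> norm_num
  have p1 : 0 ≤ ω a * lam ^ j := by positivity
  have p2 : 0 ≤ zz c a * lam ^ j := by positivity
  have p3 : 0 ≤ zz c a * (ω a * lam ^ (j + 1)) := by positivity
  have p4 : 0 ≤ zz c a / lam := by positivity
  have p5 : 0 ≤ (ω a * lam)⁻¹ := by positivity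
  have q1 := mul_nonneg (add_nonneg p1 p2) i1
  have q2 := mul_nonneg (add_nonneg zero_le_one p5) i2
  rcases le_or_gt (c (a, π.image x)) 0 with hβ | hβ <;>
    rcases le_or_gt 0 (c (a, π.image y)) with hα | hα
  · have h := ratio_NN (x0 := x0) hω hl hne hβ hα
    rw [mul_assoc] at h
    refine h.trans (mul_le_mul_of_nonneg_left ?_ hB)
    by_cases hz : zz c a = 0
    · have hF : ¬ Fresh x0 c π y := fun hF => hN (Or.inl ⟨hz, hF⟩)
      rw [if_pos hz, if_neg hF, if_neg hF, zero_add]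
      linarith
    · have hz1 : (1 : ℝ) ≤ zz c a := by exact_mod_cast Nat.one_le_iff_ne_zero.2 hz
      have h1 : lam ^ (1 + if Fresh x0 c π y then 0 else j) ≤ lam ^ (j + 1) :=
        pow_le_pow_right₀ hl (by split_ifs <;> omega)
      have h2 := mul_le_mul_of_nonneg_left h1 hw.le
      have h3 : ω a * lam ^ (j + 1) ≤ zz c a * (ω a * lam ^ (j + 1)) :=
        le_mul_of_one_le_left (by positivity) hz1
      rw [if_neg hz]
      linarith
  · rw [ratio_NO hne hβ hα]
    refine le_mul_of_one_le_right hB ?_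
    rw [if_pos hα]
    linarith
  · have h := ratio_ON (x0 := x0) hω hl hne hβ hα
    have hz1 : (1 : ℝ) ≤ zz c a := by exact_mod_cast babn1_zz hβ
    by_cases hF : Fresh x0 c π y
    · have hC : ¬ Clo x0 x σ c a π := fun hC => hN (Or.inr (Or.inl ⟨hC, hF⟩))
      rw [if_pos (babn1_clo hG ha hx hβ hC), if_pos hF, pow_one, pow_zero,
        ← le_div_iff₀ hl0, mul_div_assoc] at h
      refine h.trans (mul_le_mul_of_nonneg_left ?_ hB)
      have h1 : 1 / lam ≤ zz c a / lam := div_le_div_of_nonneg_right hz1 hl0.le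
      linarith
    · rw [if_neg hF] at h
      refine ((le_mul_of_one_le_right hB' (one_le_pow₀ hl)).trans h).trans
        (mul_le_mul_of_nonneg_left ?_ hB)
      have h1 : lam ^ j ≤ zz c a * lam ^ j := le_mul_of_one_le_left (by positivity) hz1
      rw [if_neg hF]
      linarith
  · have h := ratio_OO (x0 := x0) hω hl hne hβ hα
    have hc : (∃ p ∈ π, 2 ≤ uu x0 c (x p)) ∨ 2 ≤ zz c a := by
      by_cases hC : Clo x0 x σ c a π
      · have h1 : zz c a ≠ 1 := fun h1 => hN (Or.inr (Or.inr ⟨hC, h1, hα⟩))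
        have h2 := babn1_zz hβ
        exact Or.inr (by omega)
      · exact Or.inl (babn1_clo hG ha hx hβ hC)
    rw [if_pos hc, pow_one, mul_assoc, ← le_div_iff₀ (by positivity), div_eq_mul_inv] at h
    refine h.trans (mul_le_mul_of_nonneg_left ?_ hB)
    rw [if_pos hα]
    linarith

open Classical in
theorem abn_one (hn : j + 2 ≤ n) (hη : 0 ≤ η0) (hl : 1 ≤ lam)
    (hG : Good x0 x c) {q : ℕ} (hq : ∑ γ, |c γ| ≤ (q : ℤ)) (ha : (some a, π) ∈ alw σ)
    (hπ : π.Nonempty) (hc : π.card = d a) :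
    ∑ y, (if Nrm x0 x σ c a π y then 0 else
      kk (some a, π) x y * base (om η0 n d) lam x0 (c + dl (some a, π) x y)) ≤
      (om η0 n d a * lam ^ j * (2 * (j : ℝ) ^ 2 * (1 + q) / n) +
        zz c a * (om η0 n d a * lam ^ (j + 1) + kap n π.card +
          lam ^ j * (2 * (j : ℝ) ^ 2 * (1 + q) / n) + 2 / lam)) * base (om η0 n d) lam x0 c := by
  have hω : ∀ b, 0 ≤ om η0 n d b := om_nonneg hη n d
  have hk0 : 0 < kap n π.card := kap_pos hn (card_pos.2 hπ) (by simpa using card_le_univ π)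
  have hkw : kap n π.card ≤ om η0 n d a := by
    rw [om, ← hc]
    exact le_mul_of_one_le_left hk0.le (by linarith)
  have hw : 0 < om η0 n d a := hk0.trans_le hkw
  have hB : 0 ≤ base (om η0 n d) lam x0 c := base_nonneg hω hl
  have hl0 : 0 < lam := by linarith
  have hZ : (0 : ℝ) ≤ zz c a := Nat.cast_nonneg _
  set w := om η0 n d a with hwdef
  have p1 : 0 ≤ w * lam ^ j + zz c a * lam ^ j := by positivity
  have p2 : 0 ≤ zz c a * (w * lam ^ (j + 1)) + zz c a / lam := by positivity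
  have p3 : 0 ≤ 1 + (w * lam)⁻¹ := by positivity
  have hterm : ∀ y, (if Nrm x0 x σ c a π y then 0 else
      kk (some a, π) x y * base (om η0 n d) lam x0 (c + dl (some a, π) x y)) ≤
      ((w * lam ^ j + zz c a * lam ^ j) * (if Fresh x0 c π y then 0 else kk (some a, π) x y)
        + (zz c a * (w * lam ^ (j + 1)) + zz c a / lam) * kk (some a, π) x y
        + (1 + (w * lam)⁻¹) * (if c (a, π.image y) < 0 then kk (some a, π) x y else 0))
        * base (om η0 n d) lam x0 c := by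
    intro y
    have hk := kk_nonneg (some a, π) x y
    by_cases hN : Nrm x0 x σ c a π y
    · rw [if_pos hN]
      refine mul_nonneg (add_nonneg (add_nonneg (mul_nonneg p1 ?_) (mul_nonneg p2 hk))
        (mul_nonneg p3 ?_)) hB <;> split_ifs <;> simp [hk]
    · rw [if_neg hN]
      by_cases h0 : kk (some a, π) x y = 0
      · simp [h0]
      · obtain ⟨h1, h2⟩ := kk_ne h0
        refine (mul_le_mul_of_nonneg_left (babn1_term hω hw hl hG ha h1.2.1 h2 hN) hk).trans
          (le_of_eq ?_)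
        split_ifs <;> ring
  refine (sum_le_sum fun y _ => hterm y).trans ?_
  rw [← sum_mul, sum_add_distrib, sum_add_distrib, ← mul_sum, ← mul_sum, ← mul_sum]
  refine mul_le_mul_of_nonneg_right ?_ hB
  have s1 := mul_le_mul_of_nonneg_left (kk_old hn hG hq a π) p1
  have s2 := mul_le_mul_of_nonneg_left (kk_tot hn a π x) p2
  have s3 := mul_le_mul_of_nonneg_left (kk_neg hn hπ hG a) p3
  have s4 : (w * lam)⁻¹ * (kap n π.card * zz c a) ≤ zz c a / lam := by
    calc (w * lam)⁻¹ * (kap n π.card * zz c a) ≤ (w * lam)⁻¹ * (w * zz c a) := by gcongr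
      _ = zz c a / lam := by field_simp
  have e : (zz c a : ℝ) * (2 / lam) = zz c a / lam + zz c a / lam := by ring
  nlinarith

end Pool.Agent.P.MP_3acc10_al.Bld
end

-- part Pool.Agent.P.MP_3acc10_al.BAbn2
section

set_option autoImplicit false

namespace Pool.Agent.P.MP_3acc10_al.Bld

open Finset Module Matrix

variable {n j : ℕ} {ι : Type} [Fintype ι] [DecidableEq ι]

variable {x0 x : Fin j → Fin n} {c : ι × Finset (Fin n) → ℤ} {σ : St (Let ι j)}
  {π : Finset (Fin j)}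

variable {η0 lam : ℝ} {d : ι → ℕ}

open Classical in
theorem abn (hn : j + 2 ≤ n) (hη : 0 ≤ η0) (hη1 : η0 ≤ 1) (hd : ∀ a, 0 < d a)
    (hl : 1 ≤ lam) {A0 : Finset ι} (hv : ∀ t ∈ σ.1, Val d A0 t)
    (hz : zf η0 n d A0 π.card ≤ 1) (hG : Good x0 x c) {q : ℕ} (hq : ∑ γ, |c γ| ≤ (q : ℤ)) :
    ∑ a ∈ univ.filter (fun a => (some a, π) ∈ alw σ), ∑ y, (if Nrm x0 x σ c a π y then 0 else
      kk (some a, π) x y * base (om η0 n d) lam x0 (c + dl (some a, π) x y)) ≤
      tau j n q lam * base (om η0 n d) lam x0 c := by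
  have hω : ∀ b, 0 ≤ om η0 n d b := om_nonneg hη n d
  have hb : 0 ≤ base (om η0 n d) lam x0 c := base_nonneg hω hl
  have hn0 : (0 : ℝ) < n := by exact_mod_cast (show 0 < n by omega)
  have hl0 : 0 < lam := by linarith
  set W : ℝ := 2 * (j : ℝ) ^ 2 * (1 + q) / n with hW
  have hW0 : 0 ≤ W := by positivity
  have hpj : lam ^ j ≤ lam ^ (j + 1) := pow_le_pow_right₀ hl (Nat.le_succ j)
  have hp1 : 1 ≤ lam ^ (j + 1) := one_le_pow₀ hl
  have hp0 : 0 ≤ lam ^ j := by positivity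
  set K : ℝ := lam ^ (j + 1) * (6 / n + W) + 2 / lam with hK
  have hK0 : 0 ≤ K := by positivity
  set S := univ.filter (fun a => (some a, π) ∈ alw σ) with hS
  have key : ∀ a ∈ S, ∑ y, (if Nrm x0 x σ c a π y then 0 else
      kk (some a, π) x y * base (om η0 n d) lam x0 (c + dl (some a, π) x y)) ≤
      (om η0 n d a * (lam ^ (j + 1) * W) + zz c a * K) * base (om η0 n d) lam x0 c := by
    intro a ha
    have ha' : (some a, π) ∈ alw σ := (mem_filter.1 ha).2
    have hc : π.card = d a := (Val_some.1 (hv _ (mem_alw.1 ha').1)).2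
    have hpos : 0 < π.card := hc ▸ hd a
    have hπ : π.Nonempty := card_pos.1 hpos
    have hj : π.card ≤ j := by simpa using card_le_univ π
    have hk : kap n π.card ≤ 2 / n := kap_le hn hpos hj
    have hk0 : 0 ≤ kap n π.card := kap_nonneg _ _
    have hom : om η0 n d a ≤ 4 / n := by
      have e : om η0 n d a = (1 + η0) * kap n π.card := by rw [om, hc]
      have e4 : (4 : ℝ) / n = 2 * (2 / n) := by ring
      rw [e, e4]
      exact mul_le_mul (by linarith) hk hk0 (by norm_num)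
    refine (abn_one hn hη hl hG hq ha' hπ hc).trans (mul_le_mul_of_nonneg_right ?_ hb)
    have h1 : om η0 n d a * lam ^ j * W ≤ om η0 n d a * (lam ^ (j + 1) * W) := by
      rw [mul_assoc]
      exact mul_le_mul_of_nonneg_left (mul_le_mul_of_nonneg_right hpj hW0) (hω a)
    have h2 : om η0 n d a * lam ^ (j + 1) + kap n π.card + lam ^ j * W + 2 / lam ≤ K := by
      have a1 : om η0 n d a * lam ^ (j + 1) ≤ 4 / n * lam ^ (j + 1) :=
        mul_le_mul_of_nonneg_right hom (by positivity)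
      have a2 : kap n π.card ≤ 2 / n * lam ^ (j + 1) :=
        hk.trans (le_mul_of_one_le_right (by positivity) hp1)
      have a3 : lam ^ j * W ≤ lam ^ (j + 1) * W := mul_le_mul_of_nonneg_right hpj hW0
      have e : K = 4 / n * lam ^ (j + 1) + 2 / n * lam ^ (j + 1) + lam ^ (j + 1) * W + 2 / lam := by
        rw [hK]; ring
      rw [e]; linarith
    have h3 := mul_le_mul_of_nonneg_left h2 (Nat.cast_nonneg (α := ℝ) (zz c a))
    linarith
  refine (sum_le_sum key).trans ?_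
  rw [← sum_mul]
  refine mul_le_mul_of_nonneg_right ?_ hb
  rw [sum_add_distrib, ← sum_mul, ← sum_mul]
  have s1 : ∑ a ∈ S, om η0 n d a ≤ 1 := (om_sum hη hn hd hv π).trans hz
  have s2 : ∑ a ∈ S, (zz c a : ℝ) ≤ q := by
    have h1 : ∑ a ∈ S, zz c a ≤ ∑ a, zz c a := sum_le_sum_of_subset (subset_univ S)
    have h2 : ∑ a ∈ S, zz c a ≤ q := h1.trans (zz_sum hq)
    exact_mod_cast h2
  have t1 := mul_le_mul_of_nonneg_right s1 (show 0 ≤ lam ^ (j + 1) * W by positivity)
  have t2 := mul_le_mul_of_nonneg_right s2 hK0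
  have e : tau j n q lam = 1 * (lam ^ (j + 1) * W) + q * K := by
    rw [tau, hK, hW]; ring
  rw [e]; linarith

end Pool.Agent.P.MP_3acc10_al.Bld
end
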