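import Pool.Agent.K.MP_3acc10_al.C10

set_option autoImplicit false

namespace Pool.Agent.P.MP_3acc10_al.Bld

open Finset Module Matrix

variable {n j : ℕ} {ι : Type} [Fintype ι] [DecidableEq ι]

variable {x0 x : Fin j → Fin n} {c : ι × Finset (Fin n) → ℤ} {σ : St (Let ι j)}
  {η0 lam δ μ : ℝ} {d : ι → ℕ} {A0 : Finset ι} {h : Finset (Finset (Fin j)) → ℝ}

lemma bs3_arith {B W H T K J D E θ : ℝ} (hB : 0 ≤ B) (hW : 0 ≤ W) (hH : 1 ≤ H) (hT : 0 ≤ T)
    (hK : 1 ≤ K * W) (hJ : 0 ≤ J) (hD : 0 ≤ D) (hE : 0 ≤ E) :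
    B * W * (θ * H + 3 * J * D) + E * (J * (T * B)) + J * (B * W * D) ≤
      (θ + 4 * J * D + J * T * K * E) * (B * (W * H)) := by
  have h3 : 4 * J * D * (B * W) * 1 ≤ 4 * J * D * (B * W) * H :=
    mul_le_mul_of_nonneg_left hH (by positivity)
  have h4 : 1 ≤ K * W * H := one_le_mul_of_one_le_of_one_le hK hH
  have h5 : J * T * E * B * 1 ≤ J * T * E * B * (K * W * H) :=
    mul_le_mul_of_nonneg_left h4 (by positivity)
  nlinarith [h3, h5]

theorem step (hn : j + 2 ≤ n) (hη : 0 ≤ η0) (hη1 : η0 ≤ 1) (hd : ∀ a, 0 < d a) (hl : 1 ≤ lam)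
    (hμ : 1 ≤ μ) (hf : Hf (zf η0 n d A0) δ h) (hv : ∀ t ∈ σ.1, Val d A0 t) (hG : Good x0 x c)
    {q : ℕ} (hq : ∑ γ, |c γ| ≤ (q : ℤ)) :
    ∑ t ∈ alw σ, ∑ y, |kk t x y| *
        Psi (om η0 n d) lam μ h x0 y (upd Adj rk σ t) (c + dl t x y) ≤
      th j n q δ η0 μ lam * Psi (om η0 n d) lam μ h x0 x σ c := by
  classical
  obtain ⟨M, N, Γ, hI, hphi⟩ := phi_eq μ h x0 x σ c
  have hH : 1 ≤ h (Ft M σ) := hf.ge _
  have hδi : 1 ≤ δ⁻¹ := hH.trans (hf.le _)
  have hδ : 0 < δ := inv_pos.1 (by linarith)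
  have hμ0 : 0 < μ := by linarith
  have hB : 0 ≤ base (om η0 n d) lam x0 c := base_nonneg (om_nonneg hη n d) hl
  have hW : 0 < μ⁻¹ ^ (M.card + Γ.card) := by positivity
  have hcard : (univ : Finset (Finset (Fin j))).card = 2 ^ j := by
    rw [card_univ, Fintype.card_finset, Fintype.card_fin]
  have hK : 1 ≤ μ ^ (j + 2 ^ j) * μ⁻¹ ^ (M.card + Γ.card) := by
    have h1 : M.card ≤ j := by simpa using card_le_univ M
    have h2 : Γ.card ≤ 2 ^ j := hcard ▸ card_le_univ Γ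
    rw [inv_pow, ← div_eq_mul_inv, le_div_iff₀ (by positivity), one_mul]
    exact pow_le_pow_right₀ hμ (by omega)
  have hτ : 0 ≤ tau j n q lam := by
    have : 0 < lam := by linarith
    unfold tau
    positivity
  have habs : ∀ (t : Let ι j) (y : Fin j → Fin n), |kk t x y| = kk t x y :=
    fun t y => abs_of_nonneg (kk_nonneg t x y)
  simp only [habs]
  rw [sum_alw]
  have hmain := step_main (x0 := x0) (x := x) (c := c) hn hη hη1 hd hμ hf hv (Ft M σ)
  have habn : ∑ π : Finset (Fin j), ∑ a ∈ univ.filter (fun a => (some a, π) ∈ alw σ),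
      ∑ y, (if Nrm x0 x σ c a π y then 0 else
        kk (some a, π) x y * base (om η0 n d) lam x0 (c + dl (some a, π) x y)) ≤
      2 ^ j * (tau j n q lam * base (om η0 n d) lam x0 c) := by
    refine (sum_le_card_nsmul _ _ (tau j n q lam * base (om η0 n d) lam x0 c) fun π _ => ?_).trans ?_
    · exact abn hn hη hη1 hd hl hv (hf.zle _ (by simpa using card_le_univ π)) hG hq
    · rw [hcard, nsmul_eq_mul]
      push_cast
      exact le_rfl
  have hg : ∑ π ∈ univ.filter (fun π => ((none, π) : Let ι j) ∈ alw σ),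
      ∑ y, kk ((none, π) : Let ι j) x y *
        Psi (om η0 n d) lam μ h x0 y (upd Adj rk σ (none, π)) (c + dl (none, π) x y) ≤
      2 ^ j * (base (om η0 n d) lam x0 c * μ⁻¹ ^ (M.card + Γ.card) * (δ * μ)⁻¹) := by
    refine (sum_le_card_nsmul _ _
      (base (om η0 n d) lam x0 c * μ⁻¹ ^ (M.card + Γ.card) * (δ * μ)⁻¹) fun π hπ => ?_).trans ?_
    · exact step_g hη hl hμ hf hv hG hI (mem_filter.1 hπ).2
    · rw [nsmul_eq_mul]
      refine mul_le_mul_of_nonneg_right ?_ (by positivity)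
      have h1 := card_filter_le (univ : Finset (Finset (Fin j)))
        (fun π => ((none, π) : Let ι j) ∈ alw σ)
      rw [hcard] at h1
      exact_mod_cast h1
  have hlet := sum_le_sum (s := (univ : Finset (Finset (Fin j)))) fun π _ =>
    sum_le_sum (s := univ.filter (fun a => (some a, π) ∈ alw σ)) fun a ha =>
      step_letter hn hη hd hl hμ hf hv hG hI (mem_filter.1 ha).2
  simp only [sum_add_distrib, ← mul_sum] at hlet hmain
  refine (add_le_add hlet hg).trans ?_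
  have h1 := mul_le_mul_of_nonneg_left hmain (mul_nonneg hB hW.le)
  have h2 := mul_le_mul_of_nonneg_left habn (by linarith : 0 ≤ δ⁻¹)
  refine (add_le_add (add_le_add h1 h2) le_rfl).trans ?_
  rw [Psi, hphi, th]
  simp only [div_eq_mul_inv]
  have hD : 0 ≤ (δ * μ)⁻¹ := by positivity
  have hE : 0 ≤ δ⁻¹ := by positivity
  have hJ : (0 : ℝ) ≤ 2 ^ j := by positivity
  exact bs3_arith hB hW.le hH hτ hK hJ hD hE

end Pool.Agent.P.MP_3acc10_al.Bld
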