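import Pool.Agent.K.MP_3acc10_al.C3
import Pool.Agent.K.MP_3acc10_al.C0

-- part Pool.Agent.P.MP_3acc10_al.Core
section

set_option autoImplicit false

namespace Pool.Agent.P.MP_3acc10_al

open Module Finset

variable {L : Type*} [Field L] {n : ℕ} {ι : Type*} [Fintype ι] [DecidableEq ι]

lemma zero_act (F : Finset (Fin n) → L) : act 0 F = 0 := by
  ext T; simp [act]

section
variable (δ : L →+ L) (hδ : ∀ x y, δ (x * y) = x * δ y + δ x * y)

/-- coefficientwise derivative -/
def Dv (F : Finset (Fin n) → L) : Finset (Fin n) → L := fun X => δ (F X)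

lemma Dv_supp {p : Finset (Fin n) → Prop} {F : Finset (Fin n) → L} (h : F ∈ Supp L p) :
    Dv δ F ∈ Supp L p := fun X hX => by rw [Dv, h X hX, map_zero]

include hδ

lemma Dv_single (Y : Finset (Fin n)) : Dv δ (Pi.single Y 1) = 0 := by
  have h1 : δ 1 = 0 := by simpa using hδ 1 1
  ext X
  by_cases h : X = Y <;> simp [Dv, h, h1]

lemma Dv_act (g F : Finset (Fin n) → L) :
    Dv δ (act g F) = act g (Dv δ F) + act (Dv δ g) F := by
  ext T
  simp only [Dv, act, map_sum, Pi.add_apply, ← sum_add_distrib]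
  refine sum_congr rfl fun Y _ => ?_
  split_ifs
  · exact hδ _ _
  · simp

lemma Dv_sum {α : Type*} [Fintype α] (l : α → L) (s : α → Finset (Fin n) → L) :
    Dv δ (∑ a, l a • s a) = ∑ a, l a • Dv δ (s a) + ∑ a, δ (l a) • s a := by
  ext T
  simp only [Dv, Finset.sum_apply, Pi.smul_apply, smul_eq_mul, map_sum, Pi.add_apply,
    ← sum_add_distrib, hδ]

lemma der_dot (z H : Finset (Fin n) → L) : δ (z ⬝ᵥ H) = z ⬝ᵥ Dv δ H + Dv δ z ⬝ᵥ H := by
  simp only [dotProduct, map_sum, hδ, sum_add_distrib, Dv]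

end

/-- the span of the contractions of `F` by monomials of degree `e` -/
def Sp (e : ℕ) (F : Finset (Fin n) → L) : Submodule L (Finset (Fin n) → L) :=
  Submodule.span L {H | ∃ Y : Finset (Fin n), Y.card = e ∧ act (Pi.single Y 1) F = H}

lemma Sp_supp {j e : ℕ} {F : Finset (Fin n) → L} (hF : F ∈ Supp L fun X => X.card = j) :
    Sp e F ≤ Supp L fun T => T.card + e = j := by
  rw [Sp, Submodule.span_le]
  rintro _ ⟨Y, hY, rfl⟩ T hT
  rw [act_single]
  split_ifs with hd
  · refine hF _ fun h => hT ?_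
    have h : (Y ∪ T).card = j := h
    rw [card_union_of_disjoint hd] at h
    show T.card + e = j
    omega
  · rfl

lemma Sp_pos {j e : ℕ} (he : e ≤ j) {F : Finset (Fin n) → L}
    (hF : F ∈ Supp L fun X => X.card = j) (h0 : F ≠ 0) : 0 < finrank L (Sp e F) := by
  obtain ⟨X, hX⟩ := Function.ne_iff.1 h0
  have hXj : X.card = j := by
    by_contra hne
    exact hX (hF X hne)
  obtain ⟨Y, hY, hc⟩ := exists_subset_card_eq (s := X) (n := e) (by omega)
  rw [Nat.pos_iff_ne_zero, Ne, Submodule.finrank_eq_zero]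
  intro hb
  have : act (Pi.single Y 1) F ∈ Sp e F := Submodule.subset_span ⟨Y, hc, rfl⟩
  rw [hb, Submodule.mem_bot] at this
  have := congrFun this (X \ Y)
  rw [act_single, if_pos disjoint_sdiff, union_sdiff_of_subset hY] at this
  exact hX this

/-- restriction as a map into the space of supported functions -/
noncomputable def resS (p : Finset (Fin n) → Prop) : (Finset (Fin n) → L) →ₗ[L] Supp L p :=
  (res p).codRestrict _ fun F X hX => by rw [res_apply, if_neg hX]

variable (δ : ι × Finset (Fin n) → L →+ L) (hδ : ∀ p x y, δ p (x * y) = x * δ p y + δ p x * y)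
  (c : ι × Finset (Fin n) → L) (hc : ∀ p q, δ p (c q) = if q = p then 1 else 0) (d : ι → ℕ)

include hc in
omit [Fintype ι] in
lemma Dv_mask (l i : ι) (Y : Finset (Fin n)) (hY : Y.card = d l) :
    Dv (δ (l, Y)) (mask (fun i Y => Y.card = d i) c i) = if i = l then Pi.single Y 1 else 0 := by
  ext X
  by_cases h1 : i = l <;> by_cases h2 : X = Y <;> by_cases h3 : X.card = d i <;>
    simp_all [Dv, mask]

include hδ hc

lemma ineq1 {j e k : ℕ} (hk : k + e = j) {F : Finset (Fin n) → L} (hF : F ∈ WF j d univ c) :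
    ∑ i, finrank L (Sp (d i) F) ≤
      finrank L (Sp e F) * n.choose k + (Fu j k (ld wz (Sp e F))).card := by
  set 𝒢 := Submodule.span L (Set.range fun p => Dv (δ p) F) with h𝒢
  have low : ∑ i, finrank L (Sp (d i) F) ≤ finrank L 𝒢 := by
    let Φ : (Finset (Fin n) → L) →ₗ[L] (ι → Finset (Fin n) → L) :=
      LinearMap.pi fun i => actL (mask (fun i Y => Y.card = d i) c i)
    let ψ : (∀ i, Sp (d i) F) →ₗ[L] (ι → Finset (Fin n) → L) :=
      LinearMap.pi fun i => (Sp (d i) F).subtype ∘ₗ LinearMap.proj i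
    have hψ : Function.Injective ψ := fun x y h => funext fun i => Subtype.ext (congrFun h i)
    have h1 : ∀ l, ∀ s ∈ Sp (d l) F, (Pi.single l s : ι → Finset (Fin n) → L) ∈ 𝒢.map Φ := by
      intro l
      suffices h : Sp (d l) F ≤ (𝒢.map Φ).comap (LinearMap.single L (fun _ => _) l) from h
      rw [Sp, Submodule.span_le]
      rintro _ ⟨Y, hY, rfl⟩
      refine ⟨-Dv (δ (l, Y)) F, 𝒢.neg_mem (Submodule.subset_span ⟨_, rfl⟩), ?_⟩
      rw [map_neg]
      funext i
      have h2 := Dv_act (δ (l, Y)) (hδ _) (mask (fun i Y => Y.card = d i) c i) F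
      rw [hF.2 i (mem_univ _), Dv_mask δ c hc d l i Y hY] at h2
      have h3 : Dv (δ (l, Y)) (0 : Finset (Fin n) → L) = 0 := funext fun _ => map_zero _
      rw [h3, eq_comm, add_eq_zero_iff_neg_eq] at h2
      refine h2.trans ?_
      by_cases h : i = l
      · subst h; simp
      · rw [if_neg h, zero_act]
        simp [h]
    rw [← finrank_pi_fintype, ← LinearMap.finrank_range_of_inj hψ]
    refine (Submodule.finrank_mono ?_).trans (Submodule.finrank_map_le Φ 𝒢)
    rintro _ ⟨x, rfl⟩
    rw [← univ_sum_single (ψ x)]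
    exact Submodule.sum_mem _ fun l _ => h1 l _ (x l).2
  refine low.trans ?_
  set S := Sp e F with hS
  have hSs : S ≤ Supp L fun T => T.card = k := (Sp_supp hF.1).trans fun H hH T hT =>
    hH T (by omega)
  let b := finBasis L S
  let l : {Y : Finset (Fin n) // Y.card = e} → Fin (finrank L S) → L := fun Y a =>
    b.repr ⟨act (Pi.single Y.1 1) F, Submodule.subset_span ⟨Y.1, Y.2, rfl⟩⟩ a
  have hl : ∀ Y, act (Pi.single Y.1 1) F = ∑ a, l Y a • (b a : Finset (Fin n) → L) := by
    intro Y
    have := congrArg Subtype.val (b.sum_repr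
      ⟨act (Pi.single Y.1 1) F, Submodule.subset_span ⟨Y.1, Y.2, rfl⟩⟩)
    simpa only [Submodule.coe_sum, Submodule.coe_smul] using this.symm
  let Ξ : (Finset (Fin n) → L) →ₗ[L]
      ({Y : Finset (Fin n) // Y.card = e} → (Finset (Fin n) → L) ⧸ S) :=
    LinearMap.pi fun Y => S.mkQ ∘ₗ actL (Pi.single Y.1 1)
  let Θ : (Fin (finrank L S) → Supp L fun T : Finset (Fin n) => T.card = k) →ₗ[L]
      ({Y : Finset (Fin n) // Y.card = e} → (Finset (Fin n) → L) ⧸ S) :=
    LinearMap.pi fun Y => S.mkQ ∘ₗ ∑ a, l Y a • ((Submodule.subtype _) ∘ₗ LinearMap.proj a)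
  have h1 : 𝒢 ≤ (LinearMap.range Θ).comap Ξ := by
    rw [h𝒢, Submodule.span_le]
    rintro _ ⟨p, rfl⟩
    refine ⟨fun a => ⟨Dv (δ p) (b a), Dv_supp _ (hSs (b a).2)⟩, funext fun Y => ?_⟩
    have h2 := Dv_act (δ p) (hδ _) (Pi.single Y.1 1) F
    rw [Dv_single _ (hδ p), hl, Dv_sum _ (hδ p)] at h2
    rw [zero_act, add_zero] at h2
    have h4 : S.mkQ (∑ a, δ p (l Y a) • (b a : Finset (Fin n) → L)) = 0 :=
      (Submodule.Quotient.mk_eq_zero S).2 (S.sum_mem fun a _ => S.smul_mem _ (b a).2)
    show S.mkQ _ = S.mkQ (act (Pi.single Y.1 1) (Dv (δ p) F))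
    rw [← h2, map_add, h4, add_zero]
    simp
  have h2 : 𝒢 ≤ Supp L fun X => X.card = j := by
    rw [h𝒢, Submodule.span_le]
    rintro _ ⟨p, rfl⟩
    exact Dv_supp _ hF.1
  refine (finrank_le_add 𝒢 (EE j e S) (LinearMap.range Θ) Ξ (fun x hx => h1 hx) fun x hx h0 =>
    mem_EE.2 ⟨h2 hx, fun Y hY => (Submodule.Quotient.mk_eq_zero S).1
      (congrFun h0 ⟨Y, hY⟩)⟩).trans (add_le_add ?_ (finrank_EE hk S))
  refine (LinearMap.finrank_range_le Θ).trans ?_
  rw [finrank_pi_fintype]
  simp [finrank_Supp_card]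

variable {j : ℕ} (z : ι → Finset (Fin n) → L) (hz : ∀ i, z i ∈ Supp L fun T => T.card + d i = j)
  (hs : ∀ G ∈ Supp L fun X : Finset (Fin n) => X.card = j,
    ∑ i, z i ⬝ᵥ act (mask (fun i Y => Y.card = d i) c i) G = 0)

include hs

lemma der_syz (l : ι) (Y : Finset (Fin n)) (hY : Y.card = d l) (G : Finset (Fin n) → L)
    (hG : G ∈ Supp L fun X : Finset (Fin n) => X.card = j) :
    z l ⬝ᵥ act (Pi.single Y 1) G +
      ∑ i, Dv (δ (l, Y)) (z i) ⬝ᵥ act (mask (fun i Y => Y.card = d i) c i) G = 0 := by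
  have h1 := congrArg (δ (l, Y)) (hs G hG)
  have h2 := hs _ (Dv_supp (δ (l, Y)) hG)
  rw [map_zero, map_sum] at h1
  simp only [der_dot _ (hδ _), Dv_act _ (hδ _), dotProduct_add, sum_add_distrib, h2, zero_add,
    Dv_mask δ c hc d l _ Y hY] at h1
  rw [sum_eq_single l (fun i _ hi => ?_) (by simp), if_pos rfl] at h1
  · exact h1
  · rw [if_neg hi, zero_act, dotProduct_zero]

/-- the span of the components of degree class `e` -/
def Zs (d : ι → ℕ) (z : ι → Finset (Fin n) → L) (e : ℕ) : Submodule L (Finset (Fin n) → L) :=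
  Submodule.span L {H | ∃ i, d i = e ∧ z i = H}

lemma ineq3 {F : Finset (Fin n) → L} (hF : F ∈ WF j d univ c) (e : ℕ) :
    ∀ y ∈ Zs d z e, ∀ H ∈ Sp e F, y ⬝ᵥ H = 0 := by
  suffices h : Sp e F ≤ perp (Zs d z e) from fun y hy H hH => h hH y hy
  rw [Sp, Submodule.span_le]
  rintro _ ⟨Y, hY, rfl⟩ y hy
  induction hy using Submodule.span_induction with
  | mem y hy =>
    obtain ⟨l, rfl, rfl⟩ := hy
    have := der_syz δ hδ c hc d z hs l Y hY F hF.1
    simpa [hF.2] using this
  | zero => exact zero_dotProduct _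
  | add x y _ _ h1 h2 => rw [add_dotProduct, h1, h2, add_zero]
  | smul a x _ h => rw [smul_dotProduct, h, smul_zero]

include hz

omit [Fintype ι] [DecidableEq ι] hδ hc hs in
lemma Zs_supp (e : ℕ) : Zs d z e ≤ Supp L fun T => T.card + e = j := by
  rw [Zs, Submodule.span_le]
  rintro _ ⟨i, rfl, rfl⟩
  exact hz i

lemma ineq2 {e k : ℕ} (hk : k + e = j) :
    (Up j (ld (fun X => -wz X) (Zs d z e))).card ≤ ∑ i, finrank L (Zs d z (d i)) +
      ∑ e ∈ range (j + 1), finrank L (Zs d z e) * n.choose (j - e) := by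
  let f := mask (fun i (Y : Finset (Fin n)) => Y.card = d i) c
  let b := fun e => finBasis L (Zs d z e)
  let l : ∀ e, ι → Fin (finrank L (Zs d z e)) → L := fun e i a =>
    if h : d i = e then (b e).repr ⟨z i, Submodule.subset_span ⟨i, h, rfl⟩⟩ a else 0
  have hl : ∀ i, z i = ∑ a, l (d i) i a • (b (d i) a : Finset (Fin n) → L) := by
    intro i
    have := congrArg Subtype.val ((b (d i)).sum_repr ⟨z i, Submodule.subset_span ⟨i, rfl, rfl⟩⟩)
    simpa only [Submodule.coe_sum, Submodule.coe_smul, l, dif_pos] using this.symm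
  let f1 : (Finset (Fin n) → L) →ₗ[L] ((Σ i, Fin (finrank L (Zs d z (d i)))) → L) :=
    LinearMap.pi fun q => dotProductBilin L L (b (d q.1) q.2 : Finset (Fin n) → L) ∘ₗ actL (f q.1)
  let f2 : (Finset (Fin n) → L) →ₗ[L] (∀ q : Σ e : Fin (j + 1), Fin (finrank L (Zs d z e)),
      Supp L fun T : Finset (Fin n) => T.card = j - q.1) :=
    LinearMap.pi fun q => resS _ ∘ₗ actL (∑ i, l q.1 i q.2 • f i)
  have h1 := finrank_le_add (Supp L fun X => X.card = j) (EE j e (perp (Zs d z e))) ⊤
    (f1.prod f2) (fun _ _ => trivial) ?_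
  · have h2 := finrank_EE_perp hk (Zs d z e) ((Zs_supp d z hz e).trans fun H hH T hT =>
      hH T (by omega))
    rw [finrank_top, finrank_prod, finrank_fintype_fun_eq_card, finrank_pi_fintype,
      finrank_Supp_card, Fintype.sum_sigma] at h1
    simp only [finrank_Supp_card, Fintype.card_sigma, Fintype.card_fin, sum_const, card_univ,
      smul_eq_mul] at h1
    rw [Fin.sum_univ_eq_sum_range (fun e => finrank L (Zs d z e) * n.choose (j - e))] at h1
    omega
  intro G hG h0
  have a1 : ∀ i a, (b (d i) a : Finset (Fin n) → L) ⬝ᵥ act (f i) G = 0 := fun i a =>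
    congrFun (congrArg Prod.fst h0) ⟨i, a⟩
  have a2 : ∀ (e : Fin (j + 1)) a (T : Finset (Fin n)), T.card = j - e →
      act (∑ i, l e i a • f i) G T = 0 := by
    intro e a T hT
    have := congrFun (congrArg Subtype.val (congrFun (congrArg Prod.snd h0) ⟨e, a⟩)) T
    exact (if_pos hT).symm.trans this
  have a3 : ∀ D : L →+ L, (∀ x y, D (x * y) = x * D y + D x * y) →
      ∑ i, Dv D (z i) ⬝ᵥ act (f i) G = 0 := by
    intro D hD
    have b1 : ∀ i, Dv D (z i) ⬝ᵥ act (f i) G =
        ∑ e : Fin (j + 1), ∑ a, l e i a * (Dv D (b e a) ⬝ᵥ act (f i) G) := by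
      intro i
      by_cases hi : d i < j + 1
      · rw [sum_eq_single ⟨d i, hi⟩ (fun e _ he => sum_eq_zero fun a _ => ?_) (by simp)]
        · conv_lhs => rw [hl i]
          rw [Dv_sum D hD, add_dotProduct, sum_dotProduct, sum_dotProduct]
          simp [a1]
        · simp only [l]
          rw [dif_neg fun h => he (Fin.ext h.symm), zero_mul]
      · have : Dv D (z i) = 0 := funext fun T => Dv_supp D (hz i) T (by omega)
        rw [this, zero_dotProduct, eq_comm]
        refine sum_eq_zero fun e _ => sum_eq_zero fun a _ => ?_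
        simp only [l]
        rw [dif_neg (by have := e.2; omega), zero_mul]
    rw [sum_congr rfl fun i _ => b1 i, sum_comm]
    refine sum_eq_zero fun e _ => ?_
    rw [sum_comm]
    refine sum_eq_zero fun a _ => ?_
    have b2 : act (∑ i, l e i a • f i) G = ∑ i, l e i a • act (f i) G := by
      rw [← actL_apply, map_sum, LinearMap.sum_apply]
      simp
    have b3 : Dv D (b e a) ⬝ᵥ act (∑ i, l e i a • f i) G = 0 := by
      refine sum_eq_zero fun T _ => ?_
      by_cases hT : T.card = j - e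
      · rw [a2 e a T hT, mul_zero]
      · rw [Dv_supp D (Zs_supp d z hz e (b e a).2) T (by omega), zero_mul]
    rw [b2, dotProduct_sum] at b3
    simpa using b3
  refine mem_EE.2 ⟨hG, fun Y hY y hy => ?_⟩
  induction hy using Submodule.span_induction with
  | mem y hy =>
    obtain ⟨i, rfl, rfl⟩ := hy
    have := der_syz δ hδ c hc d z hs i Y hY G hG
    rwa [a3 _ (hδ _), add_zero] at this
  | zero => exact zero_dotProduct _
  | add x y _ _ h1 h2 => rw [add_dotProduct, h1, h2, add_zero]
  | smul a x _ h => rw [smul_dotProduct, h, smul_zero]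

end Pool.Agent.P.MP_3acc10_al
end

-- part Pool.Agent.P.MP_3acc10_al.Deriv
section

set_option autoImplicit false

namespace Pool.Agent.P.MP_3acc10_al

open Module Finset MvPolynomial

variable {K : Type*} [Field K] {τ : Type*}

/-- the generic point -/
noncomputable def gp (K : Type*) [Field K] (p : τ) : FractionRing (MvPolynomial τ K) :=
  algebraMap (MvPolynomial τ K) _ (X p)

lemma exists_der [DecidableEq τ] (p : τ) :
    ∃ δ : FractionRing (MvPolynomial τ K) →+ FractionRing (MvPolynomial τ K),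
      (∀ x y, δ (x * y) = x * δ y + δ x * y) ∧ ∀ q, δ (gp K q) = if q = p then 1 else 0 := by
  set L := FractionRing (MvPolynomial τ K)
  let φ0 : MvPolynomial τ K →+* TrivSqZeroExt L L :=
    eval₂Hom ((algebraMap L (TrivSqZeroExt L L)).comp
      ((algebraMap (MvPolynomial τ K) L).comp C))
      fun q => TrivSqZeroExt.inl (gp K q) + TrivSqZeroExt.inr (if q = p then 1 else 0)
  let π : TrivSqZeroExt L L →+* L := (TrivSqZeroExt.fstHom L L L).toRingHom
  have h1 : π.comp φ0 = algebraMap (MvPolynomial τ K) L := by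
    refine MvPolynomial.ringHom_ext (fun a => ?_) fun q => ?_
    · simp [φ0, π, TrivSqZeroExt.algebraMap_eq_inl]
    · by_cases e : q = p <;> simp [φ0, π, gp, e, L]
  have h2 : ∀ y : nonZeroDivisors (MvPolynomial τ K), IsUnit (φ0 y) := by
    intro y
    rw [TrivSqZeroExt.isUnit_iff_isUnit_fst]
    have : (φ0 y).fst = algebraMap (MvPolynomial τ K) L y := RingHom.congr_fun h1 y
    rw [this]
    exact IsLocalization.map_units L y
  let φ : L →+* TrivSqZeroExt L L := IsLocalization.lift h2
  have h3 : π.comp φ = RingHom.id L := by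
    refine IsLocalization.ringHom_ext (nonZeroDivisors (MvPolynomial τ K)) ?_
    rw [RingHom.comp_assoc, IsLocalization.lift_comp, h1, RingHom.id_comp]
  have h4 : ∀ x, (φ x).fst = x := fun x => RingHom.congr_fun h3 x
  refine ⟨AddMonoidHom.mk' (fun x => (φ x).snd) fun x y => by simp, fun x y => ?_, fun q => ?_⟩
  · simp [h4, mul_comm]
  · show (φ (algebraMap _ L (X q))).snd = _
    rw [IsLocalization.lift_eq]
    by_cases e : q = p <;> simp [φ0, e]

lemma gen_rank {R C : Type*} [Fintype R] [Fintype C] (M : Matrix R C (MvPolynomial τ K)) :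
    Gen fun c : τ → K => (M.map (algebraMap _ (FractionRing (MvPolynomial τ K)))).rank ≤
      (M.map (eval c)).rank := by
  classical
  let L := FractionRing (MvPolynomial τ K)
  let P := MvPolynomial τ K
  let ML := M.map (algebraMap P L)
  have hML : ML = M.map (algebraMap P L) := rfl
  let f := ML.mulVecLin
  let b := (finBasis L (LinearMap.range f)).equivFun
  obtain ⟨g, hg⟩ := f.rangeRestrict.exists_rightInverse_of_surjective
    (LinearMap.range_rangeRestrict f)
  obtain ⟨h, hh⟩ := (LinearMap.range f).subtype.exists_leftInverse_of_injective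
    (Submodule.ker_subtype _)
  let A := LinearMap.toMatrix' (b.toLinearMap ∘ₗ h)
  let B := LinearMap.toMatrix' (g ∘ₗ b.symm.toLinearMap)
  have hAB : A * ML * B = 1 := by
    rw [← LinearMap.toMatrix'_toLin' ML, ← LinearMap.toMatrix'_comp, ← LinearMap.toMatrix'_comp,
      ← LinearMap.toMatrix'_id]
    congr 1
    refine LinearMap.ext fun x => ?_
    have e1 : f (g (b.symm x)) = b.symm x := congrArg Subtype.val (LinearMap.congr_fun hg _)
    have e2 : h (b.symm x) = b.symm x := LinearMap.congr_fun hh _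
    show b (h (f (g (b.symm x)))) = x
    rw [e1, e2, b.apply_symm_apply]
  obtain ⟨a, ha⟩ := IsLocalization.exist_integer_multiples_of_finite (nonZeroDivisors P)
    fun q : _ × R => A q.1 q.2
  obtain ⟨a', ha'⟩ := IsLocalization.exist_integer_multiples_of_finite (nonZeroDivisors P)
    fun q : C × _ => B q.1 q.2
  choose A' hA' using ha
  choose B' hB' using ha'
  let A1 : Matrix _ R P := Matrix.of fun i r => A' (i, r)
  let B1 : Matrix C _ P := Matrix.of fun s i => B' (s, i)
  have e1 : A1.map (algebraMap P L) = (a : P) • A := by ext i r; exact hA' (i, r)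
  have e2 : B1.map (algebraMap P L) = (a' : P) • B := by ext i r; exact hB' (i, r)
  have e3 : A1 * M * B1 = ((a : P) * a') • (1 : Matrix _ _ P) := by
    apply Matrix.map_injective (IsFractionRing.injective P L)
    show (A1 * M * B1).map _ = _
    rw [Matrix.map_mul, Matrix.map_mul, e1, e2, ← hML, Matrix.smul_mul, Matrix.smul_mul,
      Matrix.mul_smul, hAB, smul_smul]
    ext i i'
    show ((a : P) * a') • (1 : Matrix _ _ L) i i' =
      algebraMap P L (((a : P) * a') • (1 : Matrix _ _ P) i i')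
    by_cases e : i = i' <;> simp [Matrix.one_apply, e, Algebra.smul_def]
  refine ⟨a * a', mul_ne_zero (nonZeroDivisors.coe_ne_zero a) (nonZeroDivisors.coe_ne_zero a'),
    fun c hc => ?_⟩
  have e4 : A1.map (eval c) * M.map (eval c) * B1.map (eval c) =
      eval c ((a : P) * a') • (1 : Matrix _ _ K) := by
    rw [← Matrix.map_mul, ← Matrix.map_mul, e3]
    ext i i'
    by_cases e : i = i' <;> simp [e]
  have e5 : IsUnit (eval c ((a : P) * a') • (1 : Matrix (Fin (finrank L (LinearMap.range f)))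
      (Fin (finrank L (LinearMap.range f))) K)) := by
    rw [Matrix.isUnit_iff_isUnit_det, Matrix.det_smul, Matrix.det_one, mul_one]
    exact (pow_ne_zero _ hc).isUnit
  have e6 := Matrix.rank_of_isUnit _ e5
  rw [← e4, Fintype.card_fin] at e6
  exact e6.ge.trans ((Matrix.rank_mul_le_left _ _).trans (Matrix.rank_mul_le_right _ _))

variable {σ ι : Type*} [Fintype σ] [DecidableEq σ] [Fintype ι]

/-- the matrix of the conditions which define the inverse system -/
def Mat {R : Type*} [CommRing R] (j : ℕ) (d : ι → ℕ) (c : ι × Finset σ → R) :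
    Matrix (Option ι × Finset σ) (Finset σ) R := fun p X =>
  p.1.elim (if p.2 = X ∧ ¬ X.card = j then 1 else 0) fun i =>
    ∑ Y : Finset σ, if Y ∪ p.2 = X ∧ Disjoint Y p.2 ∧ Y.card = d i then c (i, Y) else 0

omit [Fintype ι] in
lemma Mat_map {R S : Type*} [CommRing R] [CommRing S] (f : R →+* S) (j : ℕ) (d : ι → ℕ)
    (c : ι × Finset σ → R) : (Mat j d c).map f = Mat j d fun p => f (c p) := by
  ext ⟨_ | i, T⟩ X
  · simp [Mat, apply_ite f]
  · simp [Mat, apply_ite f]

lemma Mat_rank (j : ℕ) (d : ι → ℕ) (c : ι × Finset σ → K) :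
    (Mat j d c).rank + finrank K (WF j d univ c) = Fintype.card (Finset σ) := by
  have h := LinearMap.finrank_range_add_finrank_ker (Mat j d c).mulVecLin
  rw [finrank_fintype_fun_eq_card] at h
  suffices e : LinearMap.ker (Mat j d c).mulVecLin = WF j d univ c by rw [← e]; exact h
  have h1 : ∀ F T, (Mat j d c).mulVec F (none, T) = if ¬ T.card = j then F T else 0 := by
    intro F T
    simp only [Matrix.mulVec, dotProduct, Mat, Option.elim]
    rw [sum_eq_single T (fun X _ hX => by simp [hX.symm]) (by simp)]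
    simp
  have h2 : ∀ F i T, (Mat j d c).mulVec F (some i, T) =
      act (mask (fun i Y => Y.card = d i) c i) F T := by
    intro F i T
    simp only [Matrix.mulVec, dotProduct, Mat, Option.elim, act, sum_mul]
    rw [sum_comm]
    refine sum_congr rfl fun Y _ => ?_
    rw [sum_eq_single (Y ∪ T) (fun X _ hX => by simp [hX.symm]) (by simp)]
    by_cases a1 : Disjoint Y T <;> by_cases a2 : Y.card = d i <;> simp [mask, a1, a2]
  ext F
  rw [LinearMap.mem_ker, mem_W, Matrix.mulVecLin_apply]
  constructor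
  · intro h
    refine ⟨fun X hX => ?_, fun i _ => funext fun T => ?_⟩
    · have := congrFun h (none, X)
      rwa [h1, if_pos hX] at this
    · exact (h2 F i T).symm.trans (congrFun h (some i, T))
  · intro h
    ext ⟨_ | i, T⟩
    · rw [h1]
      split_ifs with a
      · rfl
      · exact h.1 T a
    · rw [h2, h.2 i (mem_univ _)]
      rfl

lemma gen_WF (j : ℕ) (d : ι → ℕ) : Gen fun c : ι × Finset σ → K => finrank K (WF j d univ c) ≤
    finrank (FractionRing (MvPolynomial (ι × Finset σ) K))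
      (WF j d univ (gp K (τ := ι × Finset σ))) := by
  refine (gen_rank (Mat j d (X : ι × Finset σ → MvPolynomial _ K))).mono fun c hc => ?_
  rw [Mat_map, Mat_map] at hc
  have h1 := Mat_rank j d c
  have h2 := Mat_rank j d (gp K (τ := ι × Finset σ))
  simp only [eval_X] at hc
  change (Mat j d (gp K)).rank ≤ (Mat j d c).rank at hc
  omega

end Pool.Agent.P.MP_3acc10_al
end

-- part Pool.Agent.P.MP_3acc10_al.Exact
section

set_option autoImplicit false

namespace Pool.Agent.P.MP_3acc10_al

open Module Finset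

variable {L : Type*} [Field L] {n : ℕ} {ι : Type*} [Fintype ι] [DecidableEq ι]

omit [DecidableEq ι] in
lemma card_good (j : ℕ) (d : ι → ℕ) :
    (univ.filter fun q : ι × Finset (Fin n) => q.2.card + d q.1 = j).card =
      ∑ i, if d i ≤ j then n.choose (j - d i) else 0 := by
  rw [card_filter, Fintype.sum_prod_type]
  refine sum_congr rfl fun i _ => ?_
  rw [← card_filter]
  split_ifs with h
  · have : (univ.filter fun T : Finset (Fin n) => T.card + d i = j) =
        univ.powersetCard (j - d i) := by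
      ext T; simp only [mem_filter, mem_univ, true_and, mem_powersetCard, subset_univ]; omega
    rw [this]; simp
  · exact card_eq_zero.2 (filter_eq_empty_iff.2 fun T _ => by simp only; omega)

lemma exists_syz (j : ℕ) (d : ι → ℕ) (c : ι × Finset (Fin n) → L)
    (h : n.choose j < finrank L (WF j d univ c) + ∑ i, if d i ≤ j then n.choose (j - d i) else 0) :
    ∃ z : ι → Finset (Fin n) → L, (∀ i, z i ∈ Supp L fun T => T.card + d i = j) ∧ (∃ i, z i ≠ 0) ∧
      ∀ G ∈ Supp L fun X : Finset (Fin n) => X.card = j,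
        ∑ i, z i ⬝ᵥ act (mask (fun i Y => Y.card = d i) c i) G = 0 := by
  let Φ : (Finset (Fin n) → L) →ₗ[L] (ι × Finset (Fin n) → L) :=
    LinearMap.pi fun q => LinearMap.proj q.2 ∘ₗ actL (mask (fun i Y => Y.card = d i) c q.1)
  set R := (Supp L fun X : Finset (Fin n) => X.card = j).map Φ with hR
  let R' : Submodule L (ι × Finset (Fin n) → L) :=
    Submodule.pi {q | q.2.card + d q.1 = j} fun _ => ⊥
  have hlt : R ⊔ R' < ⊤ := by
    rw [lt_top_iff_ne_top]
    intro htop
    have h1 := Submodule.finrank_add_le_finrank_add_finrank R R'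
    have h2 := finrank_le_sum R' (univ.filter fun q => ¬ (q.2.card + d q.1 = j))
      (fun q => LinearMap.proj q) (fun _ => ⊤) (by simp) fun x hx h0 => funext fun q => by
        by_cases hq : q.2.card + d q.1 = j
        · exact hx q hq
        · exact h0 q (by simpa using hq)
    have h3 := card_filter_add_card_filter_not (s := univ)
      fun q : ι × Finset (Fin n) => q.2.card + d q.1 = j
    have h4 := LinearMap.finrank_range_add_finrank_ker
      (Φ.domRestrict (Supp L fun X : Finset (Fin n) => X.card = j))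
    have h5 : finrank L (WF j d univ c) ≤ finrank L (LinearMap.ker
        (Φ.domRestrict (Supp L fun X : Finset (Fin n) => X.card = j))) := by
      rw [← Submodule.finrank_map_subtype_eq]
      exact Submodule.finrank_mono fun F hF =>
        ⟨⟨F, hF.1⟩, funext fun q => congrFun (hF.2 q.1 (mem_univ _)) q.2, rfl⟩
    rw [LinearMap.range_domRestrict, finrank_Supp_card, ← hR] at h4
    rw [htop, finrank_top, finrank_fintype_fun_eq_card, ← card_univ] at h1
    simp only [finrank_top, finrank_self, sum_const, smul_eq_mul, mul_one] at h2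
    rw [card_good] at h3
    omega
  obtain ⟨ψ, h0, hψ⟩ := Submodule.exists_le_ker_of_lt_top _ hlt
  have e : ∀ x, ψ x = ∑ q, x q * ψ (Pi.single q 1) := by
    intro x
    conv_lhs => rw [← univ_sum_single x, map_sum]
    refine sum_congr rfl fun q _ => ?_
    rw [← smul_eq_mul, ← map_smul, ← Pi.single_smul, smul_eq_mul, mul_one]
  refine ⟨fun i T => ψ (Pi.single (i, T) 1), fun i T hT => hψ (Submodule.mem_sup_right ?_), ?_,
    fun G hG => ?_⟩
  · intro q hq
    exact Pi.single_eq_of_ne (fun e => hT (by subst e; exact hq)) _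
  · by_contra hne
    push Not at hne
    refine h0 (LinearMap.ext fun x => ?_)
    rw [e]
    exact sum_eq_zero fun q _ => by rw [show ψ (Pi.single q 1) = 0 from congrFun (hne q.1) q.2,
      mul_zero]
  · have : ψ (Φ G) = 0 := hψ (Submodule.mem_sup_left ⟨G, hG, rfl⟩)
    rw [e, Fintype.sum_prod_type] at this
    refine Eq.trans (sum_congr rfl fun i _ => sum_congr rfl fun T _ => mul_comm _ _) this

lemma core_max (j : ℕ) : ∃ n0, ∀ n, n0 ≤ n → ∀ (L : Type) [Field L] (ι : Type) [Fintype ι]
    [DecidableEq ι] (δ : ι × Finset (Fin n) → L →+ L)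
    (_ : ∀ p x y, δ p (x * y) = x * δ p y + δ p x * y) (c : ι × Finset (Fin n) → L)
    (_ : ∀ p q, δ p (c q) = if q = p then 1 else 0) (d : ι → ℕ), (∀ i, j < 2 * d i) →
    finrank L (WF j d univ c) ≤ n.choose j - ∑ i, if d i ≤ j then n.choose (j - d i) else 0 := by
  obtain ⟨m1, hn1⟩ := ev_choose (j - 1) (8 * 2 ^ j * (j + 1) + 1) 0
  choose m2 hn2 using ev_ratio
  refine ⟨m1 + (j + 1) + ∑ k ∈ range (j + 1), m2 k, fun n hn L _ ι _ _ δ hδ c hc d hd => ?_⟩
  have hr : ∀ k ≤ j, 2 * n.choose k ≤ 3 * (n - k).choose k := fun k hk =>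
    hn2 k n ((single_le_sum (f := m2) (s := range (j + 1)) (fun _ _ => Nat.zero_le _)
      (mem_range.2 (by omega))).trans (by omega))
  by_contra hcon
  obtain ⟨z, hz, ⟨i0, hi0⟩, hs⟩ := exists_syz j d c (by omega)
  obtain ⟨⟨F, hF⟩, hF0⟩ := finrank_pos_iff_exists_ne_zero.1
    (show 0 < finrank L (WF j d univ c) by omega)
  have hF0 : F ≠ 0 := fun h => hF0 (Subtype.ext h)
  have hZ : ∀ e, 0 < finrank L (Zs d z e) → e ≤ j := by
    intro e he
    obtain ⟨⟨y, hy⟩, hy0⟩ := finrank_pos_iff_exists_ne_zero.1 he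
    by_contra hlt
    exact hy0 (Subtype.ext (funext fun T => Zs_supp d z hz e hy T (by omega)))
  have hZ' : ∀ e, 0 < finrank L (Zs d z e) → ∃ i, d i = e := by
    intro e he
    by_contra hne
    have : Zs d z e = ⊥ := Submodule.span_eq_bot.2 fun H ⟨i, hi, _⟩ => (hne ⟨i, hi⟩).elim
    rw [this, finrank_bot] at he
    omega
  have hm0 : 0 < finrank L (Zs d z (d i0)) := finrank_pos_iff_exists_ne_zero.2
    ⟨⟨z i0, Submodule.subset_span ⟨i0, rfl, rfl⟩⟩, fun h => hi0 (congrArg Subtype.val h)⟩
  have hI : (univ.filter fun i => d i ≤ j).Nonempty := ⟨i0, by simpa using hZ _ hm0⟩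
  have hj : 0 < j := by have := hZ _ hm0; have := hd i0; omega
  have ha : ∀ k ≤ j, (0 : ℝ) < n.choose k := fun k hk => by
    exact_mod_cast Nat.choose_pos (by omega)
  obtain ⟨i1, hi1, hmin⟩ := exists_min_image _
    (fun i => (finrank L (Sp (d i) F) : ℝ) / n.choose (j - d i)) hI
  obtain ⟨i2, hi2, hmax⟩ := exists_max_image _
    (fun i => (finrank L (Zs d z (d i)) : ℝ) / n.choose (j - d i)) hI
  simp only [mem_filter, mem_univ, true_and] at hi1 hi2 hmin hmax
  have hmin' : ∀ i, d i ≤ j → finrank L (Sp (d i1) F) * n.choose (j - d i) ≤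
      finrank L (Sp (d i) F) * n.choose (j - d i1) := fun i hi => by
    have := hmin i hi
    rw [div_le_div_iff₀ (ha _ (by omega)) (ha _ (by omega))] at this
    exact_mod_cast this
  have hmax' : ∀ e, finrank L (Zs d z e) * n.choose (j - d i2) ≤
      finrank L (Zs d z (d i2)) * n.choose (j - e) := fun e => by
    rcases Nat.eq_zero_or_pos (finrank L (Zs d z e)) with h | h
    · rw [h, zero_mul]; exact Nat.zero_le _
    obtain ⟨i, rfl⟩ := hZ' e h
    have := hmax i (hZ _ h)
    rw [div_le_div_iff₀ (ha _ (by omega)) (ha _ (by omega))] at this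
    exact_mod_cast this
  have hsq : ∀ i, n.choose (j - d i) * n.choose (j - d i) ≤ n ^ (j - 1) := fun i =>
    (Nat.mul_le_mul (Nat.choose_le_pow _ _) (Nat.choose_le_pow _ _)).trans (by
      rw [← pow_add]
      exact Nat.pow_le_pow_right (by omega) (by have := hd i; omega))
  have k1 : j - d i1 + d i1 = j := by omega
  have k2 : j - d i2 + d i2 = j := by omega
  have s1 : ∀ e, Sp e F ≤ Supp L fun T => T.card = j - e := fun e =>
    (Sp_supp hF.1).trans fun H hH T hT => hH T (by omega)
  have s2 : Zs d z (d i2) ≤ Supp L fun T => T.card = j - d i2 :=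
    (Zs_supp d z hz _).trans fun H hH T hT => hH T (by omega)
  have q1 := ineq1 δ hδ c hc d k1 hF
  have q2 := ineq2 δ hδ c hc d z hz hs k2
  have q3 := perp_le (s1 _) s2 (ineq3 δ hδ c hc d z hs hF (d i2))
  have u1 := ld_card (w := wz) (s1 (d i1))
  have u2 := ld_card (w := fun X => -wz X) s2
  have v1 := card_ld wz_inj (Sp (d i1) F)
  have v2 := card_ld (w := fun X => -wz X) (neg_injective.comp wz_inj) (Zs d z (d i2))
  have r1 := n1 (show j - d i1 ≤ j by omega) u1
  have r2 := n2 (show 2 * (j - d i1) ≤ j by have := hd i1; omega) (by simp; omega) u1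
  have r3 := n3 (show j - d i2 ≤ j by omega) u2
  have r4 := n2 (show 2 * (j - d i2) ≤ j by have := hd i2; omega) (by simp; omega) u2
  simp only [Fintype.card_fin, v1, v2] at r1 r2 r3 r4
  set w := ∑ i, if d i ≤ j then n.choose (j - d i) else 0 with hw
  set 𝓜 := ld (fun X => -wz X) (Zs d z (d i2))
  have t1 : finrank L (Sp (d i1) F) * w ≤ (∑ i, finrank L (Sp (d i) F)) * n.choose (j - d i1) := by
    rw [hw, mul_sum, sum_mul]
    refine sum_le_sum fun i _ => ?_
    split_ifs with h
    · exact hmin' i h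
    · exact Nat.zero_le _
  have t2 : (∑ i, finrank L (Zs d z (d i))) * n.choose (j - d i2) ≤
      finrank L (Zs d z (d i2)) * w := by
    rw [hw, mul_sum, sum_mul]
    refine sum_le_sum fun i _ => ?_
    split_ifs with h
    · exact hmax' _
    · rw [Nat.eq_zero_of_not_pos fun h' => h (hZ _ h')]; simp
  have t3 : (∑ e ∈ range (j + 1), finrank L (Zs d z e) * n.choose (j - e)) * n.choose (j - d i2) ≤
      finrank L (Zs d z (d i2)) * ((j + 1) * n ^ (j - 1)) := by
    rw [sum_mul, mul_left_comm, ← smul_eq_mul (j + 1)]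
    conv_rhs => rw [← card_range (j + 1)]
    refine sum_le_card_nsmul _ _ _ fun e _ => ?_
    rcases Nat.eq_zero_or_pos (finrank L (Zs d z e)) with h | h
    · rw [h]; simp
    obtain ⟨i, rfl⟩ := hZ' e h
    rw [mul_right_comm]
    refine (Nat.mul_le_mul_right _ (hmax' _)).trans ?_
    rw [mul_assoc]
    exact Nat.mul_le_mul_left _ (hsq i)
  have hm2 : 0 < finrank L (Zs d z (d i2)) := by
    refine Nat.pos_of_mul_pos_right (b := n.choose (j - d i0)) (lt_of_lt_of_le ?_ (hmax' (d i0)))
    exact Nat.mul_pos hm0 (Nat.choose_pos (by omega))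
  have hbig : 8 * j.choose (j - d i2) * ((j + 1) * n ^ (j - 1)) < n.choose j := by
    have b1 := hn1 n (by omega)
    rw [Nat.sub_zero, show j - 1 + 1 = j by omega] at b1
    have b2 := Nat.choose_le_two_pow j (j - d i2)
    have b3 : 0 < n ^ (j - 1) := Nat.pow_pos (by omega)
    have b4 := Nat.mul_le_mul_right ((j + 1) * n ^ (j - 1)) b2
    nlinarith
  have t4 : (Up j 𝓜 ∩ Fu j (j - d i2) 𝓜).card ≤ (Fu j (j - d i2) 𝓜).card :=
    card_le_card inter_subset_right
  refine numeric (a := n.choose j) (a1 := n.choose (j - d i1)) (a2 := n.choose (j - d i2))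
    (w := w) (Q := ((j + 1) * n ^ (j - 1) : ℕ)) (B := j.choose (j - d i2))
    (s1 := finrank L (Sp (d i1) F)) (s2 := finrank L (Sp (d i2) F))
    (m := finrank L (Zs d z (d i2))) (f1 := (Fu j (j - d i1) (ld wz (Sp (d i1) F))).card)
    (f2 := (Up j 𝓜 ∩ Fu j (j - d i2) 𝓜).card) (u := (Up j 𝓜).card)
    (ha _ (by omega)) (ha _ (by omega)) (by exact_mod_cast Sp_pos hi1 hF.1 hF0)
    (by exact_mod_cast hm2) (by exact_mod_cast Nat.choose_pos (by omega)) (by positivity)
    (by exact_mod_cast hbig) ?_ (by exact_mod_cast r1) (fun h => ?_) ?_ (by exact_mod_cast r3)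
    (by exact_mod_cast card_le_card inter_subset_left) (fun h => ?_) (by exact_mod_cast q3)
    (by exact_mod_cast hmin' i2 hi2)
  · norm_cast
    have b1 := Nat.mul_le_mul_right (n.choose (j - d i1)) q1
    have b2 := Nat.mul_le_mul_left (finrank L (Sp (d i1) F)) (hsq i1)
    have b3 : finrank L (Sp (d i1) F) * n ^ (j - 1) ≤
        finrank L (Sp (d i1) F) * ((j + 1) * n ^ (j - 1)) :=
      Nat.mul_le_mul_left _ (Nat.le_mul_of_pos_left _ (Nat.succ_pos j))
    rw [add_mul, mul_assoc] at b1
    omega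
  · exact_mod_cast r2 (by exact_mod_cast h) (hr _ (by omega))
  · norm_cast
    have b1 := Nat.mul_le_mul_right (n.choose (j - d i2)) q2
    rw [add_mul] at b1
    rw [mul_add]
    omega
  · have b1 := r4 (by exact_mod_cast h) (hr _ (by omega))
    have b2 := Nat.mul_le_mul_right (n.choose (j - d i2)) t4
    norm_cast
    omega

omit [Fintype ι] in
lemma lower_all {K : Type*} [Field K] (j : ℕ) (d : ι → ℕ) (A : Finset ι)
    (c : ι × Finset (Fin n) → K) : n.choose j ≤ finrank K (WF j d A c) +
      ∑ i ∈ A, if d i ≤ j then n.choose (j - d i) else 0 := by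
  induction A using Finset.induction_on with
  | empty => rw [finrank_WF_empty]; simp
  | insert l A hl ih =>
    have h1 := lower_step j d A l c
    have h2 := finrank_WF_le (j - d l) d A c
    rw [Fintype.card_fin] at h2
    rw [sum_insert hl]
    split_ifs at h1 ⊢ <;> omega

omit [Fintype ι] in
lemma al_low (D : ℕ) (d : ι → ℕ) (A : Finset ι) (hd : ∀ l ∈ A, D ≤ d l) : ∀ j < 2 * D,
    al n d A j = n.choose j - ((∑ i ∈ A, if d i ≤ j then n.choose (j - d i) else 0 : ℕ) : ℤ) := by
  induction A using Finset.induction_on with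
  | empty => simp
  | insert l A hl ih =>
    intro j hj
    have ih := ih fun l hl => hd l (by simp [hl])
    have hl' := hd l (by simp)
    rw [al_insert n d hl, sum_insert hl, ih j hj]
    split_ifs with h
    · rw [ih _ (by omega), sum_eq_zero (s := A) (f := fun i => if d i ≤ j - d l then
        n.choose (j - d l - d i) else 0) fun i hi => if_neg (by
          have := hd i (by simp [hi]); omega)]
      push_cast; ring
    · simp

theorem exact_low (D : ℕ) : ∃ n0, ∀ (K : Type) [Field K] (n r : ℕ) (d : Fin r → ℕ), n0 ≤ n →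
    (∀ i, D ≤ d i) → Gen fun c : Fin r × Finset (Fin n) → K =>
      ∀ j < 2 * D, (hilb d c j : ℤ) = truncCoeff (series n d univ) j := by
  choose m hm using core_max
  refine ⟨∑ j ∈ range (2 * D), m j, fun K _ n r d hn hd => ?_⟩
  have h1 : ∀ j ∈ range (2 * D), Gen fun c : Fin r × Finset (Fin n) → K =>
      finrank K (WF j d univ c) ≤
        n.choose j - ∑ i, if d i ≤ j then n.choose (j - d i) else 0 := by
    intro j hj
    choose δ h1 h2 using exists_der (K := K) (τ := Fin r × Finset (Fin n))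
    exact (gen_WF j d).mono fun c hc => hc.trans (hm j n
      ((single_le_sum (f := m) (fun _ _ => Nat.zero_le _) hj).trans hn) _ _ δ h1 _ h2 d
        fun i => by have := hd i; have := mem_range.1 hj; omega)
  refine (Gen.all _ h1).mono fun c hc j hj => ?_
  rw [hilb_eq]
  change _ = ex n d univ j
  unfold ex
  split_ifs with h
  · have a1 := hc j (mem_range.2 hj)
    have a2 := lower_all j d univ c
    have a3 := h j le_rfl
    rw [al_low D d univ (fun l _ => hd l) j hj] at a3 ⊢
    omega
  · push Not at h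
    obtain ⟨i, hi, h⟩ := h
    have a1 := hc i (mem_range.2 (by omega))
    rw [al_low D d univ (fun l _ => hd l) i (by omega)] at h
    have a2 := finrank_WF_add i (j - i) d univ c
    rw [show i + (j - i) = j by omega, show finrank K (WF i d univ c) = 0 by omega] at a2
    omega

theorem exact_range (D : ℕ) : ∃ (C : ℝ) (n0 : ℕ), ∀ (K : Type) [Field K] [Infinite K] (n r : ℕ)
    (d : Fin r → ℕ), n0 ≤ n → (∀ i, D ≤ d i) →
    (∃ P : MvPolynomial (Fin r × Finset (Fin n)) K, P ≠ 0 ∧ ∀ c, MvPolynomial.eval c P ≠ 0 →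
      ∀ j < 2 * D, (hilb d c j : ℤ) = truncCoeff (series n d univ) j) ∧
    ∀ (A : Finset (Fin r)) (e : ℕ), 0 < e → e ≤ 2 * D → truncCoeff (series n d A) (2 * D) = 0 →
      C * (n : ℝ) ^ ((e : ℝ) - e / (4 * D)) ≤ (Aᶜ.filter fun i => d i = e).card →
      ∃ P : MvPolynomial (Fin r × Finset (Fin n)) K, P ≠ 0 ∧ ∀ c, MvPolynomial.eval c P ≠ 0 →
        ∀ j, (hilb d c j : ℤ) = truncCoeff (series n d univ) j := by
  obtain ⟨n0, h0⟩ := exact_low D
  have hv := fun e : ℕ => fun h : 0 < e ∧ e ≤ 2 * D => vanish (2 * D) e h.1 h.2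
  choose C hC using hv
  let C' : ℕ → ℝ := fun e => if h : 0 < e ∧ e ≤ 2 * D then |C e h| else 0
  have hC' : ∀ e, 0 ≤ C' e := fun e => by
    simp only [C']; split_ifs
    · exact abs_nonneg _
    · exact le_rfl
  refine ⟨∑ e ∈ range (2 * D + 1), C' e, n0, fun K _ _ n r d hn hd =>
    ⟨h0 K n r d hn hd, fun A e he0 he hA hc => ?_⟩⟩
  have hd0 : ∀ i, 0 < d i := fun i => by have := hd i; omega
  have h1 : C e ⟨he0, he⟩ ≤ ∑ e ∈ range (2 * D + 1), C' e := by
    refine le_trans ?_ (single_le_sum (f := C') (fun i _ => hC' i) (mem_range.2 (by omega : e < _)))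
    simp only [C', dif_pos (And.intro he0 he)]
    exact le_abs_self _
  have h2 : Gen fun c : Fin r × Finset (Fin n) → K => hilb d c (2 * D) = 0 := by
    refine hC e ⟨he0, he⟩ K n r d A hd0 hA (le_trans ?_ hc)
    rw [show (2 * ((2 * D : ℕ) : ℝ)) = 4 * D by push_cast; ring]
    exact mul_le_mul_of_nonneg_right h1 (by positivity)
  refine ((h0 K n r d hn hd).and h2).mono fun c ⟨a1, a2⟩ j => ?_
  by_cases hj : j < 2 * D
  · exact a1 j hj
  have a3 := finrank_WF_add (2 * D) (j - 2 * D) d univ c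
  rw [hilb_eq] at a2
  rw [show 2 * D + (j - 2 * D) = j by omega, a2, mul_zero, Nat.le_zero] at a3
  rw [hilb_eq, a3]
  change _ = ex n d univ j
  unfold ex
  rw [if_neg, Nat.cast_zero]
  intro h
  have a4 : ex n d A (2 * D) = 0 := hA
  have a5 := al_le_of_subset n d (2 * D) (subset_univ A) (fun l _ => hd0 l)
    fun i hi => h i (by omega)
  have a6 : ∀ i ≤ 2 * D, 0 < al n d A i := fun i hi => (h i (by omega)).trans_le (a5 i hi)
  unfold ex at a4
  rw [if_pos a6] at a4
  exact (a6 _ le_rfl).ne' a4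

end Pool.Agent.P.MP_3acc10_al
end
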