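import Pool.Agent.K.MP_3acc10_al.C5
import Pool.Agent.K.MP_3acc10_al.C0
import Pool.Agent.K.MP_3acc10_al.C4
import Pool.Agent.K.MP_3acc10_al.C6
import Pool.Agent.K.MP_3acc10_al.C7

-- part Pool.Agent.P.MP_3acc10_al.NC
section

set_option autoImplicit false

namespace Pool.Agent.P.MP_3acc10_al.Nak

open Module Finset

variable {n : ℕ} {ι : Type} [Fintype ι] [DecidableEq ι]

lemma form_pair {α β γ : Type} [Fintype α] [Fintype β] [Fintype γ] [DecidableEq γ]
    (p : α → Prop) (q : β → Prop) [DecidablePred p] [DecidablePred q] (u : α → γ) (v : β → γ)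
    (f : α → ℂ) (g : β → ℂ) :
    ∑ X : γ, (∑ s, if p s ∧ u s = X then f s else 0) * (∑ t, if q t ∧ v t = X then g t else 0) =
      ∑ s, ∑ t, if p s ∧ q t ∧ u s = v t then f s * g t else 0 := by
  simp_rw [sum_mul_sum]
  rw [sum_comm]
  refine sum_congr rfl fun s _ => ?_
  rw [sum_comm]
  refine sum_congr rfl fun t _ => ?_
  rw [sum_eq_single (u s)]
  · by_cases h1 : p s <;> by_cases h2 : q t <;> by_cases h3 : u s = v t <;>
      simp [h1, h2, h3, eq_comm]
  · intro X _ hX
    simp [hX.symm]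
  · simp

lemma form_mul (h F : Finset (Fin n) → ℂ) (X : Finset (Fin n)) :
    mul h F X = ∑ s : Finset (Fin n) × Finset (Fin n),
      if Disjoint s.1 s.2 ∧ s.1 ∪ s.2 = X then h s.1 * F s.2 else 0 := by
  rw [Fintype.sum_prod_type, mul]
  refine sum_congr rfl fun Y _ => ?_
  rw [sum_eq_single (X \ Y)]
  · by_cases hY : Y ⊆ X
    · simp [hY, disjoint_sdiff, union_eq_right.2 hY]
    · rw [if_neg hY, if_neg]
      rintro ⟨-, h2⟩
      exact hY (h2 ▸ subset_union_left)
  · intro M _ hM
    rw [if_neg]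
    rintro ⟨h1, h2⟩
    apply hM
    dsimp only at h1 h2
    rw [← h2, union_sdiff_cancel_left h1]
  · simp

lemma form_act (g F : Finset (Fin n) → ℂ) (T : Finset (Fin n)) :
    act g F T = ∑ s : Finset (Fin n) × Finset (Fin n),
      if s.1 ⊆ s.2 ∧ s.2 \ s.1 = T then g s.1 * F s.2 else 0 := by
  rw [Fintype.sum_prod_type, act]
  refine sum_congr rfl fun Y _ => ?_
  rw [sum_eq_single (Y ∪ T)]
  · by_cases hY : Disjoint Y T
    · rw [if_pos hY, if_pos ⟨subset_union_left, union_sdiff_cancel_left hY⟩]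
    · rw [if_neg hY, if_neg]
      rintro ⟨-, h2⟩
      exact hY (h2 ▸ disjoint_sdiff)
  · intro M _ hM
    rw [if_neg]
    rintro ⟨h1, h2⟩
    apply hM
    dsimp only at h1 h2
    rw [← h2, union_sdiff_of_subset h1]
  · simp

lemma form_swap (F : Finset (Fin n) → Finset (Fin n) → Finset (Fin n) → Finset (Fin n) → ℂ) :
    ∑ J, ∑ N, ∑ I, ∑ M, F J N I M = ∑ N, ∑ M, ∑ I, ∑ J, F J N I M := by
  rw [sum_comm]
  refine sum_congr rfl fun N _ => ?_
  rw [sum_comm]
  conv_rhs => rw [sum_comm]
  refine sum_congr rfl fun I _ => ?_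
  rw [sum_comm]

lemma form_one (g h φ ψ : Finset (Fin n) → ℂ) :
    ∑ X, star (mul (star h) ψ X) * mul (star g) φ X =
      ∑ N, ∑ M, star (ψ N) * φ M * ∑ I : Finset (Fin n), ∑ J : Finset (Fin n), star (g I) * h J *
        (if Disjoint I M ∧ Disjoint J N ∧ I ∪ M = J ∪ N then 1 else 0) := by
  have h1 : ∀ X, star (mul (star h) ψ X) = ∑ s : Finset (Fin n) × Finset (Fin n),
      if Disjoint s.1 s.2 ∧ s.1 ∪ s.2 = X then h s.1 * star (ψ s.2) else 0 := by
    intro X
    rw [form_mul, star_sum]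
    refine sum_congr rfl fun s _ => ?_
    split_ifs <;> simp
  simp_rw [h1, form_mul]
  rw [form_pair (fun s : Finset (Fin n) × Finset (Fin n) => Disjoint s.1 s.2)
    (fun s : Finset (Fin n) × Finset (Fin n) => Disjoint s.1 s.2)
    (fun s => s.1 ∪ s.2) (fun s => s.1 ∪ s.2)]
  simp_rw [Fintype.sum_prod_type, mul_sum]
  rw [form_swap]
  refine sum_congr rfl fun N _ => sum_congr rfl fun M _ => sum_congr rfl fun I _ =>
    sum_congr rfl fun J _ => ?_
  by_cases hc : Disjoint I M ∧ Disjoint J N ∧ I ∪ M = J ∪ N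
  · rw [if_pos hc, if_pos ⟨hc.2.1, hc.1, hc.2.2.symm⟩, Pi.star_apply]; ring
  · rw [if_neg hc, if_neg (fun h' => hc ⟨h'.2.1, h'.1, h'.2.2.symm⟩)]; ring

lemma form_two (g h φ ψ : Finset (Fin n) → ℂ) :
    ∑ T, star (act g ψ T) * act h φ T =
      ∑ N, ∑ M, star (ψ N) * φ M * ∑ I : Finset (Fin n), ∑ J : Finset (Fin n), star (g I) * h J *
        (if J ⊆ M ∧ I ⊆ N ∧ M \ J = N \ I then 1 else 0) := by
  have h1 : ∀ T, star (act g ψ T) = ∑ s : Finset (Fin n) × Finset (Fin n),
      if s.1 ⊆ s.2 ∧ s.2 \ s.1 = T then star (g s.1) * star (ψ s.2) else 0 := by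
    intro X
    rw [form_act, star_sum]
    refine sum_congr rfl fun s _ => ?_
    split_ifs <;> simp
  simp_rw [h1, form_act]
  rw [form_pair (fun s : Finset (Fin n) × Finset (Fin n) => s.1 ⊆ s.2)
    (fun s : Finset (Fin n) × Finset (Fin n) => s.1 ⊆ s.2)
    (fun s => s.2 \ s.1) (fun s => s.2 \ s.1)]
  simp_rw [Fintype.sum_prod_type, mul_sum]
  rw [form_swap]
  refine sum_congr rfl fun N _ => sum_congr rfl fun M _ => ?_
  rw [sum_comm]
  refine sum_congr rfl fun I _ => sum_congr rfl fun J _ => ?_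
  by_cases hc : J ⊆ M ∧ I ⊆ N ∧ M \ J = N \ I
  · rw [if_pos hc, if_pos ⟨hc.2.1, hc.1, hc.2.2.symm⟩]; ring
  · rw [if_neg hc, if_neg (fun h' => hc ⟨h'.2.1, h'.1, h'.2.2.symm⟩)]; ring

omit [DecidableEq ι] in
theorem form_eq (G φ : ι → Finset (Fin n) → ℂ) :
    Qf G φ = ∑ y : ι × Finset (Fin n), ∑ x : ι × Finset (Fin n), star (φ y.1 y.2) * φ x.1 x.2 *
      ∑ I : Finset (Fin n), ∑ J : Finset (Fin n),
        star (G x.1 I) * G y.1 J * (sg x.2 I J y.2 : ℂ) := by
  have h1 : ∑ X : Finset (Fin n), star (∑ a, mul (star (G a)) (φ a) X) *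
      (∑ a, mul (star (G a)) (φ a) X) =
      ∑ b, ∑ a, ∑ X, star (mul (star (G b)) (φ b) X) * mul (star (G a)) (φ a) X := by
    simp_rw [star_sum, sum_mul_sum]
    rw [sum_comm]
    refine sum_congr rfl fun b _ => ?_
    rw [sum_comm]
  rw [Qf, h1]
  conv_lhs => rw [sum_comm (f := fun a b => ∑ T : Finset (Fin n),
    star (act (G a) (φ b) T) * act (G b) (φ a) T)]
  simp_rw [form_one, form_two, Fintype.sum_prod_type]
  rw [← sum_sub_distrib]
  refine sum_congr rfl fun b _ => ?_
  rw [← sum_sub_distrib, sum_comm]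
  refine sum_congr rfl fun a _ => ?_
  rw [← sum_sub_distrib]
  refine sum_congr rfl fun N _ => ?_
  rw [← sum_sub_distrib]
  refine sum_congr rfl fun M _ => ?_
  rw [← mul_sub, ← sum_sub_distrib]
  congr 1
  refine sum_congr rfl fun I _ => ?_
  rw [← sum_sub_distrib]
  refine sum_congr rfl fun J _ => ?_
  rw [← mul_sub, sg]
  congr 1
  push_cast
  congr 1 <;> split_ifs <;> simp

end Pool.Agent.P.MP_3acc10_al.Nak

namespace Pool.Agent.P.MP_3acc10_al.Nak

open Module Finset

variable {n : ℕ} {ι : Type} [Fintype ι] [DecidableEq ι]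

lemma pos_diff {n m e D j : ℕ} (he : 0 < e) (heD : e ≤ D) (hm : m + e ≤ j) (hj : 4 * j ≤ n) :
    ((2 : ℝ) ^ (D + 1) * D.factorial)⁻¹ * (n : ℝ) ^ e ≤
      ((n - m).choose e : ℝ) - (m.choose e : ℝ) := by
  have hf : (0 : ℝ) < e.factorial := by exact_mod_cast e.factorial_pos
  have hn0 : (0 : ℝ) ≤ n := Nat.cast_nonneg n
  have h1 : ((n : ℝ) / 2) ^ e / e.factorial ≤ ((n - m).choose e : ℝ) := by
    refine le_trans ?_ (Nat.pow_le_choose (α := ℝ) e (n - m))
    have h2 : n ≤ 2 * (n - m + 1 - e) := by omega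
    have h3 : (n : ℝ) ≤ 2 * ((n - m + 1 - e : ℕ) : ℝ) := by exact_mod_cast h2
    have h4 : (n : ℝ) / 2 ≤ ((n - m + 1 - e : ℕ) : ℝ) := by linarith
    gcongr
  have h2 : (m.choose e : ℝ) ≤ ((n : ℝ) / 2) ^ e / 2 / e.factorial := by
    refine le_trans (Nat.choose_le_pow_div (α := ℝ) e m) ?_
    have h3 : 4 * m ≤ n := by omega
    have h4 : (4 : ℝ) * m ≤ n := by exact_mod_cast h3
    have h5 : (m : ℝ) ≤ (n : ℝ) / 2 * (1 / 2) := by linarith
    have h6 : (m : ℝ) ^ e ≤ ((n : ℝ) / 2) ^ e / 2 := by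
      calc (m : ℝ) ^ e ≤ ((n : ℝ) / 2 * (1 / 2)) ^ e := by gcongr
        _ = ((n : ℝ) / 2) ^ e * (1 / 2) ^ e := mul_pow _ _ _
        _ ≤ ((n : ℝ) / 2) ^ e * (1 / 2) ^ 1 := by
          refine mul_le_mul_of_nonneg_left ?_ (by positivity)
          exact pow_le_pow_of_le_one (by norm_num) (by norm_num) he
        _ = ((n : ℝ) / 2) ^ e / 2 := by ring
    gcongr
  have h3 : ((2 : ℝ) ^ (D + 1) * D.factorial)⁻¹ ≤ ((2 : ℝ) ^ (e + 1) * e.factorial)⁻¹ := by
    have h4 : (e.factorial : ℝ) ≤ D.factorial := by exact_mod_cast Nat.factorial_le heD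
    have h5 : (2 : ℝ) ^ (e + 1) ≤ 2 ^ (D + 1) := pow_le_pow_right₀ (by norm_num) (by omega)
    apply inv_anti₀ (by positivity)
    gcongr
  have h4 : ((2 : ℝ) ^ (e + 1) * e.factorial)⁻¹ * (n : ℝ) ^ e =
      ((n : ℝ) / 2) ^ e / e.factorial - ((n : ℝ) / 2) ^ e / 2 / e.factorial := by
    rw [div_pow, pow_succ]
    field_simp
    ring
  have h5 := mul_le_mul_of_nonneg_right h3 (pow_nonneg hn0 e)
  linarith

lemma pos_sg_ne {M N : Finset (Fin n)} (h : M ≠ N) (I : Finset (Fin n)) : sg M I I N = 0 := by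
  unfold sg
  rw [if_neg, if_neg, sub_zero]
  · rintro ⟨h1, h2, h3⟩
    apply h
    rw [← sdiff_union_of_subset h1, h3, sdiff_union_of_subset h2]
  · rintro ⟨h1, h2, h3⟩
    apply h
    rw [← union_sdiff_cancel_left h1, h3, union_sdiff_cancel_left h2]

lemma pos_sg_sum (M : Finset (Fin n)) (e : ℕ) :
    ∑ I : Finset (Fin n), (if I.card = e then sg M I I M else 0) =
      ((n - M.card).choose e : ℝ) - (M.card.choose e : ℝ) := by
  have h1 : ∀ I : Finset (Fin n), (if I.card = e then sg M I I M else 0) =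
      (if I ∈ powersetCard e Mᶜ then (1 : ℝ) else 0) -
        (if I ∈ powersetCard e M then (1 : ℝ) else 0) := by
    intro I
    simp only [sg, mem_powersetCard, subset_compl_iff_disjoint_right, and_self, and_true]
    by_cases hI : I.card = e
    · simp [hI]
    · simp [hI]
  rw [sum_congr rfl fun I _ => h1 I, sum_sub_distrib]
  simp only [sum_ite_mem, univ_inter, sum_const, card_powersetCard, nsmul_eq_mul, mul_one,
    card_compl, Fintype.card_fin]

/-- the sum over the labels splits into the off diagonal kernel and the diagonal -/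
lemma pos_split (d : ι → ℕ) (j : ℕ) (A : ι × Finset (Fin n) → ℂ) (hA : ∀ γ, ‖A γ‖ = 1)
    (x y : ι × Finset (Fin n)) (hx : x.2.card + d x.1 ≤ j) (hy : y.2.card + d y.1 ≤ j) :
    ((tt n (d x.1) * tt n (d y.1) : ℝ) : ℂ) * ∑ I : Finset (Fin n), ∑ J : Finset (Fin n),
        star (mask (fun i Y => Y.card = d i) (fun p => star (A p)) x.1 I) *
          mask (fun i Y => Y.card = d i) (fun p => star (A p)) y.1 J * (sg x.2 I J y.2 : ℂ) =
      YM (ker d j) A y x + ((tt n (d x.1) * tt n (d y.1) : ℝ) : ℂ) *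
        (if y = x then (((n - x.2.card).choose (d x.1) : ℝ) - (x.2.card.choose (d x.1) : ℝ) : ℝ)
          else 0) := by
  obtain ⟨a, M⟩ := x
  obtain ⟨b, N⟩ := y
  simp only at hx hy ⊢
  have hY : YM (ker d j) A (b, N) (a, M) = ∑ I : Finset (Fin n), ∑ J : Finset (Fin n),
      A (a, I) * star (A (b, J)) * (ker d j (a, M) (a, I) (b, J) (b, N) : ℂ) := by
    simp only [YM, Matrix.of_apply, Fintype.sum_prod_type]
    rw [sum_eq_single a]
    · refine sum_congr rfl fun I _ => ?_
      rw [sum_eq_single b]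
      · intro b' _ hb'
        refine sum_eq_zero fun J _ => ?_
        simp [ker, hb']
      · simp
    · intro a' _ ha'
      refine sum_eq_zero fun I _ => sum_eq_zero fun b' _ => sum_eq_zero fun J _ => ?_
      simp [ker, ha']
    · simp
  have hAA : ∀ γ, A γ * star (A γ) = 1 := by
    intro γ
    rw [Complex.star_def, Complex.mul_conj, Complex.normSq_eq_norm_sq, hA]
    simp
  have hD : ((if ((b, N) : ι × Finset (Fin n)) = (a, M) then
      (((n - M.card).choose (d a) : ℝ) - (M.card.choose (d a) : ℝ) : ℝ) else 0 : ℝ) : ℂ) =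
      ∑ I : Finset (Fin n), ∑ J : Finset (Fin n),
        (if ((a, I) : ι × Finset (Fin n)) = (b, J) then
          ((if I.card = d a then sg M I I N else 0 : ℝ) : ℂ) else 0) := by
    by_cases hab : a = b
    · subst hab
      simp only [Prod.mk.injEq, true_and, sum_ite_eq, mem_univ, if_true]
      by_cases hMN : N = M
      · subst hMN
        rw [if_pos rfl, ← pos_sg_sum, Complex.ofReal_sum]
      · rw [if_neg hMN]
        simp [pos_sg_ne (Ne.symm hMN)]
    · have hba : ¬ b = a := fun h => hab h.symm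
      simp [hab, hba]
  rw [hY, hD, mul_sum, mul_sum, ← sum_add_distrib]
  refine sum_congr rfl fun I _ => ?_
  rw [mul_sum, mul_sum, ← sum_add_distrib]
  refine sum_congr rfl fun J _ => ?_
  by_cases hI : I.card = d a
  · by_cases hJ : J.card = d b
    · by_cases hE : ((a, I) : ι × Finset (Fin n)) = (b, J)
      · have hk : ker d j (a, M) (a, I) (b, J) (b, N) = 0 := by
          unfold ker
          rw [if_neg]
          rintro ⟨_, _, h3, _⟩
          exact h3 hE
        obtain ⟨rfl, rfl⟩ := Prod.mk.inj hE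
        rw [hk, if_pos rfl, if_pos hI]
        simp only [mask, if_pos hI, star_star, hAA]
        simp
      · have hk : ker d j (a, M) (a, I) (b, J) (b, N) =
            tt n (d a) * tt n (d b) * sg M I J N := by
          unfold ker
          rw [if_pos ⟨rfl, rfl, hE, hI, hJ, hx, hy⟩]
        rw [hk, if_neg hE]
        simp only [mask, if_pos hI, if_pos hJ, star_star]
        push_cast
        ring
    · have hE : ¬ ((a, I) : ι × Finset (Fin n)) = (b, J) := by
        intro hE
        obtain ⟨rfl, rfl⟩ := Prod.mk.inj hE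
        exact hJ hI
      simp [mask, ker, hJ, hE]
  · simp [mask, ker, hI]

theorem pos_of (hn : 0 < n) (d : ι → ℕ) (D j : ℕ) (hd : ∀ a, 0 < d a ∧ d a ≤ D) (hj : 4 * j ≤ n)
    (hD : 4 * D ≤ n) (A : ι × Finset (Fin n) → ℂ) (hA : ∀ γ, ‖A γ‖ = 1) {θ : ℝ}
    (hθ : θ < ((2 : ℝ) ^ (D + 1) * D.factorial)⁻¹)
    (h : ∀ ψ : ι × Finset (Fin n) → ℂ, -(θ * ∑ x, ‖ψ x‖ ^ 2) ≤
      (∑ y, ∑ x, star (ψ y) * YM (ker d j) A y x * ψ x).re) :
    Pos j d (mask (fun i Y => Y.card = d i) fun p => star (A p)) := by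
  intro φ hφ hne
  set ψ : ι × Finset (Fin n) → ℂ := fun x => φ x.1 x.2 / (tt n (d x.1) : ℂ) with hψ
  have ht : ∀ e, (tt n e : ℂ) ≠ 0 := fun e => by exact_mod_cast (tt_pos hn e).ne'
  have hφψ : ∀ x : ι × Finset (Fin n), φ x.1 x.2 = (tt n (d x.1) : ℂ) * ψ x := by
    intro x
    simp only [hψ]
    rw [mul_div_cancel₀ _ (ht _)]
  have hψ0 : ∀ x : ι × Finset (Fin n), ¬ x.2.card + d x.1 ≤ j → ψ x = 0 := by
    intro x hx
    simp only [hψ]
    rw [hφ x.1 x.2 hx, zero_div]
  set c : ι × Finset (Fin n) → ℝ := fun x =>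
    ((n - x.2.card).choose (d x.1) : ℝ) - (x.2.card.choose (d x.1) : ℝ) with hc
  have key : Qf (mask (fun i Y => Y.card = d i) fun p => star (A p)) φ =
      (∑ y, ∑ x, star (ψ y) * YM (ker d j) A y x * ψ x) +
        ((∑ x, ‖ψ x‖ ^ 2 * (((n : ℝ) ^ d x.1)⁻¹ * c x) : ℝ) : ℂ) := by
    rw [form_eq, Complex.ofReal_sum, ← sum_add_distrib]
    refine sum_congr rfl fun y _ => ?_
    have h1 : (((‖ψ y‖ ^ 2 * (((n : ℝ) ^ d y.1)⁻¹ * c y)) : ℝ) : ℂ) =
        ∑ x, star (ψ y) * (((tt n (d x.1) * tt n (d y.1) : ℝ) : ℂ) *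
          ((if y = x then c x else 0 : ℝ) : ℂ)) * ψ x := by
      rw [sum_eq_single y]
      · rw [if_pos rfl, tt_sq]
        have h2 : ((‖ψ y‖ ^ 2 : ℝ) : ℂ) = star (ψ y) * ψ y := by
          rw [Complex.star_def, mul_comm, Complex.mul_conj, Complex.normSq_eq_norm_sq]
        rw [Complex.ofReal_mul, h2, Complex.ofReal_mul]
        ring
      · intro x _ hx
        rw [if_neg (Ne.symm hx)]
        simp
      · simp
    rw [h1, ← sum_add_distrib]
    refine sum_congr rfl fun x _ => ?_
    by_cases hx : x.2.card + d x.1 ≤ j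
    · by_cases hy : y.2.card + d y.1 ≤ j
      · have h3 := pos_split d j A hA x y hx hy
        rw [hφψ x, hφψ y, ← add_mul, ← mul_add, ← h3]
        simp only [star_mul', Complex.star_def, Complex.conj_ofReal]
        push_cast
        ring
      · rw [hφ y.1 y.2 hy, hψ0 y hy]
        simp
    · rw [hφ x.1 x.2 hx, hψ0 x hx]
      simp
  have hlow : ((2 : ℝ) ^ (D + 1) * D.factorial)⁻¹ * ∑ x, ‖ψ x‖ ^ 2 ≤
      ∑ x, ‖ψ x‖ ^ 2 * (((n : ℝ) ^ d x.1)⁻¹ * c x) := by
    rw [mul_sum]
    refine sum_le_sum fun x _ => ?_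
    by_cases hx : x.2.card + d x.1 ≤ j
    · rw [mul_comm]
      refine mul_le_mul_of_nonneg_left ?_ (by positivity)
      have hp : (0 : ℝ) < (n : ℝ) ^ d x.1 := by
        have : (0 : ℝ) < n := by exact_mod_cast hn
        positivity
      rw [le_inv_mul_iff₀ hp, mul_comm]
      exact pos_diff (hd x.1).1 (hd x.1).2 hx hj
    · rw [hψ0 x hx]
      simp
  have hpos : 0 < ∑ x, ‖ψ x‖ ^ 2 := by
    obtain ⟨a, ha⟩ := Function.ne_iff.1 hne
    obtain ⟨T, hT⟩ := Function.ne_iff.1 ha
    refine sum_pos' (fun x _ => by positivity) ⟨(a, T), mem_univ _, ?_⟩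
    have : ψ (a, T) ≠ 0 := div_ne_zero hT (ht _)
    positivity
  rw [key, Complex.add_re, Complex.ofReal_re]
  have h5 := h ψ
  have h6 := mul_lt_mul_of_pos_right hθ hpos
  linarith

end Pool.Agent.P.MP_3acc10_al.Nak

namespace Pool.Agent.P.MP_3acc10_al.Nak

open Module Finset

variable {n : ℕ} {ι : Type} [Fintype ι] [DecidableEq ι]

lemma nsurj_proj {κ : Type} [Fintype κ] (U : Submodule ℂ (κ → ℂ)) (v : κ → ℂ) :
    ∃ u ∈ U, ∀ w ∈ U, ∑ k, star (w k) * (v k - u k) = 0 := by
  let e := (WithLp.linearEquiv 2 ℂ (κ → ℂ)).symm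
  let U' : Submodule ℂ (EuclideanSpace ℂ κ) := U.map e.toLinearMap
  obtain ⟨y, hy, z, hz, hv⟩ := U'.exists_add_mem_mem_orthogonal (e v)
  obtain ⟨u, hu, rfl⟩ := hy
  refine ⟨u, hu, fun w hw => ?_⟩
  have h1 := (Submodule.mem_orthogonal U' z).1 hz (e w) ⟨w, hw, rfl⟩
  rw [PiLp.inner_apply] at h1
  refine Eq.trans (sum_congr rfl fun k _ => ?_) h1
  have h2 : v k = u k + z k := congrArg (fun t : EuclideanSpace ℂ κ => t k) hv
  rw [h2, add_sub_cancel_left, RCLike.inner_apply, mul_comm]
  rfl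

lemma nsurj_adj (g F p : Finset (Fin n) → ℂ) :
    ∑ T, star (act g F T) * p T = ∑ X, star (F X) * mul (star g) p X := by
  simp only [act, mul, star_sum, sum_mul, mul_sum]
  rw [sum_comm, sum_comm (f := fun X Y : Finset (Fin n) =>
    star (F X) * if Y ⊆ X then star g Y * p (X \ Y) else 0)]
  refine sum_congr rfl fun Y _ => ?_
  have h1 : ∀ T : Finset (Fin n), star (if Disjoint Y T then g Y * F (Y ∪ T) else 0) * p T =
      if Disjoint Y T then star (F (Y ∪ T)) * (star (g Y) * p T) else 0 := by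
    intro T
    split_ifs
    · rw [star_mul']; ring
    · simp
  have h2 : ∀ X : Finset (Fin n), (star (F X) * if Y ⊆ X then star g Y * p (X \ Y) else 0) =
      if Y ⊆ X then star (F X) * (star (g Y) * p (X \ Y)) else 0 := by
    intro X
    split_ifs
    · rfl
    · simp
  simp only [h1, h2]
  rw [← sum_filter, ← sum_filter]
  refine sum_bij' (fun T _ => Y ∪ T) (fun X _ => X \ Y) ?_ ?_ ?_ ?_ ?_
  · intro T _
    simp
  · intro X _
    simp [disjoint_sdiff]
  · intro T hT
    exact union_sdiff_cancel_left (mem_filter.1 hT).2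
  · intro X hX
    exact union_sdiff_of_subset (mem_filter.1 hX).2
  · intro T hT
    rw [union_sdiff_cancel_left (mem_filter.1 hT).2]

omit [Fintype ι] [DecidableEq ι] in
lemma nsurj_mul_supp {i : ℕ} {d : ι → ℕ} (x : ι × Finset (Fin n) → ℂ) (a : ι)
    {p : Finset (Fin n) → ℂ} (hp : ∀ T : Finset (Fin n), ¬ T.card + d a = i → p T = 0)
    (X : Finset (Fin n)) (hX : ¬ X.card = i) :
    mul (star (mask (fun i Y => Y.card = d i) x a)) p X = 0 := by
  refine sum_eq_zero fun Y _ => ?_
  split_ifs with hs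
  · by_cases hY : Y.card = d a
    · have h1 := card_sdiff_add_card_eq_card hs
      rw [hp _ (by omega), mul_zero]
    · simp [mask, hY]
  · rfl

lemma nsurj_mul_zero (g : Finset (Fin n) → ℂ) (X : Finset (Fin n)) : mul g 0 X = 0 := by
  simp [mul]

lemma nsurj_surj (j : ℕ) (d : ι → ℕ) (x : ι × Finset (Fin n) → ℂ)
    (h : Pos j d (mask (fun i Y => Y.card = d i) x)) (A : Finset ι) (l : ι) (hl : l ∉ A)
    (i : ℕ) (hi : i ≤ j) (hd : d l ≤ i) (G : Finset (Fin n) → ℂ) (hG : G ∈ WF (i - d l) d A x) :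
    ∃ F ∈ WF i d A x, act (mask (fun i Y => Y.card = d i) x l) F = G := by
  set g := mask (fun i Y => Y.card = d i) x with hg
  let L : (Finset (Fin n) → ℂ) →ₗ[ℂ] (ι × Finset (Fin n) → ℂ) :=
    LinearMap.pi fun p => if p.1 ∈ insert l A then (LinearMap.proj p.2).comp (actL (g p.1)) else 0
  have hL : ∀ F a T, L F (a, T) = if a ∈ insert l A then act (g a) F T else 0 := by
    intro F a T
    simp only [L, LinearMap.pi_apply]
    split_ifs <;> rfl
  obtain ⟨u, hu, horth⟩ := nsurj_proj ((Supp ℂ fun X : Finset (Fin n) => X.card = i).map L)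
    (fun p => if p.1 = l then G p.2 else 0)
  obtain ⟨F, hF, rfl⟩ := hu
  have hF : ∀ X : Finset (Fin n), ¬ X.card = i → F X = 0 := hF
  let ψ : ι → Finset (Fin n) → ℂ := fun a T => (if a = l then G T else 0) - L F (a, T)
  have ψoff : ∀ a, a ∉ insert l A → ψ a = 0 := by
    intro a ha
    have hne : a ≠ l := fun e => ha (e ▸ mem_insert_self _ _)
    funext T
    simp only [ψ, hL, if_neg ha, if_neg hne, sub_zero, Pi.zero_apply]
  have ψl : ψ l = G - act (g l) F := by
    funext T
    simp only [ψ, hL, if_pos (mem_insert_self l A), if_true, Pi.sub_apply]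
  have ψA : ∀ a ∈ A, ψ a = - act (g a) F := by
    intro a ha
    have hne : a ≠ l := fun e => hl (e ▸ ha)
    funext T
    simp only [ψ, hL, if_pos (mem_insert_of_mem ha), if_neg hne, zero_sub, Pi.neg_apply]
  have ψsupp : ∀ a (T : Finset (Fin n)), ¬ T.card + d a = i → ψ a T = 0 := by
    intro a T hT
    have h0 : act (g a) F T = 0 := act_mask_supp x a hF T hT
    by_cases ha : a ∈ insert l A
    · rcases mem_insert.1 ha with rfl | ha
      · rw [ψl, Pi.sub_apply, h0, hG.1 T (by omega), sub_zero]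
      · rw [ψA a ha, Pi.neg_apply, h0, neg_zero]
    · rw [ψoff a ha]; rfl
  have hsub : ∀ a (P Q : Finset (Fin n) → ℂ), act (g a) (P - Q) = act (g a) P - act (g a) Q :=
    fun a P Q => map_sub (actL (g a)) P Q
  have hneg : ∀ a (P : Finset (Fin n) → ℂ), act (g a) (-P) = - act (g a) P :=
    fun a P => map_neg (actL (g a)) P
  have ψcomm : ∀ a ∈ insert l A, ∀ b ∈ insert l A, act (g a) (ψ b) = act (g b) (ψ a) := by
    have key : ∀ a ∈ A, act (g a) (ψ l) = act (g l) (ψ a) := by
      intro a ha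
      rw [ψl, ψA a ha, hsub, hneg, hG.2 a ha, zero_sub, act_comm]
    intro a ha b hb
    rcases mem_insert.1 ha with ha1 | ha1 <;> rcases mem_insert.1 hb with hb1 | hb1
    · rw [ha1, hb1]
    · rw [ha1]; exact (key b hb1).symm
    · rw [hb1]; exact key a ha1
    · rw [ψA a ha1, ψA b hb1, hneg, hneg, act_comm]
  let F' : Finset (Fin n) → ℂ := fun X => ∑ a, mul (star (g a)) (ψ a) X
  have hF' : ∀ X : Finset (Fin n), ¬ X.card = i → F' X = 0 := fun X hX =>
    sum_eq_zero fun a _ => nsurj_mul_supp x a (ψsupp a) X hX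
  have h1 : ∑ X, star (F' X) * F' X = 0 := by
    have h2 := horth (L F') ⟨F', hF', rfl⟩
    rw [Fintype.sum_prod_type] at h2
    rw [← h2]
    simp only [F', mul_sum]
    rw [sum_comm]
    refine sum_congr rfl fun a _ => ?_
    by_cases ha : a ∈ insert l A
    · rw [← nsurj_adj]
      refine sum_congr rfl fun T _ => ?_
      rw [hL F', if_pos ha]
    · rw [ψoff a ha]
      simp only [nsurj_mul_zero, mul_zero, sum_const_zero]
      refine (sum_eq_zero fun T _ => ?_).symm
      rw [hL F', if_neg ha, star_zero, zero_mul]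
  have h2 : 0 ≤ (∑ a, ∑ b, ∑ T : Finset (Fin n),
      star (act (g a) (ψ b) T) * act (g b) (ψ a) T).re := by
    simp only [Complex.re_sum]
    refine sum_nonneg fun a _ => sum_nonneg fun b _ => sum_nonneg fun T _ => ?_
    by_cases ha : a ∈ insert l A
    · by_cases hb : b ∈ insert l A
      · rw [ψcomm a ha b hb, Complex.star_def, ← Complex.normSq_eq_conj_mul_self,
          Complex.ofReal_re]
        exact Complex.normSq_nonneg _
      · rw [ψoff b hb, act_zero]
        simp
    · rw [ψoff a ha, act_zero]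
      simp
  have h3 : ψ = 0 := by
    by_contra hne
    have h4 := h ψ (fun a T hT => ψsupp a T (by omega)) hne
    unfold Qf at h4
    have h5 : ∑ X : Finset (Fin n), star (∑ a, mul (star (g a)) (ψ a) X) *
        (∑ a, mul (star (g a)) (ψ a) X) = 0 := h1
    rw [h5, zero_sub, Complex.neg_re] at h4
    linarith
  refine ⟨F, ⟨hF, fun a ha => ?_⟩, ?_⟩
  · have h4 := ψA a ha
    rw [h3] at h4
    exact neg_eq_zero.1 h4.symm
  · rw [h3] at ψl
    exact (sub_eq_zero.1 ψl.symm).symm

lemma nsurj_step (j : ℕ) (d : ι → ℕ) (x : ι × Finset (Fin n) → ℂ)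
    (h : Pos j d (mask (fun i Y => Y.card = d i) x)) (A : Finset ι) (l : ι) (hl : l ∉ A)
    (i : ℕ) (hi : i ≤ j) :
    finrank ℂ (WF i d A x) = finrank ℂ (WF i d (insert l A) x) +
      if d l ≤ i then finrank ℂ (WF (i - d l) d A x) else 0 := by
  refine le_antisymm (lower_step i d A l x) ?_
  let f := (actL (mask (fun i Y => Y.card = d i) x l)).domRestrict (WF i d A x)
  have h1 := LinearMap.finrank_range_add_finrank_ker f
  have h2 : finrank ℂ (WF i d (insert l A) x) ≤ finrank ℂ (LinearMap.ker f) := by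
    rw [← Submodule.finrank_map_subtype_eq]
    refine Submodule.finrank_mono ?_
    intro F hF
    exact ⟨⟨F, W_anti _ (subset_insert l A) _ hF⟩, hF.2 l (mem_insert_self _ _), rfl⟩
  have h3 : (if d l ≤ i then finrank ℂ (WF (i - d l) d A x) else 0) ≤
      finrank ℂ (LinearMap.range f) := by
    split_ifs with hd
    · refine Submodule.finrank_mono ?_
      intro G hG
      obtain ⟨F, hF, e⟩ := nsurj_surj j d x h A l hl i hi hd G hG
      exact ⟨⟨F, hF⟩, e⟩
    · exact Nat.zero_le _
  omega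

theorem exact_of_pos (j : ℕ) (d : ι → ℕ) (x : ι × Finset (Fin n) → ℂ)
    (h : Pos j d (mask (fun i Y => Y.card = d i) x)) (A : Finset ι) :
    ∀ i ≤ j, (finrank ℂ (WF i d A x) : ℤ) = al n d A i := by
  induction A using Finset.induction_on with
  | empty =>
    intro i _
    rw [finrank_WF_empty, al_empty, Fintype.card_fin]
  | insert l A hl ih =>
    intro i hi
    have h1 := nsurj_step j d x h A l hl i hi
    rw [al_insert n d hl, ← ih i hi]
    split_ifs at h1 ⊢ with hd
    · rw [← ih (i - d l) (by omega), h1]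
      push_cast
      ring
    · rw [h1]
      simp

end Pool.Agent.P.MP_3acc10_al.Nak
end

-- part Pool.Agent.P.MP_3acc10_al.Spec
section

set_option autoImplicit false

namespace Pool.Agent.P.MP_3acc10_al

open Module Finset MvPolynomial

variable {K : Type*} [Field K] {τ : Type*}

lemma exists_AB {R C : Type*} [Fintype R] [Fintype C] (M : Matrix R C K) :
    ∃ (A : Matrix (Fin M.rank) R K) (B : Matrix C (Fin M.rank) K), A * M * B = 1 := by
  classical
  let f := M.mulVecLin
  let b := (finBasis K (LinearMap.range f)).equivFun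
  obtain ⟨g, hg⟩ := f.rangeRestrict.exists_rightInverse_of_surjective
    (LinearMap.range_rangeRestrict f)
  obtain ⟨h, hh⟩ := (LinearMap.range f).subtype.exists_leftInverse_of_injective
    (Submodule.ker_subtype _)
  have hM : M = LinearMap.toMatrix' f := (LinearMap.toMatrix'_toLin' M).symm
  suffices hs : LinearMap.toMatrix' (b.toLinearMap ∘ₗ h) * LinearMap.toMatrix' f *
      LinearMap.toMatrix' (g ∘ₗ b.symm.toLinearMap) = 1 from ⟨_, _, by rw [← hM] at hs; exact hs⟩
  rw [← LinearMap.toMatrix'_comp, ← LinearMap.toMatrix'_comp, ← LinearMap.toMatrix'_id]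
  congr 1
  refine LinearMap.ext fun x => ?_
  have e1 : f (g (b.symm x)) = b.symm x := congrArg Subtype.val (LinearMap.congr_fun hg _)
  have e2 : h (b.symm x) = b.symm x := LinearMap.congr_fun hh _
  show b (h (f (g (b.symm x)))) = x
  rw [e1, e2, b.apply_symm_apply]

lemma rank_eval_le {R C : Type*} [Fintype R] [Fintype C] (M : Matrix R C (MvPolynomial τ K))
    (c : τ → K) : (M.map (eval c)).rank ≤
      (M.map (algebraMap _ (FractionRing (MvPolynomial τ K)))).rank := by
  classical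
  obtain ⟨A, B, h⟩ := exists_AB (M.map (eval c))
  let φ := algebraMap (MvPolynomial τ K) (FractionRing (MvPolynomial τ K))
  let A' : Matrix _ R (MvPolynomial τ K) := A.map MvPolynomial.C
  let B' : Matrix C _ (MvPolynomial τ K) := B.map MvPolynomial.C
  let N := A' * M * B'
  have hN : N = A' * M * B' := rfl
  have h1 : N.det ≠ 0 := by
    intro h0
    have := RingHom.map_det (eval c) N
    rw [h0, map_zero, RingHom.mapMatrix_apply, hN, Matrix.map_mul, Matrix.map_mul,
      Matrix.map_map, Matrix.map_map] at this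
    have e : ⇑(eval c) ∘ ⇑(MvPolynomial.C (σ := τ) (R := K)) = id := by ext a; simp
    rw [e, Matrix.map_id, Matrix.map_id, h, Matrix.det_one] at this
    exact zero_ne_one this
  have h2 : IsUnit (N.map φ) := by
    rw [Matrix.isUnit_iff_isUnit_det, ← RingHom.mapMatrix_apply, ← RingHom.map_det]
    exact ((map_ne_zero_iff _ (IsFractionRing.injective _ _)).2 h1).isUnit
  have h3 := Matrix.rank_of_isUnit _ h2
  rw [hN, Matrix.map_mul, Matrix.map_mul, Fintype.card_fin] at h3
  exact h3.ge.trans ((Matrix.rank_mul_le_left _ _).trans (Matrix.rank_mul_le_right _ _))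

variable {σ ι : Type*} [Fintype σ] [DecidableEq σ] [Fintype ι] [DecidableEq ι]

lemma WF_trick (j : ℕ) (d : ι → ℕ) (A : Finset ι) (c : ι × Finset σ → K) :
    WF j d A c = WF j (fun i => if i ∈ A then d i else j + 1) univ c := by
  have e : ∀ i ∈ A, mask (fun i Y => Y.card = if i ∈ A then d i else j + 1) c i =
      mask (fun i Y => Y.card = d i) c i := fun i hi => by ext Y; simp [mask, hi]
  ext F
  refine and_congr_right fun hF => ⟨fun h i _ => ?_, fun h i hi => e i hi ▸ h i (mem_univ _)⟩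
  by_cases hi : i ∈ A
  · rw [e i hi, h i hi]
  · exact funext fun T => act_mask_supp c i hF T (by simp only [if_neg hi]; omega)

lemma spec_WF (j : ℕ) (d : ι → ℕ) (A : Finset ι) (c : ι × Finset σ → K) :
    finrank (FractionRing (MvPolynomial (ι × Finset σ) K)) (WF j d A (gp K (τ := ι × Finset σ))) ≤
      finrank K (WF j d A c) := by
  rw [WF_trick, WF_trick j d A c]
  set d' := fun i => if i ∈ A then d i else j + 1
  have hc := rank_eval_le (Mat j d' (X : ι × Finset σ → MvPolynomial _ K)) c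
  rw [Mat_map, Mat_map] at hc
  have h1 := Mat_rank j d' c
  have h2 := Mat_rank j d' (gp K (τ := ι × Finset σ))
  simp only [eval_X] at hc
  change (Mat j d' c).rank ≤ (Mat j d' (gp K)).rank at hc
  omega

/-- the generic value of the Hilbert function for `t` forms of degree `d` -/
noncomputable def Hm (K : Type*) [Field K] (n j d t : ℕ) : ℕ :=
  sInf (Set.range fun c : Fin t × Finset (Fin n) → K => finrank K (WF j (fun _ => d) univ c))

lemma gen_Hm (n j d t : ℕ) : Gen fun c : Fin t × Finset (Fin n) → K =>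
    finrank K (WF j (fun _ => d) univ c) = Hm K n j d t := by
  obtain ⟨c0, h⟩ := Nat.sInf_mem (Set.range_nonempty
    fun c : Fin t × Finset (Fin n) → K => finrank K (WF j (fun _ => d) univ c))
  exact (gen_W _ _ _ _ c0 h.le).mono fun c hc => le_antisymm hc (Nat.sInf_le ⟨c, rfl⟩)

omit [Fintype ι] [DecidableEq ι] in
lemma WF_reindex {n j d : ℕ} {S : Finset ι} (e : S ≃ Fin S.card) (c : ι × Finset (Fin n) → K)
    (c' : Fin S.card × Finset (Fin n) → K) (h : ∀ i Y, c' (e i, Y) = c (i, Y)) :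
    WF j (fun _ => d) S c = WF j (fun _ => d) univ c' := by
  have e1 : ∀ i : S, mask (fun _ Y => Y.card = d) c' (e i) = mask (fun _ Y => Y.card = d) c i :=
    fun i => by ext Y; simp [mask, h]
  ext F
  refine and_congr_right fun _ => ⟨fun hF i _ => ?_, fun hF i hi => ?_⟩
  · obtain ⟨i, rfl⟩ := e.surjective i
    rw [e1, hF i i.2]
  · exact (e1 ⟨i, hi⟩) ▸ hF _ (mem_univ _)

lemma HL [Infinite K] (n j d : ℕ) (S : Finset ι) :
    finrank (FractionRing (MvPolynomial (ι × Finset (Fin n)) K))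
      (WF j (fun _ => d) S (gp K (τ := ι × Finset (Fin n)))) = Hm K n j d S.card := by
  apply le_antisymm
  · obtain ⟨c', h⟩ := (gen_Hm (K := K) n j d S.card).exists
    rw [← h, ← WF_reindex S.equivFin
      (fun p => if h : p.1 ∈ S then c' (S.equivFin ⟨p.1, h⟩, p.2) else 0) c' (by simp)]
    exact spec_WF _ _ _ _
  · rw [WF_trick]
    obtain ⟨c, h⟩ := (gen_WF (K := K) (σ := Fin n) j fun i => if i ∈ S then d else j + 1).exists
    refine le_trans ?_ h
    rw [← WF_trick j (fun _ => d), WF_reindex S.equivFin c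
      (fun p => c (S.equivFin.symm p.1, p.2)) (by simp)]
    exact Nat.sInf_le ⟨_, rfl⟩

omit [Fintype ι] [DecidableEq ι] in
/-- the support of the inverse system at the generic point is symmetric -/
lemma supp_symm {j : ℕ} {d : ι → ℕ} {S : Finset ι} {F} (hF : F ∈ WF j d S (gp K (τ := ι × Finset σ)))
    (h0 : F ≠ 0) (X : Finset σ) (hX : X.card = j) :
    ∃ F' ∈ WF j d S (gp K (τ := ι × Finset σ)), F' X ≠ 0 := by
  obtain ⟨X0, hX0⟩ := Function.ne_iff.1 h0
  have hj : X0.card = j := by
    by_contra hne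
    exact hX0 (hF.1 X0 hne)
  obtain ⟨π, hπ⟩ := Equiv.Perm.exists_map_finset_eq X X0 (hX.trans hj.symm)
  let e := π.finsetCongr
  have he : ∀ Y, e Y = Y.map π.toEmbedding := fun _ => rfl
  let g := (algebraMap (MvPolynomial (ι × Finset σ) K)
    (FractionRing (MvPolynomial (ι × Finset σ) K))).comp
      (rename (Prod.map id e.symm) : MvPolynomial (ι × Finset σ) K →ₐ[K] _).toRingHom
  have hg : Function.Injective g := (IsFractionRing.injective _ _).comp
    (rename_injective _ (Function.injective_id.prodMap e.symm.injective))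
  let θ : FractionRing (MvPolynomial (ι × Finset σ) K) →+* _ := IsFractionRing.lift hg
  have hθ : ∀ i Y, θ (gp K (i, e Y)) = gp K (i, Y) := fun i Y => by simp [θ, gp, g]
  refine ⟨fun Y => θ (F (e Y)), ⟨fun Y hY => ?_, fun i hi => funext fun T => ?_⟩, ?_⟩
  · show θ (F (e Y)) = 0
    rw [hF.1 _ (by simpa [he] using hY), map_zero]
  · have := congrArg θ (congrFun (hF.2 i hi) (e T))
    rw [act, ← e.sum_comp, map_sum, Pi.zero_apply, map_zero] at this
    refine Eq.trans (sum_congr rfl fun Y _ => ?_) this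
    have e1 : e Y ∪ e T = e (Y ∪ T) := by simp [he, map_union]
    have e2 : Disjoint (e Y) (e T) ↔ Disjoint Y T := disjoint_map _
    have e3 : (e Y).card = Y.card := card_map _
    simp only [mask, e1, e2, e3]
    split_ifs <;> simp [hθ]
  · show θ (F (e X)) ≠ 0
    rw [he, hπ]
    exact (map_ne_zero θ).2 hX0

end Pool.Agent.P.MP_3acc10_al
end

-- part Pool.Agent.P.MP_3acc10_al.NMain
section

set_option autoImplicit false

namespace Pool.Agent.P.MP_3acc10_al.Nak

open Module Finset

lemma trans_factor {K : Type*} [Field K] {R C : Type*} [Fintype R] [Fintype C]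
    (M : Matrix R C K) :
    ∃ (P : Matrix R (Fin M.rank) K) (Q : Matrix (Fin M.rank) C K), P * Q = M := by
  classical
  let f := M.mulVecLin
  let b := (finBasis K (LinearMap.range f)).equivFun
  have hM : M = LinearMap.toMatrix' f := (LinearMap.toMatrix'_toLin' M).symm
  suffices hs : LinearMap.toMatrix' ((LinearMap.range f).subtype ∘ₗ b.symm.toLinearMap) *
      LinearMap.toMatrix' (b.toLinearMap ∘ₗ f.rangeRestrict) = LinearMap.toMatrix' f from
    ⟨_, _, by rw [← hM] at hs; exact hs⟩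
  rw [← LinearMap.toMatrix'_comp]
  congr 1
  refine LinearMap.ext fun x => ?_
  show ((b.symm (b (f.rangeRestrict x)) : LinearMap.range f) : R → K) = f x
  rw [b.symm_apply_apply]
  rfl

lemma trans_rank_map {K L : Type*} [Field K] [Field L] (f : K →+* L) {R C : Type*} [Fintype R]
    [Fintype C] (M : Matrix R C K) : (M.map f).rank = M.rank := by
  classical
  apply le_antisymm
  · obtain ⟨P, Q, h⟩ := trans_factor M
    have e : M.map f = P.map f * Q.map f := by rw [← Matrix.map_mul, h]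
    rw [e]
    refine (Matrix.rank_mul_le_left _ _).trans ((Matrix.rank_le_card_width _).trans ?_)
    rw [Fintype.card_fin]
  · obtain ⟨A, B, h⟩ := exists_AB M
    have e : A.map f * M.map f * B.map f = 1 := by
      rw [← Matrix.map_mul, ← Matrix.map_mul, h, Matrix.map_one _ (map_zero f) (map_one f)]
    have h3 : (A.map f * M.map f * B.map f).rank = M.rank := by
      rw [e, Matrix.rank_one, Fintype.card_fin]
    exact h3.ge.trans ((Matrix.rank_mul_le_left _ _).trans (Matrix.rank_mul_le_right _ _))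

variable {n : ℕ} {ι : Type} [Fintype ι] [DecidableEq ι]

omit [DecidableEq ι] in
lemma trans_gp (K : Type) [Field K] [CharZero K] (i : ℕ) (d : ι → ℕ) :
    (Mat i d (gp K (τ := ι × Finset (Fin n)))).rank =
      (Mat i d (gp ℚ (τ := ι × Finset (Fin n)))).rank := by
  let g := (algebraMap (MvPolynomial (ι × Finset (Fin n)) K)
    (FractionRing (MvPolynomial (ι × Finset (Fin n)) K))).comp
      (MvPolynomial.map (algebraMap ℚ K))
  have hg : Function.Injective g := (IsFractionRing.injective _ _).comp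
    (MvPolynomial.map_injective _ (algebraMap ℚ K).injective)
  let θ : FractionRing (MvPolynomial (ι × Finset (Fin n)) ℚ) →+* _ := IsFractionRing.lift hg
  have hθ : ∀ p, θ (gp ℚ p) = gp K p := fun p => by simp [θ, gp, g]
  rw [← trans_rank_map θ, Mat_map]
  simp only [hθ]

theorem transfer (K : Type) [Field K] [CharZero K] (i : ℕ) (d : ι → ℕ) (A : Finset ι)
    (x0 : ι × Finset (Fin n) → ℂ) :
    Gen fun x : ι × Finset (Fin n) → K => finrank K (WF i d A x) ≤ finrank ℂ (WF i d A x0) := by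
  refine (gen_WF (K := K) (σ := Fin n) i fun l => if l ∈ A then d l else i + 1).mono
    fun x hx => ?_
  rw [← WF_trick] at hx
  have h0 := spec_WF i d A x0
  rw [WF_trick] at h0
  have h1 := Mat_rank i (fun l => if l ∈ A then d l else i + 1) (gp K (τ := ι × Finset (Fin n)))
  have h2 := Mat_rank i (fun l => if l ∈ A then d l else i + 1) (gp ℂ (τ := ι × Finset (Fin n)))
  have h3 := trans_gp (n := n) K i fun l => if l ∈ A then d l else i + 1
  have h4 := trans_gp (n := n) ℂ i fun l => if l ∈ A then d l else i + 1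
  omega

theorem gen_exact (K : Type) [Field K] [CharZero K] (j : ℕ) (d : ι → ℕ)
    (x0 : ι × Finset (Fin n) → ℂ)
    (h : ∀ A : Finset ι, ∀ i ≤ j, (finrank ℂ (WF i d A x0) : ℤ) = al n d A i) :
    Gen fun x : ι × Finset (Fin n) → K => (finrank K (WF j d univ x) : ℤ) = al n d univ j := by
  have H : Gen fun x : ι × Finset (Fin n) → K => ∀ A ∈ (univ : Finset (Finset ι)),
      ∀ i ∈ range (j + 1), finrank K (WF i d A x) ≤ finrank ℂ (WF i d A x0) :=
    Gen.all _ fun A _ => Gen.all _ fun i _ => transfer K i d A x0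
  refine H.mono fun x hx => ?_
  have up : ∀ A : Finset ι, ∀ i ≤ j, (finrank K (WF i d A x) : ℤ) ≤ al n d A i := by
    intro A i hi
    rw [← h A i hi]
    exact_mod_cast hx A (mem_univ _) i (mem_range.2 (by omega))
  have lo : ∀ A : Finset ι, ∀ i ≤ j, al n d A i ≤ (finrank K (WF i d A x) : ℤ) := by
    intro A
    induction A using Finset.induction_on with
    | empty =>
      intro i _
      rw [al_empty, finrank_WF_empty, Fintype.card_fin]
    | insert l A hl ih =>
      intro i hi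
      have h1 := lower_step i d A l x
      have h2 := ih i hi
      rw [al_insert n d hl]
      split_ifs at h1 ⊢ with hd
      · have h3 := up A (i - d l) (by omega)
        have h4 := ih (i - d l) (by omega)
        omega
      · omega
  exact le_antisymm (up _ j le_rfl) (lo _ j le_rfl)

end Pool.Agent.P.MP_3acc10_al.Nak

namespace Pool.Agent.P.MP_3acc10_al.Nak

open Module Finset

theorem exists_pos (D : ℕ) : ∃ c : ℝ, 0 < c ∧ ∀ (n : ℕ) (ι : Type) [Fintype ι] [DecidableEq ι]
    (d : ι → ℕ) (j : ℕ), 0 < n → (∀ a, 0 < d a ∧ d a ≤ D) → (j : ℝ) / n + ld n d j ≤ c →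
    ∃ x : ι × Finset (Fin n) → ℂ, Pos j d (mask (fun i Y => Y.card = d i) x) := by
  set δ : ℝ := ((2 : ℝ) ^ (D + 1) * D.factorial)⁻¹ with hδ
  set κ : ℝ := 2 * (D + 2 ^ D + 4 ^ D + 2 ^ D * D) with hκ
  have hδ0 : 0 < δ := by positivity
  have hδ1 : δ ≤ 1 := by
    refine inv_le_one_of_one_le₀ (one_le_mul_of_one_le_of_one_le (one_le_pow₀ (by norm_num)) ?_)
    exact_mod_cast Nat.factorial_pos D
  have hκ0 : 0 ≤ κ := by positivity
  set s : ℝ := δ / (4 * κ + 4) with hs
  have hs0 : 0 < s := by positivity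
  have hs1 : s ≤ 1 := by rw [hs, div_le_one (by positivity)]; linarith
  have hsκ : 2 * (κ * s) < δ := by
    have : s * (4 * κ + 4) = δ := by rw [hs]; field_simp
    nlinarith
  set ε : ℝ := s ^ 2 with hε
  have hε0 : 0 < ε := by positivity
  have hε1 : ε ≤ 1 := pow_le_one₀ hs0.le hs1
  have hsq : √ε = s := Real.sqrt_sq hs0.le
  have hD0 : (0 : ℝ) ≤ D := by positivity
  set u : ℝ := (4 * ((D : ℝ) + 1))⁻¹ with hu
  have hu0 : 0 < u := by positivity
  have hu1 : u * (4 * ((D : ℝ) + 1)) = 1 := by rw [hu]; field_simp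
  obtain ⟨c1, hc1, hpar⟩ := param D (η := min (ε / 8) u) (lt_min (by positivity) hu0)
  refine ⟨min c1 (min (ε / 2) u), lt_min hc1 (lt_min (by positivity) hu0), ?_⟩
  intro n ι _ _ d j hn hd hl
  rcases Nat.eq_zero_or_pos j with rfl | hj
  · refine ⟨0, fun φ hφ h0 => absurd (funext fun a => funext fun T => hφ a T ?_) h0⟩
    have := (hd a).1
    omega
  have hnr : (0 : ℝ) < n := by exact_mod_cast hn
  have hjr : (1 : ℝ) ≤ j := by exact_mod_cast hj
  have hld := ld_nonneg n d j
  have hjn0 : (0 : ℝ) ≤ (j : ℝ) / n := by positivity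
  have a1 : (j : ℝ) ≤ c1 * n := by
    rw [← div_le_iff₀ hnr]; linarith [min_le_left c1 (min (ε / 2) u)]
  have a2 : (j : ℝ) ≤ u * n := by
    rw [← div_le_iff₀ hnr]
    linarith [min_le_right c1 (min (ε / 2) u), min_le_right (ε / 2) u]
  have a3 : ld n d j ≤ ε / 2 := by
    linarith [min_le_right c1 (min (ε / 2) u), min_le_left (ε / 2) u]
  have a4 : 4 * ((D : ℝ) + 1) * j ≤ n := by
    have := mul_le_mul_of_nonneg_left a2 (show (0 : ℝ) ≤ 4 * ((D : ℝ) + 1) by positivity)
    calc _ ≤ 4 * ((D : ℝ) + 1) * (u * n) := this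
      _ = u * (4 * ((D : ℝ) + 1)) * n := by ring
      _ = n := by rw [hu1, one_mul]
  have a5 : 4 * j ≤ n := by
    have : 4 * (j : ℝ) ≤ n := by nlinarith
    exact_mod_cast this
  have a6 : 4 * D ≤ n := by
    have : 4 * (D : ℝ) ≤ n := by nlinarith
    exact_mod_cast this
  obtain ⟨k, hk, hk1, hk2⟩ := hpar n j hj a1
  have hk0 : (0 : ℝ) ≤ k := by positivity
  have b1 : (k : ℝ) ≤ ε / 8 * n :=
    hk1.trans (mul_le_mul_of_nonneg_right (min_le_left _ _) hnr.le)
  have b2 : (k : ℝ) ≤ u * n := hk1.trans (mul_le_mul_of_nonneg_right (min_le_right _ _) hnr.le)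
  have b3 : D * (4 * k) ≤ n := by
    have h1 := mul_le_mul_of_nonneg_left b2 (show (0 : ℝ) ≤ 4 * ((D : ℝ) + 1) by positivity)
    have h2 : 4 * ((D : ℝ) + 1) * (u * n) = n := by
      calc _ = u * (4 * ((D : ℝ) + 1)) * n := by ring
        _ = n := by rw [hu1, one_mul]
    have : (D : ℝ) * (4 * k) ≤ n := by nlinarith
    exact_mod_cast this
  have b4 : ld n d j + ((4 * k : ℕ) : ℝ) / n ≤ ε := by
    have : ((4 * k : ℕ) : ℝ) / n ≤ ε / 2 := by
      rw [div_le_iff₀ hnr]; push_cast; linarith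
    linarith
  obtain ⟨A, hA, htr⟩ := walk (ker d j)
    (univ.filter fun x : ι × Finset (Fin n) => x.2.card + d x.1 ≤ j)
    (fun x hx α β y => by
      rw [ker, if_neg]
      exact fun h => hx (mem_filter.2 ⟨mem_univ _, h.2.2.2.2.2.1⟩))
    (Phi d (√ε)⁻¹) (Phi_nonneg d (by positivity)) (Phi_zero d _) (2 * k) (by omega)
    (κ * √ε) (by positivity) (fun x c hc => nstep d D j (4 * k) hd hj (by omega) b3 hε0 hε1 b4 x c
      (by push_cast at hc ⊢; linarith))
  have c1 := (card_states hn d D j (fun a => (hd a).2) hj (by linarith)).trans hk2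
  have c2 : ((YM (ker d j) A) ^ (2 * k)).trace.re ≤ (2 * (κ * s)) ^ (2 * k) := by
    refine htr.trans ?_
    rw [hsq, mul_pow 2, pow_mul (2 : ℝ)]
    refine mul_le_mul_of_nonneg_right ?_ (by positivity)
    have : (((univ.filter fun x : ι × Finset (Fin n) => x.2.card + d x.1 ≤ j).card : ℕ) : ℝ) ≤
        ((4 ^ k : ℕ) : ℝ) := by exact_mod_cast c1
    refine this.trans (le_of_eq ?_)
    push_cast; norm_num
  exact ⟨_, pos_of hn d D j hd a5 a6 A hA hsκ
    (spec _ (YM_herm _ (ker_symm d j) A) k hk _ (by positivity) c2)⟩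

lemma al_zero {ι : Type} [DecidableEq ι] (n : ℕ) (d : ι → ℕ) (A : Finset ι)
    (hd : ∀ a, 0 < d a) : al n d A 0 = 1 := by
  induction A using Finset.induction_on with
  | empty => simp
  | insert l A hl ih =>
    rw [al_insert n d hl, ih, if_neg (by have := hd l; omega), sub_zero]

theorem low (D : ℕ) : ∃ c : ℝ, 0 < c ∧ ∀ (K : Type) [Field K] [CharZero K] (n : ℕ) (ι : Type)
    [Fintype ι] [DecidableEq ι] (d : ι → ℕ) (j : ℕ), 0 < n → (∀ a, 0 < d a ∧ d a ≤ D) →
    (j : ℝ) / n + ld n d j ≤ c →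
    Gen fun x : ι × Finset (Fin n) → K => (finrank K (WF j d univ x) : ℤ) = ex n d univ j := by
  obtain ⟨c, hc, h⟩ := exists_pos (D + 1)
  refine ⟨c / 2, by positivity, ?_⟩
  intro K _ _ n ι _ _ d j hn hd hl
  have hld := ld_nonneg n d j
  have hjn0 : (0 : ℝ) ≤ (j : ℝ) / n := by positivity
  obtain ⟨x0, hx0⟩ := h n ι d j hn (fun a => ⟨(hd a).1, (hd a).2.trans (Nat.le_succ D)⟩)
    (by linarith)
  have hpos : ∀ i ≤ j, 0 < al n d univ i := by
    rcases Nat.eq_zero_or_pos j with rfl | hj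
    · intro i hi
      rw [Nat.le_zero.1 hi, al_zero n d _ fun a => (hd a).1]
      exact one_pos
    let d' : Option ι → ℕ := fun o => o.elim 1 d
    have hl' : ld n d' j = 1 / n + ld n d j := by
      simp only [ld, sum_filter, Fintype.sum_option, d', Option.elim]
      rw [if_pos (show 1 ≤ j from hj)]
      simp
    have hj' : (1 : ℝ) / n ≤ j / n := by
      have : (1 : ℝ) ≤ j := by exact_mod_cast hj
      gcongr
    obtain ⟨x1, hx1⟩ := h n (Option ι) d' j hn (fun a => by
      rcases a with _ | a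
      · exact ⟨Nat.one_pos, Nat.succ_le_succ (Nat.zero_le D)⟩
      · exact ⟨(hd a).1, (hd a).2.trans (Nat.le_succ D)⟩) (by rw [hl']; linarith)
    have e1 : ∀ i, al n d' (univ.map Function.Embedding.some) i = al n d univ i := by
      intro i
      rw [al, al, prod_map]
      rfl
    intro i
    induction i with
    | zero =>
      intro _
      rw [al_zero n d _ fun a => (hd a).1]
      exact one_pos
    | succ i ih =>
      intro hi
      have h1 := exact_of_pos j d' x1 hx1 (insert none (univ.map Function.Embedding.some)) (i + 1) hi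
      rw [al_insert n d' (by simp), if_pos (show d' none ≤ i + 1 from Nat.succ_le_succ (Nat.zero_le i)),
        e1, e1] at h1
      have h2 := ih (by omega)
      have h3 : i + 1 - d' none = i := rfl
      rw [h3] at h1
      have h4 := Int.natCast_nonneg
        (finrank ℂ (WF (i + 1) d' (insert none (univ.map Function.Embedding.some)) x1))
      omega
  rw [ex, if_pos hpos]
  exact gen_exact K j d x0 fun A => exact_of_pos j d x0 hx0 A

lemma load_le (D L n j : ℕ) {ι : Type} [Fintype ι] [DecidableEq ι] (d : ι → ℕ) (hn : 0 < n)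
    (hL : 0 < L) (hd : ∀ a, 0 < d a ∧ d a ≤ D) (h1 : L * (univ.filter fun a => d a = 1).card ≤ n)
    (hpos : ∀ i ≤ L * j, 0 < al n d univ i) :
    (j : ℝ) / n + ld n d j ≤ (1 + D * (2 * D) ^ D) / L := by
  have hnr : (0 : ℝ) < n := by exact_mod_cast hn
  have hLr : (0 : ℝ) < L := by exact_mod_cast hL
  have hle := al_le_of_subset n d (L * j) (empty_subset univ) (fun l _ => (hd l).1) hpos _ le_rfl
  have hjn : L * j ≤ n := by
    by_contra hcon
    have := hpos _ le_rfl
    rw [al_empty, Nat.choose_eq_zero_of_lt (not_le.1 hcon)] at hle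
    omega
  have a1 : (j : ℝ) / n ≤ 1 / L := by
    rw [div_le_div_iff₀ hnr hLr, one_mul, mul_comm]
    exact_mod_cast hjn
  have a2 : ld n d j ≤ D * ((2 * D) ^ D / L) := by
    rw [ld, ← sum_fiberwise_of_maps_to (t := Icc 1 D) (g := d)
      (fun a _ => mem_Icc.2 ⟨(hd a).1, (hd a).2⟩)]
    have h3 : ∀ e ∈ Icc 1 D, ∑ a ∈ (univ.filter fun a => d a ≤ j).filter (fun a => d a = e),
        (j : ℝ) ^ (d a - 1) / (n : ℝ) ^ d a ≤ (2 * D) ^ D / L := by
      intro e he
      obtain ⟨he1, he2⟩ := mem_Icc.1 he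
      by_cases hej : e ≤ j
      · rw [sum_congr rfl (g := fun _ => (j : ℝ) ^ (e - 1) / (n : ℝ) ^ e)
          (fun a ha => by rw [(mem_filter.1 ha).2]), sum_const, nsmul_eq_mul, ← mul_div_assoc,
          div_le_div_iff₀ (by positivity) hLr]
        have h4 : (univ.filter fun a => d a = e).card * j ^ (e - 1) * L ≤ (2 * D) ^ D * n ^ e := by
          rcases he1.eq_or_lt with rfl | he1
          · rw [Nat.sub_self, pow_zero, mul_one, pow_one, mul_comm]
            exact h1.trans (Nat.le_mul_of_pos_left _ (by positivity))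
          have h5 := al_le_of_subset n d (L * j) (filter_subset (fun l => d l = e) univ)
            (fun l _ => (hd l).1) hpos
          have h6 := trunc_le n (univ.filter fun l => d l = e).card e (L * j) (by omega)
            (hej.trans (Nat.le_mul_of_pos_left _ hL)) hjn fun i hi => by
              have := (hpos i hi).trans_le (h5 i hi)
              rwa [al, prod_congr rfl (g := fun _ => 1 - Polynomial.X ^ e)
                (fun l hl => by rw [(mem_filter.1 hl).2]), prod_const] at this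
          have h7 : (2 * e) ^ (e - 1) ≤ (2 * D) ^ D :=
            (Nat.pow_le_pow_left (by omega) _).trans (Nat.pow_le_pow_right (by omega) (by omega))
          refine le_trans ?_ (h6.trans (Nat.mul_le_mul_right _ h7))
          rw [mul_assoc, mul_pow, mul_comm (L ^ (e - 1))]
          exact Nat.mul_le_mul_left _ (Nat.mul_le_mul_left _ (Nat.le_self_pow (by omega) L))
        have h8 : ((univ.filter fun a => d a ≤ j).filter (fun a => d a = e)).card * j ^ (e - 1) * L ≤
            (2 * D) ^ D * n ^ e := le_trans (Nat.mul_le_mul_right _ (Nat.mul_le_mul_right _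
              (card_le_card (filter_subset_filter _ (filter_subset _ _))))) h4
        exact_mod_cast h8
      · rw [sum_eq_zero]
        · positivity
        · intro a ha
          have h5 := (mem_filter.1 ha).2
          have h6 := (mem_filter.1 (mem_filter.1 ha).1).2
          omega
    have := sum_le_card_nsmul _ _ _ h3
    rw [Nat.card_Icc, nsmul_eq_mul] at this
    simpa using this
  rw [add_div, mul_div_assoc]
  linarith

theorem fraction (D : ℕ) : ∃ L : ℕ, 0 < L ∧ ∀ (K : Type) [Field K] [CharZero K] (n r : ℕ)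
    (d : Fin r → ℕ), 0 < n → (∀ i, 0 < d i ∧ d i ≤ D) →
    L * (univ.filter fun i => d i = 1).card ≤ n →
    ∃ P : MvPolynomial (Fin r × Finset (Fin n)) K, P ≠ 0 ∧ ∀ x, MvPolynomial.eval x P ≠ 0 →
      ∀ j : ℕ, 0 < truncCoeff (series n d univ) (L * j) →
        (hilb d x j : ℤ) = truncCoeff (series n d univ) j := by
  obtain ⟨c, hc, h⟩ := low D
  obtain ⟨L, hL⟩ := exists_nat_gt ((1 + (D : ℝ) * (2 * D) ^ D) / c)
  have hL0 : (0 : ℝ) < L := lt_of_le_of_lt (by positivity) hL
  have hL1 : 0 < L := by exact_mod_cast hL0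
  have hL2 : (1 + (D : ℝ) * (2 * D) ^ D) / L ≤ c := by
    rw [div_lt_iff₀ hc] at hL
    rw [div_le_iff₀ hL0]
    linarith
  refine ⟨L, hL1, ?_⟩
  intro K _ _ n r d hn hd h1
  have key : ∀ j ∈ range (n + 1), Gen fun x : Fin r × Finset (Fin n) → K =>
      (∀ i ≤ L * j, 0 < al n d univ i) → (finrank K (WF j d univ x) : ℤ) = ex n d univ j := by
    intro j _
    by_cases hpos : ∀ i ≤ L * j, 0 < al n d univ i
    · exact (h K n (Fin r) d j hn hd ((load_le D L n j d hn hL1 hd h1 hpos).trans hL2)).mono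
        fun x hx _ => hx
    · exact Gen.of_forall fun x hx => (hpos hx).elim
  refine (Gen.all _ key).mono fun x hx j hj => ?_
  have hj' : 0 < ex n d univ (L * j) := hj
  have hpos : ∀ i ≤ L * j, 0 < al n d univ i := by
    by_contra hcon
    rw [ex, if_neg hcon] at hj'
    exact lt_irrefl _ hj'
  have hjn : L * j ≤ n := by
    by_contra hcon
    have h2 := (ex_bounds n d univ (L * j) fun l _ => (hd l).1).2
    rw [Nat.choose_eq_zero_of_lt (not_le.1 hcon)] at h2
    omega
  rw [hilb_eq]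
  exact hx j (mem_range.2 (Nat.lt_succ_iff.2 ((Nat.le_mul_of_pos_left _ hL1).trans hjn))) hpos

end Pool.Agent.P.MP_3acc10_al.Nak
end
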