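import Pool.Agent.K.MP_3acc10_al.C9
import Pool.Agent.K.MP_3acc10_al.C8
import Pool.Agent.K.MP_3acc10_al.C10
import Pool.Agent.K.MP_3acc10_al.C11
import Pool.Agent.K.MP_3acc10_al.C1

-- part Pool.Agent.P.MP_3acc10_al.BDecay
section

set_option autoImplicit false

namespace Pool.Agent.P.MP_3acc10_al.Bld

open Finset Module Matrix

theorem bdecay_exp (m : ℕ) {C : ℝ} (hC : 0 < C) :
    ∃ W : ℕ, ∀ w : ℕ, W ≤ w → C * (w : ℝ) ^ m * Real.exp (-(2 * w / C)) < 1 := by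
  have h1 := Real.tendsto_pow_mul_exp_neg_atTop_nhds_zero m
  have h2 : Filter.Tendsto (fun w : ℕ => 2 * (w : ℝ) / C) Filter.atTop Filter.atTop :=
    (tendsto_natCast_atTop_atTop.const_mul_atTop two_pos).atTop_div_const hC
  have h3 := (h1.comp h2).const_mul (C * (C / 2) ^ m)
  rw [mul_zero] at h3
  obtain ⟨W, hW⟩ := Filter.eventually_atTop.1 (h3.eventually_lt_const zero_lt_one)
  refine ⟨W, fun w hw => lt_of_eq_of_lt ?_ (hW w hw)⟩
  have e : (w : ℝ) ^ m = (C / 2) ^ m * (2 * (w : ℝ) / C) ^ m := by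
    rw [← mul_pow]
    congr 1
    field_simp
  rw [e, Function.comp_apply]
  ring

theorem decay (a b : ℕ) {C : ℝ} (hC : 1 ≤ C) : ∃ n0 : ℕ, ∀ (n : ℕ) (ε : ℝ), n0 ≤ n → 0 < ε →
    ε ≤ 1 → 1 ≤ ε ^ (b + 1) * n → ∃ w : ℕ, 0 < w ∧ 1 ≤ ε * w ∧ C * (w : ℝ) ^ b ≤ n ∧
      C * (n : ℝ) ^ a * (1 - 1 / (C * (w : ℝ) ^ 2)) ^ (2 * w ^ 3) < 1 := by
  have hC0 : 0 < C := by linarith
  obtain ⟨W1, hW1⟩ := bdecay_exp ((b + 1) * a) hC0
  obtain ⟨W2, hW2⟩ := exists_nat_ge (C * 2 ^ b)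
  refine ⟨(W1 + W2 + 1) ^ (b + 1) + 1, fun n ε hn h0 _ hε => ?_⟩
  have hex : ∃ w : ℕ, n ≤ w ^ (b + 1) := ⟨n, Nat.le_self_pow (Nat.succ_ne_zero b) n⟩
  have hw := Nat.find_spec hex
  have hmin : ∀ v < Nat.find hex, v ^ (b + 1) < n := fun v hv => not_le.1 (Nat.find_min hex hv)
  generalize Nat.find hex = w at hw hmin
  have hbig : W1 + W2 + 1 < w := lt_of_pow_lt_pow_left₀ (b + 1) (Nat.zero_le _) (by omega)
  obtain ⟨v, rfl⟩ : ∃ v, w = v + 1 := ⟨w - 1, by omega⟩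
  have hv : ((v : ℝ)) ^ (b + 1) ≤ n := by exact_mod_cast (hmin v (Nat.lt_succ_self v)).le
  have hwR : (n : ℝ) ≤ ((v + 1 : ℕ) : ℝ) ^ (b + 1) := by exact_mod_cast hw
  have v1 : (1 : ℝ) ≤ v := by exact_mod_cast (show 1 ≤ v by omega)
  have v2 : (W2 : ℝ) ≤ v := by exact_mod_cast (show W2 ≤ v by omega)
  have hexp := hW1 (v + 1) (by omega)
  have w1 : ((v + 1 : ℕ) : ℝ) ≤ 2 * v := by push_cast; linarith
  have w2 : (1 : ℝ) ≤ ((v + 1 : ℕ) : ℝ) := by push_cast; linarith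
  refine ⟨v + 1, Nat.succ_pos v, ?_, ?_, ?_⟩
  · refine le_of_pow_le_pow_left₀ (Nat.succ_ne_zero b) (by positivity) ?_
    rw [one_pow, mul_pow]
    exact hε.trans (mul_le_mul_of_nonneg_left hwR (by positivity))
  · calc C * ((v + 1 : ℕ) : ℝ) ^ b ≤ C * (2 * v) ^ b :=
          mul_le_mul_of_nonneg_left (pow_le_pow_left₀ (by positivity) w1 b) hC0.le
      _ = C * 2 ^ b * (v : ℝ) ^ b := by rw [mul_pow, mul_assoc]
      _ ≤ v * (v : ℝ) ^ b := mul_le_mul_of_nonneg_right (hW2.trans v2) (by positivity)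
      _ = (v : ℝ) ^ (b + 1) := by ring
      _ ≤ n := hv
  · have ec : ((2 * (v + 1) ^ 3 : ℕ) : ℝ) = 2 * ((v + 1 : ℕ) : ℝ) ^ 3 := by push_cast; ring
    generalize 2 * (v + 1) ^ 3 = N at ec
    generalize ((v + 1 : ℕ) : ℝ) = x at *
    have x0 : 0 < x := by linarith
    have p1 : 1 ≤ C * x ^ 2 := one_le_mul_of_one_le_of_one_le hC (one_le_pow₀ w2)
    have p2 : 0 ≤ 1 - 1 / (C * x ^ 2) := sub_nonneg.2 (div_le_one_of_le₀ p1 (by positivity))
    have p3 : (1 - 1 / (C * x ^ 2)) ^ N ≤ Real.exp (-(2 * x / C)) := by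
      refine (pow_le_pow_left₀ p2 (Real.one_sub_le_exp_neg _) N).trans_eq ?_
      rw [← Real.exp_nat_mul, ec]
      congr 1
      field_simp
    have p4 : (n : ℝ) ^ a ≤ x ^ ((b + 1) * a) := by
      rw [pow_mul]
      exact pow_le_pow_left₀ (Nat.cast_nonneg n) hwR a
    refine lt_of_le_of_lt ?_ hexp
    exact mul_le_mul (mul_le_mul_of_nonneg_left p4 hC0.le) p3 (pow_nonneg p2 N) (by positivity)

end Pool.Agent.P.MP_3acc10_al.Bld
end

-- part Pool.Agent.P.MP_3acc10_al.BParam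
section

set_option autoImplicit false

namespace Pool.Agent.P.MP_3acc10_al.Bld

open Finset Module Matrix

lemma bparam_count (j n m : ℕ) (hn : 1 ≤ n) (hm : m ≤ j * n ^ j) :
    (m + 1) * 2 ^ 2 ^ (j + 1) * 2 ^ 2 ^ (j + 1) * (m + 2) ^ 2 ^ (j + 1) ≤
      (2 ^ 2 ^ (j + 1) * 2 ^ 2 ^ (j + 1) * (j + 2) ^ (2 ^ (j + 1) + 1)) *
        n ^ (j * (2 ^ (j + 1) + 1)) := by
  have h1 : 1 ≤ n ^ j := Nat.one_le_pow _ _ hn
  have h2 : m + 2 ≤ (j + 2) * n ^ j := by nlinarith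
  generalize 2 ^ (j + 1) = D
  generalize 2 ^ D = E
  calc (m + 1) * E * E * (m + 2) ^ D ≤ (m + 2) * E * E * (m + 2) ^ D := by gcongr; omega
    _ = E * E * (m + 2) ^ (D + 1) := by ring
    _ ≤ E * E * ((j + 2) * n ^ j) ^ (D + 1) := by gcongr
    _ = _ := by rw [mul_pow, ← pow_mul]; ring

lemma bparam_poly (j : ℝ) {u : ℝ} (hu : 1 ≤ u) :
    6 * (4 * u) + 2 * j ^ 2 * (1 + 4 * u) ^ 2 ≤ (24 + 50 * j ^ 2) * u ^ 2 := by
  have h1 : (1 + 4 * u) ^ 2 ≤ 25 * u ^ 2 := by nlinarith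
  have h2 : 2 * j ^ 2 * (1 + 4 * u) ^ 2 ≤ 2 * j ^ 2 * (25 * u ^ 2) := by gcongr
  nlinarith

lemma bparam_th (j n q : ℕ) {C ε w μ lam c : ℝ} (hC : 1 ≤ C) (hε : 0 < ε) (hε1 : ε ≤ 1)
    (hw : 1 ≤ ε * w) (hq : 0 < q) (hμ : μ = 128 * 2 ^ j * C * w ^ 3)
    (hl : lam = q * μ ^ (j + 2 ^ j + 1)) (hc : 6 * (q : ℝ) + 2 * j ^ 2 * (1 + q) ^ 2 ≤ c)
    (hn : 32 * C * 2 ^ j * w ^ 3 * lam ^ (j + 1) * c * μ ^ (j + 2 ^ j) ≤ n) :
    0 ≤ th j n q (ε / 2) (ε / C) μ lam ∧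
      th j n q (ε / 2) (ε / C) μ lam ≤ 1 - 1 / (16 * C * w ^ 2) := by
  have hw0 : 0 < w := by nlinarith
  have hC0 : 0 < C := by linarith
  have hμ0 : 0 < μ := by rw [hμ]; positivity
  have hq0 : (0 : ℝ) < q := by exact_mod_cast hq
  have hl0 : 0 < lam := by rw [hl]; positivity
  have hc0 : 0 < c := lt_of_lt_of_le (by positivity) hc
  have hn0 : (0 : ℝ) < n := lt_of_lt_of_le (by positivity) hn
  have hi : 1 / (ε / 2) ≤ 2 * w := by
    rw [div_le_iff₀ (by positivity)]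
    linarith
  have e0 : ε / 2 * (ε / C) / 2 = ε ^ 2 / (4 * C) := by field_simp; ring
  constructor
  · have h1 : ε ^ 2 / (4 * C) ≤ 1 := by
      rw [div_le_one (by positivity)]
      nlinarith
    have h2 : 0 ≤ 4 * 2 ^ j / (ε / 2 * μ) := by positivity
    have h3 : 0 ≤ 2 ^ j * tau j n q lam * μ ^ (j + 2 ^ j) / (ε / 2) := by
      unfold tau
      positivity
    unfold th
    rw [e0]
    linarith
  · obtain ⟨s, hs⟩ : ∃ s : ℝ, s = 1 / (16 * C * w ^ 2) := ⟨_, rfl⟩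
    have hs0 : 0 < s := by rw [hs]; positivity
    have h1 : 4 * s ≤ ε ^ 2 / (4 * C) := by
      have : 1 ≤ (ε * w) ^ 2 := one_le_pow₀ hw
      rw [hs, le_div_iff₀ (by positivity)]
      have e : 4 * (1 / (16 * C * w ^ 2)) * (4 * C) = 1 / w ^ 2 := by field_simp; ring
      rw [e, div_le_iff₀ (by positivity)]
      linarith [mul_pow ε w 2]
    have h2 : 4 * 2 ^ j / (ε / 2 * μ) ≤ s := by
      calc 4 * 2 ^ j / (ε / 2 * μ) = 4 * 2 ^ j / μ * (1 / (ε / 2)) := by field_simp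
        _ ≤ 4 * 2 ^ j / μ * (2 * w) := by gcongr
        _ = s := by rw [hs, hμ]; field_simp; ring
    have h3 : 2 ^ j * (2 * q / lam) * μ ^ (j + 2 ^ j) / (ε / 2) ≤ s := by
      calc 2 ^ j * (2 * q / lam) * μ ^ (j + 2 ^ j) / (ε / 2)
          = 2 ^ j * 2 / μ * (1 / (ε / 2)) := by rw [hl, pow_succ μ (j + 2 ^ j)]; field_simp
        _ ≤ 2 ^ j * 2 / μ * (2 * w) := by gcongr
        _ = s / 2 := by rw [hs, hμ]; field_simp; ring
        _ ≤ s := by linarith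
    have h4 : 2 ^ j * (lam ^ (j + 1) * (6 * q + 2 * j ^ 2 * (1 + q) ^ 2) / n) *
        μ ^ (j + 2 ^ j) / (ε / 2) ≤ s := by
      calc 2 ^ j * (lam ^ (j + 1) * (6 * q + 2 * j ^ 2 * (1 + q) ^ 2) / n) *
            μ ^ (j + 2 ^ j) / (ε / 2)
          = 2 ^ j * (lam ^ (j + 1) * (6 * q + 2 * j ^ 2 * (1 + q) ^ 2) / n) *
            μ ^ (j + 2 ^ j) * (1 / (ε / 2)) := by rw [mul_one_div]
        _ ≤ 2 ^ j * (lam ^ (j + 1) * c / n) * μ ^ (j + 2 ^ j) * (2 * w) := by gcongr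
        _ = (32 * C * 2 ^ j * w ^ 3 * lam ^ (j + 1) * c * μ ^ (j + 2 ^ j)) / n * s := by
            rw [hs]; field_simp; ring
        _ ≤ 1 * s := by
            gcongr
            rwa [div_le_one hn0]
        _ = s := one_mul s
    unfold th tau
    rw [e0, ← hs, mul_add, add_mul, add_div]
    linarith

theorem param (j : ℕ) {C : ℝ} (hC : 1 ≤ C) : ∃ k n0 : ℕ, ∀ (n : ℕ) (ε : ℝ), n0 ≤ n → 0 < ε →
    ε ≤ 1 → 1 ≤ ε ^ k * n → C ≤ ε * n ∧ ∃ (ℓ : ℕ) (μ lam : ℝ), 1 ≤ μ ∧ 1 ≤ lam ∧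
      0 ≤ th j n (4 * ℓ) (ε / 2) (ε / C) μ lam ∧ ∀ m : ℕ, m ≤ j * n ^ j →
        (((m + 1) * 2 ^ 2 ^ (j + 1) * 2 ^ 2 ^ (j + 1) * (m + 2) ^ 2 ^ (j + 1) : ℕ) : ℝ) *
          (n : ℝ) ^ j * (μ ^ (j + 2 ^ j) * lam ^ j / (ε / 2)) ^ 3 *
            th j n (4 * ℓ) (ε / 2) (ε / C) μ lam ^ (2 * ℓ) < 1 := by
  have hC0 : 0 < C := by linarith
  obtain ⟨K, hK⟩ : ∃ K : ℕ, K = j + 2 ^ j := ⟨_, rfl⟩
  obtain ⟨c1, hc1⟩ : ∃ c : ℝ, c = 128 * 2 ^ j * C := ⟨_, rfl⟩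
  obtain ⟨c3, hc3⟩ : ∃ c : ℝ, c = 24 + 50 * (j : ℝ) ^ 2 := ⟨_, rfl⟩
  obtain ⟨c4, hc4⟩ : ∃ c : ℝ,
    c = 32 * C * 2 ^ j * (4 * c1 ^ (K + 1)) ^ (j + 1) * c3 * c1 ^ K := ⟨_, rfl⟩
  obtain ⟨c5, hc5⟩ : ∃ c : ℕ,
    c = 2 ^ 2 ^ (j + 1) * 2 ^ 2 ^ (j + 1) * (j + 2) ^ (2 ^ (j + 1) + 1) := ⟨_, rfl⟩
  obtain ⟨a, ha⟩ : ∃ a : ℕ, a = j * (2 ^ (j + 1) + 1) := ⟨_, rfl⟩
  have hD : (1 : ℝ) ≤ 2 ^ j := one_le_pow₀ one_le_two
  have hc11 : 1 ≤ c1 := by rw [hc1]; nlinarith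
  have hc31 : 1 ≤ c3 := by rw [hc3]; nlinarith [sq_nonneg (j : ℝ)]
  have hc40 : 0 ≤ c4 := by rw [hc4]; positivity
  have hc50 : (0 : ℝ) ≤ c5 := Nat.cast_nonneg _
  have h4 : (2 : ℝ) ≤ 32 * C * 2 ^ j := by
    have := one_le_mul_of_one_le_of_one_le hC hD
    linarith
  obtain ⟨n0, hn0⟩ := decay (a + j + 3) ((3 * K + 6) * (j + 1) + 3 * K + 8 + 1)
    (C := c4 + c5 + 16 * C) (by linarith)
  refine ⟨(3 * K + 6) * (j + 1) + 3 * K + 8 + 1 + 1, n0, fun n ε hn hε hε1 hk => ?_⟩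
  obtain ⟨w, hw0, hw, hb, hd⟩ := hn0 n ε hn hε hε1 hk
  have hw1 : (1 : ℝ) ≤ w := by exact_mod_cast hw0
  have hwb : (w : ℝ) ≤ (w : ℝ) ^ ((3 * K + 6) * (j + 1) + 3 * K + 8 + 1) :=
    le_self_pow₀ hw1 (Nat.succ_ne_zero _)
  have hCw : C * w ≤ n := by
    refine le_trans ?_ hb
    gcongr
    linarith
  have hn1 : (1 : ℝ) ≤ n := (one_le_mul_of_one_le_of_one_le hC hw1).trans hCw
  have hCn : C ≤ ε * n := by
    calc C = C * 1 := (mul_one C).symm
      _ ≤ C * (ε * w) := by gcongr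
      _ = ε * (C * w) := by ring
      _ ≤ ε * n := by gcongr
  refine ⟨hCn, w ^ 3, c1 * (w : ℝ) ^ 3,
    ((4 * w ^ 3 : ℕ) : ℝ) * (c1 * (w : ℝ) ^ 3) ^ (K + 1), ?_⟩
  obtain ⟨μ, hμ⟩ : ∃ μ : ℝ, μ = c1 * (w : ℝ) ^ 3 := ⟨_, rfl⟩
  obtain ⟨lam, hl⟩ : ∃ lam : ℝ, lam = ((4 * w ^ 3 : ℕ) : ℝ) * μ ^ (K + 1) := ⟨_, rfl⟩
  rw [← hμ, ← hl]
  have hw3 : (1 : ℝ) ≤ (w : ℝ) ^ 3 := one_le_pow₀ hw1
  have hμ1 : 1 ≤ μ := by rw [hμ]; exact one_le_mul_of_one_le_of_one_le hc11 hw3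
  have hq : ((4 * w ^ 3 : ℕ) : ℝ) = 4 * (w : ℝ) ^ 3 := by push_cast; ring
  have hl1 : 1 ≤ lam := by
    have : 1 ≤ μ ^ (K + 1) := one_le_pow₀ hμ1
    rw [hl, hq]
    exact one_le_mul_of_one_le_of_one_le (by linarith) this
  have hc : 6 * ((4 * w ^ 3 : ℕ) : ℝ) + 2 * (j : ℝ) ^ 2 * (1 + ((4 * w ^ 3 : ℕ) : ℝ)) ^ 2 ≤
      c3 * (w : ℝ) ^ 6 := by
    rw [hq, hc3, show (w : ℝ) ^ 6 = ((w : ℝ) ^ 3) ^ 2 by ring]
    exact bparam_poly _ hw3
  have hZ : 32 * C * 2 ^ j * (w : ℝ) ^ 3 * lam ^ (j + 1) * (c3 * (w : ℝ) ^ 6) * μ ^ K ≤ n := by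
    calc 32 * C * 2 ^ j * (w : ℝ) ^ 3 * lam ^ (j + 1) * (c3 * (w : ℝ) ^ 6) * μ ^ K
        = c4 * (w : ℝ) ^ ((3 * K + 6) * (j + 1) + 3 * K + 8 + 1) := by
          have e1 : lam = 4 * c1 ^ (K + 1) * (w : ℝ) ^ (3 * K + 6) := by
            rw [hl, hq, hμ]; ring
          rw [e1, hμ, hc4, mul_pow (4 * c1 ^ (K + 1)), ← pow_mul, mul_pow c1, ← pow_mul]
          generalize (4 * c1 ^ (K + 1)) ^ (j + 1) = x
          generalize (3 * K + 6) * (j + 1) = y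
          ring
      _ ≤ _ := by
          refine le_trans ?_ hb
          gcongr
          linarith
  obtain ⟨t0, t1⟩ := bparam_th j n (4 * w ^ 3) (C := C) (w := w) (μ := μ) (lam := lam) hC hε hε1
    hw (by positivity) (by rw [hμ, hc1]) (by rw [hl, hK]) hc (by rw [← hK]; exact hZ)
  refine ⟨hμ1, hl1, t0, fun m hm => ?_⟩
  have hR : μ ^ (j + 2 ^ j) * lam ^ j / (ε / 2) ≤ n := by
    refine le_trans ?_ hZ
    have hi : 1 / (ε / 2) ≤ 2 * (w : ℝ) := by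
      rw [div_le_iff₀ (by positivity)]
      linarith
    have h1 : (w : ℝ) ≤ (w : ℝ) ^ 3 := le_self_pow₀ hw1 three_ne_zero
    have h2 : lam ^ j ≤ lam ^ (j + 1) := pow_le_pow_right₀ hl1 (Nat.le_succ j)
    have h3 : 1 ≤ c3 * (w : ℝ) ^ 6 := one_le_mul_of_one_le_of_one_le hc31 (one_le_pow₀ hw1)
    calc μ ^ (j + 2 ^ j) * lam ^ j / (ε / 2) = 1 / (ε / 2) * lam ^ j * 1 * μ ^ K := by
          rw [hK]; ring
      _ ≤ 2 * (w : ℝ) * lam ^ j * 1 * μ ^ K := by gcongr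
      _ ≤ _ := by gcongr
  have hcnt : (((m + 1) * 2 ^ 2 ^ (j + 1) * 2 ^ 2 ^ (j + 1) * (m + 2) ^ 2 ^ (j + 1) : ℕ) : ℝ) ≤
      c5 * (n : ℝ) ^ a := by
    have := bparam_count j n m (by exact_mod_cast hn1) hm
    rw [← hc5, ← ha] at this
    exact_mod_cast this
  have t2 : th j n (4 * w ^ 3) (ε / 2) (ε / C) μ lam ≤
      1 - 1 / ((c4 + c5 + 16 * C) * (w : ℝ) ^ 2) := by
    refine t1.trans ?_
    gcongr
    linarith
  refine lt_of_le_of_lt ?_ hd
  calc _ ≤ c5 * (n : ℝ) ^ a * (n : ℝ) ^ j * (n : ℝ) ^ 3 *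
        (1 - 1 / ((c4 + c5 + 16 * C) * (w : ℝ) ^ 2)) ^ (2 * w ^ 3) := by gcongr
    _ = c5 * (n : ℝ) ^ (a + j + 3) *
        (1 - 1 / ((c4 + c5 + 16 * C) * (w : ℝ) ^ 2)) ^ (2 * w ^ 3) := by
          rw [pow_add, pow_add]; ring
    _ ≤ _ := by
          have := t0.trans t2
          gcongr
          linarith

end Pool.Agent.P.MP_3acc10_al.Bld
end

-- part Pool.Agent.P.MP_3acc10_al.BChain
section

set_option autoImplicit false

namespace Pool.Agent.P.MP_3acc10_al.Bld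

open Finset Module Matrix

variable {n j : ℕ} {ι : Type} [Fintype ι] [DecidableEq ι]

omit [Fintype ι] in
lemma bchain_union (n : ℕ) (d : ι → ℕ) (A : Finset ι) (i : ℕ) (T : Finset ι) :
    Disjoint T A → (∀ a ∈ T, i < d a) → al n d (T ∪ A) i = al n d A i := by
  induction T using Finset.induction_on with
  | empty =>
    intro _ _
    rw [empty_union]
  | insert l T hl ih =>
    intro hd h
    have h1 : l ∉ T ∪ A := by
      rw [mem_union, not_or]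
      exact ⟨hl, disjoint_left.1 hd (mem_insert_self _ _)⟩
    have h2 := h l (mem_insert_self _ _)
    rw [insert_union, al_insert n d h1, if_neg (by omega), sub_zero]
    exact ih (disjoint_of_subset_left (subset_insert _ _) hd)
      fun a ha => h a (mem_insert_of_mem ha)

omit [Fintype ι] in
theorem al_low (n : ℕ) (d : ι → ℕ) (A A' : Finset ι) (hA : A ⊆ A') (i : ℕ)
    (h : ∀ a ∈ A', a ∉ A → i < d a) : al n d A' i = al n d A i := by
  have h1 := bchain_union n d A i (A' \ A) sdiff_disjoint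
    fun a ha => h a (mem_sdiff.1 ha).1 (mem_sdiff.1 ha).2
  rwa [sdiff_union_of_subset hA] at h1

omit [DecidableEq ι] in
lemma bchain_WF {K : Type} [Field K] (d : ι → ℕ) (A : Finset ι) (i : ℕ)
    (h : ∀ a, a ∉ A → i < d a) (x : ι × Finset (Fin n) → K) :
    WF i d univ x = WF i d A x := by
  refine le_antisymm (W_anti _ (subset_univ A) _) fun F hF => ⟨hF.1, fun a _ => ?_⟩
  by_cases ha : a ∈ A
  · exact hF.2 a ha
  · have h1 := h a ha
    exact funext fun T => act_mask_supp x a hF.1 T (by omega)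

theorem chain_gen (K : Type) [Field K] [CharZero K] (d : ι → ℕ) (m : ℕ) (Bk : ℕ → Finset ι)
    (x0 : ι × Finset (Fin n) → ℂ) (h0 : Bk 0 = ∅) (hm : ∀ a, a ∉ Bk m → j < d a)
    (hS : ∀ k < m, ∃ l, l ∉ Bk k ∧ Bk (k + 1) = insert l (Bk k) ∧ ∀ N ≤ j,
      finrank ℂ (WF N d (Bk k) x0) = finrank ℂ (WF N d (insert l (Bk k)) x0) +
        if d l ≤ N then finrank ℂ (WF (N - d l) d (Bk k) x0) else 0) :
    Gen fun x : ι × Finset (Fin n) → K =>
      ∀ i ≤ j, (finrank K (WF i d univ x) : ℤ) = al n d univ i := by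
  have ex : ∀ k ≤ m, ∀ i ≤ j, (finrank ℂ (WF i d (Bk k) x0) : ℤ) = al n d (Bk k) i := by
    intro k
    induction k with
    | zero =>
      intro _ i _
      rw [h0, finrank_WF_empty, al_empty, Fintype.card_fin]
    | succ k ih =>
      intro hk i hi
      obtain ⟨l, hl, e, h⟩ := hS k (by omega)
      have h1 := h i hi
      have h2 := ih (by omega) i hi
      rw [e, al_insert n d hl]
      split_ifs at h1 ⊢ with hd
      · have h3 := ih (by omega) (i - d l) (by omega)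
        omega
      · omega
  have H : Gen fun x : ι × Finset (Fin n) → K => ∀ k ∈ range (m + 1),
      ∀ i ∈ range (j + 1), finrank K (WF i d (Bk k) x) ≤ finrank ℂ (WF i d (Bk k) x0) :=
    Gen.all _ fun k _ => Gen.all _ fun i _ => Nak.transfer K i d (Bk k) x0
  refine H.mono fun x hx => ?_
  have up : ∀ k ≤ m, ∀ i ≤ j, (finrank K (WF i d (Bk k) x) : ℤ) ≤ al n d (Bk k) i := by
    intro k hk i hi
    rw [← ex k hk i hi]
    exact_mod_cast hx k (mem_range.2 (by omega)) i (mem_range.2 (by omega))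
  have lo : ∀ k ≤ m, ∀ i ≤ j, al n d (Bk k) i ≤ (finrank K (WF i d (Bk k) x) : ℤ) := by
    intro k
    induction k with
    | zero =>
      intro _ i _
      rw [h0, al_empty, finrank_WF_empty, Fintype.card_fin]
    | succ k ih =>
      intro hk i hi
      obtain ⟨l, hl, e, -⟩ := hS k (by omega)
      have h1 := lower_step i d (Bk k) l x
      have h2 := ih (by omega) i hi
      rw [e, al_insert n d hl]
      split_ifs at h1 ⊢ with hd
      · have h3 := up k (by omega) (i - d l) (by omega)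
        have h4 := ih (by omega) (i - d l) (by omega)
        omega
      · omega
  intro i hi
  have hm' : ∀ a, a ∉ Bk m → i < d a := fun a ha => lt_of_le_of_lt hi (hm a ha)
  rw [bchain_WF d (Bk m) i hm' x, al_low n d (Bk m) univ (subset_univ _) i fun a _ ha => hm' a ha]
  exact le_antisymm (up m le_rfl i hi) (lo m le_rfl i hi)

omit [Fintype ι] in
theorem exists_chain (A0 : Finset ι) : ∃ Bk : ℕ → Finset ι, Bk 0 = ∅ ∧ Bk A0.card = A0 ∧
    (∀ k, Bk k ⊆ A0) ∧ ∀ k < A0.card, ∃ l, l ∉ Bk k ∧ Bk (k + 1) = insert l (Bk k) := by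
  induction A0 using Finset.induction_on with
  | empty => exact ⟨fun _ => ∅, rfl, rfl, fun _ => subset_rfl, fun k hk => by simp at hk⟩
  | insert a A ha ih =>
    obtain ⟨Bk, h0, h1, h2, h3⟩ := ih
    refine ⟨fun k => if k ≤ A.card then Bk k else insert a A, by simp [h0], ?_, fun k => ?_,
      fun k hk => ?_⟩
    · show (if (insert a A).card ≤ A.card then Bk (insert a A).card else insert a A) = insert a A
      rw [if_neg (by rw [card_insert_of_notMem ha]; omega)]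
    · show (if k ≤ A.card then Bk k else insert a A) ⊆ insert a A
      split_ifs
      · exact (h2 k).trans (subset_insert _ _)
      · exact subset_rfl
    · rw [card_insert_of_notMem ha] at hk
      show ∃ l, l ∉ (if k ≤ A.card then Bk k else insert a A) ∧
        (if k + 1 ≤ A.card then Bk (k + 1) else insert a A) =
          insert l (if k ≤ A.card then Bk k else insert a A)
      rw [if_pos (show k ≤ A.card by omega)]
      by_cases hk1 : k < A.card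
      · rw [if_pos (show k + 1 ≤ A.card by omega)]
        exact h3 k hk1
      · have e : k = A.card := by omega
        rw [if_neg (show ¬ k + 1 ≤ A.card by omega), e, h1]
        exact ⟨a, ha, rfl⟩

end Pool.Agent.P.MP_3acc10_al.Bld
end

-- part Pool.Agent.P.MP_3acc10_al.BCore
section

set_option autoImplicit false

namespace Pool.Agent.P.MP_3acc10_al.Bld

open Finset Module Matrix

theorem core (j : ℕ) : ∃ k n0 : ℕ, ∀ (K : Type) [Field K] [CharZero K]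
    (n : ℕ) (ι : Type) [Fintype ι] [DecidableEq ι] (d : ι → ℕ) (ε : ℝ), n0 ≤ n → 0 < ε → ε ≤ 1 →
    1 ≤ ε ^ k * n → (∀ a, 0 < d a) → (∀ i ≤ j, 0 < i → ε * (n : ℝ) ^ i ≤ al n d univ i) →
    Gen fun x : ι × Finset (Fin n) → K =>
      ∀ i ≤ j, (finrank K (WF i d univ x) : ℤ) = al n d univ i := by
  obtain ⟨C, hC, har⟩ := arith j
  obtain ⟨k0, n2, hpar⟩ := param j hC
  refine ⟨k0, max n2 (j + 2), ?_⟩
  intro K _ _ n ι _ _ d ε hn hε hε1 hεk hd hal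
  have hn2 : n2 ≤ n := (le_max_left _ _).trans hn
  have hnj : j + 2 ≤ n := (le_max_right _ _).trans hn
  obtain ⟨hCn, ℓ, μ, lam, hμ, hl, hθ, hlt⟩ := hpar n ε hn2 hε hε1 hεk
  replace har := har ε n ι d
  obtain ⟨δ, hδe⟩ : ∃ δ, δ = ε / 2 := ⟨_, rfl⟩
  obtain ⟨η0, hηe⟩ : ∃ η0, η0 = ε / C := ⟨_, rfl⟩
  have hδ : 0 < δ := by rw [hδe]; positivity
  have hδ1 : δ ≤ 1 := by rw [hδe]; linarith
  have hη : 0 < η0 := by rw [hηe]; positivity
  have hη1 : η0 ≤ 1 := by rw [hηe, div_le_one (by linarith)]; linarith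
  rw [← hδe, ← hηe] at hθ hlt har
  have hnr : (0 : ℝ) < n := by exact_mod_cast (show 0 < n by omega)
  obtain ⟨A0, hA0⟩ : ∃ A0 : Finset ι, ∀ a, a ∈ A0 ↔ d a ≤ j :=
    ⟨univ.filter fun a => d a ≤ j, by simp⟩
  have hlow : ∀ i ≤ j, al n d univ i = al n d A0 i := fun i hi =>
    al_low n d A0 univ (subset_univ _) i fun a _ ha => by rw [hA0] at ha; omega
  have hpos : ∀ i ≤ j, 0 < al n d A0 i := by
    intro i hi
    rcases Nat.eq_zero_or_pos i with rfl | h0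
    · rw [Nak.al_zero n d _ hd]; exact one_pos
    · have h1 := hal i hi h0
      rw [hlow i hi] at h1
      have h2 : (0 : ℝ) < al n d A0 i := lt_of_lt_of_le (by positivity) h1
      exact_mod_cast h2
  have hm : A0.card ≤ j * n ^ j := by
    rw [card_eq_sum_card_fiberwise (f := d) (t := Icc 1 j)
      (fun a ha => mem_coe.2 (mem_Icc.2 ⟨hd a, (hA0 a).1 (mem_coe.1 ha)⟩))]
    have h1 : ∀ e ∈ Icc 1 j, (A0.filter fun a => d a = e).card ≤ n ^ j := by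
      intro e he
      obtain ⟨he1, he2⟩ := mem_Icc.1 he
      have h2 := count_le n d j (fun l _ => hd l) hpos e he2 he1
      have h3 : (A0.filter fun a => d a = e).card ≤ n ^ e := by exact_mod_cast h2
      exact h3.trans (Nat.pow_le_pow_right (by omega) he2)
    have := sum_le_card_nsmul _ _ _ h1
    simpa using this
  obtain ⟨h, hf⟩ := exists_Hf (j := j) (z := zf η0 n d A0)
    (by
      rw [zf, filter_eq_empty_iff.2 fun a _ => (hd a).ne']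
      simp)
    (fun e _ => mul_nonneg (by positivity) (kap_nonneg _ _)) hδ
    (har A0 hε hε1 hnj hCn (fun l _ => hd l) fun i hi h0 => by rw [← hlow i hi]; exact hal i hi h0)
  obtain ⟨Bk, hB0, hBm, hBs, hBk⟩ := exists_chain A0
  obtain ⟨ℬ, hℬ⟩ : ∃ ℬ : Finset (Finset ι), ℬ = (range (A0.card + 1)).image Bk := ⟨_, rfl⟩
  have hℬ1 : ∀ B ∈ ℬ, B ⊆ A0 := by
    intro B hB
    rw [hℬ] at hB
    obtain ⟨k, -, rfl⟩ := mem_image.1 hB
    exact hBs k
  have hℬ2 : ℬ.card ≤ A0.card + 1 := by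
    rw [hℬ]; exact card_image_le.trans (card_range _).le
  have hval : ∀ σ ∈ Qs j d ℬ, ∀ t ∈ σ.1, Val d A0 t := by
    intro σ hσ t ht
    obtain ⟨B, hB, hv⟩ := Qs_val hσ
    exact ⟨fun a ha => hℬ1 B hB ((hv t ht).1 a ha), (hv t ht).2⟩
  have hup : ∀ σ ∈ Qs j d ℬ, ∀ t ∈ alw σ, upd Adj rk σ t ∈ Qs j d ℬ :=
    fun σ hσ t ht => Qs_upd hd hσ ht
  have hω := om_nonneg hη.le n d
  have hμ0 : 0 < μ := by linarith
  have hK : 0 < μ⁻¹ ^ (j + 2 ^ j) := by positivity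
  have hKK : μ ^ (j + 2 ^ j) * μ⁻¹ ^ (j + 2 ^ j) = 1 := by
    rw [← mul_pow, mul_inv_cancel₀ hμ0.ne', one_pow]
  have hK1 : 1 ≤ μ ^ (j + 2 ^ j) := one_le_pow₀ hμ
  have hl1 : 1 ≤ lam ^ j := one_le_pow₀ hl
  have hδi : 1 ≤ δ⁻¹ := (one_le_inv₀ hδ).2 hδ1
  obtain ⟨R, hR⟩ : ∃ R, R = μ ^ (j + 2 ^ j) * lam ^ j / δ := ⟨_, rfl⟩
  have hR0 : 0 ≤ R := by rw [hR]; positivity
  have hRl : ∀ (x0 x : Fin j → Fin n) (σ : St (Let ι j)) (c : ι × Finset (Fin n) → ℤ),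
      δ⁻¹ ≤ R * phi μ h x0 x σ c := by
    intro x0 x σ c
    have h1 := (phi_bd hf hμ x0 x σ c).1
    calc δ⁻¹ ≤ lam ^ j * δ⁻¹ := le_mul_of_one_le_left (by positivity) hl1
      _ = R * μ⁻¹ ^ (j + 2 ^ j) := by
          rw [hR, div_eq_mul_inv, mul_assoc (μ ^ _), mul_right_comm, hKK, one_mul]
      _ ≤ _ := mul_le_mul_of_nonneg_left h1 hR0
  obtain ⟨A, hA, hfro⟩ := walk2 (Qs j d ℬ) alw (upd Adj rk) hup kk dl dl_abs Good
    (Psi (om η0 n d) lam μ h)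
    (fun x0 x σ c => mul_nonneg (base_nonneg hω hl) (hK.le.trans (phi_bd hf hμ x0 x σ c).1))
    ℓ (th j n (4 * ℓ) δ η0 μ lam) R hθ hR0 Good_refl
    (fun x0 x σ hσ c hG hq => step hnj hη.le hη1 hd hl hμ hf (hval σ hσ) hG hq)
    (fun x0 x c t y hG hk => Good_step hG t hk)
    (fun x0 x c hG => ⟨Good_symm hG, fun σ σ' => by
      rw [Psi, Psi, base_neg hG, mul_left_comm]
      exact mul_le_mul_of_nonneg_left ((phi_bd hf hμ x x0 σ (-c)).2.trans (hRl x0 x σ' c))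
        (base_nonneg hω hl)⟩)
    (fun x σ => by
      rw [Psi, mul_left_comm]
      exact one_le_mul_of_one_le_of_one_le (base_zero _ hl x).1 (hδi.trans (hRl x x σ 0)))
    (fun x σ => by
      rw [Psi, hR, div_eq_mul_inv, mul_assoc]
      refine le_trans ?_ (le_mul_of_one_le_left (by positivity) hK1)
      exact mul_le_mul (base_zero _ hl x).2 (phi_bd hf hμ x x σ 0).2
        (hK.le.trans (phi_bd hf hμ x x σ 0).1) (by positivity))
  have hU : Uniq (Qs j d ℬ) alw (upd Adj rk) (Tm A) := by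
    refine uniq_of_frob _ _ _ hup _ ℓ (lt_of_le_of_lt (hfro.trans ?_) (hlt A0.card hm))
    rw [← hR]
    refine mul_le_mul_of_nonneg_right (mul_le_mul_of_nonneg_right ?_ (by positivity))
      (by positivity)
    rw [Fintype.card_fun, Fintype.card_fin, Fintype.card_fin, Nat.cast_pow]
    refine mul_le_mul_of_nonneg_right ?_ (by positivity)
    exact_mod_cast (Qs_card hd ℬ A0 hℬ1).trans (by gcongr)
  obtain ⟨G, hG⟩ := exists_G _ _ _ hup _ hU
  refine chain_gen K d A0.card Bk (fun p => star (A p)) hB0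
    (fun a ha => by rw [hBm, hA0] at ha; omega) fun k hk => ?_
  obtain ⟨l, hl1, hl2⟩ := hBk k hk
  have hB : insert l (Bk k) ∈ ℬ := by
    rw [hℬ, ← hl2]; exact mem_image_of_mem _ (mem_range.2 (by omega))
  refine ⟨l, hl1, hl2, fun N hN => rank_step d _ (Bk k) l (hd l) N fun t _ ht ξ hξ => ?_⟩
  refine surj_pow (G := G) hA (by omega) hd hl1 (fun U Ω hΩ hdis u hu => ?_)
    (fun U => G_lift hA hnj hd hℬ1 hη.le hf hG hB (mem_insert_self _ _) U) N hN t ht ξ hξ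
  have hu1 : Val d (insert l (Bk k)) u := (mem_AlU.1 hu).1
  have hu2 : u.2.Nonempty := by
    rw [← card_pos, hu1.2]
    rcases u.1 with _ | a
    · exact two_pos
    · exact hd a
  exact E_mul_G Adj (fun _ _ => Adj_symm) Adj_irrefl rk (Qs j d ℬ) hup u
    (fun σ hσ hu => Qs_res hd hσ hu) (fun σ _ _ t _ h => rk_ne hd hu1 h) (Tm A) (Em A u)
    (E_mul_T hA hnj u hu2) (fun t h => E_comm A h) hU G hG _
    (Qs_ini hB (mem_insert_self _ _) U Ω hΩ hdis) hu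

end Pool.Agent.P.MP_3acc10_al.Bld
end

-- part Pool.Agent.P.MP_3acc10_al.BVan
section

set_option autoImplicit false

namespace Pool.Agent.P.MP_3acc10_al.Bld

open Finset Module Matrix

theorem bvan_remove {n r : ℕ} (d : Fin r → ℕ) (j : ℕ) (hd : ∀ i, 0 < d i)
    (hpos : ∀ i ≤ j, 0 < al n d univ i) (A T : Finset (Fin r)) (hT : Disjoint T A) :
    (al n d A (j + 1) : ℝ) ≤ al n d (T ∪ A) (j + 1) +
      ∑ l ∈ T, (if d l ≤ j + 1 then (3 : ℝ) ^ j * (n : ℝ) ^ (j + 1 - d l) else 0) := by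
  have habs := al_abs n d univ (fun l _ => hd l) j (count_le n d j (fun l _ => hd l) hpos)
  induction T using Finset.induction_on with
  | empty => simp
  | insert l T hl ih =>
    rw [disjoint_insert_left] at hT
    have hl' : l ∉ T ∪ A := by simp [hl, hT.1]
    rw [insert_union, al_insert n d hl', sum_insert hl]
    have h1 := ih hT.2
    split_ifs with h
    · have h0 := hd l
      have h2 := (le_abs_self _).trans (habs (j + 1 - d l) (by omega) (T ∪ A) (subset_univ _))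
      have h3 : (3 : ℝ) ^ (j + 1 - d l) ≤ 3 ^ j := pow_le_pow_right₀ (by norm_num) (by omega)
      have h4 : (3 : ℝ) ^ (j + 1 - d l) * (1 * (n : ℝ) ^ (j + 1 - d l)) ≤
          3 ^ j * (n : ℝ) ^ (j + 1 - d l) := by
        rw [one_mul]
        exact mul_le_mul_of_nonneg_right h3 (by positivity)
      push_cast
      linarith
    · push_cast
      linarith

theorem bvan_size {n J e : ℕ} (hn : 1 ≤ n) (hJ : 1 ≤ J) (he : 0 < e) (C M : ℝ)
    (hM : |C| + 1 ≤ M) : (⌈C * (n : ℝ) ^ ((e : ℝ) - e / (2 * J))⌉₊ : ℝ) ≤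
      M * ((n : ℝ) ^ e / (n : ℝ) ^ (1 / (2 * J : ℝ))) := by
  have hn1 : (1 : ℝ) ≤ n := by exact_mod_cast hn
  have hJ1 : (1 : ℝ) ≤ J := by exact_mod_cast hJ
  have he1 : (1 : ℝ) ≤ e := by exact_mod_cast he
  have h1 : (n : ℝ) ^ e / (n : ℝ) ^ (1 / (2 * J : ℝ)) = (n : ℝ) ^ ((e : ℝ) - 1 / (2 * J)) := by
    rw [Real.rpow_sub (by linarith), Real.rpow_natCast]
  have h2 : (n : ℝ) ^ ((e : ℝ) - e / (2 * J)) ≤ (n : ℝ) ^ ((e : ℝ) - 1 / (2 * J)) := by
    refine Real.rpow_le_rpow_of_exponent_le hn1 ?_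
    have := div_le_div_of_nonneg_right he1 (by positivity : (0 : ℝ) ≤ 2 * J)
    linarith
  have h3 : (1 : ℝ) ≤ (n : ℝ) ^ ((e : ℝ) - 1 / (2 * J)) := by
    refine Real.one_le_rpow hn1 ?_
    have : 1 / (2 * J : ℝ) ≤ 1 := by
      rw [div_le_one (by positivity)]
      linarith
    linarith
  have h0 : 0 ≤ (n : ℝ) ^ ((e : ℝ) - e / (2 * J)) := by positivity
  have h4 : C * (n : ℝ) ^ ((e : ℝ) - e / (2 * J)) ≤ |C| * (n : ℝ) ^ ((e : ℝ) - 1 / (2 * J)) :=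
    mul_le_mul (le_abs_self C) h2 h0 (abs_nonneg C)
  rw [h1]
  generalize (n : ℝ) ^ ((e : ℝ) - 1 / (2 * J)) = u at h3 h4 ⊢
  have h5 : 0 ≤ |C| * u := mul_nonneg (abs_nonneg C) (by linarith)
  calc (⌈C * (n : ℝ) ^ ((e : ℝ) - e / (2 * J))⌉₊ : ℝ) ≤ (⌈|C| * u⌉₊ : ℝ) := by
        exact_mod_cast Nat.ceil_mono h4
    _ ≤ |C| * u + 1 := (Nat.ceil_lt_add_one h5).le
    _ ≤ (|C| + 1) * u := by linarith
    _ ≤ M * u := mul_le_mul_of_nonneg_right hM (by linarith)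

theorem van (j : ℕ) : ∃ k n0 : ℕ, ∀ (K : Type) [Field K] [Infinite K] (n r : ℕ) (d : Fin r → ℕ)
    (ε : ℝ), n0 ≤ n → 0 < ε → 1 ≤ ε ^ k * n → (∀ i, 0 < d i) → (∀ i ≤ j, 0 < al n d univ i) →
    (al n d univ (j + 1) : ℝ) ≤ -(ε * (n : ℝ) ^ (j + 1)) →
    Gen fun c : Fin r × Finset (Fin n) → K => hilb d c (j + 1) = 0 := by
  have hv : ∀ e : ℕ, ∃ C : ℝ, 0 < e → e ≤ j + 1 → ∀ (K : Type) [Field K] [Infinite K]
      (n r : ℕ) (d : Fin r → ℕ) (A : Finset (Fin r)), (∀ i, 0 < d i) →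
      truncCoeff (series n d A) (j + 1) = 0 →
      C * (n : ℝ) ^ ((e : ℝ) - e / (2 * ((j + 1 : ℕ) : ℝ))) ≤ (Aᶜ.filter fun i => d i = e).card →
      Gen fun c : Fin r × Finset (Fin n) → K => hilb d c (j + 1) = 0 := by
    intro e
    by_cases h : 0 < e ∧ e ≤ j + 1
    · obtain ⟨C, hC⟩ := vanish (j + 1) e h.1 h.2
      exact ⟨C, fun _ _ => hC⟩
    · exact ⟨0, fun h1 h2 => absurd ⟨h1, h2⟩ h⟩
  choose C hC using hv
  obtain ⟨M, hM0, hM⟩ : ∃ M : ℝ, 0 ≤ M ∧ ∀ e ≤ j + 1, |C e| + 1 ≤ M :=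
    ⟨∑ e ∈ range (j + 2), (|C e| + 1), sum_nonneg fun e _ => by positivity, fun e he =>
      single_le_sum (f := fun e => |C e| + 1) (fun e _ => by positivity)
        (mem_range.2 (by omega))⟩
  refine ⟨4 * (j + 1), ⌈(((j + 1 : ℕ) : ℝ) * (3 ^ j * M)) ^ (4 * (j + 1))⌉₊ + 1,
    fun K _ _ n r d ε hn hε hεn hd hpos hneg => ?_⟩
  have hn1 : 1 ≤ n := by omega
  have hn0 : (0 : ℝ) < n := by exact_mod_cast hn1
  have hJ : (1 : ℝ) ≤ ((j + 1 : ℕ) : ℝ) := by exact_mod_cast Nat.succ_pos j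
  have hsz := fun e (he : 0 < e) (he' : e ≤ j + 1) =>
    bvan_size hn1 (Nat.succ_pos j) he (C e) M (hM e he')
  set y : ℝ := (n : ℝ) ^ (1 / (2 * ((j + 1 : ℕ) : ℝ))) with hy
  have hy0 : 0 < y := Real.rpow_pos_of_pos hn0 _
  have hyn : y ^ (4 * (j + 1)) = (n : ℝ) * n := by
    rw [hy, ← Real.rpow_natCast, ← Real.rpow_mul hn0.le, ← sq, ← Real.rpow_natCast]
    congr 1
    push_cast
    field_simp
    norm_num
  have hB : ((j + 1 : ℕ) : ℝ) * (3 ^ j * M) < ε * y := by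
    refine lt_of_pow_lt_pow_left₀ (4 * (j + 1)) (by positivity) ?_
    have h1 : (((j + 1 : ℕ) : ℝ) * (3 ^ j * M)) ^ (4 * (j + 1)) < n :=
      (Nat.le_ceil _).trans_lt (by exact_mod_cast hn)
    refine h1.trans_le ?_
    rw [mul_pow, hyn, ← mul_assoc]
    exact le_mul_of_one_le_left hn0.le hεn
  have hu : 0 < (n : ℝ) ^ (j + 1) / y := by positivity
  have hkey : ((j + 1 : ℕ) : ℝ) * (3 ^ j * M * ((n : ℝ) ^ (j + 1) / y)) <
      ε * (n : ℝ) ^ (j + 1) := by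
    have h1 := mul_lt_mul_of_pos_right hB hu
    have h2 : ε * y * ((n : ℝ) ^ (j + 1) / y) = ε * (n : ℝ) ^ (j + 1) := by field_simp
    rw [h2, mul_assoc] at h1
    exact h1
  have hterm : ∀ e, 0 < e → e ≤ j + 1 → ∀ S : Finset (Fin r), (∀ l ∈ S, d l = e) →
      S.card ≤ ⌈C e * (n : ℝ) ^ ((e : ℝ) - e / (2 * ((j + 1 : ℕ) : ℝ)))⌉₊ →
      ∑ l ∈ S, (3 : ℝ) ^ j * (n : ℝ) ^ (j + 1 - d l) ≤ 3 ^ j * M * ((n : ℝ) ^ (j + 1) / y) := by
    intro e he he' S hS hc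
    rw [sum_congr rfl fun l hl => by rw [hS l hl], sum_const, nsmul_eq_mul]
    have h1 : (S.card : ℝ) ≤ M * ((n : ℝ) ^ e / y) := (Nat.cast_le.2 hc).trans (hsz e he he')
    refine (mul_le_mul_of_nonneg_right h1 (by positivity)).trans (le_of_eq ?_)
    have h2 : (n : ℝ) ^ (j + 1) = (n : ℝ) ^ e * (n : ℝ) ^ (j + 1 - e) := by
      rw [← pow_add]
      congr 1
      omega
    rw [h2]
    ring
  have hW : 0 ≤ 3 ^ j * M * ((n : ℝ) ^ (j + 1) / y) := by positivity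
  by_cases hcase : ∃ e, 0 < e ∧ e ≤ j + 1 ∧
      ⌈C e * (n : ℝ) ^ ((e : ℝ) - e / (2 * ((j + 1 : ℕ) : ℝ)))⌉₊ ≤
        (univ.filter fun l => d l = e).card
  · obtain ⟨e, he, he', hc⟩ := hcase
    obtain ⟨S, hS, hSc⟩ := exists_subset_card_eq hc
    have hSe : ∀ l ∈ S, d l = e := fun l hl => (mem_filter.1 (hS hl)).2
    refine hC e he he' K n r d Sᶜ hd ?_ ?_
    · have h1 := bvan_remove d j hd hpos Sᶜ S disjoint_compl_right
      rw [union_compl, sum_congr rfl fun l hl => if_pos ((hSe l hl).trans_le he')] at h1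
      have h2 := hterm e he he' S hSe hSc.le
      have h3 := le_mul_of_one_le_left hW hJ
      have h4 : (al n d Sᶜ (j + 1) : ℝ) < 0 := by linarith
      have h5 : al n d Sᶜ (j + 1) < 0 := by exact_mod_cast h4
      exact if_neg fun h => absurd (h (j + 1) le_rfl) (not_lt.2 h5.le)
    · rw [compl_compl, filter_true_of_mem hSe, hSc]
      exact Nat.le_ceil _
  · exfalso
    have h1 := bvan_remove d j hd hpos ∅ univ (disjoint_empty_right _)
    rw [union_empty, sum_by_degree d univ (fun l _ => hd l)] at h1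
    have h2 : ∑ k ∈ range (j + 1), ∑ l ∈ univ.filter (fun l => d l = j + 1 - k),
        (3 : ℝ) ^ j * (n : ℝ) ^ (j + 1 - d l) ≤
        ∑ _k ∈ range (j + 1), 3 ^ j * M * ((n : ℝ) ^ (j + 1) / y) := by
      refine sum_le_sum fun k hk => ?_
      have hk' := mem_range.1 hk
      refine hterm (j + 1 - k) (by omega) (by omega) _ (fun l hl => (mem_filter.1 hl).2) ?_
      by_contra hlt
      exact hcase ⟨j + 1 - k, by omega, by omega, (not_le.1 hlt).le⟩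
    rw [sum_const, card_range, nsmul_eq_mul] at h2
    have h3 : (0 : ℝ) ≤ al n d ∅ (j + 1) := by
      rw [al, prod_empty, mul_one, Polynomial.coeff_one_add_X_pow]
      positivity
    linarith

end Pool.Agent.P.MP_3acc10_al.Bld
end

-- part Pool.Agent.P.MP_3acc10_al.BMain
section

set_option autoImplicit false

namespace Pool.Agent.P.MP_3acc10_al.Bld

open Finset Module Matrix

theorem margin (J : ℕ) : ∃ (γ : ℝ) (n0 : ℕ), 0 < γ ∧ ∀ (K : Type) [Field K] [CharZero K]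
    (n r : ℕ) (d : Fin r → ℕ), n0 ≤ n → (∀ i, 0 < d i) →
    (∀ i < J, 0 < truncCoeff (series n d univ) i →
      (n : ℝ) ^ ((i + 1 : ℝ) - γ) ≤ |(((series n d univ).coeff (i + 1) : ℤ) : ℝ)|) →
    ∃ P : MvPolynomial (Fin r × Finset (Fin n)) K, P ≠ 0 ∧ ∀ c, MvPolynomial.eval c P ≠ 0 →
      ∀ j, (j ≤ J ∨ truncCoeff (series n d univ) J = 0) →
        (hilb d c j : ℤ) = truncCoeff (series n d univ) j := by
  choose k1 n1 h1 using core
  choose k2 n2 h2 using van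
  obtain ⟨k, hk⟩ : ∃ k, k = (range (J + 1)).sup k1 + (range (J + 1)).sup k2 + 1 := ⟨_, rfl⟩
  have hk0 : (0 : ℝ) < k := by exact_mod_cast (show 0 < k by omega)
  refine ⟨(k : ℝ)⁻¹, (range (J + 1)).sup n1 + (range (J + 1)).sup n2 + 1, by positivity, ?_⟩
  intro K _ _ n r d hn hd hmar
  have : Infinite K := Infinite.of_injective _ Nat.cast_injective
  have hnr : (0 : ℝ) < n := by exact_mod_cast (show 0 < n by omega)
  have hnr1 : (1 : ℝ) ≤ n := by exact_mod_cast (show 1 ≤ n by omega)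
  obtain ⟨ε, hεe⟩ : ∃ ε : ℝ, ε = (n : ℝ) ^ (-(k : ℝ)⁻¹) := ⟨_, rfl⟩
  have hε : 0 < ε := by rw [hεe]; positivity
  have hε1 : ε ≤ 1 := by
    rw [hεe]; exact Real.rpow_le_one_of_one_le_of_nonpos hnr1 (neg_nonpos.2 (by positivity))
  have hεk : ∀ k' ≤ k, 1 ≤ ε ^ k' * n := by
    intro k' hk'
    refine le_trans (le_of_eq ?_)
      (mul_le_mul_of_nonneg_right (pow_le_pow_of_le_one hε.le hε1 hk') hnr.le)
    rw [hεe, ← Real.rpow_natCast, ← Real.rpow_mul hnr.le, neg_mul, inv_mul_cancel₀ hk0.ne',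
      Real.rpow_neg_one, inv_mul_cancel₀ hnr.ne']
  have hεi : ∀ i : ℕ, (n : ℝ) ^ ((i + 1 : ℝ) - (k : ℝ)⁻¹) = ε * (n : ℝ) ^ (i + 1) := by
    intro i
    rw [hεe, sub_eq_add_neg, Real.rpow_add hnr, mul_comm, ← Real.rpow_natCast]
    push_cast
    rfl
  simp only [hεi] at hmar
  classical
  have tc : ∀ i, truncCoeff (series n d univ) i =
      if ∀ k ≤ i, 0 < al n d univ k then al n d univ i else 0 := fun i => by
    rw [truncCoeff]; congr
  have co : ∀ i, (series n d univ).coeff i = al n d univ i := fun i => rfl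
  obtain ⟨s, hs⟩ : ∃ s, s = Nat.findGreatest (fun i => ∀ k ≤ i, 0 < al n d univ k) J := ⟨_, rfl⟩
  have hsJ : s ≤ J := hs ▸ Nat.findGreatest_le J
  have hpos : ∀ k ≤ s, 0 < al n d univ k := by
    rw [hs]
    refine Nat.findGreatest_spec (P := fun i => ∀ k ≤ i, 0 < al n d univ k) (Nat.zero_le J) ?_
    intro k hk
    rw [Nat.le_zero.1 hk, Nak.al_zero n d _ hd]
    exact one_pos
  have hs1 : n1 s ≤ n := by
    have := le_sup (f := n1) (mem_range.2 (show s < J + 1 by omega))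
    omega
  have hs2 : n2 s ≤ n := by
    have := le_sup (f := n2) (mem_range.2 (show s < J + 1 by omega))
    omega
  have hs3 : k1 s ≤ k := by
    have := le_sup (f := k1) (mem_range.2 (show s < J + 1 by omega))
    omega
  have hs4 : k2 s ≤ k := by
    have := le_sup (f := k2) (mem_range.2 (show s < J + 1 by omega))
    omega
  have hm : ∀ i < J, i ≤ s → ε * (n : ℝ) ^ (i + 1) ≤ |(al n d univ (i + 1) : ℝ)| := by
    intro i hi his
    refine hmar i hi ?_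
    rw [tc, if_pos fun k hk => hpos k (hk.trans his)]
    exact hpos i his
  have g1 := h1 s K n (Fin r) d ε hs1 hε hε1 (hεk _ hs3) hd fun i hi h0 => by
    obtain ⟨i, rfl⟩ := Nat.exists_eq_succ_of_ne_zero h0.ne'
    have h3 := hm i (by omega) (by omega)
    rwa [abs_of_pos (by exact_mod_cast hpos _ hi)] at h3
  have lo : ∀ c : Fin r × Finset (Fin n) → K,
      (∀ i ≤ s, (finrank K (WF i d univ c) : ℤ) = al n d univ i) →
      ∀ j ≤ s, (hilb d c j : ℤ) = truncCoeff (series n d univ) j := by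
    intro c hc j hj
    rw [hilb_eq, tc, if_pos fun k hk => hpos k (hk.trans hj), hc j hj]
  rcases hsJ.eq_or_lt with rfl | hlt
  · refine g1.mono fun c hc j hj => lo c hc j (hj.resolve_right ?_)
    rw [tc, if_pos hpos]
    exact (hpos _ le_rfl).ne'
  have hneg : ¬ 0 < al n d univ (s + 1) := by
    intro h
    refine Nat.findGreatest_is_greatest (P := fun i => ∀ k ≤ i, 0 < al n d univ k)
      (hs ▸ Nat.lt_succ_self s) (Nat.succ_le_of_lt hlt) fun k hk => ?_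
    rcases hk.eq_or_lt with rfl | hk
    · exact h
    · exact hpos k (by omega)
  have g2 := h2 s K n r d ε hs2 hε (hεk _ hs4) hd hpos (by
    have h3 := hm s hlt le_rfl
    rw [abs_of_nonpos (by exact_mod_cast not_lt.1 hneg)] at h3
    linarith)
  refine (g1.and g2).mono fun c hc j _ => ?_
  rcases le_or_gt j s with hj | hj
  · exact lo c hc.1 j hj
  · obtain ⟨k, rfl⟩ := Nat.exists_eq_add_of_le (Nat.succ_le_of_lt hj)
    have h3 := finrank_WF_add (s + 1) k d univ c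
    have h4 := hc.2
    rw [hilb_eq] at h4
    rw [h4, mul_zero, Nat.le_zero] at h3
    rw [hilb_eq, tc, if_neg fun h => hneg (h _ (by omega)), h3]
    rfl

end Pool.Agent.P.MP_3acc10_al.Bld
end
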