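import Pool.Agent.K.MP_3acc10_al.C0
import Pool.Agent.K.MP_3acc10_al.C6

-- part Pool.Agent.P.MP_3acc10_al.BDefs
section

set_option autoImplicit false

namespace Pool.Agent.P.MP_3acc10_al.Bld

open Finset

section Auto

variable {S L X Λ : Type}

/-- the homogeneous system has only the zero solution -/
def Uniq [Fintype X] (Q : Finset S) (al : S → Finset L) (up : S → L → S)
    (M : L → Matrix X X ℂ) : Prop :=
  ∀ Δ : S → Matrix X X ℂ, (∀ σ ∈ Q, Δ σ = ∑ t ∈ al σ, Δ (up σ t) * M t) → ∀ σ ∈ Q, Δ σ = 0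

/-- sums over paths of a given length -/
noncomputable def BB [Fintype X] [DecidableEq X] [DecidableEq S] (al : S → Finset L)
    (up : S → L → S) (M : L → Matrix X X ℂ) : ℕ → S → S → Matrix X X ℂ
  | 0 => fun σ σ' => if σ = σ' then 1 else 0
  | k + 1 => fun σ σ' => ∑ t ∈ al σ, BB al up M k (up σ t) σ' * M t

theorem BB_realize : True := by have := @BB.eq_def; trivial

lemma BB_zero [Fintype X] [DecidableEq X] [DecidableEq S] (al : S → Finset L)
    (up : S → L → S) (M : L → Matrix X X ℂ) (σ σ' : S) :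
    BB al up M 0 σ σ' = if σ = σ' then 1 else 0 := rfl

lemma BB_succ [Fintype X] [DecidableEq X] [DecidableEq S] (al : S → Finset L)
    (up : S → L → S) (M : L → Matrix X X ℂ) (k : ℕ) (σ σ' : S) :
    BB al up M (k + 1) σ σ' = ∑ t ∈ al σ, BB al up M k (up σ t) σ' * M t := rfl

/-- a monomial in the phases -/
noncomputable def chi [Fintype Λ] (A : Λ → ℂ) (c : Λ → ℤ) : ℂ := ∏ γ, A γ ^ c γ

/-- the step matrices -/
noncomputable def Tg [Fintype Λ] (k : L → X → X → ℝ) (dl : L → X → X → Λ → ℤ) (A : Λ → ℂ)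
    (t : L) : Matrix X X ℂ :=
  Matrix.of fun y x => -((k t x y : ℂ) * chi A (dl t x y))

/-- a state is an alphabet and a set of forbidden letters -/
abbrev St (L : Type) := Finset L × Finset L

variable [DecidableEq L]

/-- the allowed letters -/
def alw (σ : St L) : Finset L := σ.1 \ σ.2

open Classical in
/-- the state after a letter -/
noncomputable def upd (Ad : L → L → Prop) (rk : L → ℕ) (σ : St L) (t : L) : St L :=
  (σ.1, insert t (σ.1.filter fun s => Ad t s ∧ (s ∈ σ.2 ∨ rk s < rk t)))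

open Classical in
/-- restriction to the letters which commute with a given one -/
noncomputable def res (Ad : L → L → Prop) (u : L) (σ : St L) : St L :=
  (σ.1.filter (Ad u), σ.2.filter (Ad u))

lemma mem_alw {σ : St L} {t : L} : t ∈ alw σ ↔ t ∈ σ.1 ∧ t ∉ σ.2 := mem_sdiff

lemma upd_fst (Ad : L → L → Prop) (rk : L → ℕ) (σ : St L) (t : L) : (upd Ad rk σ t).1 = σ.1 := rfl

lemma mem_upd {Ad : L → L → Prop} {rk : L → ℕ} {σ : St L} {t s : L} :
    s ∈ (upd Ad rk σ t).2 ↔ s = t ∨ (s ∈ σ.1 ∧ Ad t s ∧ (s ∈ σ.2 ∨ rk s < rk t)) := by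
  simp [upd]

omit [DecidableEq L] in
lemma mem_res_fst {Ad : L → L → Prop} {u : L} {σ : St L} {s : L} :
    s ∈ (res Ad u σ).1 ↔ s ∈ σ.1 ∧ Ad u s := by
  simp [res]

omit [DecidableEq L] in
lemma mem_res_snd {Ad : L → L → Prop} {u : L} {σ : St L} {s : L} :
    s ∈ (res Ad u σ).2 ↔ s ∈ σ.2 ∧ Ad u s := by
  simp [res]

end Auto

variable {n j : ℕ} {ι : Type} [Fintype ι] [DecidableEq ι]

/-- letters: a form or the repetition test, on a set of slots -/
abbrev Let (ι : Type) (j : ℕ) := Option ι × Finset (Fin j)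

/-- commuting letters -/
def Adj (t u : Let ι j) : Prop := t ≠ u ∧ (Disjoint t.2 u.2 ∨ (t.1 = none ∧ u.1 = none))

/-- an injective rank of the sets of slots -/
noncomputable def rkS (π : Finset (Fin j)) : ℕ := (Fintype.equivFin (Finset (Fin j)) π : ℕ)

/-- the rank of a letter -/
noncomputable def rk (t : Let ι j) : ℕ := rkS t.2

/-- valid letters -/
def Val (d : ι → ℕ) (B : Finset ι) (t : Let ι j) : Prop :=
  (∀ a, t.1 = some a → a ∈ B) ∧ t.2.card = t.1.elim 2 d

/-- the shape of a letter -/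
def sh (t : Let ι j) : Bool × Finset (Fin j) := (t.1.isSome, t.2)

open Classical in
/-- the valid letters with prescribed shapes -/
noncomputable def Alph (d : ι → ℕ) (B : Finset ι) (𝒮 : Finset (Bool × Finset (Fin j))) :
    Finset (Let ι j) := univ.filter fun t => Val d B t ∧ sh t ∈ 𝒮

open Classical in
/-- the valid letters inside a set of slots -/
noncomputable def AlU (d : ι → ℕ) (B : Finset ι) (U : Finset (Fin j)) : Finset (Let ι j) :=
  univ.filter fun t => Val d B t ∧ t.2 ⊆ U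

/-- the initial states -/
noncomputable def ini (d : ι → ℕ) (B : Finset ι) (l : ι) (U : Finset (Fin j))
    (Ω : Finset (Finset (Fin j))) : St (Let ι j) :=
  (AlU d B U, Ω.image fun π => (some l, π))

open Classical in
/-- the set of states -/
noncomputable def Qs (j : ℕ) (d : ι → ℕ) (ℬ : Finset (Finset ι)) : Finset (St (Let ι j)) :=
  univ.filter fun σ => ∃ B ∈ ℬ, ∃ 𝒮 Fs : Finset (Bool × Finset (Fin j)), ∃ cl : Finset (Let ι j),
    σ.1 = Alph d B 𝒮 ∧ cl ⊆ σ.1 ∧ (∀ t ∈ cl, ∀ u ∈ cl, t ≠ u → Adj t u) ∧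
      ∀ s, s ∈ σ.2 ↔ (s ∈ σ.1 ∧ sh s ∈ Fs) ∨ s ∈ cl

/-- two points in the same panel -/
def Pan (π : Finset (Fin j)) (x y : Fin j → Fin n) : Prop :=
  (∀ p, p ∉ π → y p = x p) ∧ Set.InjOn x π ∧ Set.InjOn y π

/-- the weight of a step -/
noncomputable def kap (n e : ℕ) : ℝ := ((n.choose e - 1 : ℕ) : ℝ)⁻¹

open Classical in
/-- the kernel of a step -/
noncomputable def kk (t : Let ι j) (x y : Fin j → Fin n) : ℝ :=
  if t.1.isSome then
    (if Pan t.2 x y ∧ t.2.image y ≠ t.2.image x then kap n t.2.card / t.2.card.factorial else 0)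
  else (if y = x ∧ ¬ Set.InjOn x t.2 then 1 else 0)

/-- the labels of a step -/
def dl (t : Let ι j) (x y : Fin j → Fin n) : ι × Finset (Fin n) → ℤ :=
  t.1.elim 0 fun a => Pi.single (a, t.2.image y) 1 - Pi.single (a, t.2.image x) 1

/-- the step matrices -/
noncomputable def Tm (A : ι × Finset (Fin n) → ℂ) (t : Let ι j) :
    Matrix (Fin j → Fin n) (Fin j → Fin n) ℂ := Tg kk dl A t

open Classical in
/-- the projections -/
noncomputable def Em (A : ι × Finset (Fin n) → ℂ) (u : Let ι j) :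
    Matrix (Fin j → Fin n) (Fin j → Fin n) ℂ :=
  Matrix.of fun y x => if u.1.isSome then
    (if Pan u.2 x y then ((u.2.card.factorial * n.choose u.2.card : ℕ) : ℂ)⁻¹ * chi A (dl u x y)
      else 0)
  else (if y = x ∧ ¬ Set.InjOn x u.2 then 1 else 0)

open Classical in
/-- a form placed on a set of slots -/
noncomputable def fl (A : ι × Finset (Fin n) → ℂ) (a : ι) (π : Finset (Fin j)) :
    (Fin j → Fin n) → ℂ := fun x => if Set.InjOn x π then A (a, π.image x) else 0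

open Classical in
/-- a function of sets placed on a set of slots -/
noncomputable def lift (U : Finset (Fin j)) (F : Finset (Fin n) → ℂ) : (Fin j → Fin n) → ℂ :=
  fun x => if Set.InjOn x U then F (U.image x) else 0

/-- dependence on the coordinates in a set of slots only -/
def Dep (V : Finset (Fin j)) (w : (Fin j → Fin n) → ℂ) : Prop :=
  ∀ x y, (∀ p ∈ V, x p = y p) → w x = w y

open Classical in
/-- averaging -/
noncomputable def Av (U : Finset (Fin j)) (w F : (Fin j → Fin n) → ℂ) : Finset (Fin n) → ℂ :=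
  fun S => ∑ x, if Set.InjOn x U ∧ U.image x = S then star (w x) * F x else 0

/-- the forms -/
noncomputable abbrev gf (d : ι → ℕ) (A : ι × Finset (Fin n) → ℂ) : ι → Finset (Fin n) → ℂ :=
  mask (fun i Y => Y.card = d i) fun p => star (A p)

/-- multiplicity of a value -/
def mult (x : Fin j → Fin n) (e : Fin n) : ℕ := (univ.filter fun p => x p = e).card

/-- positive labels through a value -/
def cre (c : ι × Finset (Fin n) → ℤ) (e : Fin n) : ℕ :=
  ∑ γ ∈ univ.filter (fun γ : ι × Finset (Fin n) => e ∈ γ.2), (c γ).toNat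

/-- the use of a value -/
def uu (x0 : Fin j → Fin n) (c : ι × Finset (Fin n) → ℤ) (e : Fin n) : ℕ := mult x0 e + cre c e

/-- the use of a form -/
def zz (c : ι × Finset (Fin n) → ℤ) (a : ι) : ℕ := ∑ I : Finset (Fin n), (c (a, I)).toNat

/-- label vectors which can occur on a walk -/
def Good (x0 x : Fin j → Fin n) (c : ι × Finset (Fin n) → ℤ) : Prop :=
  (∀ e, (mult x e : ℤ) - mult x0 e =
    ∑ γ ∈ univ.filter (fun γ : ι × Finset (Fin n) => e ∈ γ.2), c γ) ∧
  (∀ a, ∑ I : Finset (Fin n), c (a, I) = 0) ∧ ∀ γ, c γ ≠ 0 → γ.2.card ≤ j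

/-- the symmetric part of the potential -/
noncomputable def base (ω : ι → ℝ) (lam : ℝ) (x0 : Fin j → Fin n)
    (c : ι × Finset (Fin n) → ℤ) : ℝ :=
  (∏ a, ω a ^ zz c a) * lam ^ (∑ e, (uu x0 c e - 1) + ∑ a, (zz c a - 1))

/-- letters which close a label without a coincidence -/
def Clo (x0 x : Fin j → Fin n) (σ : St (Let ι j)) (c : ι × Finset (Fin n) → ℤ) (a : ι)
    (π : Finset (Fin j)) : Prop :=
  (some a, π) ∈ alw σ ∧ Set.InjOn x π ∧ 0 < c (a, π.image x) ∧ ∀ p ∈ π, uu x0 c (x p) = 1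

/-- new values -/
def Fresh (x0 : Fin j → Fin n) (c : ι × Finset (Fin n) → ℤ) (π : Finset (Fin j))
    (y : Fin j → Fin n) : Prop := ∀ p ∈ π, uu x0 c (y p) = 0

/-- steps without a coincidence -/
def Nrm (x0 x : Fin j → Fin n) (σ : St (Let ι j)) (c : ι × Finset (Fin n) → ℤ) (a : ι)
    (π : Finset (Fin j)) (y : Fin j → Fin n) : Prop :=
  (zz c a = 0 ∧ Fresh x0 c π y) ∨ (Clo x0 x σ c a π ∧ Fresh x0 c π y) ∨
    (Clo x0 x σ c a π ∧ zz c a = 1 ∧ c (a, π.image y) < 0)

/-- the invariant: blocked slots, doomed labels and used repetition tests -/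
def Inv (x0 x : Fin j → Fin n) (σ : St (Let ι j)) (c : ι × Finset (Fin n) → ℤ)
    (M : Finset (Fin j)) (N : Finset (ι × Finset (Fin n))) (Γ : Finset (Finset (Fin j))) : Prop :=
  (∀ γ ∈ N, 0 < c γ) ∧ (∀ p ∈ M, ∃ γ ∈ N, x p ∈ γ.2) ∧
  (∀ γ ∈ N, (∃ π, π ⊆ M ∧ π.image x = γ.2 ∧ (some γ.1, π) ∉ alw σ) ∨
    (∃ e ∈ γ.2, ∃ β : ι × Finset (Fin n), e ∈ β.2 ∧ c β < 0 ∧ ∃ γ' ∈ N, γ'.1 = β.1) ∨
    ∃ e ∈ γ.2, 2 ≤ uu x0 c e) ∧
  ∀ ρ ∈ Γ, ρ.card = 2 ∧
    (((none, ρ) ∉ alw σ ∧ ¬ Set.InjOn x ρ) ∨ ∃ p ∈ ρ, p ∈ M ∧ uu x0 c (x p) = 1)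

open Classical in
/-- sets of slots which carry no free step -/
noncomputable def Ft (M : Finset (Fin j)) (σ : St (Let ι j)) : Finset (Finset (Fin j)) :=
  univ.filter fun π => ¬ (π ⊆ M ∧ ∃ a, (some a, π) ∈ alw σ)

/-- the forbidden sets of slots after a step -/
noncomputable def nxt (F : Finset (Finset (Fin j))) (π : Finset (Fin j)) :
    Finset (Finset (Fin j)) := univ.filter fun ρ => Disjoint ρ π ∧ (ρ ∈ F ∨ rkS ρ < rkS π)

/-- the sets of slots of small rank -/
noncomputable def lowr (j r : ℕ) : Finset (Finset (Fin j)) := univ.filter fun ρ => rkS ρ < r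

open Classical in
/-- valid auxiliary data -/
noncomputable def VS (x0 x : Fin j → Fin n) (σ : St (Let ι j)) (c : ι × Finset (Fin n) → ℤ) :
    Finset (Finset (Fin j) × Finset (Finset (Fin j))) :=
  univ.filter fun P => ∃ N, Inv x0 x σ c P.1 N P.2

lemma Inv_empty (x0 x : Fin j → Fin n) (σ : St (Let ι j))
    (c : ι × Finset (Fin n) → ℤ) : Inv x0 x σ c ∅ ∅ ∅ := by
  simp [Inv]

lemma VS_ne (x0 x : Fin j → Fin n) (σ : St (Let ι j)) (c : ι × Finset (Fin n) → ℤ) :
    (VS x0 x σ c).Nonempty :=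
  ⟨(∅, ∅), by simp only [VS, mem_filter, mem_univ, true_and]; exact ⟨∅, Inv_empty _ _ _ _⟩⟩

/-- the part of the potential which depends on the state -/
noncomputable def phi (μ : ℝ) (h : Finset (Finset (Fin j)) → ℝ) (x0 x : Fin j → Fin n)
    (σ : St (Let ι j)) (c : ι × Finset (Fin n) → ℤ) : ℝ :=
  (VS x0 x σ c).inf' (VS_ne x0 x σ c) fun P => μ⁻¹ ^ (P.1.card + P.2.card) * h (Ft P.1 σ)

/-- the potential -/
noncomputable def Psi (ω : ι → ℝ) (lam μ : ℝ) (h : Finset (Finset (Fin j)) → ℝ)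
    (x0 x : Fin j → Fin n) (σ : St (Let ι j)) (c : ι × Finset (Fin n) → ℤ) : ℝ :=
  base ω lam x0 c * phi μ h x0 x σ c

/-- the generating function of heaps with forbidden initial pieces -/
structure Hf (z : ℕ → ℝ) (δ : ℝ) (h : Finset (Finset (Fin j)) → ℝ) : Prop where
  znn : ∀ e ≤ j, 0 ≤ z e
  zle : ∀ e ≤ j, z e ≤ 1
  ge : ∀ F, 1 ≤ h F
  le : ∀ F, h F ≤ δ⁻¹
  anti : ∀ F F', F ⊆ F' → h F' ≤ h F
  eq : ∀ F, h F = 1 + ∑ π ∈ Fᶜ, z π.card * h (nxt F π)

open Classical in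
/-- the independence polynomial of a family of sets of slots -/
noncomputable def IP (z : ℕ → ℝ) (F : Finset (Finset (Fin j))) : ℝ :=
  ∑ C ∈ F.powerset.filter (fun C => ∀ π ∈ C, ∀ ρ ∈ C, π ≠ ρ → Disjoint π ρ),
    ∏ π ∈ C, -z π.card

/-- signed counts of families of disjoint sets of slots -/
noncomputable def eta (z : ℕ → ℝ) : ℕ → ℝ
  | 0 => 1
  | i + 1 => eta z i - ∑ k : Fin (i + 1), (i.choose k : ℝ) * z (k + 1) * eta z (i - k)

theorem eta_realize : True := by have := @eta.eq_def; trivial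

lemma eta_zero (z : ℕ → ℝ) : eta z 0 = 1 := by rw [eta]

lemma eta_succ (z : ℕ → ℝ) (i : ℕ) : eta z (i + 1) =
    eta z i - ∑ k ∈ range (i + 1), (i.choose k : ℝ) * z (k + 1) * eta z (i - k) := by
  rw [eta, ← Fin.sum_univ_eq_sum_range (fun k => (i.choose k : ℝ) * z (k + 1) * eta z (i - k))]

/-- the weight of a form -/
noncomputable def om (η0 : ℝ) (n : ℕ) (d : ι → ℕ) (a : ι) : ℝ := (1 + η0) * kap n (d a)

/-- the weight of a set of slots -/
noncomputable def zf (η0 : ℝ) (n : ℕ) (d : ι → ℕ) (A0 : Finset ι) (e : ℕ) : ℝ :=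
  (1 + η0) * (A0.filter fun a => d a = e).card * kap n e

/-- logarithmic derivative of the predicted series -/
def bet (n : ℕ) (d : ι → ℕ) (A : Finset ι) (k : ℕ) : ℤ :=
  (-1) ^ (k + 1) * n - ∑ l ∈ A.filter (fun l => d l ∣ k), (d l : ℤ)

/-- cost of the coincidences -/
noncomputable def tau (j n q : ℕ) (lam : ℝ) : ℝ :=
  lam ^ (j + 1) * (6 * q + 2 * j ^ 2 * (1 + q) ^ 2) / n + 2 * q / lam

/-- the contraction factor -/
noncomputable def th (j n q : ℕ) (δ η0 μ lam : ℝ) : ℝ :=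
  1 - δ * η0 / 2 + 4 * 2 ^ j / (δ * μ) + 2 ^ j * tau j n q lam * μ ^ (j + 2 ^ j) / δ

omit [Fintype ι] [DecidableEq ι] in
lemma Adj_symm {t u : Let ι j} (h : Adj t u) : Adj u t :=
  ⟨h.1.symm, h.2.imp (fun h => h.symm) And.symm⟩

omit [Fintype ι] [DecidableEq ι] in
lemma Adj_irrefl (t : Let ι j) : ¬ Adj t t := fun h => h.1 rfl

lemma rkS_inj : Function.Injective (rkS (j := j)) := fun _ _ h =>
  (Fintype.equivFin _).injective (Fin.val_injective h)

omit [Fintype ι] [DecidableEq ι] in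
lemma Val_some {d : ι → ℕ} {B : Finset ι} {a : ι} {π : Finset (Fin j)} :
    Val d B (some a, π) ↔ a ∈ B ∧ π.card = d a := by
  simp [Val]

omit [Fintype ι] [DecidableEq ι] in
lemma Val_none {d : ι → ℕ} {B : Finset ι} {π : Finset (Fin j)} :
    Val d B ((none, π) : Let ι j) ↔ π.card = 2 := by
  simp [Val]

omit [DecidableEq ι] in
lemma mem_Alph {d : ι → ℕ} {B : Finset ι} {𝒮 : Finset (Bool × Finset (Fin j))} {t : Let ι j} :
    t ∈ Alph d B 𝒮 ↔ Val d B t ∧ sh t ∈ 𝒮 := by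
  simp [Alph]

omit [DecidableEq ι] in
lemma mem_AlU {d : ι → ℕ} {B : Finset ι} {U : Finset (Fin j)} {t : Let ι j} :
    t ∈ AlU d B U ↔ Val d B t ∧ t.2 ⊆ U := by
  simp [AlU]

omit [DecidableEq ι] in
lemma mem_Qs {d : ι → ℕ} {ℬ : Finset (Finset ι)} {σ : St (Let ι j)} :
    σ ∈ Qs j d ℬ ↔ ∃ B ∈ ℬ, ∃ 𝒮 Fs : Finset (Bool × Finset (Fin j)), ∃ cl : Finset (Let ι j),
      σ.1 = Alph d B 𝒮 ∧ cl ⊆ σ.1 ∧ (∀ t ∈ cl, ∀ u ∈ cl, t ≠ u → Adj t u) ∧
        ∀ s, s ∈ σ.2 ↔ (s ∈ σ.1 ∧ sh s ∈ Fs) ∨ s ∈ cl := by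
  simp only [Qs, mem_filter, mem_univ, true_and]

lemma Pan_symm {π : Finset (Fin j)} {x y : Fin j → Fin n} (h : Pan π x y) : Pan π y x :=
  ⟨fun p hp => (h.1 p hp).symm, h.2.2, h.2.1⟩

open Classical in
omit [Fintype ι] [DecidableEq ι] in
lemma kk_some (a : ι) (π : Finset (Fin j)) (x y : Fin j → Fin n) : kk (some a, π) x y =
    if Pan π x y ∧ π.image y ≠ π.image x then kap n π.card / π.card.factorial else 0 := by
  simp [kk]

open Classical in
omit [Fintype ι] [DecidableEq ι] in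
lemma kk_none (π : Finset (Fin j)) (x y : Fin j → Fin n) :
    kk ((none, π) : Let ι j) x y = if y = x ∧ ¬ Set.InjOn x π then 1 else 0 := by
  simp [kk]

omit [Fintype ι] in
lemma dl_some (a : ι) (π : Finset (Fin j)) (x y : Fin j → Fin n) : dl (some a, π) x y =
    Pi.single (a, π.image y) 1 - Pi.single (a, π.image x) 1 := rfl

omit [Fintype ι] in
lemma dl_none (π : Finset (Fin j)) (x y : Fin j → Fin n) :
    dl ((none, π) : Let ι j) x y = 0 := rfl

lemma Tm_apply (A : ι × Finset (Fin n) → ℂ) (t : Let ι j) (y x : Fin j → Fin n) :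
    Tm A t y x = -((kk t x y : ℂ) * chi A (dl t x y)) := rfl

open Classical in
lemma Em_some (A : ι × Finset (Fin n) → ℂ) (a : ι) (π : Finset (Fin j)) (y x : Fin j → Fin n) :
    Em A (some a, π) y x = if Pan π x y then
      ((π.card.factorial * n.choose π.card : ℕ) : ℂ)⁻¹ * chi A (dl (some a, π) x y) else 0 := by
  simp [Em]

open Classical in
lemma Em_none (A : ι × Finset (Fin n) → ℂ) (π : Finset (Fin j)) (y x : Fin j → Fin n) :
    Em A (none, π) y x = if y = x ∧ ¬ Set.InjOn x π then 1 else 0 := by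
  simp [Em]

lemma chi_zero {Λ : Type} [Fintype Λ] (A : Λ → ℂ) : chi A 0 = 1 := by simp [chi]

lemma chi_add {Λ : Type} [Fintype Λ] {A : Λ → ℂ} (hA : ∀ γ, ‖A γ‖ = 1) (c c' : Λ → ℤ) :
    chi A (c + c') = chi A c * chi A c' := by
  rw [chi, chi, chi, ← prod_mul_distrib]
  refine prod_congr rfl fun γ _ => ?_
  rw [Pi.add_apply, zpow_add₀ (fun h => by simpa [h] using hA γ)]

lemma chi_neg {Λ : Type} [Fintype Λ] {A : Λ → ℂ} (hA : ∀ γ, ‖A γ‖ = 1) (c : Λ → ℤ) :
    chi A (-c) = star (chi A c) := by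
  rw [chi, chi, star_prod]
  refine prod_congr rfl fun γ _ => ?_
  rw [Pi.neg_apply, star_zpow₀, zpow_neg, ← inv_zpow, Complex.inv_eq_conj (hA γ)]
  rfl

lemma chi_single {Λ : Type} [Fintype Λ] [DecidableEq Λ] (A : Λ → ℂ) (α : Λ) :
    chi A (Pi.single α 1) = A α := by
  rw [chi, prod_eq_single α]
  · simp
  · intro γ _ h
    simp [Pi.single_eq_of_ne h]
  · simp

lemma chi_dl {A : ι × Finset (Fin n) → ℂ} (hA : ∀ γ, ‖A γ‖ = 1) (a : ι) (π : Finset (Fin j))
    (x y : Fin j → Fin n) :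
    chi A (dl (some a, π) x y) = A (a, π.image y) * star (A (a, π.image x)) := by
  rw [dl_some, sub_eq_add_neg, chi_add hA, chi_neg hA, chi_single, chi_single]

lemma mul_star_self {Λ : Type} {A : Λ → ℂ} (hA : ∀ γ, ‖A γ‖ = 1) (γ : Λ) :
    A γ * star (A γ) = 1 := by
  rw [Complex.star_def, Complex.mul_conj, Complex.normSq_eq_norm_sq, hA]
  simp

lemma le_choose {e : ℕ} (hn : j + 2 ≤ n) (he : 0 < e) (hej : e ≤ j) : n ≤ n.choose e := by
  obtain ⟨e, rfl⟩ := Nat.exists_eq_add_of_lt he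
  obtain ⟨m, rfl⟩ := Nat.exists_eq_add_of_le' (show 1 ≤ n by omega)
  have h1 := Nat.add_one_mul_choose_eq m (0 + e)
  have h2 : 0 + e + 1 ≤ m.choose (0 + e) := by
    have h3 := Nat.choose_le_choose (0 + e) (show 0 + e + 1 ≤ m by omega)
    rwa [Nat.choose_succ_self_right] at h3
  have h4 : (m + 1) * (0 + e + 1) ≤ (m + 1).choose (0 + e + 1) * (0 + e + 1) := by
    rw [← h1]; exact Nat.mul_le_mul_left _ h2
  exact Nat.le_of_mul_le_mul_right h4 (by omega)

lemma kap_nonneg (n e : ℕ) : 0 ≤ kap n e := by unfold kap; positivity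

lemma kap_eq {n e : ℕ} (h : e ≤ n) : kap n e = ((n.choose e : ℝ) - 1)⁻¹ := by
  rw [kap, Nat.cast_sub (Nat.choose_pos h), Nat.cast_one]

lemma kap_pos {e : ℕ} (hn : j + 2 ≤ n) (he : 0 < e) (hej : e ≤ j) : 0 < kap n e := by
  have h1 : (n : ℝ) ≤ n.choose e := by exact_mod_cast le_choose hn he hej
  have h2 : (2 : ℝ) ≤ n := by exact_mod_cast (show 2 ≤ n by omega)
  rw [kap_eq (by omega)]
  exact inv_pos.2 (by linarith)

lemma kap_mul {e : ℕ} (hn : j + 2 ≤ n) (he : 0 < e) (hej : e ≤ j) :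
    kap n e * ((n.choose e : ℝ) - 1) = 1 := by
  have h1 : (n : ℝ) ≤ n.choose e := by exact_mod_cast le_choose hn he hej
  have h2 : (2 : ℝ) ≤ n := by exact_mod_cast (show 2 ≤ n by omega)
  rw [kap_eq (by omega)]
  exact inv_mul_cancel₀ (by linarith)

lemma kap_choose {e : ℕ} (hn : j + 2 ≤ n) (he : 0 < e) (hej : e ≤ j) :
    kap n e * n.choose e ≤ 2 := by
  have h1 : (n : ℝ) ≤ n.choose e := by exact_mod_cast le_choose hn he hej
  have h2 : (2 : ℝ) ≤ n := by exact_mod_cast (show 2 ≤ n by omega)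
  have h3 := kap_pos hn he hej
  have h4 := kap_mul hn he hej
  nlinarith

lemma kap_le {e : ℕ} (hn : j + 2 ≤ n) (he : 0 < e) (hej : e ≤ j) : kap n e ≤ 2 / n := by
  have h1 : (n : ℝ) ≤ n.choose e := by exact_mod_cast le_choose hn he hej
  have h2 : (2 : ℝ) ≤ n := by exact_mod_cast (show 2 ≤ n by omega)
  have h3 := kap_pos hn he hej
  have h4 := kap_choose hn he hej
  rw [le_div_iff₀ (by linarith)]
  nlinarith

lemma mem_Ft {M : Finset (Fin j)} {σ : St (Let ι j)} {π : Finset (Fin j)} :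
    π ∈ Ft M σ ↔ ¬ (π ⊆ M ∧ ∃ a, (some a, π) ∈ alw σ) := by
  simp only [Ft, mem_filter, mem_univ, true_and]

omit [Fintype ι] [DecidableEq ι] in
lemma om_nonneg {η0 : ℝ} (hη : 0 ≤ η0) (n : ℕ) (d : ι → ℕ) (a : ι) : 0 ≤ om η0 n d a :=
  mul_nonneg (by linarith) (kap_nonneg _ _)

omit [Fintype ι] [DecidableEq ι] in
lemma kk_nonneg (t : Let ι j) (x y : Fin j → Fin n) : 0 ≤ kk t x y := by
  have := kap_nonneg n t.2.card
  unfold kk
  split_ifs <;> positivity

omit [Fintype ι] [DecidableEq ι] in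
lemma kk_ne {a : ι} {π : Finset (Fin j)} {x y : Fin j → Fin n} (h : kk (some a, π) x y ≠ 0) :
    Pan π x y ∧ π.image y ≠ π.image x := by
  by_contra h'
  exact h (by rw [kk_some, if_neg h'])

lemma mem_nxt {F : Finset (Finset (Fin j))} {π ρ : Finset (Fin j)} :
    ρ ∈ nxt F π ↔ Disjoint ρ π ∧ (ρ ∈ F ∨ rkS ρ < rkS π) := by
  simp only [nxt, mem_filter, mem_univ, true_and]

lemma mem_lowr {r : ℕ} {ρ : Finset (Fin j)} : ρ ∈ lowr j r ↔ rkS ρ < r := by
  simp only [lowr, mem_filter, mem_univ, true_and]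

lemma phi_le (μ : ℝ) (h : Finset (Finset (Fin j)) → ℝ) {x0 x : Fin j → Fin n}
    {σ : St (Let ι j)} {c : ι × Finset (Fin n) → ℤ} {M : Finset (Fin j)}
    {N : Finset (ι × Finset (Fin n))} {Γ : Finset (Finset (Fin j))} (hI : Inv x0 x σ c M N Γ) :
    phi μ h x0 x σ c ≤ μ⁻¹ ^ (M.card + Γ.card) * h (Ft M σ) :=
  inf'_le (b := (M, Γ)) _ (by simp only [VS, mem_filter, mem_univ, true_and]; exact ⟨N, hI⟩)

lemma phi_eq (μ : ℝ) (h : Finset (Finset (Fin j)) → ℝ) (x0 x : Fin j → Fin n)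
    (σ : St (Let ι j)) (c : ι × Finset (Fin n) → ℤ) : ∃ M N Γ, Inv x0 x σ c M N Γ ∧
      phi μ h x0 x σ c = μ⁻¹ ^ (M.card + Γ.card) * h (Ft M σ) := by
  obtain ⟨P, hP, e⟩ := exists_mem_eq_inf' (VS_ne x0 x σ c)
    fun P => μ⁻¹ ^ (P.1.card + P.2.card) * h (Ft P.1 σ)
  simp only [VS, mem_filter, mem_univ, true_and] at hP
  obtain ⟨N, hN⟩ := hP
  exact ⟨P.1, N, P.2, hN, e⟩

end Pool.Agent.P.MP_3acc10_al.Bld
end

-- part Pool.Agent.P.MP_3acc10_al.BAlg1
section

set_option autoImplicit false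

namespace Pool.Agent.P.MP_3acc10_al.Bld

open Finset Module Matrix

variable {S L X : Type} [Fintype X] [DecidableEq X] [DecidableEq S]

theorem balg1_iter (Q : Finset S) (al : S → Finset L) (up : S → L → S)
    (hQ : ∀ σ ∈ Q, ∀ t ∈ al σ, up σ t ∈ Q) (M : L → Matrix X X ℂ) (D : S → Matrix X X ℂ)
    (hD : ∀ σ ∈ Q, D σ = ∑ t ∈ al σ, D (up σ t) * M t) (k : ℕ) :
    ∀ σ ∈ Q, D σ = ∑ σ' ∈ Q, D σ' * BB al up M k σ σ' := by
  induction k with
  | zero =>
    intro σ hσ
    simp only [BB_zero, mul_ite, mul_one, mul_zero]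
    rw [Finset.sum_ite_eq, if_pos hσ]
  | succ k ih =>
    intro σ hσ
    simp only [BB_succ, Finset.mul_sum]
    rw [Finset.sum_comm, hD σ hσ]
    refine Finset.sum_congr rfl fun t ht => ?_
    rw [ih _ (hQ σ hσ t ht), Finset.sum_mul]
    exact Finset.sum_congr rfl fun σ' _ => mul_assoc _ _ _

theorem uniq_of_frob (Q : Finset S) (al : S → Finset L) (up : S → L → S)
    (hQ : ∀ σ ∈ Q, ∀ t ∈ al σ, up σ t ∈ Q) (M : L → Matrix X X ℂ) (ℓ : ℕ)
    (h : ∑ σ ∈ Q, ∑ σ' ∈ Q, ∑ y, ∑ x, ‖BB al up M ℓ σ σ' y x‖ ^ 2 < 1) : Uniq Q al up M := by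
  intro D hD
  have h1 := balg1_iter Q al up hQ M D hD ℓ
  have key : ∀ w : X, ∑ σ ∈ Q, ∑ x, ‖D σ w x‖ ^ 2 = 0 := by
    intro w
    obtain ⟨N, hN⟩ : ∃ N, N = ∑ σ ∈ Q, ∑ x, ‖D σ w x‖ ^ 2 := ⟨_, rfl⟩
    have hN0 : 0 ≤ N := hN ▸ Finset.sum_nonneg fun _ _ => Finset.sum_nonneg fun _ _ => sq_nonneg _
    have h2 : ∀ σ ∈ Q, ∀ x, ‖D σ w x‖ ^ 2 ≤
        N * ∑ σ' ∈ Q, ∑ y, ‖BB al up M ℓ σ σ' y x‖ ^ 2 := by
      intro σ hσ x
      have h3 : D σ w x = ∑ p ∈ Q ×ˢ (univ : Finset X),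
          D p.1 w p.2 * BB al up M ℓ σ p.1 p.2 x := by
        rw [Finset.sum_product, h1 σ hσ, Matrix.sum_apply]
        exact Finset.sum_congr rfl fun σ' _ => Matrix.mul_apply
      have h4 : ‖D σ w x‖ ≤ ∑ p ∈ Q ×ˢ (univ : Finset X),
          ‖D p.1 w p.2‖ * ‖BB al up M ℓ σ p.1 p.2 x‖ := by
        rw [h3]
        exact (norm_sum_le _ _).trans (le_of_eq (Finset.sum_congr rfl fun _ _ => norm_mul _ _))
      have h5 := Finset.sum_mul_sq_le_sq_mul_sq (Q ×ˢ (univ : Finset X))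
        (fun p => ‖D p.1 w p.2‖) (fun p => ‖BB al up M ℓ σ p.1 p.2 x‖)
      rw [Finset.sum_product (f := fun p : S × X => ‖D p.1 w p.2‖ ^ 2),
        Finset.sum_product (f := fun p : S × X => ‖BB al up M ℓ σ p.1 p.2 x‖ ^ 2), ← hN] at h5
      exact (pow_le_pow_left₀ (norm_nonneg _) h4 2).trans h5
    have h6 : N ≤ N * ∑ σ ∈ Q, ∑ σ' ∈ Q, ∑ y, ∑ x, ‖BB al up M ℓ σ σ' y x‖ ^ 2 := by
      calc N = ∑ σ ∈ Q, ∑ x, ‖D σ w x‖ ^ 2 := hN
        _ ≤ ∑ σ ∈ Q, ∑ x, N * ∑ σ' ∈ Q, ∑ y, ‖BB al up M ℓ σ σ' y x‖ ^ 2 :=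
          Finset.sum_le_sum fun σ hσ => Finset.sum_le_sum fun x _ => h2 σ hσ x
        _ = _ := by
          rw [Finset.mul_sum]
          refine Finset.sum_congr rfl fun σ _ => ?_
          rw [← Finset.mul_sum, Finset.sum_comm]
          refine congrArg _ (Finset.sum_congr rfl fun σ' _ => ?_)
          exact Finset.sum_comm
    rw [← hN]
    by_contra h7
    have h8 : 0 < N := lt_of_le_of_ne hN0 (Ne.symm h7)
    have h9 := mul_lt_mul_of_pos_left h h8
    linarith
  intro σ hσ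
  ext w x
  have h2 := (Finset.sum_eq_zero_iff_of_nonneg fun _ _ =>
    Finset.sum_nonneg fun _ _ => sq_nonneg _).1 (key w) σ hσ
  have h3 := (Finset.sum_eq_zero_iff_of_nonneg fun _ _ => sq_nonneg _).1 h2 x (mem_univ x)
  simpa using h3

/-- Extension by zero. -/
noncomputable def balg1Ext (Q : Finset S) : (Q → Matrix X X ℂ) →ₗ[ℂ] (S → Matrix X X ℂ) where
  toFun g σ := if h : σ ∈ Q then g ⟨σ, h⟩ else 0
  map_add' g g' := by
    funext σ
    by_cases h : σ ∈ Q <;> simp [h]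
  map_smul' c g := by
    funext σ
    by_cases h : σ ∈ Q <;> simp [h]

omit [Fintype X] [DecidableEq X] in
theorem balg1Ext_apply (Q : Finset S) (g : Q → Matrix X X ℂ) {σ : S} (h : σ ∈ Q) :
    balg1Ext Q g σ = g ⟨σ, h⟩ := dif_pos h

/-- The linear system as a map. -/
noncomputable def balg1Sys (Q : Finset S) (al : S → Finset L) (up : S → L → S)
    (M : L → Matrix X X ℂ) : (S → Matrix X X ℂ) →ₗ[ℂ] (Q → Matrix X X ℂ) where
  toFun G σ := G σ - ∑ t ∈ al σ, G (up σ t) * M t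
  map_add' G G' := by
    funext σ
    simp only [Pi.add_apply, add_mul, Finset.sum_add_distrib]
    abel
  map_smul' c G := by
    funext σ
    simp only [Pi.smul_apply, smul_mul_assoc, RingHom.id_apply, smul_sub, Finset.smul_sum]

theorem exists_G (Q : Finset S) (al : S → Finset L) (up : S → L → S)
    (hQ : ∀ σ ∈ Q, ∀ t ∈ al σ, up σ t ∈ Q) (M : L → Matrix X X ℂ) (h : Uniq Q al up M) :
    ∃ G : S → Matrix X X ℂ, ∀ σ ∈ Q, G σ = 1 + ∑ t ∈ al σ, G (up σ t) * M t := by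
  have _ := hQ
  have hinj : Function.Injective ((balg1Sys Q al up M).comp (balg1Ext Q)) := by
    rw [injective_iff_map_eq_zero]
    intro g hg
    have h1 := h (balg1Ext Q g) fun σ hσ => sub_eq_zero.1 (congrFun hg ⟨σ, hσ⟩)
    funext σ
    exact (balg1Ext_apply Q g σ.2).symm.trans (h1 σ σ.2)
  obtain ⟨g, hg⟩ := LinearMap.injective_iff_surjective.1 hinj fun _ => 1
  exact ⟨balg1Ext Q g, fun σ hσ => sub_eq_iff_eq_add.1 (congrFun hg ⟨σ, hσ⟩)⟩

end Pool.Agent.P.MP_3acc10_al.Bld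
end

-- part Pool.Agent.P.MP_3acc10_al.BAlg2
section

set_option autoImplicit false

namespace Pool.Agent.P.MP_3acc10_al.Bld

open Finset Module Matrix

theorem balg2_upd_res {L : Type} [DecidableEq L] {Ad : L → L → Prop} (rk : L → ℕ) {u t : L}
    (σ : St L) (h : Ad u t) : upd Ad rk (res Ad u σ) t = res Ad u (upd Ad rk σ t) := by
  refine Prod.ext rfl (Finset.ext fun s => ?_)
  simp only [mem_upd, mem_res_fst, mem_res_snd]
  constructor
  · rintro (rfl | ⟨⟨h1, h2⟩, h3, ⟨h4, -⟩ | h4⟩)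
    · exact ⟨Or.inl rfl, h⟩
    · exact ⟨Or.inr ⟨h1, h3, Or.inl h4⟩, h2⟩
    · exact ⟨Or.inr ⟨h1, h3, Or.inr h4⟩, h2⟩
  · rintro ⟨rfl | ⟨h1, h3, h4 | h4⟩, h2⟩
    · exact Or.inl rfl
    · exact Or.inr ⟨⟨h1, h2⟩, h3, Or.inl ⟨h4, h2⟩⟩
    · exact Or.inr ⟨⟨h1, h2⟩, h3, Or.inr h4⟩

theorem balg2_upd_res2 {L : Type} [DecidableEq L] {Ad : L → L → Prop} (hirr : ∀ t, ¬ Ad t t)
    {rk : L → ℕ} {u t : L} (σ : St L) (h : Ad u t) (hr : rk u < rk t) :
    upd Ad rk (res Ad u (upd Ad rk σ u)) t = res Ad u (upd Ad rk σ t) := by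
  refine Prod.ext rfl (Finset.ext fun s => ?_)
  simp only [mem_upd, mem_res_fst, mem_res_snd, upd_fst]
  constructor
  · rintro (rfl | ⟨⟨h1, h2⟩, h3, ⟨rfl | ⟨-, -, h4 | h4⟩, -⟩ | h4⟩)
    · exact ⟨Or.inl rfl, h⟩
    · exact absurd h2 (hirr _)
    · exact ⟨Or.inr ⟨h1, h3, Or.inl h4⟩, h2⟩
    · exact ⟨Or.inr ⟨h1, h3, Or.inr (h4.trans hr)⟩, h2⟩
    · exact ⟨Or.inr ⟨h1, h3, Or.inr h4⟩, h2⟩
  · rintro ⟨rfl | ⟨h1, h3, h4 | h4⟩, h2⟩
    · exact Or.inl rfl
    · exact Or.inr ⟨⟨h1, h2⟩, h3, Or.inl ⟨Or.inr ⟨h1, h2, Or.inl h4⟩, h2⟩⟩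
    · exact Or.inr ⟨⟨h1, h2⟩, h3, Or.inr h4⟩

theorem E_mul_G {L X : Type} [Fintype X] [DecidableEq X] [DecidableEq L] (Ad : L → L → Prop)
    (hsymm : ∀ t u, Ad t u → Ad u t) (hirr : ∀ t, ¬ Ad t t) (rk : L → ℕ) (Q : Finset (St L))
    (hup : ∀ σ ∈ Q, ∀ t ∈ alw σ, upd Ad rk σ t ∈ Q) (u : L)
    (hres : ∀ σ ∈ Q, u ∈ σ.1 → res Ad u σ ∈ Q)
    (hrk : ∀ σ ∈ Q, u ∈ σ.1 → ∀ t ∈ σ.1, Ad u t → rk u ≠ rk t)
    (M : L → Matrix X X ℂ) (E : Matrix X X ℂ) (hE : E * M u = -E)
    (hc : ∀ t, Ad u t → E * M t = M t * E) (hU : Uniq Q alw (upd Ad rk) M)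
    (G : St L → Matrix X X ℂ) (hG : ∀ σ ∈ Q, G σ = 1 + ∑ t ∈ alw σ, G (upd Ad rk σ t) * M t) :
    ∀ σ ∈ Q, u ∈ σ.1 → E * G σ = if u ∈ σ.2 then G (res Ad u σ) * E else 0 := by
  classical
  let R : St L → Matrix X X ℂ := fun σ => if u ∈ σ.2 then G (res Ad u σ) * E else 0
  have hR : ∀ σ ∈ Q, u ∈ σ.1 → R σ = E + ∑ t ∈ alw σ, R (upd Ad rk σ t) * M t := by
    intro σ hσ hu
    by_cases hu2 : u ∈ σ.2
    · have h1 : alw (res Ad u σ) = (alw σ).filter (Ad u) := by
        ext t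
        simp only [mem_alw, mem_res_fst, mem_res_snd, mem_filter]
        tauto
      have h2 : R σ = G (res Ad u σ) * E := if_pos hu2
      rw [h2, hG _ (hres σ hσ hu), h1, add_mul, one_mul, sum_mul, sum_filter]
      congr 1
      refine sum_congr rfl fun t ht => ?_
      by_cases ha : Ad u t
      · have h3 : u ∈ (upd Ad rk σ t).2 := mem_upd.2 (Or.inr ⟨hu, hsymm _ _ ha, Or.inl hu2⟩)
        have h4 : R (upd Ad rk σ t) = G (res Ad u (upd Ad rk σ t)) * E := if_pos h3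
        rw [if_pos ha, h4, balg2_upd_res rk σ ha, mul_assoc, mul_assoc, hc t ha]
      · have h3 : u ∉ (upd Ad rk σ t).2 := by
          rw [mem_upd]
          rintro (rfl | ⟨-, h, -⟩)
          · exact (mem_alw.1 ht).2 hu2
          · exact ha (hsymm _ _ h)
        have h4 : R (upd Ad rk σ t) = 0 := if_neg h3
        rw [if_neg ha, h4, zero_mul]
    · have hua : u ∈ alw σ := mem_alw.2 ⟨hu, hu2⟩
      have h0 : R σ = 0 := if_neg hu2
      have hq : res Ad u (upd Ad rk σ u) ∈ Q := hres _ (hup σ hσ u hua) hu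
      have h1 : alw (res Ad u (upd Ad rk σ u)) =
          ((alw σ).erase u).filter fun t => Ad u t ∧ rk u < rk t := by
        ext t
        simp only [mem_alw, mem_res_fst, mem_res_snd, mem_filter, mem_erase, mem_upd, upd_fst]
        constructor
        · rintro ⟨⟨ha, hb⟩, hc⟩
          have hne : t ≠ u := by
            rintro rfl
            exact hirr _ hb
          refine ⟨⟨hne, ha, fun h => hc ⟨Or.inr ⟨ha, hb, Or.inl h⟩, hb⟩⟩, hb, ?_⟩
          rcases lt_or_gt_of_ne (hrk σ hσ hu t ha hb) with h | h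
          · exact h
          · exact absurd ⟨Or.inr ⟨ha, hb, Or.inr h⟩, hb⟩ hc
        · rintro ⟨⟨hne, ha, hb⟩, hc, hd⟩
          refine ⟨⟨ha, hc⟩, ?_⟩
          rintro ⟨h | ⟨-, -, h | h⟩, -⟩
          · exact hne h
          · exact hb h
          · exact absurd hd (not_lt.2 h.le)
      have h2 : R (upd Ad rk σ u) = G (res Ad u (upd Ad rk σ u)) * E :=
        if_pos (mem_upd.2 (Or.inl rfl))
      have h3 : G (res Ad u (upd Ad rk σ u)) * E =
          E + ∑ t ∈ (alw σ).erase u, R (upd Ad rk σ t) * M t := by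
        rw [hG _ hq, h1, add_mul, one_mul, sum_mul, sum_filter]
        congr 1
        refine sum_congr rfl fun t ht => ?_
        by_cases ha : Ad u t ∧ rk u < rk t
        · have h3 : u ∈ (upd Ad rk σ t).2 := mem_upd.2 (Or.inr ⟨hu, hsymm _ _ ha.1, Or.inr ha.2⟩)
          have h4 : R (upd Ad rk σ t) = G (res Ad u (upd Ad rk σ t)) * E := if_pos h3
          rw [if_pos ha, h4, balg2_upd_res2 hirr σ ha.1 ha.2, mul_assoc, mul_assoc, hc t ha.1]
        · have h3 : u ∉ (upd Ad rk σ t).2 := by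
            rw [mem_upd]
            rintro (h | ⟨-, h, h' | h'⟩)
            · exact (mem_erase.1 ht).1 h.symm
            · exact hu2 h'
            · exact ha ⟨hsymm _ _ h, h'⟩
          have h4 : R (upd Ad rk σ t) = 0 := if_neg h3
          rw [if_neg ha, h4, zero_mul]
      rw [h0, ← add_sum_erase _ _ hua, h2, mul_assoc, hE, mul_neg, h3]
      abel
  have hD := hU (fun σ => if u ∈ σ.1 then E * G σ - R σ else 0) (by
    intro σ hσ
    by_cases hu : u ∈ σ.1
    · simp only [upd_fst, if_pos hu]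
      rw [hG σ hσ, hR σ hσ hu, mul_add, mul_one, mul_sum, add_sub_add_left_eq_sub,
        ← sum_sub_distrib]
      refine sum_congr rfl fun t _ => ?_
      rw [sub_mul, mul_assoc]
    · simp only [upd_fst, if_neg hu, zero_mul, sum_const_zero])
  intro σ hσ hu
  have h := hD σ hσ
  simp only [if_pos hu] at h
  exact sub_eq_zero.1 h

end Pool.Agent.P.MP_3acc10_al.Bld
end

-- part Pool.Agent.P.MP_3acc10_al.BWalk
section

set_option autoImplicit false

namespace Pool.Agent.P.MP_3acc10_al.Bld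

open Finset Module Matrix

lemma bwalk_rec {S L X Λ : Type} [DecidableEq S] [Fintype X] [DecidableEq X] [Fintype Λ]
    (al : S → Finset L) (up : S → L → S) (k : L → X → X → ℝ) (dl : L → X → X → Λ → ℤ)
    {A : Λ → ℂ} (hA : ∀ γ, ‖A γ‖ = 1) (m : ℕ) (σ σ' : S) (y x : X) (c : Λ → ℤ) :
    BB al up (Tg k dl A) (m + 1) σ σ' y x * chi A c = ∑ t ∈ al σ, ∑ z, (-(k t x z : ℂ)) *
      (BB al up (Tg k dl A) m (up σ t) σ' y z * chi A (c + dl t x z)) := by
  rw [BB_succ, Matrix.sum_apply, sum_mul]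
  refine sum_congr rfl fun t _ => ?_
  rw [Matrix.mul_apply, sum_mul]
  refine sum_congr rfl fun z _ => ?_
  rw [chi_add hA]
  simp only [Tg, Matrix.of_apply]
  ring

lemma bwalk_norm {Ω L X : Type} [Fintype Ω] [Fintype X] (T : Finset L) (a : L → X → ℝ)
    (f : L → X → Ω → ℂ) :
    ‖∑ s, ∑ t ∈ T, ∑ z, (-(a t z : ℂ)) * f t z s‖ ≤ ∑ t ∈ T, ∑ z, |a t z| * ‖∑ s, f t z s‖ := by
  rw [sum_comm]
  refine (norm_sum_le _ _).trans (sum_le_sum fun t _ => ?_)
  rw [sum_comm]
  refine (norm_sum_le _ _).trans (sum_le_sum fun z _ => le_of_eq ?_)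
  rw [← mul_sum, norm_mul, norm_neg, Complex.norm_real, Real.norm_eq_abs]

lemma bwalk_ind {S L X Λ : Type} [Fintype X] [Fintype Λ] (Q : Finset S) (al : S → Finset L)
    (up : S → L → S) (hQ : ∀ σ ∈ Q, ∀ t ∈ al σ, up σ t ∈ Q) (k : L → X → X → ℝ)
    (dl : L → X → X → Λ → ℤ) (hdl : ∀ t x y, ∑ γ, |dl t x y γ| ≤ 2) (Gd : X → (Λ → ℤ) → Prop)
    (Ψ : X → S → (Λ → ℤ) → ℝ) (B : ℤ) (θ C : ℝ) (hθ : 0 ≤ θ) (hC : 0 ≤ C)
    (P1 : ∀ x, ∀ σ ∈ Q, ∀ c, Gd x c → ∑ γ, |c γ| ≤ B →
      ∑ t ∈ al σ, ∑ y, |k t x y| * Ψ y (up σ t) (c + dl t x y) ≤ θ * Ψ x σ c)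
    (P2 : ∀ x c t y, Gd x c → k t x y ≠ 0 → Gd y (c + dl t x y))
    (W : ℕ → S → X → (Λ → ℤ) → ℝ)
    (hr : ∀ m σ x c, W (m + 1) σ x c ≤
      ∑ t ∈ al σ, ∑ z, |k t x z| * W m (up σ t) z (c + dl t x z))
    (h0 : ∀ σ ∈ Q, ∀ x c, Gd x c → ∑ γ, |c γ| ≤ B → W 0 σ x c ≤ C * Ψ x σ c) (m : ℕ) :
    ∀ σ ∈ Q, ∀ x c, Gd x c → ∑ γ, |c γ| + 2 * (m : ℤ) ≤ B → W m σ x c ≤ C * θ ^ m * Ψ x σ c := by
  induction m with
  | zero =>
    intro σ hσ x c hg hc
    rw [pow_zero, mul_one]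
    exact h0 σ hσ x c hg (by simpa using hc)
  | succ m ih =>
    intro σ hσ x c hg hc
    push_cast at hc
    have hm : (0 : ℤ) ≤ m := Int.natCast_nonneg m
    have hCm : 0 ≤ C * θ ^ m := by positivity
    calc _ ≤ _ := hr m σ x c
      _ ≤ ∑ t ∈ al σ, ∑ z, C * θ ^ m * (|k t x z| * Ψ z (up σ t) (c + dl t x z)) := by
        refine sum_le_sum fun t ht => sum_le_sum fun z _ => ?_
        by_cases hk : k t x z = 0
        · simp [hk]
        · rw [mul_left_comm]
          refine mul_le_mul_of_nonneg_left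
            (ih _ (hQ σ hσ t ht) z _ (P2 x c t z hg hk) ?_) (abs_nonneg _)
          have h1 : ∑ γ, |(c + dl t x z) γ| ≤ ∑ γ, |c γ| + ∑ γ, |dl t x z γ| := by
            rw [← sum_add_distrib]
            exact sum_le_sum fun γ _ => abs_add_le _ _
          linarith [hdl t x z]
      _ = C * θ ^ m * ∑ t ∈ al σ, ∑ z, |k t x z| * Ψ z (up σ t) (c + dl t x z) := by
        simp only [mul_sum]
      _ ≤ C * θ ^ m * (θ * Ψ x σ c) :=
        mul_le_mul_of_nonneg_left (P1 x σ hσ c hg (by linarith)) hCm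
      _ = _ := by ring

lemma bwalk_chi {Λ : Type} [Fintype Λ] (L : ℕ) [NeZero L] (c : Λ → ℤ) (s : Λ → ZMod L) :
    chi (fun γ => ZMod.stdAddChar (s γ)) c = Nak.walkChi L c s := by
  refine prod_congr rfl fun γ _ => ?_
  rw [← AddChar.map_zsmul_eq_zpow, zsmul_eq_mul]

theorem walk2 {S L X Λ : Type} [DecidableEq S] [Fintype X] [DecidableEq X] [Fintype Λ]
    [DecidableEq Λ] (Q : Finset S) (al : S → Finset L) (up : S → L → S)
    (hQ : ∀ σ ∈ Q, ∀ t ∈ al σ, up σ t ∈ Q) (k : L → X → X → ℝ) (dl : L → X → X → Λ → ℤ)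
    (hdl : ∀ t x y, ∑ γ, |dl t x y γ| ≤ 2) (Gd : X → X → (Λ → ℤ) → Prop)
    (Ψ : X → X → S → (Λ → ℤ) → ℝ) (hΨ : ∀ x0 x σ c, 0 ≤ Ψ x0 x σ c) (ℓ : ℕ) (θ R : ℝ)
    (hθ : 0 ≤ θ) (hR : 0 ≤ R) (P0 : ∀ x, Gd x x 0)
    (P1 : ∀ x0 x, ∀ σ ∈ Q, ∀ c, Gd x0 x c → ∑ γ, |c γ| ≤ ((4 * ℓ : ℕ) : ℤ) →
      ∑ t ∈ al σ, ∑ y, |k t x y| * Ψ x0 y (up σ t) (c + dl t x y) ≤ θ * Ψ x0 x σ c)
    (P2 : ∀ x0 x c t y, Gd x0 x c → k t x y ≠ 0 → Gd x0 y (c + dl t x y))
    (P3 : ∀ x0 x c, Gd x0 x c → Gd x x0 (-c) ∧ ∀ σ σ', Ψ x x0 σ (-c) ≤ R * Ψ x0 x σ' c)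
    (P4 : ∀ x σ, 1 ≤ R * Ψ x x σ 0) (P5 : ∀ x σ, Ψ x x σ 0 ≤ R) :
    ∃ A : Λ → ℂ, (∀ γ, ‖A γ‖ = 1) ∧
      ∑ σ ∈ Q, ∑ σ' ∈ Q, ∑ y, ∑ x, ‖BB al up (Tg k dl A) ℓ σ σ' y x‖ ^ 2 ≤
        Q.card * Fintype.card X * R ^ 3 * θ ^ (2 * ℓ) := by
  obtain ⟨M, hM⟩ : ∃ M, M = 4 * ℓ + 1 := ⟨_, rfl⟩
  have : NeZero M := ⟨by omega⟩
  obtain ⟨A, hAe⟩ : ∃ A : (Λ → ZMod M) → Λ → ℂ, A = fun s γ => ZMod.stdAddChar (s γ) := ⟨_, rfl⟩
  have hA : ∀ s γ, ‖A s γ‖ = 1 := fun s γ => by
    rw [hAe]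
    exact AddChar.norm_apply _ _
  have orth : ∀ c : Λ → ℤ, ∑ γ, |c γ| ≤ ((4 * ℓ : ℕ) : ℤ) → c ≠ 0 → ∑ s, chi (A s) c = 0 := by
    intro c hc h
    simp only [hAe, bwalk_chi]
    refine Nak.walk_orth M c (fun γ => ?_) h
    have := single_le_sum (f := fun γ => |c γ|) (fun γ _ => abs_nonneg (c γ)) (mem_univ γ)
    rw [hM]
    push_cast at hc ⊢
    linarith
  obtain ⟨N, hN⟩ : ∃ N : ℝ, N = Fintype.card (Λ → ZMod M) := ⟨_, rfl⟩
  have hN0 : 0 ≤ N := by rw [hN]; positivity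
  have one : ∀ (y : X) (σ' : S) (m : ℕ), ∀ σ ∈ Q, ∀ x c, Gd y x c →
      ∑ γ, |c γ| + 2 * (m : ℤ) ≤ ((4 * ℓ : ℕ) : ℤ) →
      ‖∑ s, BB al up (Tg k dl (A s)) m σ σ' y x * chi (A s) c‖ ≤ N * R * θ ^ m * Ψ y x σ c := by
    intro y σ'
    refine bwalk_ind Q al up hQ k dl hdl (Gd y) (Ψ y) _ θ (N * R) hθ (mul_nonneg hN0 hR) (P1 y)
      (P2 y) (fun m σ x c => ‖∑ s, BB al up (Tg k dl (A s)) m σ σ' y x * chi (A s) c‖)
      (fun m σ x c => ?_) fun σ _ x c _ hc => ?_
    · simp only [bwalk_rec al up k dl (hA _)]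
      exact bwalk_norm _ _ _
    · have h1 : 0 ≤ N * R * Ψ y x σ c := mul_nonneg (mul_nonneg hN0 hR) (hΨ _ _ _ _)
      simp only [BB_zero]
      rw [← mul_sum]
      by_cases h : c = 0
      · subst h
        by_cases h2 : σ = σ' ∧ y = x
        · obtain ⟨rfl, rfl⟩ := h2
          simp only [if_true, Matrix.one_apply_eq, one_mul, chi_zero, sum_const, card_univ,
            nsmul_eq_mul, mul_one, Complex.norm_natCast, ← hN]
          rw [mul_assoc]
          exact le_mul_of_one_le_right hN0 (P4 y σ)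
        · have h3 : (if σ = σ' then (1 : Matrix X X ℂ) else 0) y x = 0 := by
            split_ifs with h4
            · exact Matrix.one_apply_ne fun h5 => h2 ⟨h4, h5⟩
            · rfl
          rw [h3, zero_mul, norm_zero]
          exact h1
      · rw [orth c hc h, mul_zero, norm_zero]
        exact h1
  have two : ∀ σ₁ ∈ Q, ∀ (x₁ : X) (m : ℕ), ∀ σ ∈ Q, ∀ x c, Gd x₁ x c →
      ∑ γ, |c γ| + 2 * (m : ℤ) ≤ ((2 * ℓ : ℕ) : ℤ) →
      ∑ σ' ∈ Q, ∑ y, ‖∑ s, BB al up (Tg k dl (A s)) ℓ σ₁ σ' y x₁ *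
        star (BB al up (Tg k dl (A s)) m σ σ' y x * chi (A s) c)‖ ≤
        N * R ^ 2 * θ ^ ℓ * θ ^ m * Ψ x₁ x σ c := by
    intro σ₁ hσ₁ x₁
    refine bwalk_ind Q al up hQ k dl hdl (Gd x₁) (Ψ x₁) _ θ (N * R ^ 2 * θ ^ ℓ) hθ
      (by positivity) (fun x σ hσ c hg hc => P1 x₁ x σ hσ c hg (hc.trans (by push_cast; omega)))
      (P2 x₁) (fun m σ x c => ∑ σ' ∈ Q, ∑ y, ‖∑ s, BB al up (Tg k dl (A s)) ℓ σ₁ σ' y x₁ *
        star (BB al up (Tg k dl (A s)) m σ σ' y x * chi (A s) c)‖)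
      (fun m σ x c => ?_) fun σ hσ x c hg hc => ?_
    · calc _ ≤ ∑ σ' ∈ Q, ∑ y, ∑ t ∈ al σ, ∑ z, |k t x z| *
            ‖∑ s, BB al up (Tg k dl (A s)) ℓ σ₁ σ' y x₁ *
              star (BB al up (Tg k dl (A s)) m (up σ t) σ' y z * chi (A s) (c + dl t x z))‖ := by
            refine sum_le_sum fun σ' _ => sum_le_sum fun y _ => ?_
            refine le_of_eq_of_le ?_ (bwalk_norm (al σ) (fun t z => k t x z) _)
            congr 1
            refine sum_congr rfl fun s _ => ?_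
            rw [bwalk_rec al up k dl (hA s), star_sum, mul_sum]
            refine sum_congr rfl fun t _ => ?_
            rw [star_sum, mul_sum]
            refine sum_congr rfl fun z _ => ?_
            rw [star_mul', star_neg, Complex.star_def, Complex.conj_ofReal]
            ring
        _ = _ := by
            simp only [mul_sum]
            rw [sum_congr rfl fun σ' _ => sum_comm, sum_comm]
            refine sum_congr rfl fun t _ => ?_
            rw [sum_congr rfl fun σ' _ => sum_comm, sum_comm]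
    · have h1 := one x σ ℓ σ₁ hσ₁ x₁ (-c) (P3 x₁ x c hg).1 (by
        simp only [Pi.neg_apply, abs_neg]
        push_cast at hc ⊢
        linarith)
      rw [sum_eq_single σ (fun σ' _ h => ?_) (fun h => absurd hσ h),
        sum_eq_single x (fun y _ h => ?_) (fun h => absurd (mem_univ x) h)]
      · simp only [BB_zero, if_true, Matrix.one_apply_eq, one_mul, ← chi_neg (hA _)]
        refine h1.trans ?_
        calc _ ≤ N * R * θ ^ ℓ * (R * Ψ x₁ x σ c) :=
              mul_le_mul_of_nonneg_left ((P3 x₁ x c hg).2 σ₁ σ) (by positivity)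
          _ = _ := by ring
      · simp [BB_zero, Matrix.one_apply_ne h]
      · simp [BB_zero, h.symm]
  have fin : ∀ σ ∈ Q, ∀ x, ∑ σ' ∈ Q, ∑ y, ∑ s, ‖BB al up (Tg k dl (A s)) ℓ σ σ' y x‖ ^ 2 ≤
      N * (R ^ 3 * θ ^ (2 * ℓ)) := by
    intro σ hσ x
    have h1 := two σ hσ x ℓ σ hσ x 0 (P0 x) (by simp)
    calc _ = _ := by
          refine sum_congr rfl fun σ' _ => sum_congr rfl fun y _ => ?_
          simp only [chi_zero, mul_one, Complex.star_def, Complex.mul_conj']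
          rw [← Real.norm_of_nonneg (sum_nonneg fun s _ => sq_nonneg
            ‖BB al up (Tg k dl (A s)) ℓ σ σ' y x‖), ← Complex.norm_real]
          push_cast
          rfl
      _ ≤ _ := h1
      _ ≤ N * R ^ 2 * θ ^ ℓ * θ ^ ℓ * R := mul_le_mul_of_nonneg_left (P5 x σ) (by positivity)
      _ = _ := by ring
  obtain ⟨s, -, hs⟩ := exists_le_of_sum_le (s := (univ : Finset (Λ → ZMod M))) univ_nonempty
    (f := fun s => ∑ σ ∈ Q, ∑ σ' ∈ Q, ∑ y, ∑ x, ‖BB al up (Tg k dl (A s)) ℓ σ σ' y x‖ ^ 2)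
    (g := fun _ => (Q.card * Fintype.card X * R ^ 3 * θ ^ (2 * ℓ) : ℝ)) (by
      calc _ = ∑ σ ∈ Q, ∑ x, ∑ σ' ∈ Q, ∑ y, ∑ s,
            ‖BB al up (Tg k dl (A s)) ℓ σ σ' y x‖ ^ 2 := by
            rw [sum_comm]
            refine sum_congr rfl fun σ _ => ?_
            rw [sum_comm, sum_comm (s := (univ : Finset X))]
            refine sum_congr rfl fun σ' _ => ?_
            rw [sum_comm, sum_comm (s := (univ : Finset X)) (t := (univ : Finset X))]
            exact sum_congr rfl fun y _ => sum_comm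
        _ ≤ ∑ σ ∈ Q, ∑ x : X, N * (R ^ 3 * θ ^ (2 * ℓ)) :=
            sum_le_sum fun σ hσ => sum_le_sum fun x _ => fin σ hσ x
        _ = _ := by
            simp only [sum_const, card_univ, nsmul_eq_mul, ← hN]
            ring)
  exact ⟨A s, hA s, hs⟩

end Pool.Agent.P.MP_3acc10_al.Bld
end

-- part Pool.Agent.P.MP_3acc10_al.BQc
section

set_option autoImplicit false

namespace Pool.Agent.P.MP_3acc10_al.Bld

open Finset Module Matrix

variable {n j : ℕ} {ι : Type} [Fintype ι] [DecidableEq ι]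

omit [DecidableEq ι] in
/-- the shape is injective on a clique of valid letters -/
lemma bqc_inj {d : ι → ℕ} (hd : ∀ a, 0 < d a) {B : Finset ι}
    {𝒮 : Finset (Bool × Finset (Fin j))} {cl : Finset (Let ι j)} (hcl : cl ⊆ Alph d B 𝒮)
    (hadj : ∀ t ∈ cl, ∀ u ∈ cl, t ≠ u → Adj t u) {t u : Let ι j} (ht : t ∈ cl) (hu : u ∈ cl)
    (h : sh t = sh u) : t = u := by
  by_contra hne
  have h2 : t.2 = u.2 := (Prod.ext_iff.1 h).2
  rcases (hadj t ht u hu hne).2 with hdis | ⟨h1, h1'⟩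
  · have hv := (mem_Alph.1 (hcl ht)).1.2
    rw [← h2, disjoint_self, bot_eq_empty] at hdis
    rw [hdis, card_empty] at hv
    rcases hta : t.1 with _ | a
    · rw [hta] at hv
      simp at hv
    · rw [hta] at hv
      have := hd a
      simp only [Option.elim_some] at hv
      omega
  · exact hne (Prod.ext (h1.trans h1'.symm) h2)

open Classical in
/-- the code of a clique -/
noncomputable def bqc_code (cl : Finset (Let ι j)) (τ : Bool × Finset (Fin j)) :
    Option (Option ι) :=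
  if h : ∃ t ∈ cl, sh t = τ then some h.choose.1 else none

omit [Fintype ι] [DecidableEq ι] in
lemma bqc_code_iff {cl : Finset (Let ι j)}
    (hinj : ∀ t ∈ cl, ∀ u ∈ cl, sh t = sh u → t = u) (t : Let ι j) :
    bqc_code cl (sh t) = some t.1 ↔ t ∈ cl := by
  unfold bqc_code
  constructor
  · intro h
    split_ifs at h with hex
    have h1 : hex.choose.1 = t.1 := Option.some.inj h
    have hs := hex.choose_spec
    have h2 : hex.choose.2 = t.2 := (Prod.ext_iff.1 hs.2).2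
    have : hex.choose = t := Prod.ext h1 h2
    rw [← this]
    exact hs.1
  · intro ht
    have hex : ∃ u ∈ cl, sh u = sh t := ⟨t, ht, rfl⟩
    rw [dif_pos hex]
    have hs := hex.choose_spec
    rw [hinj _ hs.1 t ht hs.2]

/-- the values of the codes -/
def bqc_T (A0 : Finset ι) : Finset (Option (Option ι)) :=
  insert none (insert (some none) (A0.image fun a => some (some a)))

omit [Fintype ι] in
lemma bqc_T_card (A0 : Finset ι) : (bqc_T A0).card ≤ A0.card + 2 := by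
  unfold bqc_T
  have h1 := card_insert_le (none : Option (Option ι))
    (insert (some none) (A0.image fun a => some (some a)))
  have h2 := card_insert_le (some none : Option (Option ι)) (A0.image fun a => some (some a))
  have h3 : (A0.image fun a => (some (some a) : Option (Option ι))).card ≤ A0.card :=
    card_image_le
  omega

lemma bqc_code_mem {d : ι → ℕ} {B A0 : Finset ι} (hB : B ⊆ A0)
    {𝒮 : Finset (Bool × Finset (Fin j))} {cl : Finset (Let ι j)} (hcl : cl ⊆ Alph d B 𝒮)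
    (τ : Bool × Finset (Fin j)) : bqc_code cl τ ∈ bqc_T A0 := by
  unfold bqc_code bqc_T
  split_ifs with hex
  · have hs := hex.choose_spec
    have hv := (mem_Alph.1 (hcl hs.1)).1.1
    rcases hta : hex.choose.1 with _ | a
    · simp
    · have := hB (hv a hta)
      simp [this]
  · simp

open Classical in
/-- the state with given data -/
noncomputable def bqc_F (d : ι → ℕ)
    (p : Finset ι × Finset (Bool × Finset (Fin j)) × Finset (Bool × Finset (Fin j)) ×
      (Bool × Finset (Fin j) → Option (Option ι))) : St (Let ι j) :=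
  (Alph d p.1 p.2.1, univ.filter fun s =>
    (s ∈ Alph d p.1 p.2.1 ∧ sh s ∈ p.2.2.1) ∨ p.2.2.2 (sh s) = some s.1)

theorem Qs_card {d : ι → ℕ} (hd : ∀ a, 0 < d a) (ℬ : Finset (Finset ι)) (A0 : Finset ι)
    (hℬ : ∀ B ∈ ℬ, B ⊆ A0) : (Qs j d ℬ).card ≤
      ℬ.card * 2 ^ 2 ^ (j + 1) * 2 ^ 2 ^ (j + 1) * (A0.card + 2) ^ 2 ^ (j + 1) := by
  classical
  have hsub : Qs j d ℬ ⊆ (ℬ ×ˢ (univ : Finset (Finset (Bool × Finset (Fin j)))) ×ˢ
      (univ : Finset (Finset (Bool × Finset (Fin j)))) ×ˢ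
        Fintype.piFinset fun _ : Bool × Finset (Fin j) => bqc_T A0).image (bqc_F d) := by
    intro σ hσ
    obtain ⟨B, hB, 𝒮, Fs, cl, h1, hcl, hadj, h2⟩ := mem_Qs.1 hσ
    rw [h1] at hcl
    have hinj : ∀ t ∈ cl, ∀ u ∈ cl, sh t = sh u → t = u :=
      fun t ht u hu h => bqc_inj hd hcl hadj ht hu h
    refine mem_image.2 ⟨(B, 𝒮, Fs, bqc_code cl), ?_, ?_⟩
    · simp only [mem_product, mem_univ, true_and, Fintype.mem_piFinset]
      exact ⟨hB, fun τ => bqc_code_mem (hℬ B hB) hcl τ⟩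
    · refine Prod.ext h1.symm ?_
      ext s
      rw [h2 s, h1, ← bqc_code_iff hinj s]
      simp only [bqc_F, mem_filter, mem_univ, true_and]
  have hc : Fintype.card (Bool × Finset (Fin j)) = 2 ^ (j + 1) := by
    rw [Fintype.card_prod, Fintype.card_bool, Fintype.card_finset, Fintype.card_fin, pow_succ,
      mul_comm]
  have hu : (univ : Finset (Finset (Bool × Finset (Fin j)))).card = 2 ^ 2 ^ (j + 1) := by
    rw [card_univ, Fintype.card_finset, hc]
  refine (card_le_card hsub).trans (card_image_le.trans ?_)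
  rw [card_product, card_product, card_product, hu, Fintype.card_piFinset, prod_const, card_univ,
    hc]
  have h3 : (bqc_T A0).card ^ 2 ^ (j + 1) ≤ (A0.card + 2) ^ 2 ^ (j + 1) :=
    Nat.pow_le_pow_left (bqc_T_card A0) _
  calc ℬ.card * (2 ^ 2 ^ (j + 1) * (2 ^ 2 ^ (j + 1) * (bqc_T A0).card ^ 2 ^ (j + 1)))
      ≤ ℬ.card * (2 ^ 2 ^ (j + 1) * (2 ^ 2 ^ (j + 1) * (A0.card + 2) ^ 2 ^ (j + 1))) :=
        Nat.mul_le_mul_left _ (Nat.mul_le_mul_left _ (Nat.mul_le_mul_left _ h3))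
    _ = _ := by simp only [mul_assoc]

end Pool.Agent.P.MP_3acc10_al.Bld
end

-- part Pool.Agent.P.MP_3acc10_al.BOps2
section

set_option autoImplicit false

namespace Pool.Agent.P.MP_3acc10_al.Bld

open Finset Module Matrix

variable {n j : ℕ} {ι : Type} [Fintype ι] [DecidableEq ι]

/-- matrices which act on a set of slots only -/
def bops2_Loc (π : Finset (Fin j)) (M : Matrix (Fin j → Fin n) (Fin j → Fin n) ℂ) : Prop :=
  (∀ y x, M y x ≠ 0 → ∀ p, p ∉ π → y p = x p) ∧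
    ∀ y x y' x', (∀ p, p ∉ π → y p = x p) → (∀ p, p ∉ π → y' p = x' p) →
      (∀ p ∈ π, y p = y' p) → (∀ p ∈ π, x p = x' p) → M y x = M y' x'

theorem bops2_mul {π ρ : Finset (Fin j)} {M N : Matrix (Fin j → Fin n) (Fin j → Fin n) ℂ}
    (hd : Disjoint π ρ) (hM : bops2_Loc π M) (hN : bops2_Loc ρ N) (y x : Fin j → Fin n) :
    (M * N) y x = M y (fun p => if p ∈ ρ then y p else x p) *
      N (fun p => if p ∈ ρ then y p else x p) x := by
  rw [Matrix.mul_apply]
  refine sum_eq_single _ (fun z _ hz => ?_) fun h => absurd (mem_univ _) h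
  by_contra h
  refine hz (funext fun p => ?_)
  split_ifs with hp
  · exact (hM.1 y z (left_ne_zero_of_mul h) p fun h1 => disjoint_left.1 hd h1 hp).symm
  · exact hN.1 z x (right_ne_zero_of_mul h) p hp

theorem bops2_comm {π ρ : Finset (Fin j)} {M N : Matrix (Fin j → Fin n) (Fin j → Fin n) ℂ}
    (hd : Disjoint π ρ) (hM : bops2_Loc π M) (hN : bops2_Loc ρ N) : M * N = N * M := by
  ext y x
  rw [bops2_mul hd hM hN, bops2_mul hd.symm hN hM]
  by_cases h : ∀ p, p ∉ π → p ∉ ρ → y p = x p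
  · rw [mul_comm]
    congr 1
    · refine hN.2 _ _ _ _ (fun p hp => if_neg hp) (fun p hp => ?_) (fun p hp => if_pos hp)
        fun p hp => (if_neg fun h1 => disjoint_left.1 hd h1 hp).symm
      split_ifs with h1
      · rfl
      · exact h p h1 hp
    · refine hM.2 _ _ _ _ (fun p hp => ?_) (fun p hp => if_neg hp) (fun p hp => (if_pos hp).symm)
        fun p hp => if_neg (disjoint_left.1 hd hp)
      split_ifs with h1
      · rfl
      · exact h p hp h1
  · push Not at h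
    obtain ⟨p, h1, h2, h3⟩ := h
    have e1 : M y (fun p => if p ∈ ρ then y p else x p) = 0 := by
      by_contra h4
      exact h3 ((hM.1 _ _ h4 p h1).trans (if_neg h2))
    have e2 : N y (fun p => if p ∈ π then y p else x p) = 0 := by
      by_contra h4
      exact h3 ((hN.1 _ _ h4 p h2).trans (if_neg h1))
    rw [e1, e2, zero_mul, zero_mul]

theorem bops2_inj {π : Finset (Fin j)} {x x' : Fin j → Fin n} (h : ∀ p ∈ π, x p = x' p) :
    Set.InjOn x π ↔ Set.InjOn x' π :=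
  Set.EqOn.injOn_iff fun p hp => h p hp

theorem bops2_img {π : Finset (Fin j)} {x x' : Fin j → Fin n} (h : ∀ p ∈ π, x p = x' p) :
    π.image x = π.image x' :=
  image_congr fun p hp => h p hp

theorem bops2_pan {π : Finset (Fin j)} {y x y' x' : Fin j → Fin n} (h1 : ∀ p, p ∉ π → y p = x p)
    (h2 : ∀ p, p ∉ π → y' p = x' p) (h3 : ∀ p ∈ π, y p = y' p) (h4 : ∀ p ∈ π, x p = x' p) :
    Pan π x y ↔ Pan π x' y' := by
  unfold Pan
  rw [bops2_inj h3, bops2_inj h4]
  exact ⟨fun h => ⟨h2, h.2⟩, fun h => ⟨h1, h.2⟩⟩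

theorem bops2_diag {π : Finset (Fin j)} {y x y' x' : Fin j → Fin n} (h1 : ∀ p, p ∉ π → y p = x p)
    (h2 : ∀ p, p ∉ π → y' p = x' p) (h3 : ∀ p ∈ π, y p = y' p) (h4 : ∀ p ∈ π, x p = x' p) :
    (y = x ∧ ¬ Set.InjOn x π) ↔ (y' = x' ∧ ¬ Set.InjOn x' π) := by
  rw [bops2_inj h4]
  refine and_congr_left fun _ => ⟨fun h => funext fun p => ?_, fun h => funext fun p => ?_⟩
  · by_cases hp : p ∈ π
    · rw [← h3 p hp, ← h4 p hp, h]
    · exact h2 p hp
  · by_cases hp : p ∈ π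
    · rw [h3 p hp, h4 p hp, h]
    · exact h1 p hp

theorem bops2_E (A : ι × Finset (Fin n) → ℂ) (u : Let ι j) : bops2_Loc u.2 (Em A u) := by
  classical
  obtain ⟨_ | a, π⟩ := u
  · refine ⟨fun y x h p _ => ?_, fun y x y' x' h1 h2 h3 h4 => ?_⟩
    · rw [Em_none] at h
      split_ifs at h with h1
      · rw [h1.1]
      · exact absurd rfl h
    · rw [Em_none, Em_none]
      exact if_congr (bops2_diag h1 h2 h3 h4) rfl rfl
  · refine ⟨fun y x h => ?_, fun y x y' x' h1 h2 h3 h4 => ?_⟩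
    · rw [Em_some] at h
      split_ifs at h with h1
      · exact h1.1
      · exact absurd rfl h
    · rw [Em_some, Em_some, dl_some, dl_some, bops2_img h3, bops2_img h4]
      exact if_congr (bops2_pan h1 h2 h3 h4) rfl rfl

theorem bops2_T (A : ι × Finset (Fin n) → ℂ) (t : Let ι j) : bops2_Loc t.2 (Tm A t) := by
  classical
  obtain ⟨_ | a, π⟩ := t
  · refine ⟨fun y x h p _ => ?_, fun y x y' x' h1 h2 h3 h4 => ?_⟩
    · rw [Tm_apply, kk_none] at h
      split_ifs at h with h1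
      · rw [h1.1]
      · simp at h
    · rw [Tm_apply, Tm_apply, kk_none, kk_none, dl_none, dl_none,
        if_congr (bops2_diag h1 h2 h3 h4) rfl rfl]
  · refine ⟨fun y x h => ?_, fun y x y' x' h1 h2 h3 h4 => ?_⟩
    · rw [Tm_apply, kk_some] at h
      split_ifs at h with h1
      · exact h1.1.1
      · simp at h
    · rw [Tm_apply, Tm_apply, kk_some, kk_some, dl_some, dl_some, bops2_img h3, bops2_img h4,
        if_congr (and_congr_left fun _ => bops2_pan h1 h2 h3 h4) rfl rfl]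

theorem bops2_diag_comm {M N : Matrix (Fin j → Fin n) (Fin j → Fin n) ℂ} (hM : M.IsDiag)
    (hN : N.IsDiag) : M * N = N * M := by
  rw [← hM.diagonal_diag, ← hN.diagonal_diag, diagonal_mul_diagonal, diagonal_mul_diagonal]
  simp only [mul_comm]

theorem E_comm (A : ι × Finset (Fin n) → ℂ) {u t : Let ι j} (h : Adj u t) :
    Em A u * Tm A t = Tm A t * Em A u := by
  rcases h.2 with hd | ⟨h1, h2⟩
  · exact bops2_comm hd (bops2_E A u) (bops2_T A t)
  · obtain ⟨a, π⟩ := u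
    obtain ⟨b, ρ⟩ := t
    obtain rfl : a = none := h1
    obtain rfl : b = none := h2
    refine bops2_diag_comm (fun y x hyx => ?_) fun y x hyx => ?_
    · show Em A (none, π) y x = 0
      rw [Em_none, if_neg fun h => hyx h.1]
    · show Tm A (none, ρ) y x = 0
      rw [Tm_apply, kk_none, if_neg fun h => hyx h.1]
      simp

end Pool.Agent.P.MP_3acc10_al.Bld
end

-- part Pool.Agent.P.MP_3acc10_al.BSurD
section

set_option autoImplicit false

namespace Pool.Agent.P.MP_3acc10_al.Bld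

open Finset Module Matrix

variable {n j : ℕ} {ι : Type} [Fintype ι] [DecidableEq ι]

open Classical in
/-- the points counted by the final average -/
noncomputable def bsd_cnt (U : Finset (Fin j)) (Ω : Finset (Finset (Fin j)))
    (S : Finset (Fin n)) : Finset (Fin j → Fin n) :=
  univ.filter fun x => (Set.InjOn x U ∧ U.image x = S) ∧ ∀ π ∈ Ω, Set.InjOn x π

lemma bsd_mem {U : Finset (Fin j)} {Ω : Finset (Finset (Fin j))} {S : Finset (Fin n)}
    {x : Fin j → Fin n} : x ∈ bsd_cnt U Ω S ↔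
      (Set.InjOn x U ∧ U.image x = S) ∧ ∀ π ∈ Ω, Set.InjOn x π := by
  simp only [bsd_cnt, mem_filter, mem_univ, true_and]

lemma bsd_le (U : Finset (Fin j)) (Ω : Finset (Finset (Fin j))) {S S' : Finset (Fin n)}
    (h : S.card = S'.card) : (bsd_cnt U Ω S).card ≤ (bsd_cnt U Ω S').card := by
  obtain ⟨τ, hτ⟩ := Equiv.Perm.exists_map_finset_eq S S' h
  refine card_le_card_of_injOn (fun x => τ ∘ x) ?_ ?_
  · intro x hx
    rw [mem_coe, bsd_mem] at hx
    rw [mem_coe, bsd_mem]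
    refine ⟨⟨τ.injective.comp_injOn hx.1.1, ?_⟩, fun π hπ => τ.injective.comp_injOn (hx.2 π hπ)⟩
    rw [← image_image, hx.1.2, ← hτ, map_eq_image]
    rfl
  · intro x _ y _ hxy
    exact τ.injective.comp_left hxy

omit [Fintype ι] [DecidableEq ι] in
open Classical in
lemma bsd_star {A : ι × Finset (Fin n) → ℂ} (hA : ∀ γ, ‖A γ‖ = 1) (l : ι)
    (Ω : Finset (Finset (Fin j))) (x : Fin j → Fin n) :
    star ((∏ π ∈ Ω, fl A l π) x) * (∏ π ∈ Ω, fl A l π) x =
      if ∀ π ∈ Ω, Set.InjOn x π then 1 else 0 := by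
  rw [Finset.prod_apply]
  split_ifs with h
  · rw [star_prod, ← prod_mul_distrib]
    refine prod_eq_one fun π hπ => ?_
    simp only [fl, if_pos (h π hπ)]
    rw [mul_comm]
    exact mul_star_self hA _
  · push Not at h
    obtain ⟨π, hπ, hx⟩ := h
    rw [prod_eq_zero hπ (by simp only [fl, if_neg hx]), mul_zero]

omit [Fintype ι] [DecidableEq ι] in
theorem Av_end {A : ι × Finset (Fin n) → ℂ} (hA : ∀ γ, ‖A γ‖ = 1) (hn : j ≤ n) (l : ι)
    (U : Finset (Fin j)) (Ω : Finset (Finset (Fin j))) : ∃ ν : ℝ, 0 < ν ∧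
      ∀ ξ : Finset (Fin n) → ℂ, (∀ S, ¬ S.card = U.card → ξ S = 0) →
        Av U (∏ π ∈ Ω, fl A l π) ((∏ π ∈ Ω, fl A l π) * lift U ξ) = (ν : ℂ) • ξ := by
  classical
  have hinj : Function.Injective (Fin.castLE hn) := Fin.castLE_injective hn
  have hS0 : (U.image (Fin.castLE hn)).card = U.card := card_image_of_injective _ hinj
  refine ⟨((bsd_cnt U Ω (U.image (Fin.castLE hn))).card : ℝ), ?_, fun ξ hξ => ?_⟩
  · have : (bsd_cnt U Ω (U.image (Fin.castLE hn))).Nonempty :=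
      ⟨Fin.castLE hn, bsd_mem.2 ⟨⟨hinj.injOn, rfl⟩, fun _ _ => hinj.injOn⟩⟩
    exact_mod_cast card_pos.2 this
  · funext S
    have key : Av U (∏ π ∈ Ω, fl A l π) ((∏ π ∈ Ω, fl A l π) * lift U ξ) S =
        ((bsd_cnt U Ω S).card : ℂ) * ξ S := by
      rw [← nsmul_eq_mul, ← sum_const, bsd_cnt, sum_filter]
      refine sum_congr rfl fun x _ => ?_
      by_cases h1 : Set.InjOn x U ∧ U.image x = S
      · rw [if_pos h1, Pi.mul_apply, ← mul_assoc, bsd_star hA]
        have h2 : lift U ξ x = ξ S := by simp only [lift, if_pos h1.1, h1.2]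
        by_cases h3 : ∀ π ∈ Ω, Set.InjOn x π
        · rw [if_pos h3, if_pos ⟨h1, h3⟩, one_mul, h2]
        · rw [if_neg h3, if_neg (fun h => h3 h.2), zero_mul]
      · rw [if_neg h1, if_neg (fun h => h1 h.1)]
    rw [key, Pi.smul_apply, smul_eq_mul]
    by_cases hS : S.card = U.card
    · have := le_antisymm (bsd_le U Ω (hS.trans hS0.symm)) (bsd_le U Ω (hS0.trans hS.symm))
      rw [this]
      simp
    · rw [hξ S hS, mul_zero, mul_zero]

end Pool.Agent.P.MP_3acc10_al.Bld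
end

-- part Pool.Agent.P.MP_3acc10_al.BSurA
section

set_option autoImplicit false

namespace Pool.Agent.P.MP_3acc10_al.Bld

open Finset Module Matrix

variable {n j : ℕ} {ι : Type} [Fintype ι] [DecidableEq ι]

theorem Av_supp (U : Finset (Fin j)) (w F : (Fin j → Fin n) → ℂ) (S : Finset (Fin n))
    (h : ¬ S.card = U.card) : Av U w F S = 0 := by
  refine sum_eq_zero fun x _ => if_neg fun h1 => h ?_
  rw [← h1.2, card_image_of_injOn h1.1]

theorem bSurA_bij (e : ℕ) (U : Finset (Fin j)) (x : Fin j → Fin n) (hx : Set.InjOn x U)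
    (T : Finset (Fin n)) (φ : Finset (Fin n) → ℂ) :
    ∑ π ∈ (powersetCard e U).filter (fun π => (U \ π).image x = T), φ (π.image x)
      = ∑ Y ∈ univ.filter (fun Y => Disjoint Y T ∧ Y.card = e ∧ U.image x = Y ∪ T), φ Y := by
  refine sum_bij (fun π _ => π.image x) ?_ ?_ ?_ fun _ _ => rfl
  · intro π hπ
    obtain ⟨h1, rfl⟩ := mem_filter.1 hπ
    obtain ⟨h2, h3⟩ := mem_powersetCard.1 h1
    refine mem_filter.2 ⟨mem_univ _, ?_, ?_, ?_⟩
    · rw [image_sdiff_of_injOn hx h2]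
      exact disjoint_sdiff
    · rw [card_image_of_injOn (hx.mono (coe_subset.2 h2)), h3]
    · rw [← image_union, union_sdiff_of_subset h2]
  · intro π hπ π' hπ' h
    have h1 := (mem_powersetCard.1 (mem_filter.1 hπ).1).1
    have h2 := (mem_powersetCard.1 (mem_filter.1 hπ').1).1
    have key : ∀ {ρ ρ' : Finset (Fin j)}, ρ ⊆ U → ρ' ⊆ U → ρ.image x = ρ'.image x → ρ ⊆ ρ' := by
      intro ρ ρ' h3 h4 h5 p hp
      obtain ⟨q, hq, h6⟩ := mem_image.1 (h5 ▸ mem_image_of_mem x hp)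
      rwa [← hx (h4 hq) (h3 hp) h6]
    exact Subset.antisymm (key h1 h2 h) (key h2 h1 h.symm)
  · intro Y hY
    obtain ⟨-, h1, h2, h3⟩ := mem_filter.1 hY
    have h4 : (U.filter fun p => x p ∈ Y).image x = Y := by
      ext y
      simp only [mem_image, mem_filter]
      constructor
      · rintro ⟨p, hp, rfl⟩
        exact hp.2
      · intro hy
        obtain ⟨p, hp, rfl⟩ := mem_image.1 (h3 ▸ mem_union_left T hy)
        exact ⟨p, ⟨hp, hy⟩, rfl⟩
    have h5 : (U.filter fun p => x p ∈ Y) ⊆ U := filter_subset _ _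
    refine ⟨U.filter fun p => x p ∈ Y, mem_filter.2 ⟨mem_powersetCard.2 ⟨h5, ?_⟩, ?_⟩, h4⟩
    · rw [← card_image_of_injOn (hx.mono (coe_subset.2 h5)), h4, h2]
    · rw [image_sdiff_of_injOn hx h5, h4, h3, union_sdiff_cancel_left h1]

omit [Fintype ι] [DecidableEq ι] in
theorem Av_act (d : ι → ℕ) (A : ι × Finset (Fin n) → ℂ) (a : ι) (U : Finset (Fin j))
    (w F : (Fin j → Fin n) → ℂ) (hF : ∀ x, ¬ Set.InjOn x U → F x = 0) :
    act (gf d A a) (Av U w F) = ∑ π ∈ powersetCard (d a) U, Av (U \ π) (w * fl A a π) F := by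
  classical
  funext T
  have h1 : act (gf d A a) (Av U w F) T = ∑ x, ∑ Y ∈ univ.filter
      (fun Y => Disjoint Y T ∧ Y.card = d a ∧ U.image x = Y ∪ T),
        star (A (a, Y)) * (if Set.InjOn x U then star (w x) * F x else 0) := by
    simp only [sum_filter]
    rw [sum_comm, act]
    refine sum_congr rfl fun Y _ => ?_
    by_cases h2 : Disjoint Y T
    · by_cases h3 : Y.card = d a
      · simp only [h2, h3, mask, Av, if_true, true_and, mul_sum]
        refine sum_congr rfl fun x _ => ?_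
        by_cases h4 : U.image x = Y ∪ T <;> simp [h4]
      · simp [h3, mask]
    · simp [h2]
  rw [h1, Finset.sum_apply]
  simp only [Av]
  rw [sum_comm]
  refine sum_congr rfl fun x _ => ?_
  by_cases hx : Set.InjOn x U
  · rw [← bSurA_bij (d a) U x hx T
      (fun Y => star (A (a, Y)) * (if Set.InjOn x U then star (w x) * F x else 0)), sum_filter]
    refine sum_congr rfl fun π hπ => ?_
    have h2 := (mem_powersetCard.1 hπ).1
    have h3 : Set.InjOn x π := hx.mono (coe_subset.2 h2)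
    have h4 : Set.InjOn x (U \ π : Finset (Fin j)) := hx.mono (coe_subset.2 sdiff_subset)
    simp only [hx, h3, h4, if_true, true_and, Pi.mul_apply, fl, star_mul, mul_assoc]
  · simp [hF x hx]

end Pool.Agent.P.MP_3acc10_al.Bld
end

-- part Pool.Agent.P.MP_3acc10_al.BPanel
section

set_option autoImplicit false

namespace Pool.Agent.P.MP_3acc10_al.Bld

open Finset Module Matrix

variable {n j : ℕ} {ι : Type} [Fintype ι] [DecidableEq ι]

open Classical in
lemma bpanel_fibre {π : Finset (Fin j)} {x : Fin j → Fin n} (hx : Set.InjOn x π)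
    {I : Finset (Fin n)} (hI : I.card = π.card) :
    (univ.filter fun y => Pan π x y ∧ π.image y = I).card = π.card.factorial := by
  have h1 : Fintype.card (π ↪ I) = π.card.factorial := by
    rw [Fintype.card_embedding_eq, Fintype.card_coe, Fintype.card_coe, hI, Nat.descFactorial_self]
  rw [← h1, ← card_univ]
  symm
  refine card_bij (fun f _ => fun p => if h : p ∈ π then (f ⟨p, h⟩ : Fin n) else x p) ?_ ?_ ?_
  · intro f _
    have hinj : Set.InjOn (fun p => if h : p ∈ π then (f ⟨p, h⟩ : Fin n) else x p) π := by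
      intro p hp q hq e
      have hp' : p ∈ π := hp
      have hq' : q ∈ π := hq
      simp only [dif_pos hp', dif_pos hq'] at e
      have := f.injective (Subtype.ext e)
      exact congrArg Subtype.val this
    simp only [mem_filter, mem_univ, true_and]
    refine ⟨⟨fun p hp => dif_neg hp, hx, hinj⟩, ?_⟩
    apply eq_of_subset_of_card_le
    · intro e he
      obtain ⟨p, hp, rfl⟩ := mem_image.1 he
      simp only [dif_pos hp]
      exact (f ⟨p, hp⟩).2
    · rw [card_image_of_injOn hinj, hI]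
  · intro f _ g _ e
    ext p
    have := congrFun e p.1
    simp only [dif_pos p.2] at this
    exact congrArg Fin.val this
  · intro y hy
    simp only [mem_filter, mem_univ, true_and] at hy
    obtain ⟨⟨h1, _, h3⟩, h4⟩ := hy
    refine ⟨⟨fun p => ⟨y p, h4 ▸ mem_image_of_mem y p.2⟩, fun p q e => ?_⟩, mem_univ _, ?_⟩
    · exact Subtype.ext (h3 p.2 q.2 (congrArg Subtype.val e))
    · funext p
      by_cases hp : p ∈ π
      · simp only [dif_pos hp]; rfl
      · simp only [dif_neg hp]; exact (h1 p hp).symm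

open Classical in
theorem panel {R : Type*} [CommSemiring R] {π : Finset (Fin j)} {x : Fin j → Fin n}
    (hx : Set.InjOn x π) (φ : Finset (Fin n) → R) :
    ∑ y, (if Pan π x y then φ (π.image y) else 0) =
      (π.card.factorial : R) * ∑ I ∈ powersetCard π.card univ, φ I := by
  rw [← sum_filter, mul_sum]
  have hm : ∀ y ∈ univ.filter (fun y => Pan π x y), π.image y ∈ powersetCard π.card univ := by
    intro y hy
    simp only [mem_filter, mem_univ, true_and] at hy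
    exact mem_powersetCard.2 ⟨subset_univ _, card_image_of_injOn hy.2.2⟩
  rw [← sum_fiberwise_of_maps_to hm]
  refine sum_congr rfl fun I hI => ?_
  rw [filter_filter, sum_congr rfl (g := fun _ => φ I), sum_const,
    bpanel_fibre hx (mem_powersetCard.1 hI).2, nsmul_eq_mul]
  intro y hy
  simp only [mem_filter, mem_univ, true_and] at hy
  rw [hy.2]

omit [Fintype ι] [DecidableEq ι] in
theorem kk_sum (a : ι) {π : Finset (Fin j)} {x : Fin j → Fin n} (hx : Set.InjOn x π)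
    (φ : Finset (Fin n) → ℝ) : ∑ y, kk (some a, π) x y * φ (π.image y) =
      kap n π.card * ∑ I ∈ (powersetCard π.card univ).erase (π.image x), φ I := by
  classical
  have h := panel hx fun I => if I ≠ π.image x then kap n π.card / π.card.factorial * φ I else 0
  have hf : (π.card.factorial : ℝ) ≠ 0 := by exact_mod_cast (Nat.factorial_pos _).ne'
  have e1 : ∀ y, kk (some a, π) x y * φ (π.image y) = if Pan π x y then
      (if π.image y ≠ π.image x then kap n π.card / π.card.factorial * φ (π.image y) else 0)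
      else 0 := by
    intro y
    rw [kk_some]
    by_cases h1 : Pan π x y <;> by_cases h2 : π.image y = π.image x <;> simp [h1, h2]
  rw [sum_congr rfl fun y _ => e1 y, h, ← sum_filter, filter_ne', ← mul_sum, ← mul_assoc,
    mul_div_cancel₀ _ hf]

end Pool.Agent.P.MP_3acc10_al.Bld
end

-- part Pool.Agent.P.MP_3acc10_al.BOps1
section

set_option autoImplicit false

namespace Pool.Agent.P.MP_3acc10_al.Bld

open Finset Module Matrix

variable {n j : ℕ} {ι : Type} [Fintype ι] [DecidableEq ι]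

variable {A : ι × Finset (Fin n) → ℂ}

lemma bops1_trans {π : Finset (Fin j)} {x y z : Fin j → Fin n} (h : Pan π x y) (h' : Pan π y z) :
    Pan π x z := ⟨fun p hp => (h'.1 p hp).trans (h.1 p hp), h.2.1, h'.2.2⟩

omit [Fintype ι] [DecidableEq ι] in
lemma bops1_sum (hn : j + 2 ≤ n) (a : ι) {π : Finset (Fin j)} (hu : π.Nonempty)
    {x : Fin j → Fin n} (hx : Set.InjOn x π) : ∑ z, ((kk (some a, π) x z : ℝ) : ℂ) = 1 := by
  have h1 := kk_sum a hx fun _ => 1
  have hle : π.card ≤ j := by simpa using π.card_le_univ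
  have hm : π.image x ∈ powersetCard π.card (univ : Finset (Fin n)) :=
    mem_powersetCard.2 ⟨subset_univ _, card_image_of_injOn hx⟩
  simp only [mul_one, sum_const, nsmul_eq_mul] at h1
  rw [card_erase_of_mem hm, card_powersetCard, card_univ, Fintype.card_fin,
    Nat.cast_sub (Nat.choose_pos (by omega)), Nat.cast_one, kap_mul hn hu.card_pos hle] at h1
  exact_mod_cast h1

theorem E_mul_T (hA : ∀ γ, ‖A γ‖ = 1) (hn : j + 2 ≤ n) (u : Let ι j) (hu : u.2.Nonempty) :
    Em A u * Tm A u = -Em A u := by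
  classical
  ext y x
  obtain ⟨_ | a, π⟩ := u
  · rw [Matrix.mul_apply, sum_eq_single y]
    · simp only [Matrix.neg_apply, Em_none, Tm_apply, kk_none, dl_none, chi_zero]
      by_cases h : y = x
      · subst h
        by_cases h2 : Set.InjOn y π <;> simp [h2]
      · simp [h]
    · intro z _ hz
      simp [Em_none, hz.symm]
    · simp
  · have key : ∀ z, Em A (some a, π) y z * Tm A (some a, π) z x =
        -Em A (some a, π) y x * (kk (some a, π) x z : ℝ) := fun z => by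
      by_cases hk : kk (some a, π) x z = 0
      · simp [Tm_apply, hk]
      have hp := (kk_ne hk).1
      rw [Tm_apply, Em_some, Em_some]
      by_cases h : Pan π x y
      · rw [if_pos h, if_pos (bops1_trans (Pan_symm hp) h), chi_dl hA, chi_dl hA, chi_dl hA]
        have e := mul_star_self hA (a, π.image z)
        linear_combination (-((π.card.factorial * n.choose π.card : ℕ) : ℂ)⁻¹ *
          A (a, π.image y) * star (A (a, π.image x)) * (kk (some a, π) x z : ℝ)) * e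
      · rw [if_neg h, if_neg fun h' => h (bops1_trans hp h')]
        simp
    rw [Matrix.mul_apply, sum_congr rfl fun z _ => key z, ← mul_sum, Matrix.neg_apply]
    by_cases hx : Set.InjOn x π
    · rw [bops1_sum hn a hu hx, mul_one]
    · rw [Em_some, if_neg fun h => hx h.2.1]
      simp

theorem E_herm (hA : ∀ γ, ‖A γ‖ = 1) (u : Let ι j) (y x : Fin j → Fin n) :
    star (Em A u y x) = Em A u x y := by
  classical
  obtain ⟨_ | a, π⟩ := u
  · rw [Em_none, Em_none]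
    by_cases h : y = x
    · subst h
      split_ifs <;> simp
    · rw [if_neg fun h' => h h'.1, if_neg fun h' => h h'.1.symm, star_zero]
  · rw [Em_some, Em_some]
    by_cases h : Pan π x y
    · rw [if_pos h, if_pos (Pan_symm h), chi_dl hA, chi_dl hA, star_mul', star_mul', star_star,
        star_inv₀, star_natCast, mul_comm (star _)]
    · rw [if_neg h, if_neg fun h' => h (Pan_symm h'), star_zero]

theorem E_fix (hA : ∀ γ, ‖A γ‖ = 1) (hn : j ≤ n) (a : ι) {π V : Finset (Fin j)}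
    {w : (Fin j → Fin n) → ℂ} (hw : Dep V w) (hV : Disjoint V π) :
    Em A (some a, π) *ᵥ (fl A a π * w) = fl A a π * w := by
  classical
  ext y
  have hle : π.card ≤ n := le_trans (by simpa using π.card_le_univ) hn
  have key : ∀ x, Em A (some a, π) y x * (fl A a π * w) x =
      (((π.card.factorial * n.choose π.card : ℕ) : ℂ)⁻¹ * (fl A a π * w) y) *
        if Pan π y x then 1 else 0 := fun x => by
    rw [Em_some]
    by_cases h : Pan π x y
    · have e := mul_star_self hA (a, π.image x)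
      have e2 : w x = w y := hw x y fun p hp => (h.1 p (disjoint_left.1 hV hp)).symm
      rw [if_pos h, if_pos (Pan_symm h), chi_dl hA, Pi.mul_apply, Pi.mul_apply, fl, fl]
      simp only [if_pos h.2.1, if_pos h.2.2, e2]
      linear_combination (((π.card.factorial * n.choose π.card : ℕ) : ℂ)⁻¹ *
        A (a, π.image y) * w y) * e
    · rw [if_neg h, if_neg fun h' => h (Pan_symm h'), zero_mul, mul_zero]
  rw [Matrix.mulVec, dotProduct, sum_congr rfl fun x _ => key x, ← mul_sum]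
  by_cases hy : Set.InjOn y π
  · have h1 := panel (R := ℂ) hy fun _ => 1
    simp only [sum_const, nsmul_eq_mul, mul_one, card_powersetCard, card_univ,
      Fintype.card_fin] at h1
    have h2 : ((π.card.factorial * n.choose π.card : ℕ) : ℂ) ≠ 0 :=
      Nat.cast_ne_zero.2 (Nat.mul_pos (Nat.factorial_pos _) (Nat.choose_pos hle)).ne'
    rw [h1, ← Nat.cast_mul, mul_comm, ← mul_assoc, mul_inv_cancel₀ h2, one_mul]
  · simp [fl, hy]

end Pool.Agent.P.MP_3acc10_al.Bld
end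

-- part Pool.Agent.P.MP_3acc10_al.BSurB
section

set_option autoImplicit false

namespace Pool.Agent.P.MP_3acc10_al.Bld

open Finset Module Matrix

variable {n j : ℕ} {ι : Type} [Fintype ι] [DecidableEq ι]

variable {A : ι × Finset (Fin n) → ℂ}

theorem Av_E (hA : ∀ γ, ‖A γ‖ = 1) (hn : j ≤ n) (a : ι) {π U V : Finset (Fin j)}
    {w : (Fin j → Fin n) → ℂ} (hw : Dep V w) (hV : Disjoint V π) (hU : Disjoint U π)
    (F : (Fin j → Fin n) → ℂ) :
    Av U (w * fl A a π) (Em A (some a, π) *ᵥ F) = Av U (w * fl A a π) F := by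
  classical
  funext S
  set w' : (Fin j → Fin n) → ℂ := fun x => if Set.InjOn x U ∧ U.image x = S then w x else 0
    with hw'
  have hD : Dep (V ∪ U) w' := by
    intro x y h
    have h1 : ∀ p ∈ U, x p = y p := fun p hp => h p (mem_union_right _ hp)
    have h2 : U.image x = U.image y := image_congr fun p hp => h1 p hp
    have h3 : Set.InjOn x U ↔ Set.InjOn y U := Set.EqOn.injOn_iff fun p hp => h1 p hp
    simp only [hw', h2, h3, hw x y fun p hp => h p (mem_union_left _ hp)]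
  have key : ∀ G : (Fin j → Fin n) → ℂ,
      Av U (w * fl A a π) G S = ∑ x, star ((fl A a π * w') x) * G x := by
    intro G
    refine sum_congr rfl fun x _ => ?_
    simp only [hw', Pi.mul_apply]
    split_ifs
    · rw [mul_comm (w x)]
    · simp
  have hf := E_fix hA hn a hD (disjoint_union_left.2 ⟨hV, hU⟩)
  rw [key, key]
  conv_rhs => rw [← hf]
  simp only [mulVec, dotProduct, mul_sum, star_sum, sum_mul]
  rw [sum_comm]
  refine sum_congr rfl fun x _ => sum_congr rfl fun y _ => ?_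
  rw [star_mul', E_herm hA]
  ring

theorem T_lift_some (hA : ∀ γ, ‖A γ‖ = 1) (d : ι → ℕ) (a : ι) {π U V : Finset (Fin j)}
    (hπ : π ⊆ U) (hc : π.card = d a) {w : (Fin j → Fin n) → ℂ} (hw : Dep V w)
    (hV : Disjoint V U) {ξ : Finset (Fin n) → ℂ} (hξ : act (gf d A a) ξ = 0) :
    Tm A (some a, π) *ᵥ (w * lift U ξ) = (kap n π.card : ℂ) • (w * lift U ξ) := by
  classical
  funext y
  simp only [mulVec, dotProduct, Pi.smul_apply, smul_eq_mul, Pi.mul_apply]
  by_cases hy : Set.InjOn y π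
  swap
  · have h0 : lift U ξ y = 0 := if_neg fun h' => hy (h'.mono (coe_subset.2 hπ))
    rw [h0, mul_zero, mul_zero]
    refine sum_eq_zero fun x _ => ?_
    rw [Tm_apply, kk_some, if_neg fun h => hy h.1.2.2]
    simp
  set T := (U \ π).image y with hT
  set φ : Finset (Fin n) → ℂ := fun I => if Disjoint I T then star (A (a, I)) * ξ (I ∪ T) else 0
    with hφ
  set χ : ℂ := if Set.InjOn y (U \ π : Finset (Fin j)) then 1 else 0 with hχ
  have hU : U = π ∪ U \ π := (union_sdiff_of_subset hπ).symm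
  have hl : ∀ x, Pan π y x → star (A (a, π.image x)) * lift U ξ x = χ * φ (π.image x) := by
    intro x hx
    have e1 : ∀ p ∈ U \ π, x p = y p := fun p hp => hx.1 p (mem_sdiff.1 hp).2
    have e2 : (U \ π).image x = T := image_congr fun p hp => e1 p hp
    have e3 : U.image x = π.image x ∪ T := by rw [← e2, ← image_union, ← hU]
    have e4 : Set.InjOn x U ↔ Set.InjOn y (U \ π : Finset (Fin j)) ∧ Disjoint (π.image x) T := by
      rw [← Set.EqOn.injOn_iff (f₁ := x) fun p hp => e1 p hp, ← e2]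
      conv_lhs => rw [hU, coe_union]
      rw [Set.injOn_union (disjoint_coe.2 disjoint_sdiff), disjoint_left]
      constructor
      · rintro ⟨-, h2, h3⟩
        refine ⟨h2, fun v hv hv' => ?_⟩
        obtain ⟨p, hp, rfl⟩ := mem_image.1 hv
        obtain ⟨p', hp', e⟩ := mem_image.1 hv'
        exact h3 p hp p' hp' e.symm
      · rintro ⟨h2, h3⟩
        exact ⟨hx.2.2, h2, fun p hp p' hp' e =>
          h3 (mem_image_of_mem x hp) (e ▸ mem_image_of_mem x hp')⟩
    simp only [lift, hχ, hφ, e3, e4]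
    by_cases h1 : Set.InjOn y (U \ π : Finset (Fin j)) <;>
      by_cases h2 : Disjoint (π.image x) T <;> simp [h1, h2]
  have htot : ∑ I ∈ powersetCard π.card univ, φ I = 0 := by
    have h1 := congrFun hξ T
    rw [Pi.zero_apply] at h1
    rw [← h1, act, powersetCard_eq_filter, powerset_univ, sum_filter]
    refine sum_congr rfl fun I _ => ?_
    simp only [hφ, gf, mask, hc]
    split_ifs <;> simp
  have hmem : π.image y ∈ powersetCard π.card (univ : Finset (Fin n)) :=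
    mem_powersetCard.2 ⟨subset_univ _, card_image_of_injOn hy⟩
  have hf : (π.card.factorial : ℂ) ≠ 0 := by exact_mod_cast π.card.factorial_ne_zero
  have hterm : ∀ x, Tm A (some a, π) y x * (w x * lift U ξ x) =
      -((kap n π.card : ℂ) / π.card.factorial * A (a, π.image y) * w y * χ) *
        (if Pan π y x then (if π.image x = π.image y then 0 else φ (π.image x)) else 0) := by
    intro x
    rw [Tm_apply, kk_some, chi_dl hA]
    by_cases hP : Pan π y x
    · rw [if_pos hP]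
      by_cases he : π.image x = π.image y
      · rw [if_neg fun h => h.2 he.symm, if_pos he]
        simp
      · have e5 : w x = w y := hw x y fun p hp =>
          hP.1 p fun hp' => disjoint_left.1 hV hp (hπ hp')
        rw [if_pos ⟨Pan_symm hP, fun h => he h.symm⟩, if_neg he, e5]
        push_cast
        linear_combination
          -((kap n π.card : ℂ) / π.card.factorial * A (a, π.image y) * w y) * hl x hP
    · rw [if_neg fun h => hP (Pan_symm h.1), if_neg hP]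
      simp
  have hsum : ∑ I ∈ powersetCard π.card univ, (if I = π.image y then 0 else φ I) =
      -φ (π.image y) := by
    rw [← add_sum_erase _ _ hmem] at htot ⊢
    rw [if_pos rfl, zero_add, sum_congr rfl fun I hI => if_neg (ne_of_mem_erase hI)]
    linear_combination htot
  rw [sum_congr rfl fun x _ => hterm x, ← mul_sum,
    panel hy fun I => if I = π.image y then 0 else φ I, hsum]
  have h5 := hl y ⟨fun _ _ => rfl, hy, hy⟩
  have h6 := mul_star_self hA (a, π.image y)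
  field_simp
  linear_combination (-(kap n π.card : ℂ) * A (a, π.image y) * w y) * h5 +
    ((kap n π.card : ℂ) * w y * lift U ξ y) * h6

theorem T_lift_none (A : ι × Finset (Fin n) → ℂ) {π U : Finset (Fin j)} (hπ : π ⊆ U)
    (w : (Fin j → Fin n) → ℂ) (ξ : Finset (Fin n) → ℂ) :
    Tm A (none, π) *ᵥ (w * lift U ξ) = 0 := by
  funext y
  simp only [mulVec, dotProduct, Pi.zero_apply]
  refine sum_eq_zero fun x _ => ?_
  rw [Tm_apply, kk_none]
  split_ifs with h
  · have : lift U ξ x = 0 := if_neg fun h' => h.2 (h'.mono (coe_subset.2 hπ))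
    simp [this]
  · simp

end Pool.Agent.P.MP_3acc10_al.Bld
end

-- part Pool.Agent.P.MP_3acc10_al.BQ
section

set_option autoImplicit false

namespace Pool.Agent.P.MP_3acc10_al.Bld

open Finset Module Matrix

variable {n j : ℕ} {ι : Type} [Fintype ι] [DecidableEq ι]

variable {d : ι → ℕ} {ℬ : Finset (Finset ι)} {σ : St (Let ι j)}

/-- commutation of shapes -/
def bq_AdjS (τ ρ : Bool × Finset (Fin j)) : Prop :=
  Disjoint τ.2 ρ.2 ∨ (τ.1 = false ∧ ρ.1 = false ∧ τ.2 ≠ ρ.2)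

omit [Fintype ι] [DecidableEq ι] in
lemma bq_ne (hd : ∀ a, 0 < d a) {B : Finset ι} {t : Let ι j} (ht : Val d B t) :
    t.2.Nonempty := by
  obtain ⟨o, π⟩ := t
  rw [← Finset.card_pos]
  cases o with
  | none => have := Val_none.1 ht; simp only; omega
  | some a => have := (Val_some.1 ht).2; have := hd a; simp only; omega

omit [Fintype ι] [DecidableEq ι] in
lemma bq_adj {t u : Let ι j} (ht : t.2.Nonempty) : Adj t u ↔ bq_AdjS (sh t) (sh u) := by
  obtain ⟨o, π⟩ := t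
  obtain ⟨o', π'⟩ := u
  simp only [Adj, bq_AdjS, sh] at ht ⊢
  constructor
  · rintro ⟨hne, h | ⟨h1, h2⟩⟩
    · exact Or.inl h
    · subst h1 h2
      refine Or.inr ⟨rfl, rfl, fun h => hne ?_⟩
      rw [h]
  · rintro (h | ⟨h1, h2, h3⟩)
    · refine ⟨fun he => ?_, Or.inl h⟩
      have h2 : π = π' := congrArg Prod.snd he
      subst h2
      exact ht.ne_empty (disjoint_self.1 h)
    · refine ⟨fun he => h3 (congrArg Prod.snd he), Or.inr ⟨?_, ?_⟩⟩
      · cases o with
        | none => rfl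
        | some a => simp at h1
      · cases o' with
        | none => rfl
        | some a => simp at h2

theorem Qs_val (hσ : σ ∈ Qs j d ℬ) : ∃ B ∈ ℬ, ∀ t ∈ σ.1, Val d B t := by
  obtain ⟨B, hB, 𝒮, Fs, cl, h1, -, -, -⟩ := mem_Qs.1 hσ
  refine ⟨B, hB, fun t ht => ?_⟩
  rw [h1] at ht
  exact (mem_Alph.1 ht).1

theorem rk_ne (hd : ∀ a, 0 < d a) {B : Finset ι} {t u : Let ι j} (ht : Val d B t)
    (h : Adj t u) : rk t ≠ rk u := by
  have hne := bq_ne hd ht
  intro he
  have h2 : t.2 = u.2 := rkS_inj he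
  rcases (bq_adj hne).1 h with h3 | ⟨-, -, h3⟩
  · have h4 : Disjoint t.2 u.2 := h3
    rw [← h2] at h4
    exact hne.ne_empty (disjoint_self.1 h4)
  · exact h3 h2

theorem Qs_upd (hd : ∀ a, 0 < d a) (hσ : σ ∈ Qs j d ℬ) {t : Let ι j} (ht : t ∈ alw σ) :
    upd Adj rk σ t ∈ Qs j d ℬ := by
  classical
  obtain ⟨B, hB, 𝒮, Fs, cl, h1, h2, h3, h4⟩ := mem_Qs.1 hσ
  obtain ⟨ht1, ht2⟩ := mem_alw.1 ht
  have htv : Val d B t := by
    rw [h1] at ht1
    exact (mem_Alph.1 ht1).1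
  have hne := bq_ne hd htv
  refine mem_Qs.2 ⟨B, hB, 𝒮,
    univ.filter (fun τ => bq_AdjS (sh t) τ ∧ (τ ∈ Fs ∨ rkS τ.2 < rk t)),
    insert t (cl.filter (Adj t)), h1, ?_, ?_, ?_⟩
  · intro s hs
    rcases mem_insert.1 hs with hs | hs
    · rw [hs]; exact ht1
    · exact h2 (mem_filter.1 hs).1
  · intro s hs u hu hsu
    rcases mem_insert.1 hs with hs | hs
    · rcases mem_insert.1 hu with hu | hu
      · exact absurd (hs.trans hu.symm) hsu
      · rw [hs]; exact (mem_filter.1 hu).2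
    · rcases mem_insert.1 hu with hu | hu
      · rw [hu]; exact Adj_symm (mem_filter.1 hs).2
      · exact h3 s (mem_filter.1 hs).1 u (mem_filter.1 hu).1 hsu
  · intro s
    rw [mem_upd, upd_fst, h4 s, mem_insert, mem_filter, mem_filter, ← bq_adj hne]
    have h5 : s ∈ cl → s ∈ σ.1 := fun h => h2 h
    have h6 : rkS (sh s).2 = rk s := rfl
    rw [h6]
    simp only [mem_univ, true_and]
    tauto

theorem Qs_res (hd : ∀ a, 0 < d a) (hσ : σ ∈ Qs j d ℬ) {u : Let ι j} (hu : u ∈ σ.1) :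
    res Adj u σ ∈ Qs j d ℬ := by
  classical
  obtain ⟨B, hB, 𝒮, Fs, cl, h1, h2, h3, h4⟩ := mem_Qs.1 hσ
  have huv : Val d B u := by
    rw [h1] at hu
    exact (mem_Alph.1 hu).1
  have hne := bq_ne hd huv
  refine mem_Qs.2 ⟨B, hB, 𝒮.filter (bq_AdjS (sh u)), Fs, cl.filter (Adj u), ?_, ?_, ?_, ?_⟩
  · ext s
    rw [mem_res_fst, h1, mem_Alph, mem_Alph, mem_filter, ← bq_adj hne, and_assoc]
  · intro s hs
    exact mem_res_fst.2 ⟨h2 (mem_filter.1 hs).1, (mem_filter.1 hs).2⟩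
  · intro s hs t ht hst
    exact h3 s (mem_filter.1 hs).1 t (mem_filter.1 ht).1 hst
  · intro s
    rw [mem_res_snd, mem_res_fst, h4 s, mem_filter]
    tauto

theorem Qs_ini {B : Finset ι} (hB : B ∈ ℬ) {l : ι} (hl : l ∈ B) (U : Finset (Fin j))
    (Ω : Finset (Finset (Fin j))) (hΩ : ∀ π ∈ Ω, π ⊆ U ∧ π.card = d l)
    (hdis : ∀ π ∈ Ω, ∀ ρ ∈ Ω, π ≠ ρ → Disjoint π ρ) : ini d B l U Ω ∈ Qs j d ℬ := by
  classical
  refine mem_Qs.2 ⟨B, hB, univ.filter (fun τ => τ.2 ⊆ U), ∅, Ω.image fun π => (some l, π),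
    ?_, ?_, ?_, ?_⟩
  · ext s
    simp only [ini]
    rw [mem_AlU, mem_Alph, mem_filter]
    simp [sh]
  · intro s hs
    obtain ⟨π, hπ, rfl⟩ := mem_image.1 hs
    exact mem_AlU.2 ⟨Val_some.2 ⟨hl, (hΩ π hπ).2⟩, (hΩ π hπ).1⟩
  · intro s hs u hu hsu
    obtain ⟨π, hπ, rfl⟩ := mem_image.1 hs
    obtain ⟨ρ, hρ, rfl⟩ := mem_image.1 hu
    refine ⟨hsu, Or.inl (hdis π hπ ρ hρ fun h => hsu ?_)⟩
    rw [h]
  · intro s
    simp [ini]

theorem res_ini (hd : ∀ a, 0 < d a) (B : Finset ι) (l : ι) (U : Finset (Fin j))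
    (Ω : Finset (Finset (Fin j))) (hdis : ∀ π ∈ Ω, ∀ ρ ∈ Ω, π ≠ ρ → Disjoint π ρ)
    {π : Finset (Fin j)} (hπ : π ∈ Ω) (hc : π.card = d l) :
    res Adj (some l, π) (ini d B l U Ω) = ini d B l (U \ π) (Ω.erase π) := by
  have hne : π.Nonempty := by
    rw [← Finset.card_pos, hc]; exact hd l
  have hadj : ∀ s : Let ι j, Adj (some l, π) s ↔ Disjoint π s.2 := by
    intro s
    rw [bq_adj (t := (some l, π)) hne]
    simp [bq_AdjS, sh]
  refine Prod.ext ?_ ?_
  · ext s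
    rw [mem_res_fst, hadj]
    simp only [ini]
    rw [mem_AlU, mem_AlU, subset_sdiff, and_assoc, disjoint_comm]
  · ext s
    rw [mem_res_snd, hadj]
    simp only [ini, mem_image, mem_erase]
    constructor
    · rintro ⟨⟨ρ, hρ, rfl⟩, hdj⟩
      refine ⟨ρ, ⟨fun h => ?_, hρ⟩, rfl⟩
      rw [h] at hdj
      exact hne.ne_empty (disjoint_self.1 hdj)
    · rintro ⟨ρ, ⟨h1, hρ⟩, rfl⟩
      exact ⟨⟨ρ, hρ, rfl⟩, hdis π hπ ρ hρ (Ne.symm h1)⟩

end Pool.Agent.P.MP_3acc10_al.Bld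
end

-- part Pool.Agent.P.MP_3acc10_al.BSurE
section

set_option autoImplicit false

namespace Pool.Agent.P.MP_3acc10_al.Bld

open Finset Module Matrix

variable {n j : ℕ} {ι : Type} [Fintype ι] [DecidableEq ι]

variable {A : ι × Finset (Fin n) → ℂ} {d : ι → ℕ} {B : Finset ι} {l : ι}
  {G : St (Let ι j) → Matrix (Fin j → Fin n) (Fin j → Fin n) ℂ}

omit [Fintype ι] [DecidableEq ι] in
theorem bsure_av_zero (U : Finset (Fin j)) (w : (Fin j → Fin n) → ℂ) : Av U w 0 = 0 := by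
  ext S
  simp [Av]

theorem bsure_vanish {U : Finset (Fin j)} {Ω : Finset (Finset (Fin j))}
    (h : ∀ u ∈ AlU d (insert l B) U, Em A u * G (ini d (insert l B) l U Ω) =
        if u ∈ (ini d (insert l B) l U Ω).2 then
          G (res Adj u (ini d (insert l B) l U Ω)) * Em A u else 0)
    (ψ : (Fin j → Fin n) → ℂ) (x : Fin j → Fin n) (hx : ¬ Set.InjOn x U) :
    (G (ini d (insert l B) l U Ω) *ᵥ ψ) x = 0 := by
  obtain ⟨p, hp, q, hq, hpq, hne⟩ : ∃ p ∈ U, ∃ q ∈ U, x p = x q ∧ p ≠ q := by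
    by_contra hc
    exact hx fun p hp q hq hpq => by_contra fun hne => hc ⟨p, hp, q, hq, hpq, hne⟩
  have hu : ((none, {p, q}) : Let ι j) ∈ AlU d (insert l B) U := by
    refine mem_AlU.2 ⟨Val_none.2 (card_pair hne), ?_⟩
    exact insert_subset hp (singleton_subset_iff.2 hq)
  have h1 := h _ hu
  rw [if_neg (by simp [ini])] at h1
  have h2 : (Em A ((none, {p, q}) : Let ι j) *ᵥ (G (ini d (insert l B) l U Ω) *ᵥ ψ)) x = 0 := by
    rw [mulVec_mulVec, h1, zero_mulVec, Pi.zero_apply]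
  have h3 : ¬ Set.InjOn x ({p, q} : Finset (Fin j)) := fun hi =>
    hne (hi (by simp) (by simp) hpq)
  rw [mulVec, dotProduct, sum_eq_single x] at h2
  · rwa [Em_none, if_pos ⟨rfl, h3⟩, one_mul] at h2
  · intro y _ hy
    rw [Em_none, if_neg fun hc => hy hc.1.symm, zero_mul]
  · simp

omit [Fintype ι] [DecidableEq ι] in
theorem bsure_iter_sum {κ : Type} (g : Finset (Fin n) → ℂ) (m : ℕ) (s : Finset κ)
    (f : κ → Finset (Fin n) → ℂ) :
    (act g)^[m] (∑ i ∈ s, f i) = ∑ i ∈ s, (act g)^[m] (f i) := by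
  induction m with
  | zero => rfl
  | succ m ih =>
    simp only [Function.iterate_succ_apply', ih]
    exact map_sum (actL g) _ s

omit [Fintype ι] [DecidableEq ι] in
theorem bsure_dep (A : ι × Finset (Fin n) → ℂ) (l : ι) {V π : Finset (Fin j)}
    {w : (Fin j → Fin n) → ℂ} (hw : Dep V w) : Dep (V ∪ π) (w * fl A l π) := by
  intro x y h
  have h1 : w x = w y := hw x y fun p hp => h p (mem_union_left _ hp)
  have h2 : Set.EqOn x y π := fun p hp => h p (mem_union_right _ hp)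
  have h3 : π.image x = π.image y := image_congr h2
  have h4 : Set.InjOn x π ↔ Set.InjOn y π := h2.injOn_iff
  simp only [Pi.mul_apply, fl, h1, h3, h4]

theorem Av_mem (hA : ∀ γ, ‖A γ‖ = 1) (hn : j ≤ n) (hl : l ∉ B)
    (hGE : ∀ (U : Finset (Fin j)) (Ω : Finset (Finset (Fin j))),
      (∀ π ∈ Ω, π ⊆ U ∧ π.card = d l) → (∀ π ∈ Ω, ∀ ρ ∈ Ω, π ≠ ρ → Disjoint π ρ) →
      ∀ u ∈ AlU d (insert l B) U, Em A u * G (ini d (insert l B) l U Ω) =
        if u ∈ (ini d (insert l B) l U Ω).2 then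
          G (res Adj u (ini d (insert l B) l U Ω)) * Em A u else 0)
    (U : Finset (Fin j)) (Ω : Finset (Finset (Fin j))) (hΩ : ∀ π ∈ Ω, π ⊆ U ∧ π.card = d l)
    (hdis : ∀ π ∈ Ω, ∀ ρ ∈ Ω, π ≠ ρ → Disjoint π ρ) (ψ : (Fin j → Fin n) → ℂ) :
    Av U 1 (G (ini d (insert l B) l U Ω) *ᵥ ψ) ∈ WF U.card d B fun p => star (A p) := by
  refine mem_W.2 ⟨fun S hS => Av_supp U _ _ S hS, fun a ha => ?_⟩
  have h := hGE U Ω hΩ hdis
  change act (gf d A a) _ = 0
  rw [Av_act d A a U 1 _ (bsure_vanish h ψ)]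
  refine sum_eq_zero fun π hπ => ?_
  rw [mem_powersetCard] at hπ
  have hu : ((some a, π) : Let ι j) ∈ AlU d (insert l B) U :=
    mem_AlU.2 ⟨Val_some.2 ⟨mem_insert_of_mem ha, hπ.2⟩, hπ.1⟩
  have hal : l ≠ a := fun e => hl (e ▸ ha)
  have h1 := h _ hu
  rw [if_neg (by simp [ini, hal])] at h1
  rw [← Av_E hA hn a (V := ∅) (fun _ _ _ => rfl) (disjoint_empty_left _) sdiff_disjoint,
    mulVec_mulVec, h1, zero_mulVec, bsure_av_zero]

theorem Av_pow (hA : ∀ γ, ‖A γ‖ = 1) (hn : j ≤ n) (hd : ∀ a, 0 < d a)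
    (hGE : ∀ (U : Finset (Fin j)) (Ω : Finset (Finset (Fin j))),
      (∀ π ∈ Ω, π ⊆ U ∧ π.card = d l) → (∀ π ∈ Ω, ∀ ρ ∈ Ω, π ≠ ρ → Disjoint π ρ) →
      ∀ u ∈ AlU d (insert l B) U, Em A u * G (ini d (insert l B) l U Ω) =
        if u ∈ (ini d (insert l B) l U Ω).2 then
          G (res Adj u (ini d (insert l B) l U Ω)) * Em A u else 0)
    (ψ : (Fin j → Fin n) → ℂ) (m : ℕ) : ∀ (U V : Finset (Fin j)) (Ω : Finset (Finset (Fin j)))
      (w : (Fin j → Fin n) → ℂ), Ω.card = m → (∀ π ∈ Ω, π ⊆ U ∧ π.card = d l) →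
      (∀ π ∈ Ω, ∀ ρ ∈ Ω, π ≠ ρ → Disjoint π ρ) → Dep V w → Disjoint V U →
      (∀ π ∈ Ω, Em A (some l, π) *ᵥ ψ = ψ) →
      (act (gf d A l))^[m] (Av U w (G (ini d (insert l B) l U Ω) *ᵥ ψ)) =
        (m.factorial : ℂ) • Av (U \ Ω.biUnion id) (w * ∏ π ∈ Ω, fl A l π)
          (G (ini d (insert l B) l (U \ Ω.biUnion id) ∅) *ᵥ ψ) := by
  induction m with
  | zero =>
    intro U V Ω w hm _ _ _ _ _
    rw [card_eq_zero] at hm
    subst hm
    simp
  | succ m ih =>
    intro U V Ω w hm hΩ hdis hw hVU hψ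
    have h := hGE U Ω hΩ hdis
    have hsub : Ω ⊆ powersetCard (d l) U := fun π hπ => mem_powersetCard.2 (hΩ π hπ)
    have hE : ∀ π ∈ powersetCard (d l) U,
        Av (U \ π) (w * fl A l π) (G (ini d (insert l B) l U Ω) *ᵥ ψ) = if π ∈ Ω then
          Av (U \ π) (w * fl A l π) (G (ini d (insert l B) l (U \ π) (Ω.erase π)) *ᵥ ψ)
        else 0 := by
      intro π hπ
      rw [mem_powersetCard] at hπ
      have hu : ((some l, π) : Let ι j) ∈ AlU d (insert l B) U :=
        mem_AlU.2 ⟨Val_some.2 ⟨mem_insert_self _ _, hπ.2⟩, hπ.1⟩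
      rw [← Av_E hA hn l hw (hVU.mono_right hπ.1) sdiff_disjoint, mulVec_mulVec, h _ hu]
      by_cases hπΩ : π ∈ Ω
      · rw [if_pos (by simp [ini, hπΩ]), if_pos hπΩ, ← mulVec_mulVec, hψ π hπΩ,
          res_ini hd _ l U Ω hdis hπΩ hπ.2]
      · rw [if_neg (by simp [ini, hπΩ]), if_neg hπΩ, zero_mulVec, bsure_av_zero]
    rw [Function.iterate_succ_apply, Av_act d A l U w _ (bsure_vanish h ψ), sum_congr rfl hE,
      ← sum_filter, filter_mem_eq_inter, inter_eq_right.2 hsub, bsure_iter_sum]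
    have hterm : ∀ π ∈ Ω, (act (gf d A l))^[m] (Av (U \ π) (w * fl A l π)
        (G (ini d (insert l B) l (U \ π) (Ω.erase π)) *ᵥ ψ)) =
        (m.factorial : ℂ) • Av (U \ Ω.biUnion id) (w * ∏ π ∈ Ω, fl A l π)
          (G (ini d (insert l B) l (U \ Ω.biUnion id) ∅) *ᵥ ψ) := by
      intro π hπ
      have e1 : (U \ π) \ (Ω.erase π).biUnion id = U \ Ω.biUnion id := by
        conv_rhs => rw [← insert_erase hπ, biUnion_insert, id]
        exact sdiff_sdiff _ _ _
      have e2 : w * fl A l π * ∏ ρ ∈ Ω.erase π, fl A l ρ = w * ∏ ρ ∈ Ω, fl A l ρ := by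
        rw [mul_assoc, mul_prod_erase _ _ hπ]
      rw [ih (U \ π) (V ∪ π) (Ω.erase π) (w * fl A l π) (by rw [card_erase_of_mem hπ, hm]; rfl)
        (fun ρ hρ => ⟨subset_sdiff.2 ⟨(hΩ ρ (mem_of_mem_erase hρ)).1,
          hdis ρ (mem_of_mem_erase hρ) π hπ (ne_of_mem_erase hρ)⟩,
          (hΩ ρ (mem_of_mem_erase hρ)).2⟩)
        (fun ρ hρ ρ' hρ' => hdis ρ (mem_of_mem_erase hρ) ρ' (mem_of_mem_erase hρ'))
        (bsure_dep A l hw)
        (disjoint_union_left.2 ⟨hVU.mono_right sdiff_subset, disjoint_sdiff⟩)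
        (fun ρ hρ => hψ ρ (mem_of_mem_erase hρ)), e1, e2]
    rw [sum_congr rfl hterm, sum_const, hm, ← Nat.cast_smul_eq_nsmul ℂ, smul_smul,
      Nat.factorial_succ, Nat.cast_mul]

end Pool.Agent.P.MP_3acc10_al.Bld
end

-- part Pool.Agent.P.MP_3acc10_al.BSurF
section

set_option autoImplicit false

namespace Pool.Agent.P.MP_3acc10_al.Bld

open Finset Module Matrix

variable {n j : ℕ} {ι : Type} [Fintype ι] [DecidableEq ι]

variable {A : ι × Finset (Fin n) → ℂ} {d : ι → ℕ} {B : Finset ι} {l : ι}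
  {G : St (Let ι j) → Matrix (Fin j → Fin n) (Fin j → Fin n) ℂ}

theorem bsurf_fam {α : Type} [DecidableEq α] {e : ℕ} (he : 0 < e) (t : ℕ) :
    ∀ U : Finset α, t * e ≤ U.card → ∃ Ω : Finset (Finset α), Ω.card = t ∧
      (∀ π ∈ Ω, π ⊆ U ∧ π.card = e) ∧ (∀ π ∈ Ω, ∀ ρ ∈ Ω, π ≠ ρ → Disjoint π ρ) ∧
      (U \ Ω.biUnion id).card = U.card - t * e := by
  induction t with
  | zero => intro U _; exact ⟨∅, rfl, by simp, by simp, by simp⟩
  | succ t ih =>
    intro U hU
    rw [add_mul, one_mul] at hU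
    obtain ⟨Ω, h1, h2, h3, h4⟩ := ih U (by omega)
    obtain ⟨π, hπ, hc⟩ := exists_subset_card_eq (s := U \ Ω.biUnion id) (n := e) (by omega)
    have hdis : ∀ ρ ∈ Ω, Disjoint π ρ := fun ρ hρ =>
      disjoint_left.2 fun x hx hx' => (mem_sdiff.1 (hπ hx)).2 (mem_biUnion.2 ⟨ρ, hρ, hx'⟩)
    have hn : π ∉ Ω := fun h => by
      have := hdis π h
      rw [disjoint_self, bot_eq_empty] at this
      rw [this, card_empty] at hc
      omega
    refine ⟨insert π Ω, by rw [card_insert_of_notMem hn, h1], ?_, ?_, ?_⟩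
    · intro ρ hρ
      rcases mem_insert.1 hρ with rfl | hρ
      · exact ⟨hπ.trans sdiff_subset, hc⟩
      · exact h2 ρ hρ
    · intro ρ hρ σ hσ hne
      rcases mem_insert.1 hρ with a | a <;> rcases mem_insert.1 hσ with b | b
      · exact absurd (a.trans b.symm) hne
      · rw [a]; exact hdis σ b
      · rw [b]; exact (hdis ρ a).symm
      · exact h3 ρ a σ b hne
    · have e1 : U \ (insert π Ω).biUnion id = (U \ Ω.biUnion id) \ π := by
        ext x
        simp only [biUnion_insert, id, mem_sdiff, mem_union]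
        tauto
      rw [e1, card_sdiff_of_subset hπ, h4, hc, add_mul, one_mul]
      omega

omit [Fintype ι] [DecidableEq ι] in
theorem bsurf_dep_fl (A : ι × Finset (Fin n) → ℂ) (a : ι) {π V : Finset (Fin j)} (h : π ⊆ V) :
    Dep V (fl A a π) := by
  intro x y hxy
  have e : Set.EqOn x y π := fun p hp => hxy p (h hp)
  unfold fl
  rw [image_congr e, if_congr e.injOn_iff rfl rfl]

theorem bsurf_dep_lift (ξ : Finset (Fin n) → ℂ) {U V : Finset (Fin j)} (h : U ⊆ V) :
    Dep V (lift U ξ) := by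
  intro x y hxy
  have e : Set.EqOn x y U := fun p hp => hxy p (h hp)
  unfold lift
  rw [image_congr e, if_congr e.injOn_iff rfl rfl]

theorem bsurf_dep_mul {V : Finset (Fin j)} {w w' : (Fin j → Fin n) → ℂ} (h : Dep V w)
    (h' : Dep V w') : Dep V (w * w') := fun x y hxy => by
  rw [Pi.mul_apply, Pi.mul_apply, h x y hxy, h' x y hxy]

theorem bsurf_dep_prod {β : Type} {V : Finset (Fin j)} (s : Finset β)
    {w : β → (Fin j → Fin n) → ℂ} (h : ∀ b ∈ s, Dep V (w b)) : Dep V (∏ b ∈ s, w b) :=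
  fun x y hxy => by
    rw [Finset.prod_apply, Finset.prod_apply]
    exact prod_congr rfl fun b hb => h b hb x y hxy

theorem bsurf_Av_smul (U : Finset (Fin j)) (w F : (Fin j → Fin n) → ℂ) (c : ℂ) :
    Av U w (c • F) = c • Av U w F := by
  ext S
  simp only [Av, Pi.smul_apply, smul_eq_mul, mul_sum]
  refine sum_congr rfl fun x _ => ?_
  split_ifs <;> ring

theorem bsurf_iter (g F : Finset (Fin n) → ℂ) (c : ℂ) (t : ℕ) :
    (act g)^[t] (c • F) = c • (act g)^[t] F := by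
  induction t with
  | zero => rfl
  | succ t ih =>
    rw [Function.iterate_succ_apply', Function.iterate_succ_apply', ih]
    exact map_smul (actL g) c _

theorem surj_pow (hA : ∀ γ, ‖A γ‖ = 1) (hn : j ≤ n) (hd : ∀ a, 0 < d a) (hl : l ∉ B)
    (hGE : ∀ (U : Finset (Fin j)) (Ω : Finset (Finset (Fin j))),
      (∀ π ∈ Ω, π ⊆ U ∧ π.card = d l) → (∀ π ∈ Ω, ∀ ρ ∈ Ω, π ≠ ρ → Disjoint π ρ) →
      ∀ u ∈ AlU d (insert l B) U, Em A u * G (ini d (insert l B) l U Ω) =
        if u ∈ (ini d (insert l B) l U Ω).2 then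
          G (res Adj u (ini d (insert l B) l U Ω)) * Em A u else 0)
    (hGψ : ∀ U : Finset (Fin j), ∃ μ : ℝ, 1 ≤ μ ∧ ∀ (V : Finset (Fin j))
      (w : (Fin j → Fin n) → ℂ) (ξ : Finset (Fin n) → ℂ), Dep V w → Disjoint V U →
      (∀ a ∈ insert l B, act (gf d A a) ξ = 0) →
      G (ini d (insert l B) l U ∅) *ᵥ (w * lift U ξ) = (μ : ℂ) • (w * lift U ξ))
    (N : ℕ) (hN : N ≤ j) (t : ℕ) (ht : t * d l ≤ N) (ξ : Finset (Fin n) → ℂ)
    (hξ : ξ ∈ WF (N - t * d l) d (insert l B) fun p => star (A p)) :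
    ∃ F ∈ WF N d B fun p => star (A p), (act (gf d A l))^[t] F = ξ := by
  obtain ⟨U, -, hU⟩ := exists_subset_card_eq (s := (univ : Finset (Fin j))) (n := N) (by simpa)
  obtain ⟨Ω, h1, h2, h3, h4⟩ := bsurf_fam (hd l) t U (by omega)
  rw [hU] at h4
  obtain ⟨μ, hμ, hG⟩ := hGψ (U \ Ω.biUnion id)
  obtain ⟨ν, hν, hE⟩ := Av_end hA hn l (U \ Ω.biUnion id) Ω
  obtain ⟨hξ1, hξ2⟩ := mem_W.1 hξ
  have hfix : ∀ π ∈ Ω, Em A (some l, π) *ᵥ ((∏ ρ ∈ Ω, fl A l ρ) * lift (U \ Ω.biUnion id) ξ) =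
      (∏ ρ ∈ Ω, fl A l ρ) * lift (U \ Ω.biUnion id) ξ := fun π hπ => by
    rw [← mul_prod_erase Ω _ hπ, mul_assoc]
    refine E_fix hA hn l (V := πᶜ) (bsurf_dep_mul (bsurf_dep_prod _ fun ρ hρ => ?_) ?_)
      disjoint_compl_left
    · refine bsurf_dep_fl A l fun x hx => mem_compl.2 ?_
      exact disjoint_left.1 (h3 ρ (mem_of_mem_erase hρ) π hπ (ne_of_mem_erase hρ)) hx
    · refine bsurf_dep_lift ξ fun x hx => mem_compl.2 fun hx' => ?_
      exact (mem_sdiff.1 hx).2 (mem_biUnion.2 ⟨π, hπ, hx'⟩)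
  have hpow := Av_pow hA hn hd hGE ((∏ ρ ∈ Ω, fl A l ρ) * lift (U \ Ω.biUnion id) ξ) t U ∅ Ω 1
    h1 h2 h3 (fun _ _ _ => rfl) (disjoint_empty_left _) hfix
  have hdep : Dep (Ω.biUnion id) (∏ ρ ∈ Ω, fl A l ρ) :=
    bsurf_dep_prod _ fun ρ hρ => bsurf_dep_fl A l fun x hx => mem_biUnion.2 ⟨ρ, hρ, hx⟩
  rw [one_mul, hG _ _ ξ hdep disjoint_sdiff hξ2, bsurf_Av_smul,
    hE ξ (fun S hS => hξ1 S (by rwa [h4] at hS)), smul_smul, smul_smul] at hpow
  have hm := Av_mem hA hn hl hGE U Ω h2 h3 ((∏ ρ ∈ Ω, fl A l ρ) * lift (U \ Ω.biUnion id) ξ)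
  rw [hU] at hm
  have hc : ((t.factorial : ℂ) * (μ : ℂ) * (ν : ℂ)) ≠ 0 := by
    refine mul_ne_zero (mul_ne_zero ?_ ?_) ?_
    · exact_mod_cast t.factorial_ne_zero
    · exact_mod_cast (show μ ≠ 0 by linarith)
    · exact_mod_cast hν.ne'
  refine ⟨_, Submodule.smul_mem _ ((t.factorial : ℂ) * (μ : ℂ) * (ν : ℂ))⁻¹ hm, ?_⟩
  rw [bsurf_iter, hpow, smul_smul, inv_mul_cancel₀ hc, one_smul]

end Pool.Agent.P.MP_3acc10_al.Bld
end

-- part Pool.Agent.P.MP_3acc10_al.BSurG
section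

set_option autoImplicit false

namespace Pool.Agent.P.MP_3acc10_al.Bld

open Finset Module Matrix

variable {n j : ℕ} {ι : Type} [Fintype ι] [DecidableEq ι]

omit [Fintype ι] [DecidableEq ι] in
lemma bsurg_act_mem (d : ι → ℕ) (x : ι × Finset (Fin n) → ℂ) (B : Finset ι) (l : ι) {i : ℕ}
    (hi : d l ≤ i) {F : Finset (Fin n) → ℂ} (hF : F ∈ WF i d B x) :
    act (mask (fun i Y => Y.card = d i) x l) F ∈ WF (i - d l) d B x :=
  ⟨fun T hT => act_mask_supp x l hF.1 T (by omega), fun a ha => by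
    rw [act_comm, hF.2 a ha, act_zero]⟩

omit [Fintype ι] [DecidableEq ι] in
lemma bsurg_iter_mem (d : ι → ℕ) (x : ι × Finset (Fin n) → ℂ) (B : Finset ι) (l : ι) {N : ℕ}
    {F : Finset (Fin n) → ℂ} (hF : F ∈ WF N d B x) (m : ℕ) (hm : m * d l ≤ N) :
    (act (mask (fun i Y => Y.card = d i) x l))^[m] F ∈ WF (N - m * d l) d B x := by
  induction m with
  | zero => simpa using hF
  | succ m ih =>
    rw [Nat.succ_mul] at hm
    have := bsurg_act_mem d x B l (i := N - m * d l) (by omega) (ih (by omega))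
    rw [Function.iterate_succ_apply', Nat.succ_mul, Nat.sub_add_eq]
    exact this

lemma bsurg_iter_add (g F F' : Finset (Fin n) → ℂ) (m : ℕ) :
    (act g)^[m] (F + F') = (act g)^[m] F + (act g)^[m] F' := by
  induction m with
  | zero => rfl
  | succ m ih =>
    simp only [Function.iterate_succ_apply', ih]
    exact map_add (actL g) _ _

omit [Fintype ι] in
lemma bsurg_surj (d : ι → ℕ) (x : ι × Finset (Fin n) → ℂ) (B : Finset ι) (l : ι)
    (hd : 0 < d l) (N : ℕ)
    (h : ∀ t, 0 < t → t * d l ≤ N → ∀ ξ ∈ WF (N - t * d l) d (insert l B) x,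
      ∃ F ∈ WF N d B x, (act (mask (fun i Y => Y.card = d i) x l))^[t] F = ξ) (k : ℕ) :
    ∀ m, 0 < m → m * d l ≤ N → N - m * d l < k → ∀ v ∈ WF (N - m * d l) d B x,
      ∃ F ∈ WF N d B x, (act (mask (fun i Y => Y.card = d i) x l))^[m] F = v := by
  induction k with
  | zero => intro m _ _ hk; omega
  | succ k ih =>
    intro m hm hmN hk v hv
    have ins : ∀ w ∈ WF (N - m * d l) d B x, act (mask (fun i Y => Y.card = d i) x l) w = 0 →
        w ∈ WF (N - m * d l) d (insert l B) x := fun w hw h0 =>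
      ⟨hw.1, fun a ha => by
        rcases mem_insert.1 ha with rfl | ha
        · exact h0
        · exact hw.2 a ha⟩
    by_cases hc : (m + 1) * d l ≤ N
    · have hc' := hc
      rw [Nat.succ_mul] at hc'
      have h1 := bsurg_act_mem d x B l (i := N - m * d l) (by omega) hv
      rw [← Nat.sub_add_eq, ← Nat.succ_mul] at h1
      obtain ⟨u, hu, e⟩ := ih (m + 1) (by omega) hc (by rw [Nat.succ_mul]; omega) _ h1
      have h2 := bsurg_iter_mem d x B l hu m hmN
      rw [Function.iterate_succ_apply'] at e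
      have h3 := ins _ (sub_mem hv h2) (by
        have := map_sub (actL (mask (fun i Y => Y.card = d i) x l)) v
          ((act (mask (fun i Y => Y.card = d i) x l))^[m] u)
        simp only [actL_apply] at this
        rw [this, e, sub_self])
      obtain ⟨F, hF, e'⟩ := h m hm hmN _ h3
      exact ⟨F + u, add_mem hF hu, by rw [bsurg_iter_add, e', sub_add_cancel]⟩
    · rw [Nat.succ_mul] at hc
      exact h m hm hmN v (ins v hv (funext fun T => act_mask_supp x l hv.1 T (by omega)))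

theorem rank_step (d : ι → ℕ) (x : ι × Finset (Fin n) → ℂ) (B : Finset ι) (l : ι)
    (hd : 0 < d l) (N : ℕ)
    (h : ∀ t, 0 < t → t * d l ≤ N → ∀ ξ ∈ WF (N - t * d l) d (insert l B) x,
      ∃ F ∈ WF N d B x, (act (mask (fun i Y => Y.card = d i) x l))^[t] F = ξ) :
    finrank ℂ (WF N d B x) = finrank ℂ (WF N d (insert l B) x) +
      if d l ≤ N then finrank ℂ (WF (N - d l) d B x) else 0 := by
  refine le_antisymm (lower_step N d B l x) ?_
  let f := (actL (mask (fun i Y => Y.card = d i) x l)).domRestrict (WF N d B x)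
  have h1 := LinearMap.finrank_range_add_finrank_ker f
  have h2 : finrank ℂ (WF N d (insert l B) x) ≤ finrank ℂ (LinearMap.ker f) := by
    rw [← Submodule.finrank_map_subtype_eq]
    refine Submodule.finrank_mono ?_
    intro F hF
    exact ⟨⟨F, W_anti _ (subset_insert l B) _ hF⟩, hF.2 l (mem_insert_self _ _), rfl⟩
  have h3 : (if d l ≤ N then finrank ℂ (WF (N - d l) d B x) else 0) ≤
      finrank ℂ (LinearMap.range f) := by
    split_ifs with hN
    · refine Submodule.finrank_mono ?_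
      intro G hG
      obtain ⟨F, hF, e⟩ := bsurg_surj d x B l hd N h (N + 1) 1 one_pos (by omega) (by omega) G
        (by rwa [one_mul])
      exact ⟨⟨F, hF⟩, e⟩
    · exact Nat.zero_le _
  omega

end Pool.Agent.P.MP_3acc10_al.Bld
end

-- part Pool.Agent.P.MP_3acc10_al.BScal
section

set_option autoImplicit false

namespace Pool.Agent.P.MP_3acc10_al.Bld

open Finset Module Matrix

theorem bscal_max {S L : Type} [DecidableEq S] (Q : Finset S) (al : S → Finset L)
    (up : S → L → S)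
    (hQ : ∀ σ ∈ Q, ∀ t ∈ al σ, up σ t ∈ Q) (k : L → ℝ) (hk : ∀ σ ∈ Q, ∀ t ∈ al σ, 0 ≤ k t)
    (H : S → ℝ) (hH0 : ∀ σ ∈ Q, 0 ≤ H σ)
    (hH : ∀ σ ∈ Q, ∑ t ∈ al σ, k t * H (up σ t) ≤ H σ - 1)
    (v : S → ℝ) (hv : ∀ σ ∈ Q, ∑ t ∈ al σ, k t * v (up σ t) ≤ v σ) :
    ∀ σ ∈ Q, 0 ≤ v σ := by
  have hH1 : ∀ σ ∈ Q, 1 ≤ H σ := by
    intro σ hσ
    have h1 : 0 ≤ ∑ t ∈ al σ, k t * H (up σ t) :=
      Finset.sum_nonneg fun t ht => mul_nonneg (hk σ hσ t ht) (hH0 _ (hQ σ hσ t ht))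
    have h2 := hH σ hσ
    linarith
  intro σ hσ
  by_contra hneg
  have hneg' : v σ < 0 := lt_of_not_ge hneg
  obtain ⟨s, hs, hmin⟩ := Finset.exists_min_image Q (fun s => v s / H s) ⟨σ, hσ⟩
  have hHs : 0 < H s := lt_of_lt_of_le one_pos (hH1 s hs)
  have hHσ : 0 < H σ := lt_of_lt_of_le one_pos (hH1 σ hσ)
  set m : ℝ := v s / H s with hm
  have hm0 : m < 0 := lt_of_le_of_lt (hmin σ hσ) (div_neg_of_neg_of_pos hneg' hHσ)
  have hlow : ∀ r ∈ Q, m * H r ≤ v r := by
    intro r hr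
    have hHr : 0 < H r := lt_of_lt_of_le one_pos (hH1 r hr)
    have h3 : m ≤ v r / H r := hmin r hr
    exact (le_div_iff₀ hHr).1 h3
  have h4 : m * ∑ t ∈ al s, k t * H (up s t) ≤ ∑ t ∈ al s, k t * v (up s t) := by
    rw [Finset.mul_sum]
    refine Finset.sum_le_sum fun t ht => ?_
    have h5 := hlow _ (hQ s hs t ht)
    have h6 := hk s hs t ht
    calc m * (k t * H (up s t)) = k t * (m * H (up s t)) := by ring
      _ ≤ k t * v (up s t) := mul_le_mul_of_nonneg_left h5 h6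
  have h7 : m * (H s - 1) ≤ m * ∑ t ∈ al s, k t * H (up s t) :=
    mul_le_mul_of_nonpos_left (hH s hs) hm0.le
  have h8 : v s = m * H s := by
    rw [hm]
    field_simp
  have h9 := hv s hs
  nlinarith

theorem bscal_zero {S L : Type} [DecidableEq S] (Q : Finset S) (al : S → Finset L)
    (up : S → L → S)
    (hQ : ∀ σ ∈ Q, ∀ t ∈ al σ, up σ t ∈ Q) (k : L → ℝ) (hk : ∀ σ ∈ Q, ∀ t ∈ al σ, 0 ≤ k t)
    (H : S → ℝ) (hH0 : ∀ σ ∈ Q, 0 ≤ H σ)
    (hH : ∀ σ ∈ Q, ∑ t ∈ al σ, k t * H (up σ t) ≤ H σ - 1)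
    (v : S → ℝ) (hv : ∀ σ ∈ Q, v σ = ∑ t ∈ al σ, k t * v (up σ t)) :
    ∀ σ ∈ Q, v σ = 0 := by
  intro σ hσ
  have h1 := bscal_max Q al up hQ k hk H hH0 hH v (fun s hs => (hv s hs).ge) σ hσ
  have h2 := bscal_max Q al up hQ k hk H hH0 hH (fun s => - v s) (fun s hs => by
    have h3 := hv s hs
    have h4 : ∑ t ∈ al s, k t * (- v (up s t)) = - ∑ t ∈ al s, k t * v (up s t) := by
      rw [← Finset.sum_neg_distrib]
      exact Finset.sum_congr rfl fun t _ => by ring
    rw [h4]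
    linarith) σ hσ
  linarith

/-- extension by zero of a function on the subtype -/
noncomputable def bscalExt {S : Type} [DecidableEq S] (Q : Finset S) (g : Q → ℝ) (s : S) : ℝ :=
  if h : s ∈ Q then g ⟨s, h⟩ else 0

theorem bscalExt_add {S : Type} [DecidableEq S] (Q : Finset S) (g g' : Q → ℝ) (s : S) :
    bscalExt Q (g + g') s = bscalExt Q g s + bscalExt Q g' s := by
  unfold bscalExt
  split_ifs <;> simp

theorem bscalExt_smul {S : Type} [DecidableEq S] (Q : Finset S) (c : ℝ) (g : Q → ℝ) (s : S) :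
    bscalExt Q (c • g) s = c * bscalExt Q g s := by
  unfold bscalExt
  split_ifs <;> simp

theorem bscalExt_mem {S : Type} [DecidableEq S] (Q : Finset S) (g : Q → ℝ) (s : S) (h : s ∈ Q) :
    bscalExt Q g s = g ⟨s, h⟩ := by
  unfold bscalExt
  rw [dif_pos h]

/-- the map `I - K` on functions on `Q` -/
noncomputable def bscalMap {S L : Type} [DecidableEq S] (Q : Finset S) (al : S → Finset L)
    (up : S → L → S) (k : L → ℝ) : (Q → ℝ) →ₗ[ℝ] (Q → ℝ) where
  toFun g := fun s => g s - ∑ t ∈ al s.1, k t * bscalExt Q g (up s.1 t)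
  map_add' g g' := by
    funext s
    simp only [Pi.add_apply, bscalExt_add, mul_add, Finset.sum_add_distrib]
    ring
  map_smul' c g := by
    funext s
    simp only [Pi.smul_apply, bscalExt_smul, smul_eq_mul, RingHom.id_apply, mul_sub,
      Finset.mul_sum]
    congr 1
    exact Finset.sum_congr rfl fun t _ => by ring

theorem bscal_exists {S L : Type} [DecidableEq S] (Q : Finset S) (al : S → Finset L)
    (up : S → L → S)
    (hQ : ∀ σ ∈ Q, ∀ t ∈ al σ, up σ t ∈ Q) (k : L → ℝ) (hk : ∀ σ ∈ Q, ∀ t ∈ al σ, 0 ≤ k t)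
    (H : S → ℝ) (hH0 : ∀ σ ∈ Q, 0 ≤ H σ)
    (hH : ∀ σ ∈ Q, ∑ t ∈ al σ, k t * H (up σ t) ≤ H σ - 1) :
    ∃ μ : S → ℝ, ∀ σ ∈ Q, μ σ = 1 + ∑ t ∈ al σ, k t * μ (up σ t) := by
  have hinj : Function.Injective (bscalMap Q al up k) := by
    rw [injective_iff_map_eq_zero]
    intro g hg
    have h1 := bscal_zero Q al up hQ k hk H hH0 hH (bscalExt Q g) (fun s hs => by
      have h2 : g ⟨s, hs⟩ - ∑ t ∈ al s, k t * bscalExt Q g (up s t) = 0 := congrFun hg ⟨s, hs⟩
      rw [bscalExt_mem Q g s hs]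
      linarith)
    funext s
    have h3 := h1 s.1 s.2
    rw [bscalExt_mem Q g s.1 s.2] at h3
    exact h3
  have hsurj : Function.Surjective (bscalMap Q al up k) :=
    LinearMap.injective_iff_surjective.1 hinj
  obtain ⟨g, hg⟩ := hsurj (fun _ => 1)
  refine ⟨bscalExt Q g, fun s hs => ?_⟩
  have h2 : g ⟨s, hs⟩ - ∑ t ∈ al s, k t * bscalExt Q g (up s t) = 1 := congrFun hg ⟨s, hs⟩
  rw [bscalExt_mem Q g s hs]
  linarith

theorem scal {S L : Type} [DecidableEq S] (Q : Finset S) (al : S → Finset L) (up : S → L → S)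
    (hQ : ∀ σ ∈ Q, ∀ t ∈ al σ, up σ t ∈ Q) (k : L → ℝ) (hk : ∀ σ ∈ Q, ∀ t ∈ al σ, 0 ≤ k t)
    (H : S → ℝ) (hH0 : ∀ σ ∈ Q, 0 ≤ H σ)
    (hH : ∀ σ ∈ Q, ∑ t ∈ al σ, k t * H (up σ t) ≤ H σ - 1) :
    ∃ μ : S → ℝ, (∀ σ ∈ Q, 1 ≤ μ σ) ∧ ∀ (v : S → ℂ) (a : ℂ),
      (∀ σ ∈ Q, v σ = a + ∑ t ∈ al σ, (k t : ℂ) * v (up σ t)) → ∀ σ ∈ Q, v σ = μ σ * a := by
  obtain ⟨μ, hμ⟩ := bscal_exists Q al up hQ k hk H hH0 hH
  have hμ0 : ∀ σ ∈ Q, 0 ≤ μ σ :=
    bscal_max Q al up hQ k hk H hH0 hH μ (fun s hs => by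
      have h1 := hμ s hs
      linarith)
  refine ⟨μ, fun σ hσ => ?_, fun v a hv => ?_⟩
  · have h1 := hμ σ hσ
    have h2 : 0 ≤ ∑ t ∈ al σ, k t * μ (up σ t) :=
      Finset.sum_nonneg fun t ht => mul_nonneg (hk σ hσ t ht) (hμ0 _ (hQ σ hσ t ht))
    linarith
  · have hw : ∀ σ ∈ Q, v σ - μ σ * a =
        ∑ t ∈ al σ, (k t : ℂ) * (v (up σ t) - μ (up σ t) * a) := by
      intro σ hσ
      have h1 : (μ σ : ℂ) = 1 + ∑ t ∈ al σ, (k t : ℂ) * (μ (up σ t) : ℂ) := by
        have h2 := congrArg (fun x : ℝ => (x : ℂ)) (hμ σ hσ)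
        simpa using h2
      have h3 : ∑ t ∈ al σ, (k t : ℂ) * (v (up σ t) - μ (up σ t) * a) =
          ∑ t ∈ al σ, (k t : ℂ) * v (up σ t) -
            (∑ t ∈ al σ, (k t : ℂ) * (μ (up σ t) : ℂ)) * a := by
        rw [Finset.sum_mul, ← Finset.sum_sub_distrib]
        exact Finset.sum_congr rfl fun t _ => by ring
      rw [h3]
      have h4 := hv σ hσ
      linear_combination h4 - a * h1
    have hre := bscal_zero Q al up hQ k hk H hH0 hH (fun s => (v s - μ s * a).re)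
      (fun s hs => by
        have h1 := congrArg Complex.re (hw s hs)
        rw [Complex.re_sum] at h1
        rw [h1]
        exact Finset.sum_congr rfl fun t _ => by rw [Complex.re_ofReal_mul])
    have him := bscal_zero Q al up hQ k hk H hH0 hH (fun s => (v s - μ s * a).im)
      (fun s hs => by
        have h1 := congrArg Complex.im (hw s hs)
        rw [Complex.im_sum] at h1
        rw [h1]
        exact Finset.sum_congr rfl fun t _ => by rw [Complex.im_ofReal_mul])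
    intro σ hσ
    have h1 : v σ - μ σ * a = 0 := Complex.ext (hre σ hσ) (him σ hσ)
    exact sub_eq_zero.1 h1

end Pool.Agent.P.MP_3acc10_al.Bld
end

-- part Pool.Agent.P.MP_3acc10_al.BHmain
section

set_option autoImplicit false

namespace Pool.Agent.P.MP_3acc10_al.Bld

open Finset Module Matrix

variable {n j : ℕ} {ι : Type} [Fintype ι] [DecidableEq ι]

omit [Fintype ι] in
theorem bhmain_key {σ : St (Let ι j)} {a b : ι} {π ρ : Finset (Fin j)}
    (hb : (some b, ρ) ∈ alw (upd Adj rk σ (some a, π))) (hd : Disjoint ρ π) :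
    (some b, ρ) ∈ alw σ ∧ ¬ rkS ρ < rkS π := by
  rw [mem_alw, upd_fst, mem_upd, not_or] at hb
  obtain ⟨h1, h2, h3⟩ := hb
  have hA : Adj ((some a, π) : Let ι j) (some b, ρ) := ⟨fun h => h2 h.symm, Or.inl hd.symm⟩
  exact ⟨mem_alw.2 ⟨h1, fun h => h3 ⟨h1, hA, Or.inl h⟩⟩, fun h => h3 ⟨h1, hA, Or.inr h⟩⟩

theorem Ft_nxt (M : Finset (Fin j)) (σ : St (Let ι j)) (a : ι) (π : Finset (Fin j)) :
    nxt (Ft M σ) π ⊆ Ft M (upd Adj rk σ (some a, π)) := by
  intro ρ hρ
  rw [mem_nxt, mem_Ft] at hρ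
  rw [mem_Ft]
  rintro ⟨hM, b, hb⟩
  have := bhmain_key hb hρ.1
  exact hρ.2.elim (fun h => h ⟨hM, b, this.1⟩) this.2

theorem Ft_low (M : Finset (Fin j)) (σ : St (Let ι j)) (a : ι) {π : Finset (Fin j)}
    (h : Disjoint π M) : Ft M σ ∪ lowr j (rkS π) ⊆ Ft M (upd Adj rk σ (some a, π)) := by
  intro ρ hρ
  rw [mem_union, mem_Ft, mem_lowr] at hρ
  rw [mem_Ft]
  rintro ⟨hM, b, hb⟩
  have := bhmain_key hb (Disjoint.mono_left hM h.symm)
  exact hρ.elim (fun h => h ⟨hM, b, this.1⟩) this.2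

theorem sum_alw (σ : St (Let ι j)) (f : Let ι j → ℝ) : ∑ t ∈ alw σ, f t =
    ∑ π, ∑ a ∈ univ.filter (fun a => (some a, π) ∈ alw σ), f (some a, π) +
      ∑ π ∈ univ.filter (fun π => ((none, π) : Let ι j) ∈ alw σ), f (none, π) := by
  have e : ∑ t ∈ alw σ, f t = ∑ t, if t ∈ alw σ then f t else 0 := by
    rw [← sum_filter]; congr 1; ext t; simp
  rw [e, Fintype.sum_prod_type, Fintype.sum_option, sum_comm, add_comm]
  simp only [sum_filter]

theorem om_sum {η0 : ℝ} (hη : 0 ≤ η0) (hn : j + 2 ≤ n) {d : ι → ℕ} (hd : ∀ a, 0 < d a)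
    {A0 : Finset ι} {σ : St (Let ι j)} (hv : ∀ t ∈ σ.1, Val d A0 t) (π : Finset (Fin j)) :
    ∑ a ∈ univ.filter (fun a => (some a, π) ∈ alw σ), om η0 n d a ≤ zf η0 n d A0 π.card := by
  have hs : univ.filter (fun a => (some a, π) ∈ alw σ) ⊆ A0.filter fun a => d a = π.card := by
    intro a ha
    have := Val_some.1 (hv _ (mem_alw.1 (mem_filter.1 ha).2).1)
    exact mem_filter.2 ⟨this.1, this.2.symm⟩
  refine (sum_le_sum_of_subset_of_nonneg hs fun a _ _ => om_nonneg hη n d a).trans (le_of_eq ?_)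
  rw [sum_congr rfl (g := fun _ => (1 + η0) * kap n π.card)
    (fun a ha => by rw [om, (mem_filter.1 ha).2]), sum_const, nsmul_eq_mul, zf]
  ring

theorem h_split {z : ℕ → ℝ} {δ : ℝ} {h : Finset (Finset (Fin j)) → ℝ} (hf : Hf z δ h)
    (F : Finset (Finset (Fin j))) (r : ℕ) :
    ∑ π ∈ Fᶜ.filter (fun π => rkS π < r), z π.card * h (nxt F π) + h (F ∪ lowr j r) = h F := by
  have e1 : (F ∪ lowr j r)ᶜ = Fᶜ.filter (fun π => ¬ rkS π < r) := by
    ext π; simp [mem_lowr]
  have e2 : ∀ π ∈ Fᶜ.filter (fun π => ¬ rkS π < r), z π.card * h (nxt (F ∪ lowr j r) π) =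
      z π.card * h (nxt F π) := by
    intro π hπ
    have h1 := (mem_filter.1 hπ).2
    have : nxt (F ∪ lowr j r) π = nxt F π := by
      ext ρ
      rw [mem_nxt, mem_nxt, mem_union, mem_lowr]
      refine and_congr_right fun _ => ⟨?_, ?_⟩
      · rintro ((h2 | h2) | h2)
        · exact Or.inl h2
        · exact Or.inr (by omega)
        · exact Or.inr h2
      · rintro (h2 | h2)
        · exact Or.inl (Or.inl h2)
        · exact Or.inr h2
    rw [this]
  rw [hf.eq F, hf.eq (F ∪ lowr j r), e1, sum_congr rfl e2,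
    ← sum_filter_add_sum_filter_not Fᶜ (fun π => rkS π < r)]
  ring

theorem h_sup {η0 : ℝ} (hη : 0 ≤ η0) (hn : j + 2 ≤ n) {d : ι → ℕ} (hd : ∀ a, 0 < d a)
    {A0 : Finset ι} {δ : ℝ} {h : Finset (Finset (Fin j)) → ℝ} (hf : Hf (zf η0 n d A0) δ h)
    {σ : St (Let ι j)} (hv : ∀ t ∈ σ.1, Val d A0 t) :
    ∑ t ∈ alw σ, (if t.1.isSome then kap n t.2.card else 0) * h (Ft univ (upd Adj rk σ t)) ≤
      h (Ft univ σ) - 1 := by
  rw [sum_alw, hf.eq (Ft univ σ), add_sub_cancel_left]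
  simp only [Option.isSome_some, Option.isSome_none, if_true, Bool.false_eq_true, if_false,
    zero_mul, sum_const_zero, add_zero]
  rw [← sum_add_sum_compl (Ft univ σ), sum_eq_zero, zero_add]
  · refine sum_le_sum fun π _ => ?_
    have h0 : 0 ≤ h (nxt (Ft univ σ) π) := zero_le_one.trans (hf.ge _)
    refine le_trans ?_ (mul_le_mul_of_nonneg_right (om_sum hη hn hd hv π) h0)
    rw [sum_mul]
    refine sum_le_sum fun a ha => ?_
    have h1 := (Val_some.1 (hv _ (mem_alw.1 (mem_filter.1 ha).2).1)).2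
    have h2 := kap_nonneg n (d a)
    refine mul_le_mul ?_ (hf.anti _ _ (Ft_nxt univ σ a π)) (zero_le_one.trans (hf.ge _))
      (om_nonneg hη n d a)
    rw [om, h1]
    nlinarith
  · intro π hπ
    refine sum_eq_zero fun a ha => ?_
    exact absurd ⟨subset_univ _, a, (mem_filter.1 ha).2⟩ (mem_Ft.1 hπ)

end Pool.Agent.P.MP_3acc10_al.Bld
end

-- part Pool.Agent.P.MP_3acc10_al.BGpsi
section

set_option autoImplicit false

namespace Pool.Agent.P.MP_3acc10_al.Bld

open Finset Module Matrix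

variable {n j : ℕ} {ι : Type} [Fintype ι] [DecidableEq ι]

theorem G_lift {A : ι × Finset (Fin n) → ℂ} (hA : ∀ γ, ‖A γ‖ = 1) (hn : j + 2 ≤ n) {d : ι → ℕ}
    (hd : ∀ a, 0 < d a) {A0 : Finset ι} {ℬ : Finset (Finset ι)} (hℬ : ∀ B ∈ ℬ, B ⊆ A0) {η0 : ℝ}
    (hη : 0 ≤ η0) {δ : ℝ} {h : Finset (Finset (Fin j)) → ℝ} (hf : Hf (zf η0 n d A0) δ h)
    {G : St (Let ι j) → Matrix (Fin j → Fin n) (Fin j → Fin n) ℂ}
    (hG : ∀ σ ∈ Qs j d ℬ, G σ = 1 + ∑ t ∈ alw σ, G (upd Adj rk σ t) * Tm A t)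
    {B : Finset ι} (hB : B ∈ ℬ) {l : ι} (hl : l ∈ B) (U : Finset (Fin j)) :
    ∃ μ : ℝ, 1 ≤ μ ∧ ∀ (V : Finset (Fin j)) (w : (Fin j → Fin n) → ℂ) (ξ : Finset (Fin n) → ℂ),
      Dep V w → Disjoint V U → (∀ a ∈ B, act (gf d A a) ξ = 0) →
      G (ini d B l U ∅) *ᵥ (w * lift U ξ) = (μ : ℂ) • (w * lift U ξ) := by
  classical
  set Q' := (Qs j d ℬ).filter (fun σ => σ.1 = AlU d B U) with hQ'
  set k : Let ι j → ℝ := fun t => if t.1.isSome then kap n t.2.card else 0 with hk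
  have hmem : ∀ σ, σ ∈ Q' ↔ σ ∈ Qs j d ℬ ∧ σ.1 = AlU d B U := fun σ => mem_filter
  have hval : ∀ σ ∈ Q', ∀ t ∈ σ.1, Val d B t ∧ t.2 ⊆ U := fun σ hσ t ht => by
    rw [((hmem σ).1 hσ).2] at ht
    exact mem_AlU.1 ht
  obtain ⟨μ, hμ1, hμ⟩ := scal Q' alw (upd Adj rk)
    (fun σ hσ t ht => (hmem _).2 ⟨Qs_upd hd ((hmem σ).1 hσ).1 ht, ((hmem σ).1 hσ).2⟩) k
    (fun σ _ t _ => by
      simp only [hk]
      split_ifs
      · exact kap_nonneg _ _
      · exact le_rfl)
    (fun σ => h (Ft univ σ)) (fun σ _ => zero_le_one.trans (hf.ge _))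
    (fun σ hσ => h_sup hη hn hd hf fun t ht =>
      ⟨fun a ha => hℬ B hB ((hval σ hσ t ht).1.1 a ha), (hval σ hσ t ht).1.2⟩)
  have hini : ini d B l U ∅ ∈ Q' :=
    (hmem _).2 ⟨Qs_ini hB hl U ∅ (by simp) (by simp), rfl⟩
  refine ⟨μ (ini d B l U ∅), hμ1 _ hini, fun V w ξ hw hV hξ => ?_⟩
  have hT : ∀ t : Let ι j, Val d B t → t.2 ⊆ U →
      Tm A t *ᵥ (w * lift U ξ) = (k t : ℂ) • (w * lift U ξ) := by
    rintro ⟨_ | a, π⟩ hv hπ
    · rw [T_lift_none A hπ]
      simp [hk]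
    · obtain ⟨ha, hc⟩ := Val_some.1 hv
      rw [T_lift_some hA d a hπ hc hw hV (hξ a ha)]
      simp [hk]
  funext x
  have := hμ (fun σ => (G σ *ᵥ (w * lift U ξ)) x) ((w * lift U ξ) x) (fun σ hσ => by
    rw [hG σ ((hmem σ).1 hσ).1, add_mulVec, one_mulVec, Matrix.sum_mulVec, Pi.add_apply,
      Finset.sum_apply]
    congr 1
    refine sum_congr rfl fun t ht => ?_
    obtain ⟨hv, hπ⟩ := hval σ hσ t (mem_alw.1 ht).1
    rw [← mulVec_mulVec, hT t hv hπ, mulVec_smul, Pi.smul_apply, smul_eq_mul]) _ hini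
  rw [this, Pi.smul_apply, smul_eq_mul]

end Pool.Agent.P.MP_3acc10_al.Bld
end

-- part Pool.Agent.P.MP_3acc10_al.BInd1
section

set_option autoImplicit false

namespace Pool.Agent.P.MP_3acc10_al.Bld

open Finset Module Matrix

variable {j : ℕ} {z : ℕ → ℝ}

theorem IP_empty : IP z (∅ : Finset (Finset (Fin j))) = 1 := by
  classical
  unfold IP
  rw [sum_filter, powerset_empty, sum_singleton, if_pos (by simp), prod_empty]

theorem IP_insert (hz : z 0 = 0) {F : Finset (Finset (Fin j))} {π : Finset (Fin j)} (h : π ∉ F) :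
    IP z (insert π F) = IP z F - z π.card * IP z (F.filter fun ρ => Disjoint ρ π) := by
  classical
  have _h0 := hz
  unfold IP
  rw [sum_filter, sum_powerset_insert h, sum_filter, sub_eq_add_neg]
  refine congrArg₂ (· + ·) rfl ?_
  have e : (F.filter fun ρ => Disjoint ρ π).powerset
      = F.powerset.filter fun C => ∀ ρ ∈ C, Disjoint ρ π := by
    ext C
    simp only [mem_powerset, mem_filter]
    constructor
    · intro hC
      exact ⟨fun ρ hρ => (mem_filter.1 (hC hρ)).1, fun ρ hρ => (mem_filter.1 (hC hρ)).2⟩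
    · rintro ⟨h1, h2⟩ ρ hρ
      exact mem_filter.2 ⟨h1 hρ, h2 ρ hρ⟩
  rw [e, filter_filter, sum_filter, mul_sum, ← sum_neg_distrib]
  refine sum_congr rfl fun C hC => ?_
  have hπ : π ∉ C := fun hh => h (mem_powerset.1 hC hh)
  have key : (∀ σ ∈ insert π C, ∀ ρ ∈ insert π C, σ ≠ ρ → Disjoint σ ρ) ↔
      ((∀ ρ ∈ C, Disjoint ρ π) ∧ ∀ σ ∈ C, ∀ ρ ∈ C, σ ≠ ρ → Disjoint σ ρ) := by
    constructor
    · intro H
      refine ⟨fun ρ hρ => H ρ (mem_insert_of_mem hρ) π (mem_insert_self _ _) ?_,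
        fun σ hσ ρ hρ => H σ (mem_insert_of_mem hσ) ρ (mem_insert_of_mem hρ)⟩
      rintro rfl
      exact hπ hρ
    · rintro ⟨H1, H2⟩ σ hσ ρ hρ hne
      rcases mem_insert.1 hσ with e1 | hσ'
      · rcases mem_insert.1 hρ with e2 | hρ'
        · exact absurd (e1.trans e2.symm) hne
        · rw [e1]; exact (H1 ρ hρ').symm
      · rcases mem_insert.1 hρ with e2 | hρ'
        · rw [e2]; exact H1 σ hσ'
        · exact H2 σ hσ' ρ hρ' hne
  by_cases H : (∀ ρ ∈ C, Disjoint ρ π) ∧ ∀ σ ∈ C, ∀ ρ ∈ C, σ ≠ ρ → Disjoint σ ρ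
  · rw [if_pos (key.2 H), if_pos H, prod_insert hπ]
    ring
  · rw [if_neg (fun hh => H (key.1 hh)), if_neg H]
    ring

theorem IP_eq (hz : z 0 = 0) (F : Finset (Finset (Fin j))) :
    IP z F = IP z (univ : Finset (Finset (Fin j))) + ∑ π ∈ Fᶜ, z π.card * IP z (nxt F π) := by
  classical
  induction hm : Fᶜ.card generalizing F with
  | zero =>
    have h1 : Fᶜ = ∅ := card_eq_zero.1 hm
    have h2 : F = univ := (compl_eq_empty_iff F).1 h1
    rw [h1, sum_empty, add_zero, h2]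
  | succ m ih =>
    have hne : Fᶜ.Nonempty := card_pos.1 (by omega)
    obtain ⟨π, hπ, hmin⟩ := exists_min_image Fᶜ rkS hne
    have hπF : π ∉ F := mem_compl.1 hπ
    have hc : (insert π F)ᶜ = Fᶜ.erase π := compl_insert
    have hcard : (insert π F)ᶜ.card = m := by
      rw [hc, card_erase_of_mem hπ, hm]; rfl
    have IH := ih (insert π F) hcard
    have e1 : nxt F π = F.filter fun ρ => Disjoint ρ π := by
      ext ρ
      rw [mem_nxt, mem_filter]
      constructor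
      · rintro ⟨h1, h2⟩
        refine ⟨?_, h1⟩
        rcases h2 with h2 | h2
        · exact h2
        · by_contra h3
          have := hmin ρ (mem_compl.2 h3)
          omega
      · rintro ⟨h1, h2⟩
        exact ⟨h2, Or.inl h1⟩
    have e2 : ∀ ρ ∈ Fᶜ.erase π, nxt (insert π F) ρ = nxt F ρ := by
      intro ρ hρ
      have h1 := (mem_erase.1 hρ).1
      have h2 := hmin ρ (mem_erase.1 hρ).2
      have h3 : rkS π ≠ rkS ρ := fun hh => h1 (rkS_inj hh).symm
      ext σ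
      rw [mem_nxt, mem_nxt, mem_insert]
      constructor
      · rintro ⟨a, b⟩
        refine ⟨a, ?_⟩
        rcases b with (b | b) | b
        · right; rw [b]; omega
        · exact Or.inl b
        · exact Or.inr b
      · rintro ⟨a, b⟩
        exact ⟨a, b.imp Or.inr id⟩
    rw [IP_insert hz hπF, hc, sum_congr rfl (fun ρ hρ => by rw [e2 ρ hρ])] at IH
    rw [← add_sum_erase _ _ hπ, e1]
    linarith

end Pool.Agent.P.MP_3acc10_al.Bld
end

-- part Pool.Agent.P.MP_3acc10_al.BInd2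
section

set_option autoImplicit false

namespace Pool.Agent.P.MP_3acc10_al.Bld

open Finset Module Matrix

variable {j : ℕ} {z : ℕ → ℝ}

theorem bind2_union (hz : z 0 = 0) (F T : Finset (Finset (Fin j))) (hd : ∀ π ∈ T, π ∉ F)
    (hT : ∀ π ∈ T, ∀ ρ ∈ T, ¬ Disjoint π ρ) :
    IP z (F ∪ T) = IP z F - ∑ π ∈ T, z π.card * IP z (F.filter fun ρ => Disjoint ρ π) := by
  induction T using Finset.induction_on with
  | empty => simp
  | insert π T hπ ih =>
    have h1 : π ∉ F ∪ T := by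
      rw [mem_union, not_or]
      exact ⟨hd π (mem_insert_self _ _), hπ⟩
    have h2 : ((F ∪ T).filter fun ρ => Disjoint ρ π) = F.filter fun ρ => Disjoint ρ π := by
      ext ρ
      simp only [mem_filter, mem_union]
      constructor
      · rintro ⟨h | h, h'⟩
        · exact ⟨h, h'⟩
        · exact absurd h' (hT ρ (mem_insert_of_mem h) π (mem_insert_self _ _))
      · rintro ⟨h, h'⟩
        exact ⟨Or.inl h, h'⟩
    rw [union_insert, IP_insert hz h1, h2, sum_insert hπ,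
      ih (fun ρ hρ => hd ρ (mem_insert_of_mem hρ))
        (fun a ha b hb => hT a (mem_insert_of_mem ha) b (mem_insert_of_mem hb))]
    ring

theorem bind2_single (hz : z 0 = 0) (π : Finset (Fin j)) :
    IP z ({π} : Finset (Finset (Fin j))) = 1 - z π.card := by
  have h := IP_insert (z := z) hz (F := ∅) (π := π) (notMem_empty π)
  rw [filter_empty, IP_empty, mul_one] at h
  exact h

theorem IP_pow (hz : z 0 = 0) (V : Finset (Fin j)) : IP z V.powerset = eta z V.card := by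
  induction V using Finset.strongInduction with
  | H V ih =>
    rcases V.eq_empty_or_nonempty with rfl | ⟨v, hv⟩
    · rw [powerset_empty, bind2_single hz, card_empty, hz, eta_zero, sub_zero]
    · obtain ⟨W, hW, rfl⟩ : ∃ W, v ∉ W ∧ V = insert v W :=
        ⟨V.erase v, notMem_erase v V, (insert_erase hv).symm⟩
      have hss : W ⊂ insert v W := ssubset_insert hW
      have hinj : ∀ a ∈ W.powerset, ∀ b ∈ W.powerset, insert v a = insert v b → a = b := by
        intro a ha b hb e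
        have ha' : v ∉ a := fun h => hW (mem_powerset.1 ha h)
        have hb' : v ∉ b := fun h => hW (mem_powerset.1 hb h)
        rw [← erase_insert ha', e, erase_insert hb']
      have hterm : ∀ ρ ∈ W.powerset, z (insert v ρ).card *
          IP z (W.powerset.filter fun σ => Disjoint σ (insert v ρ)) =
          z (ρ.card + 1) * eta z (W.card - ρ.card) := by
        intro ρ hρ
        have hρ' : v ∉ ρ := fun h => hW (mem_powerset.1 hρ h)
        have e : (W.powerset.filter fun σ => Disjoint σ (insert v ρ)) = (W \ ρ).powerset := by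
          ext σ
          simp only [mem_filter, mem_powerset, disjoint_insert_right, subset_sdiff]
          constructor
          · rintro ⟨h1, -, h3⟩
            exact ⟨h1, h3⟩
          · rintro ⟨h1, h3⟩
            exact ⟨h1, fun h => hW (h1 h), h3⟩
        rw [e, ih _ (Finset.ssubset_of_subset_of_ssubset sdiff_subset hss), card_insert_of_notMem hρ',
          card_sdiff_of_subset (mem_powerset.1 hρ)]
      rw [powerset_insert, bind2_union hz, sum_image hinj, sum_congr rfl hterm, ih W hss,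
        card_insert_of_notMem hW, eta_succ,
        sum_powerset_apply_card (fun k => z (k + 1) * eta z (W.card - k))]
      · refine congrArg _ (sum_congr rfl fun k _ => ?_)
        rw [nsmul_eq_mul, mul_assoc]
      · intro π hπ h
        obtain ⟨ρ, -, rfl⟩ := mem_image.1 hπ
        exact hW (mem_powerset.1 h (mem_insert_self _ _))
      · intro π hπ σ hσ h
        obtain ⟨a, -, rfl⟩ := mem_image.1 hπ
        obtain ⟨b, -, rfl⟩ := mem_image.1 hσ
        exact disjoint_left.1 h (mem_insert_self _ _) (mem_insert_self _ _)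

theorem bind2_card (V : Finset (Fin j)) : V.card ≤ j := by
  have := card_le_univ V
  rwa [Fintype.card_fin] at this

theorem bind2_mono (hz : z 0 = 0) (hz' : ∀ e ≤ j, 0 ≤ z e) {δ : ℝ} (hδ : 0 < δ)
    (h : ∀ i ≤ j, δ ≤ eta z i) (V : Finset (Fin j)) :
    ∀ F F' : Finset (Finset (Fin j)), F ⊆ F' → F' ⊆ V.powerset → IP z F' ≤ IP z F := by
  induction V using Finset.strongInduction with
  | H V ih =>
    have step : ∀ (F : Finset (Finset (Fin j))) (π : Finset (Fin j)), F ⊆ V.powerset → π ⊆ V →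
        IP z (insert π F) ≤ IP z F := by
      intro F π hF hπ
      by_cases hm : π ∈ F
      · rw [insert_eq_of_mem hm]
      rw [IP_insert hz hm]
      rcases π.eq_empty_or_nonempty with rfl | hne
      · rw [card_empty, hz, zero_mul, sub_zero]
      · have h1 : (F.filter fun ρ => Disjoint ρ π) ⊆ (V \ π).powerset := by
          intro ρ hρ
          rw [mem_filter] at hρ
          exact mem_powerset.2 (subset_sdiff.2 ⟨mem_powerset.1 (hF hρ.1), hρ.2⟩)
        have h2 := ih (V \ π) (sdiff_ssubset hπ hne) _ _ h1 subset_rfl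
        rw [IP_pow hz] at h2
        have h3 := h _ (bind2_card (V \ π))
        have h4 := mul_nonneg (hz' _ (bind2_card π)) (hδ.le.trans (h3.trans h2))
        linarith
    have many : ∀ (F T : Finset (Finset (Fin j))), F ⊆ V.powerset → T ⊆ V.powerset →
        IP z (F ∪ T) ≤ IP z F := by
      intro F T hF
      induction T using Finset.induction_on with
      | empty => intro _; rw [union_empty]
      | insert π T _ ihT =>
        intro hT
        have hT' : T ⊆ V.powerset := (subset_insert _ _).trans hT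
        rw [union_insert]
        exact (step _ π (union_subset hF hT') (mem_powerset.1 (hT (mem_insert_self _ _)))).trans
          (ihT hT')
    intro F F' h1 h2
    have := many F F' (h1.trans h2) h2
    rwa [union_eq_right.2 h1] at this

theorem exists_Hf (hz : z 0 = 0) (hz' : ∀ e ≤ j, 0 ≤ z e) {δ : ℝ} (hδ : 0 < δ)
    (h : ∀ i ≤ j, δ ≤ eta z i) : ∃ h : Finset (Finset (Fin j)) → ℝ, Hf z δ h := by
  have mono : ∀ F F' : Finset (Finset (Fin j)), F ⊆ F' → IP z F' ≤ IP z F := fun F F' h1 =>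
    bind2_mono hz hz' hδ h univ F F' h1 (by rw [powerset_univ]; exact subset_univ _)
  have hU : δ ≤ IP z (univ : Finset (Finset (Fin j))) := by
    have := IP_pow (j := j) hz univ
    rw [powerset_univ] at this
    rw [this]
    exact h _ (bind2_card _)
  have hU0 : 0 < IP z (univ : Finset (Finset (Fin j))) := hδ.trans_le hU
  refine ⟨fun F => IP z F / IP z (univ : Finset (Finset (Fin j))), hz', ?_, ?_, ?_, ?_, ?_⟩
  · intro e he
    obtain ⟨π, -, hπ⟩ := exists_subset_card_eq (s := (univ : Finset (Fin j))) (n := e)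
      (by rwa [card_univ, Fintype.card_fin])
    have h1 := mono {π} univ (subset_univ _)
    rw [bind2_single hz, hπ] at h1
    linarith
  · intro F
    rw [le_div_iff₀ hU0, one_mul]
    exact mono F univ (subset_univ _)
  · intro F
    have h1 := mono ∅ F (empty_subset _)
    rw [IP_empty] at h1
    calc IP z F / IP z (univ : Finset (Finset (Fin j)))
        ≤ 1 / IP z (univ : Finset (Finset (Fin j))) := div_le_div_of_nonneg_right h1 hU0.le
      _ ≤ 1 / δ := one_div_le_one_div_of_le hδ hU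
      _ = δ⁻¹ := one_div δ
  · intro F F' h1
    exact div_le_div_of_nonneg_right (mono F F' h1) hU0.le
  · intro F
    show IP z F / _ = 1 + ∑ π ∈ Fᶜ, z π.card * (IP z (nxt F π) / _)
    rw [IP_eq hz F, add_div, div_self hU0.ne', sum_div]
    refine congrArg _ (sum_congr rfl fun π _ => ?_)
    rw [mul_div_assoc]

end Pool.Agent.P.MP_3acc10_al.Bld
end

-- part Pool.Agent.P.MP_3acc10_al.BAr1
section

set_option autoImplicit false

namespace Pool.Agent.P.MP_3acc10_al.Bld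

open Finset Module Matrix

variable {n j : ℕ} {ι : Type} [Fintype ι] [DecidableEq ι]

open PowerSeries in
lemma bar1_one {e : ℕ} (he : 0 < e) :
    d⁄dX ℤ (1 - X ^ e : ℤ⟦X⟧) =
      -(PowerSeries.mk fun k => if e ∣ k + 1 then (e : ℤ) else 0) * (1 - X ^ e) := by
  ext k
  rw [coeff_derivative, neg_mul, mul_sub, mul_one, map_neg, map_sub, map_sub, coeff_mul_X_pow',
    coeff_mk, coeff_mk, coeff_one, coeff_X_pow, if_neg (Nat.succ_ne_zero k)]
  by_cases h : e ≤ k
  · have h1 : e ∣ k - e + 1 ↔ e ∣ k + 1 := by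
      rw [show k + 1 = (k - e + 1) + e by omega]
      exact (Nat.dvd_add_self_right).symm
    rw [if_pos h, if_neg (show ¬ k + 1 = e by omega)]
    simp only [h1]
    ring
  · rw [if_neg h]
    by_cases h2 : k + 1 = e
    · rw [if_pos h2, if_pos (h2 ▸ dvd_rfl), ← h2]; push_cast; ring
    · rw [if_neg h2, if_neg (fun h3 => h2 (by have := Nat.le_of_dvd (Nat.succ_pos k) h3; omega))]
      ring

open PowerSeries in
lemma bar1_base (n : ℕ) :
    d⁄dX ℤ ((1 + X) ^ n : ℤ⟦X⟧) =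
      (PowerSeries.mk fun k => (-1) ^ (k + 1 + 1) * (n : ℤ)) * (1 + X) ^ n := by
  have h1 : (PowerSeries.mk fun k => (-1) ^ (k + 1 + 1) * (n : ℤ)) * (1 + X) = (n : ℤ⟦X⟧) := by
    ext k
    rw [mul_add, mul_one, map_add, coeff_mk]
    rcases k with _ | k
    · simp
    · rw [coeff_succ_mul_X, coeff_mk, ← map_natCast (C (R := ℤ)), coeff_C, if_neg (Nat.succ_ne_zero k)]
      ring
  rcases n with _ | n
  · have h2 : (PowerSeries.mk fun k => (-1) ^ (k + 1 + 1) * ((0 : ℕ) : ℤ)) = 0 := by ext k; simp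
    rw [h2]; simp
  · rw [derivative_pow, map_add, derivative_one, derivative_X, zero_add, mul_one, pow_succ',
      ← mul_assoc, h1, Nat.add_sub_cancel]

open PowerSeries in
omit [Fintype ι] in
lemma bar1_main (n : ℕ) (d : ι → ℕ) (A : Finset ι) (hd : ∀ l ∈ A, 0 < d l) :
    d⁄dX ℤ ((1 + X) ^ n * ∏ l ∈ A, (1 - X ^ d l) : ℤ⟦X⟧) =
      (PowerSeries.mk fun k => bet n d A (k + 1)) * ((1 + X) ^ n * ∏ l ∈ A, (1 - X ^ d l)) := by
  induction A using Finset.induction_on with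
  | empty => simpa [bet] using bar1_base n
  | insert l A hl ih =>
    have e : (PowerSeries.mk fun k => bet n d (insert l A) (k + 1)) =
        (PowerSeries.mk fun k => bet n d A (k + 1)) -
          PowerSeries.mk fun k => if d l ∣ k + 1 then (d l : ℤ) else 0 := by
      ext k
      simp only [map_sub, coeff_mk, bet, sum_filter, sum_insert hl]
      ring
    rw [prod_insert hl, mul_left_comm, Derivation.leibniz, ih fun a ha => hd a (mem_insert_of_mem ha),
      bar1_one (hd l (mem_insert_self _ _)), e, smul_eq_mul, smul_eq_mul]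
    ring

omit [Fintype ι] in
theorem al_rec (n : ℕ) (d : ι → ℕ) (A : Finset ι) (hd : ∀ l ∈ A, 0 < d l) (i : ℕ) :
    ((i : ℤ) + 1) * al n d A (i + 1) =
      ∑ k ∈ range (i + 1), bet n d A (k + 1) * al n d A (i - k) := by
  have hc : ∀ m, PowerSeries.coeff m ((1 + PowerSeries.X) ^ n *
      ∏ l ∈ A, (1 - PowerSeries.X ^ d l) : PowerSeries ℤ) = al n d A m := fun m => by
    rw [al, ← Polynomial.coeff_coe, ← Polynomial.coeToPowerSeries.ringHom_apply]
    simp only [map_mul, map_pow, map_add, map_one, map_prod, map_sub,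
      Polynomial.coeToPowerSeries.ringHom_apply, Polynomial.coe_X]
  have h := congrArg (PowerSeries.coeff i) (bar1_main n d A hd)
  rw [PowerSeries.coeff_derivative, hc, PowerSeries.coeff_mul,
    Finset.Nat.sum_antidiagonal_eq_sum_range_succ_mk] at h
  simp only [PowerSeries.coeff_mk, hc] at h
  rw [← h, mul_comm]

end Pool.Agent.P.MP_3acc10_al.Bld
end

-- part Pool.Agent.P.MP_3acc10_al.BAr2
section

set_option autoImplicit false

namespace Pool.Agent.P.MP_3acc10_al.Bld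

open Finset Module Matrix

lemma bar2_div {i : ℕ} {x M : ℝ} {f : ℕ → ℝ} (h : ((i : ℝ) + 1) * x = ∑ k ∈ range (i + 1), f k)
    (hf : ∀ k ∈ range (i + 1), |f k| ≤ M) : |x| ≤ M := by
  have hp : (0 : ℝ) < (i : ℝ) + 1 := by positivity
  have h1 : |((i : ℝ) + 1) * x| ≤ ((i : ℝ) + 1) * M := by
    rw [h]
    refine (abs_sum_le_sum_abs _ _).trans ((sum_le_sum hf).trans ?_)
    simp
  rw [abs_mul, abs_of_pos hp] at h1
  exact le_of_mul_le_mul_left h1 hp

theorem rec_pert (j : ℕ) (C : ℝ) : ∃ C' : ℝ, 0 ≤ C' ∧ ∀ (a b β γ : ℕ → ℝ) (s : ℝ),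
    0 ≤ s → a 0 = 1 → b 0 = 1 →
    (∀ i < j, ((i : ℝ) + 1) * a (i + 1) = ∑ k ∈ range (i + 1), β (k + 1) * a (i - k)) →
    (∀ i < j, ((i : ℝ) + 1) * b (i + 1) = ∑ k ∈ range (i + 1), γ (k + 1) * b (i - k)) →
    (∀ k < j, |β (k + 1)| ≤ C ∧ |γ (k + 1)| ≤ C ∧ |β (k + 1) - γ (k + 1)| ≤ s) →
    ∀ i ≤ j, |a i - b i| ≤ C' * s := by
  have hD : (1 : ℝ) ≤ |C| + 1 := by have := abs_nonneg C; linarith
  have hCD : C ≤ |C| + 1 := by have := le_abs_self C; linarith
  generalize |C| + 1 = D at hD hCD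
  have hD0 : 0 ≤ D := by linarith
  refine ⟨j * D ^ j, by positivity, ?_⟩
  intro a b β γ s hs ha0 hb0 ha hb hc
  have key : ∀ i, i ≤ j → |b i| ≤ D ^ i ∧ |a i - b i| ≤ i * D ^ i * s := by
    intro i
    induction i using Nat.strong_induction_on with
    | _ i ih =>
      intro hij
      rcases i with _ | i
      · simp [ha0, hb0]
      · have hi : i < j := hij
        have hb' : ∀ k ∈ range (i + 1), |b (i - k)| ≤ D ^ i := fun k _ =>
          (ih (i - k) (by omega) (by omega)).1.trans (pow_le_pow_right₀ hD (Nat.sub_le _ _))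
        have hab : ∀ k ∈ range (i + 1), |a (i - k) - b (i - k)| ≤ i * D ^ i * s := by
          intro k _
          refine (ih (i - k) (by omega) (by omega)).2.trans ?_
          have h1 : ((i - k : ℕ) : ℝ) ≤ i := by exact_mod_cast Nat.sub_le _ _
          have h2 : D ^ (i - k) ≤ D ^ i := pow_le_pow_right₀ hD (Nat.sub_le _ _)
          gcongr
        constructor
        · refine bar2_div (hb i hi) fun k hk => ?_
          have hk' : k < j := by have := mem_range.1 hk; omega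
          rw [abs_mul, pow_succ']
          exact mul_le_mul ((hc k hk').2.1.trans hCD) (hb' k hk) (abs_nonneg _) hD0
        · have e : ((i : ℝ) + 1) * (a (i + 1) - b (i + 1)) = ∑ k ∈ range (i + 1),
              (β (k + 1) * (a (i - k) - b (i - k)) + (β (k + 1) - γ (k + 1)) * b (i - k)) := by
            rw [mul_sub, ha i hi, hb i hi, ← sum_sub_distrib]
            exact sum_congr rfl fun k _ => by ring
          refine bar2_div e fun k hk => ?_
          have hk' : k < j := by have := mem_range.1 hk; omega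
          have h1 : |β (k + 1) * (a (i - k) - b (i - k))| ≤ D * (i * D ^ i * s) := by
            rw [abs_mul]
            exact mul_le_mul ((hc k hk').1.trans hCD) (hab k hk) (abs_nonneg _) hD0
          have h2 : |(β (k + 1) - γ (k + 1)) * b (i - k)| ≤ s * D ^ (i + 1) := by
            rw [abs_mul]
            exact mul_le_mul (hc k hk').2.2
              ((hb' k hk).trans (pow_le_pow_right₀ hD (Nat.le_succ _))) (abs_nonneg _) hs
          refine (abs_add_le _ _).trans ((add_le_add h1 h2).trans (le_of_eq ?_))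
          push_cast
          ring
  intro i hi
  refine (key i hi).2.trans ?_
  have h1 : (i : ℝ) ≤ j := by exact_mod_cast hi
  have h2 : D ^ i ≤ D ^ j := pow_le_pow_right₀ hD hi
  gcongr

theorem eta_rec (z : ℕ → ℝ) (i : ℕ) : ((i : ℝ) + 1) * (eta z (i + 1) / (i + 1).factorial) =
    ∑ k ∈ range (i + 1), ((if k = 0 then 1 else 0) - z (k + 1) / k.factorial) *
      (eta z (i - k) / (i - k).factorial) := by
  have hi : ((i.factorial : ℕ) : ℝ) ≠ 0 := by positivity
  have h1 : ((i : ℝ) + 1) * (eta z (i + 1) / (i + 1).factorial) = eta z (i + 1) / i.factorial := by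
    rw [Nat.factorial_succ]
    push_cast
    field_simp
  have h2 : ∑ k ∈ range (i + 1), (if k = 0 then (1 : ℝ) else 0) *
      (eta z (i - k) / (i - k).factorial) = eta z i / i.factorial := by
    rw [sum_eq_single 0]
    · simp
    · intro k _ hk
      simp [hk]
    · simp
  rw [h1, eta_succ, sub_div, sum_div, ← h2, ← sum_sub_distrib]
  refine sum_congr rfl fun k hk => ?_
  have hk' : k ≤ i := Nat.lt_succ_iff.1 (mem_range.1 hk)
  have h3 : ((i.choose k : ℕ) : ℝ) * k.factorial * (i - k).factorial = i.factorial := by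
    exact_mod_cast Nat.choose_mul_factorial_mul_factorial hk'
  have h4 : ((k.factorial : ℕ) : ℝ) ≠ 0 := by positivity
  have h5 : (((i - k).factorial : ℕ) : ℝ) ≠ 0 := by positivity
  have h6 : ((i.choose k : ℕ) : ℝ) ≠ 0 := by
    have := Nat.choose_pos hk'
    positivity
  rw [sub_mul, ← h3]
  congr 1
  field_simp

end Pool.Agent.P.MP_3acc10_al.Bld
end
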